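import Pool.Agent.MF.Roles
import Pool.Agent.MFLB.GG

/-!
# MF.Close : the frozen negation S07300 from `StmtEM` and the end game
-/

open Set Filter

set_option linter.unusedSectionVars false

namespace MFLB

open Pool.Agent.MF (Mat StmtEM StmtEnd upper_of)

/-- the end game for the concrete role spaces with `m` near variables and level `J` -/
def StmtEndRoles (m J : ℕ) : Prop :=
  ∀ (k G : Type) [CommRing k] [IsDomain k] [CharP k 2] [Group G] [LinearOrder G]
    [MulSemiringAction G k] (hG : LeftInv G) (F : ℕ → Finset G) (hF : Folner F)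
    (θ θi ζ : k) (g t : G), θ * θi = 1 → ζ ^ 2 + ζ + 1 = 0 → (∀ h : G, h • ζ = ζ) →
    g • θ = ζ * θ → (t • θ) ^ 3 = θ → ∀ (s : ℕ)
    [Fintype (roleSpace θ θi ζ g t m s J)] [DecidableEq (roleSpace θ θi ζ g t m s J)],
    StmtEnd (matN hG F hF (roleSpace θ θi ζ g t m s J) (near_roles θ θi ζ g t J)).near

theorem close (m J : ℕ) (hm : 10 ≤ m) (hJ : 1 ≤ J) (hEM : StmtEM) (hEnd : StmtEndRoles m J) :
    ¬ (∀ (k : ℕ) (L : Finset ℕ), L.Nonempty → L ⊆ Finset.range k →
      ∃ α : ℝ, 1 ≤ α ∧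
        Asymptotics.IsTheta Filter.atTop
          (fun n : ℕ => ((sSup {s : ℕ | ∃ F : Finset (Finset (Fin n)), F.card = s ∧
              (∀ A ∈ F, A.card = k) ∧
              ∀ A ∈ F, ∀ B ∈ F, A ≠ B → (A ∩ B).card ∈ L} : ℕ) : ℝ))
          (fun n : ℕ => (n : ℝ) ^ α)) := by
  obtain ⟨G, iG, iO, k, iK, iA, hdom, hchar, hG, ⟨F, hF⟩, hSp, θ, θi, ζ, g, t, h1, h2, h3, h4, h5⟩ :=
    exists_labels
  obtain ⟨s, hs⟩ := upper_of hEM
  have hN := near_roles (m := m) (s := s) θ θi ζ g t J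
  have iF : Fintype (roleSpace θ θi ζ g t m s J) := hN.fin.fintype
  have iD : DecidableEq (roleSpace θ θi ζ g t m s J) := Classical.decEq _
  have hi0 : 0 < m := by omega
  have hi1 : 1 < m := by omega
  have hkill := killAlg_roles (m := m) (s := s) hG F hF θ θi ζ g t J hJ hm ⟨0, hi0⟩ ⟨1, hi1⟩
    (by
      intro h
      have := congrArg Fin.val h
      simp at this)
  have hU := hs (roleSpace θ θi ζ g t m s J) s le_rfl
    (matN hG F hF (roleSpace θ θi ζ g t m s J) hN)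
    (rank_near hG F hF (roleSpace θ θi ζ g t m s J) hN) _ _ _ _ _ _ hkill
    (hEnd k G hG F hF θ θi ζ g t h1 h2 h3 h4 h5 s)
  have hx := roles_hx (roleSpace θ θi ζ g t m s J) (xx_mem_roles θ θi ζ g t J)
  have hL := stmtLower_matOf hG F hF (iotaN (roleSpace θ θi ζ g t m s J)) (iotaN_nc hN)
    (two_near (roleSpace θ θi ζ g t m s J)) hx hSp
  have hr := matOf_r hG F hF (iotaN (roleSpace θ θi ζ g t m s J)) (iotaN_nc hN)
    (two_near (roleSpace θ θi ζ g t m s J)) hx
  refine Pool.Agent.MF.Fin.frozen (matN hG F hF (roleSpace θ θi ζ g t m s J) hN) ?_ hL hU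
  show 1 ≤ (matOf hG F hF (iotaN (roleSpace θ θi ζ g t m s J)) (iotaN_nc hN)
    (two_near (roleSpace θ θi ζ g t m s J))).r
  rw [hr]
  omega

end MFLB
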