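import Mathlib
import Pool.Agent.helper35.MF.Conn

set_option autoImplicit false

/-!
# MP_141f81: the frame (definitions shared by all sections)

Roles form a finite space `V` over the field with two elements, with a matroid (`Mat V`) in which `0` is the only loop
and `u + v ∈ cl {u, v}`.  Rows are functions `V → Fin n`.  A letter is a pair (role, symbol); `G V n` is the exact group
of words.
-/

namespace Pool.Agent.MF

open Finset
open Pool.Agent.helper35.MF (Ball)

/-- a matroid of roles -/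
structure Mat (V : Type) [AddCommGroup V] [Fintype V] [DecidableEq V] where
  two : ∀ v : V, v + v = 0
  rk : Finset V → ℕ
  rk_empty : rk ∅ = 0
  rk_insert_le : ∀ (v : V) (A : Finset V), rk (insert v A) ≤ rk A + 1
  rk_mono : ∀ {A B : Finset V}, A ⊆ B → rk A ≤ rk B
  rk_submod : ∀ A B : Finset V, rk (A ∪ B) + rk (A ∩ B) ≤ rk A + rk B
  rk_zero : rk {0} = 0
  rk_single : ∀ v : V, v ≠ 0 → rk {v} = 1
  rk_add : ∀ u v : V, rk {u, v, u + v} = rk {u, v}

section

variable {V : Type} [AddCommGroup V] [Fintype V] [DecidableEq V]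

/-- `v` is in the closure of `S` -/
def Mat.InCl (M : Mat V) (S : Finset V) (v : V) : Prop := M.rk (insert v S) = M.rk S

/-- the rank of the whole space -/
def Mat.r (M : Mat V) : ℕ := M.rk Finset.univ

/-- `u`, `v` are independent over the type `τ` -/
def Mat.Ind (M : Mat V) (τ : Finset V) (u v : V) : Prop := M.rk (insert u (insert v τ)) = M.rk τ + 2

/-- all functional dependencies of the matroid hold exactly -/
def Exact (M : Mat V) {n : ℕ} (R : Finset (V → Fin n)) : Prop :=
  ∀ (S : Finset V) (v : V), M.InCl S v → ∀ ρ ∈ R, ∀ σ ∈ R, (∀ u ∈ S, ρ u = σ u) → ρ v = σ v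

/-- two rows agree on the type `τ` -/
def Agree {n : ℕ} (τ : Finset V) (ρ σ : V → Fin n) : Prop := ∀ v ∈ τ, ρ v = σ v

instance {n : ℕ} (τ : Finset V) (ρ σ : V → Fin n) : Decidable (Agree τ ρ σ) := by
  unfold Agree; infer_instance

/-- the sub-structure: rows of `R` agreeing with `η` on `τ` -/
def sub {n : ℕ} (R : Finset (V → Fin n)) (τ : Finset V) (η : V → Fin n) : Finset (V → Fin n) :=
  R.filter (fun ρ => Agree τ η ρ)

/-- the exact group of words in the letters (role, symbol) -/
abbrev G (V : Type) (n : ℕ) : Type := (V × Fin n) →₀ ZMod 2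

/-- the letter (role `v`, symbol `x`) -/
noncomputable def lt {n : ℕ} (v : V) (x : Fin n) : G V n := Finsupp.single (v, x) 1

/-- the line of roles `u`, `v`, `u + v` of the row `ρ` -/
noncomputable def lin {n : ℕ} (ρ : V → Fin n) (u v : V) : G V n := lt u (ρ u) + lt v (ρ v) + lt (u + v) (ρ (u + v))

/-- the lines of the rows `R` with roles in `L` which are independent over `τ` -/
def Lines (M : Mat V) (τ L : Finset V) {n : ℕ} (R : Finset (V → Fin n)) : Set (G V n) :=
  {g | ∃ ρ ∈ R, ∃ u ∈ L, ∃ v ∈ L, u + v ∈ L ∧ M.Ind τ u v ∧ g = lin ρ u v}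

/-- at most `C` letters of any given role are in the `b`-ball of a given letter -/
def Cons {n : ℕ} (T : Set (G V n)) (b C : ℕ) : Prop :=
  ∀ (v : V) (x : Fin n) (A : Finset (Fin n)), (∀ y ∈ A, lt v x + lt v y ∈ Ball T b) → A.card ≤ C

/-- **Joint cleaning (JC).** -/
def JCOut (M : Mat V) (TT : Finset (Finset V)) {n : ℕ} (κ : ℝ) (R S : Finset (V → Fin n)) : Prop :=
  S ⊆ R ∧ κ * (n : ℝ) ^ M.r ≤ (S.card : ℝ) ∧ ∀ τ ∈ TT, ∀ η ∈ S,
    κ * (n : ℝ) ^ (M.r - M.rk τ) ≤ ((sub S τ η).card : ℝ) ∧
    ∀ a b : V, M.Ind τ a b → ∀ η₁ ∈ sub S τ η, ∀ η₂ ∈ sub S τ η,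
      κ * (n : ℝ) ^ 3 ≤ (((univ : Finset (Fin n × Fin n × Fin n)).filter (fun t =>
        (∃ ρ ∈ sub R τ η, ρ a = η₁ a ∧ ρ b = t.1) ∧ (∃ ρ ∈ sub R τ η, ρ a = t.2.1 ∧ ρ b = t.1) ∧
        (∃ ρ ∈ sub R τ η, ρ a = t.2.1 ∧ ρ b = t.2.2) ∧
        (∃ ρ ∈ sub R τ η, ρ a = η₂ a ∧ ρ b = t.2.2))).card : ℝ)

end

/-- the matroid on the near part `N` of `N × W` -/
def Mat.near {N W : Type} [AddCommGroup N] [Fintype N] [DecidableEq N] [AddCommGroup W] [Fintype W] [DecidableEq W]
    (M : Mat (N × W)) : Mat N where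
  two v := by
    have h := congrArg Prod.fst (M.two (v, 0))
    simpa using h
  rk S := M.rk (S.image (fun v => ((v, 0) : N × W)))
  rk_empty := by simpa using M.rk_empty
  rk_insert_le v A := by
    rw [Finset.image_insert]
    exact M.rk_insert_le _ _
  rk_mono h := M.rk_mono (Finset.image_subset_image h)
  rk_submod A B := by
    rw [Finset.image_union, Finset.image_inter A B (fun x y h => (Prod.ext_iff.1 h).1)]
    exact M.rk_submod _ _
  rk_zero := by
    rw [Finset.image_singleton]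
    exact M.rk_zero
  rk_single v hv := by
    rw [Finset.image_singleton]
    exact M.rk_single _ (fun h => hv (Prod.ext_iff.1 h).1)
  rk_add u v := by
    simp only [Finset.image_insert, Finset.image_singleton]
    have h := M.rk_add (u, 0) (v, 0)
    simpa using h

end Pool.Agent.MF
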