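import Mathlib
import Pool.Agent.MF.Frame

set_option autoImplicit false

/-!
# MP_141f81: the frame, part 2 (hand-over statements as predicates)
-/

namespace Pool.Agent.MF

open Finset
open Pool.Agent.helper35.MF (Ball)

section

variable {N : Type} [AddCommGroup N] [Fintype N] [DecidableEq N]

/-- the linear part: `Lin` is a space of linear forms in at least ten variables; in the matroid its subspaces have rank
equal to their dimension, hence a flat of rank `d` contains at most `2 ^ d` of its elements -/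
structure LinPart (M : Mat N) (Lin : Finset N) : Prop where
  zero : (0 : N) ∈ Lin
  add : ∀ u ∈ Lin, ∀ v ∈ Lin, u + v ∈ Lin
  card : 2 ^ 10 ≤ Lin.card
  small : ∀ S A : Finset N, (∀ v ∈ A, v ∈ Lin ∧ M.InCl S v) → A.card ≤ 2 ^ M.rk S

/-- the roles used for `K*` bounded: `a`, `b` two linear forms, `A v = a v`, `B v = b v`, `sq v = v ^ 2` for `v` in the
linear part -/
structure KillAlg (M : Mat N) (Lin : Finset N) (a b : N) (A B sq : N → N) : Prop where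
  lin : LinPart M Lin
  a_mem : a ∈ Lin
  b_mem : b ∈ Lin
  ind : M.rk {a, b} = 2
  A_add : ∀ u ∈ Lin, ∀ v ∈ Lin, A (u + v) = A u + A v
  B_add : ∀ u ∈ Lin, ∀ v ∈ Lin, B (u + v) = B u + B v
  sq_add : ∀ u ∈ Lin, ∀ v ∈ Lin, sq (u + v) = sq u + sq v
  A_cl : ∀ v ∈ Lin, M.InCl {a, v} (A v)
  A_cl' : ∀ v ∈ Lin, M.InCl {a, A v} v
  B_cl : ∀ v ∈ Lin, M.InCl {b, v} (B v)
  B_cl' : ∀ v ∈ Lin, M.InCl {b, B v} v
  C_cl : ∀ v ∈ Lin, M.InCl {a + b, v} (A v + B v)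
  C_cl' : ∀ v ∈ Lin, M.InCl {a + b, A v + B v} v
  sq_cl : ∀ v ∈ Lin, M.InCl {v} (sq v)
  sq_cl' : ∀ v ∈ Lin, M.InCl {sq v} v
  symm : A b = B a
  Aa : A a = sq a
  Bb : B b = sq b

/-- the output of Sections 4 - 8: `R` near rows, exact, additive in the finite space `U` through `π`; `S` the jointly
cleaned rows (for all types) -/
structure EMOut (M : Mat N) (n T : ℕ) (R S : Finset (N → Fin n)) (U : Type) [AddCommGroup U] [Fintype U]
    [DecidableEq U] (π : N → Fin n → U) : Prop where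
  two : ∀ u : U, u + u = 0
  cardU : Fintype.card U ≤ T * n
  fib : ∀ (v : N) (w : U), v ≠ 0 →
    (Finset.univ.filter (fun y : Fin n => (∃ ρ ∈ R, ρ v = y) ∧ π v y = w)).card ≤ T
  zero : ∀ x : Fin n, π 0 x = 0
  add : ∀ ρ ∈ R, ∀ u v : N, π (u + v) (ρ (u + v)) = π u (ρ u) + π v (ρ v)
  exact : Exact M R
  jc : ∃ κ : ℝ, 1 ≤ κ * T ∧ JCOut M Finset.univ κ R S

end

/-! ### the statements (each is one module) -/

/-- Section 4 + 5 (helper62, helper47, helper43): consistency at an absolute scale `b0`; `s` far variables. -/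
def Stmt45 : Prop := ∀ b0 : ℕ, ∃ s0 : ℕ, ∀ (N : Type) [AddCommGroup N] [Fintype N] [DecidableEq N] (s : ℕ), s0 ≤ s →
  ∀ (M : Mat (N × (Fin s → ZMod 2))), M.r = M.near.r + s → ∀ c : ℝ, 0 < c →
  ∃ (d : ℝ) (C0 : ℕ), 0 < d ∧ ∀ n : ℕ, 0 < n → ∀ R : Finset (N × (Fin s → ZMod 2) → Fin n), Exact M R →
    c * (n : ℝ) ^ M.r ≤ (R.card : ℝ) →
    ∃ S : Finset (N → Fin n), (∀ ρ ∈ S, ∃ σ ∈ R, ∀ v : N, ρ v = σ (v, 0)) ∧ Exact M.near S ∧
      d * (n : ℝ) ^ M.near.r ≤ (S.card : ℝ) ∧ Cons (Lines M.near ∅ Finset.univ S) b0 C0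

/-- Joint cleaning (helper62, helper24). -/
def StmtJC : Prop := ∀ (N : Type) [AddCommGroup N] [Fintype N] [DecidableEq N] (M : Mat N) (TT : Finset (Finset N))
  (c : ℝ), 0 < c → ∃ κ : ℝ, 0 < κ ∧ ∀ n : ℕ, 0 < n → ∀ R : Finset (N → Fin n), Exact M R →
    c * (n : ℝ) ^ M.r ≤ (R.card : ℝ) → ∃ S : Finset (N → Fin n), JCOut M TT κ R S

/-- EM = Sections 6, 7, 8 on top of `Stmt45` (helper58, 5, 71, 42, 16, 53, 57). -/
def StmtEM : Prop := ∃ s0 : ℕ, ∀ (N : Type) [AddCommGroup N] [Fintype N] [DecidableEq N] (s : ℕ), s0 ≤ s →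
  ∀ (M : Mat (N × (Fin s → ZMod 2))), M.r = M.near.r + s →
  ∀ (Lin : Finset N) (a b : N) (A B sq : N → N), KillAlg M.near Lin a b A B sq → ∀ c : ℝ, 0 < c →
  ∃ T : ℕ, ∀ n : ℕ, 0 < n → ∀ R : Finset (N × (Fin s → ZMod 2) → Fin n), Exact M R →
    c * (n : ℝ) ^ M.r ≤ (R.card : ℝ) →
    ∃ (R' S : Finset (N → Fin n)) (U : Type) (_ : AddCommGroup U) (_ : Fintype U) (_ : DecidableEq U)
      (π : N → Fin n → U), EMOut M.near n T R' S U π

/-- The end game for one matroid `M` on `N` (helper31, 64, 78): `n` is bounded. -/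
def StmtEnd {N : Type} [AddCommGroup N] [Fintype N] [DecidableEq N] (M : Mat N) : Prop :=
  ∀ T : ℕ, ∃ n0 : ℕ, ∀ (n : ℕ) (R S : Finset (N → Fin n)) (U : Type) (_ : AddCommGroup U) (_ : Fintype U)
    (_ : DecidableEq U) (π : N → Fin n → U), EMOut M n T R S U π → n ≤ n0

/-- Lemma SUB (for Section 9): tuples of role maps of one sub-structure generate a subgroup of `U ^ k` of size
`≤ K n`.  `L` is closed under addition, `α i` is additive on `L`, `α i v ∈ cl (τ ∪ {v})`. -/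
def StmtSub : Prop := ∀ (N : Type) [AddCommGroup N] [Fintype N] [DecidableEq N] (M : Mat N) (Lin : Finset N),
  LinPart M Lin → ∀ (T k : ℕ), ∃ K : ℕ, ∀ (n : ℕ) (R S : Finset (N → Fin n)) (U : Type) (_ : AddCommGroup U)
    (_ : Fintype U) (_ : DecidableEq U) (π : N → Fin n → U), EMOut M n T R S U π →
    ∀ (τ L : Finset N) (α : Fin k → N → N), M.rk τ ≤ 2 → Lin ⊆ L → (∀ u ∈ L, ∀ v ∈ L, u + v ∈ L) →
      (∀ i, ∀ u ∈ L, ∀ v ∈ L, α i (u + v) = α i u + α i v) → (∀ i, ∀ v ∈ L, M.InCl (insert v τ) (α i v)) →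
      ∀ η ∈ S, ∀ H : AddSubgroup (Fin k → U),
        H = AddSubgroup.closure {w | ∃ ρ ∈ sub S τ η, ∃ v ∈ L, ¬ M.InCl τ v ∧
          w = fun i => π (α i v) (ρ (α i v))} →
        Nat.card H ≤ K * n

/-- The upper bound for one matroid. -/
def StmtUpper {V : Type} [AddCommGroup V] [Fintype V] [DecidableEq V] (M : Mat V) : Prop :=
  ∀ c : ℝ, 0 < c → ∃ n0 : ℕ, ∀ n : ℕ, n0 ≤ n → ∀ R : Finset (V → Fin n), Exact M R →
    (R.card : ℝ) < c * (n : ℝ) ^ M.r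

/-- EM and the end game give the upper bound. -/
theorem upper_of (hEM : StmtEM) : ∃ s0 : ℕ, ∀ (N : Type) [AddCommGroup N] [Fintype N] [DecidableEq N] (s : ℕ),
    s0 ≤ s → ∀ (M : Mat (N × (Fin s → ZMod 2))), M.r = M.near.r + s →
    ∀ (Lin : Finset N) (a b : N) (A B sq : N → N), KillAlg M.near Lin a b A B sq → StmtEnd M.near →
    StmtUpper M := by
  obtain ⟨s0, h⟩ := hEM
  refine ⟨s0, ?_⟩
  intro N _ _ _ s hs M hr Lin a b A B sq hK hE c hc
  obtain ⟨T, hT⟩ := h N s hs M hr Lin a b A B sq hK c hc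
  obtain ⟨n0, hn0⟩ := hE T
  refine ⟨n0 + 1, ?_⟩
  intro n hn R hR
  by_contra hcon
  rw [not_lt] at hcon
  obtain ⟨R', S, U, i1, i2, i3, π, hout⟩ := hT n (by omega) R hR hcon
  have := hn0 n R' S U i1 i2 i3 π hout
  omega

end Pool.Agent.MF
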