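import Mathlib
import Pool.Agent.MF.Frame2
import Pool.Agent.helper36.MFD.Dom
import Pool.Agent.helper24.S12.Asm

set_option autoImplicit false

/-!
# MP_141f81: final assembly (domination, lower bound, upper bound)
-/

namespace Pool.Agent.MF.Fin

open Finset Filter
open Pool.Agent.helper36.MFD (RankSys)
open Pool.Agent.MF

section

variable {V : Type} [AddCommGroup V] [Fintype V] [DecidableEq V] (M : Mat V)

theorem inCl_mono {S S' : Finset V} (h : S ⊆ S') {v : V} (hv : M.InCl S v) : M.InCl S' v := by
  unfold Mat.InCl at *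
  have h1 := M.rk_submod (insert v S) S'
  have h2 : insert v S ∪ S' = insert v S' := by
    ext x
    simp only [mem_union, mem_insert]
    constructor
    · rintro ((h' | h') | h')
      · exact Or.inl h'
      · exact Or.inr (h h')
      · exact Or.inr h'
    · rintro (h' | h')
      · exact Or.inl (Or.inl h')
      · exact Or.inr h'
  have h3 : M.rk S ≤ M.rk (insert v S ∩ S') := M.rk_mono (subset_inter (subset_insert _ _) h)
  have h4 : M.rk S' ≤ M.rk (insert v S') := M.rk_mono (subset_insert _ _)
  rw [h2] at h1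
  omega

theorem inCl_mem {S : Finset V} {v : V} (hv : v ∈ S) : M.InCl S v := by
  unfold Mat.InCl
  rw [insert_eq_of_mem hv]

theorem rk_union {A : Finset V} (B : Finset V) (h : ∀ v ∈ B, M.InCl A v) : M.rk (A ∪ B) = M.rk A := by
  induction B using Finset.induction_on with
  | empty => rw [union_empty]
  | insert v B _ ih =>
    have h1 := ih (fun w hw => h w (mem_insert_of_mem hw))
    have h2 : A ∪ insert v B = insert v (A ∪ B) := by rw [union_insert]
    have h3 : M.InCl (A ∪ B) v := inCl_mono M subset_union_left (h v (mem_insert_self _ _))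
    rw [h2, h3, h1]

theorem inCl_trans {A B : Finset V} (h : ∀ v ∈ B, M.InCl A v) {w : V} (hw : M.InCl B w) : M.InCl A w := by
  have h1 := rk_union M B h
  have h2 : M.InCl (A ∪ B) w := inCl_mono M subset_union_right hw
  have h3 : M.rk (insert w A) ≤ M.rk (insert w (A ∪ B)) := M.rk_mono (insert_subset_insert _ subset_union_left)
  have h4 : M.rk A ≤ M.rk (insert w A) := M.rk_mono (subset_insert _ _)
  unfold Mat.InCl at *
  omega

theorem inCl_add {A : Finset V} {u v : V} (hu : M.InCl A u) (hv : M.InCl A v) : M.InCl A (u + v) := by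
  refine inCl_trans M (B := {u, v}) ?_ ?_
  · intro w hw
    rw [mem_insert, mem_singleton] at hw
    rcases hw with rfl | rfl
    · exact hu
    · exact hv
  · unfold Mat.InCl
    have h := M.rk_add u v
    have h2 : insert (u + v) ({u, v} : Finset V) = {u, v, u + v} := by
      ext x
      simp only [mem_insert, mem_singleton]
      tauto
    rw [h2, h]

theorem rk_insert_of_not {A : Finset V} {v : V} (h : ¬ M.InCl A v) : M.rk (insert v A) = M.rk A + 1 := by
  have h1 := M.rk_insert_le v A
  have h2 : M.rk A ≤ M.rk (insert v A) := M.rk_mono (subset_insert _ _)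
  unfold Mat.InCl at h
  omega

theorem exchange {A : Finset V} {x y : V} (h : M.InCl (insert x A) y) (hn : ¬ M.InCl A y) :
    M.InCl (insert y A) x := by
  have h1 := rk_insert_of_not M hn
  have h2 := M.rk_insert_le x A
  unfold Mat.InCl at *
  have h3 : insert x (insert y A) = insert y (insert x A) := Finset.insert_comm _ _ _
  have h4 : M.rk (insert y A) ≤ M.rk (insert x (insert y A)) := M.rk_mono (subset_insert _ _)
  rw [h3] at h4 ⊢
  omega

theorem inCl_all {A : Finset V} (h : M.rk A = M.r) (v : V) : M.InCl A v := by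
  unfold Mat.InCl
  have h1 : M.rk (insert v A) ≤ M.r := M.rk_mono (subset_univ _)
  have h2 : M.rk A ≤ M.rk (insert v A) := M.rk_mono (subset_insert _ _)
  omega

theorem rk_le_card (A : Finset V) : M.rk A ≤ A.card := by
  induction A using Finset.induction_on with
  | empty => rw [M.rk_empty]; exact Nat.zero_le _
  | insert v A hv ih =>
    rw [card_insert_of_notMem hv]
    exact (M.rk_insert_le v A).trans (by omega)

theorem exists_indep (k : ℕ) (hk : k ≤ M.r) : ∃ B : Finset V, B.card = k ∧ M.rk B = k := by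
  induction k with
  | zero => exact ⟨∅, by simp, M.rk_empty⟩
  | succ k ih =>
    obtain ⟨B, hB1, hB2⟩ := ih (by omega)
    have : ∃ v, ¬ M.InCl B v := by
      by_contra hcon
      push Not at hcon
      have h1 := rk_union M (A := B) univ (fun v _ => hcon v)
      rw [Finset.union_eq_right.2 (subset_univ B)] at h1
      have : M.r = M.rk B := h1
      omega
    obtain ⟨v, hv⟩ := this
    have hvB : v ∉ B := fun h => hv (inCl_mem M h)
    refine ⟨insert v B, by rw [card_insert_of_notMem hvB, hB1], by rw [rk_insert_of_not M hv, hB2]⟩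

/-- the loopless matroid on the nonzero roles -/
def toRank : RankSys {v : V // v ≠ 0} where
  rk A := M.rk (A.image Subtype.val)
  rk_empty := by rw [image_empty]; exact M.rk_empty
  rk_insert_le v A := by
    rw [image_insert]
    exact M.rk_insert_le _ _
  rk_mono h := M.rk_mono (image_subset_image h)
  rk_submod A B := by
    rw [image_union, image_inter A B Subtype.val_injective]
    exact M.rk_submod _ _
  rk_single v := by
    rw [image_singleton]
    exact M.rk_single _ v.2

theorem mem_cl {A : Finset {v : V // v ≠ 0}} {v : {v : V // v ≠ 0}} :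
    v ∈ (toRank M).cl A ↔ M.InCl (A.image Subtype.val) v.val := by
  unfold RankSys.cl Mat.InCl toRank
  simp only [mem_filter, mem_univ, true_and, image_insert]

theorem inCl_zero (A : Finset V) : M.InCl A 0 := by
  refine inCl_mono M (empty_subset A) ?_
  unfold Mat.InCl
  rw [M.rk_empty]
  exact M.rk_zero

theorem third : (toRank M).Third := by
  intro A x y hx hy
  rw [mem_cl] at hx hy
  rw [image_insert] at hy
  have hxy : x.val + y.val ≠ 0 := by
    intro h
    have h1 : y.val = x.val := by
      have h2 := M.two x.val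
      have h3 : x.val + y.val = x.val + x.val := by rw [h, h2]
      exact add_left_cancel h3
    exact hy (inCl_mem M (by rw [h1]; exact mem_insert_self _ _))
  refine ⟨⟨x.val + y.val, hxy⟩, ?_, ?_, ?_⟩
  · rw [mem_cl, image_insert, image_insert]
    exact inCl_add M (inCl_mem M (mem_insert_self _ _))
      (inCl_mem M (mem_insert_of_mem (mem_insert_self _ _)))
  · rw [mem_cl, image_insert]
    intro h
    apply hy
    have h1 := inCl_add M (u := x.val) (v := x.val + y.val) (inCl_mem M (mem_insert_self _ _)) h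
    rwa [← add_assoc, M.two, zero_add] at h1
  · rw [mem_cl, image_insert]
    intro h
    have h1 := inCl_add M (u := y.val) (v := x.val + y.val) (inCl_mem M (mem_insert_self _ _)) h
    have h2 : y.val + (x.val + y.val) = x.val := by
      rw [add_comm x.val, ← add_assoc, M.two, zero_add]
    rw [h2] at h1
    exact hy (exchange M h1 hx)

theorem rk_univ_toRank : (toRank M).rk univ = M.r := by
  show M.rk _ = M.rk univ
  have h1 : (univ : Finset V) = (univ : Finset {v : V // v ≠ 0}).image Subtype.val ∪ {0} := by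
    ext v
    simp only [mem_univ, mem_union, mem_image, true_and, mem_singleton, Subtype.exists,
      exists_prop, exists_eq_right, true_iff]
    tauto
  have h2 := rk_union M (A := (univ : Finset {v : V // v ≠ 0}).image Subtype.val) {0}
    (fun v hv => by rw [mem_singleton] at hv; subst hv; exact inCl_zero M _)
  rw [← h1] at h2
  exact h2.symm

theorem hyperplane (hr : 1 ≤ M.r) : ∃ H1 : Finset {v : V // v ≠ 0}, (toRank M).IsFlat H1 ∧ H1 ≠ univ ∧
    (∀ x, x ∉ H1 → (toRank M).cl (insert x H1) = univ) ∧ (toRank M).cl H1ᶜ = univ := by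
  classical
  obtain ⟨B, hB1, hB2⟩ := exists_indep M M.r le_rfl
  have hBne : B.Nonempty := by
    rw [← card_pos]
    omega
  obtain ⟨b, hb⟩ := hBne
  set C := B.erase b with hC
  have hCB : insert b C = B := insert_erase hb
  have hCr : M.rk C ≤ M.r - 1 := by
    refine (rk_le_card M C).trans ?_
    rw [hC, card_erase_of_mem hb]
    omega
  have hbC : ¬ M.InCl C b := by
    intro h
    unfold Mat.InCl at h
    rw [hCB] at h
    omega
  have hCr' : M.rk C = M.r - 1 := by
    have := rk_insert_of_not M hbC
    rw [hCB] at this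
    omega
  have hb0 : b ≠ 0 := by
    rintro rfl
    exact hbC (inCl_zero M _)
  let H1 : Finset {v : V // v ≠ 0} := univ.filter (fun v => M.InCl C v.val)
  have hmem : ∀ v : {v : V // v ≠ 0}, v ∈ H1 ↔ M.InCl C v.val := by
    intro v
    simp only [H1, mem_filter, mem_univ, true_and]
  have hcl : ∀ v, M.InCl (H1.image Subtype.val) v → M.InCl C v := by
    intro v hv
    refine inCl_trans M ?_ hv
    intro w hw
    obtain ⟨w', hw', rfl⟩ := mem_image.1 hw
    exact (hmem w').1 hw'
  have hcl' : ∀ v, M.InCl C v → M.InCl (H1.image Subtype.val) v := by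
    intro v hv
    by_cases h0 : v = 0
    · subst h0
      exact inCl_zero M _
    · exact inCl_mem M (mem_image.2 ⟨⟨v, h0⟩, (hmem _).2 hv, rfl⟩)
  refine ⟨H1, ?_, ?_, ?_, ?_⟩
  · unfold RankSys.IsFlat
    ext v
    rw [mem_cl, hmem]
    exact ⟨hcl _, hcl' _⟩
  · intro h
    have : (⟨b, hb0⟩ : {v : V // v ≠ 0}) ∈ H1 := by rw [h]; exact mem_univ _
    exact hbC ((hmem _).1 this)
  · intro x hx
    have hx' : ¬ M.InCl C x.val := fun h => hx ((hmem _).2 h)
    rw [eq_univ_iff_forall]
    intro v
    rw [mem_cl, image_insert]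
    have h1 : M.rk (insert x.val C) = M.r := by
      rw [rk_insert_of_not M hx', hCr']
      omega
    refine inCl_trans M ?_ (inCl_all M h1 v.val)
    intro w hw
    rcases mem_insert.1 hw with rfl | hw
    · exact inCl_mem M (mem_insert_self _ _)
    · exact inCl_mono M (subset_insert _ _) (hcl' _ (inCl_mem M hw))
  · rw [eq_univ_iff_forall]
    intro v
    rw [mem_cl]
    have hbm : M.InCl (H1ᶜ.image Subtype.val) b := by
      refine inCl_mem M (mem_image.2 ⟨⟨b, hb0⟩, ?_, rfl⟩)
      rw [mem_compl, hmem]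
      exact hbC
    have hcm : ∀ c ∈ C, M.InCl (H1ᶜ.image Subtype.val) c := by
      intro c hc
      have hbc : ¬ M.InCl C (b + c) := by
        intro h
        have h1 := inCl_add M (u := b + c) (v := c) h (inCl_mem M hc)
        rw [add_assoc, M.two, add_zero] at h1
        exact hbC h1
      have hbc0 : b + c ≠ 0 := by
        intro h
        rw [h] at hbc
        exact hbc (inCl_zero M _)
      have h2 : M.InCl (H1ᶜ.image Subtype.val) (b + c) := by
        refine inCl_mem M (mem_image.2 ⟨⟨b + c, hbc0⟩, ?_, rfl⟩)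
        rw [mem_compl, hmem]
        exact hbc
      have h3 := inCl_add M hbm h2
      rwa [← add_assoc, M.two, zero_add] at h3
    refine inCl_trans M ?_ (inCl_all M hB2 v.val)
    intro w hw
    rw [← hCB] at hw
    rcases mem_insert.1 hw with rfl | hw
    · exact hbm
    · exact hcm w hw

/-- Lower bound for one matroid. -/
def StmtLower : Prop := ∀ ε : ℝ, 0 < ε → ∀ B : ℕ, ∃ n : ℕ, B ≤ n ∧ ∃ R : Finset (V → Fin n), Exact M R ∧
  (n : ℝ) ^ ((M.r : ℝ) - ε) ≤ (R.card : ℝ)

theorem mm_eq (n k : ℕ) (L : Finset ℕ) : Pool.Agent.helper38.LSys.mm n k L = Pool.Agent.helper24.S12.mm n k L := rfl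

/-- **Final assembly.** -/
theorem frozen (hr : 1 ≤ M.r) (hL : StmtLower M) (hU : StmtUpper M) :
    ¬ (∀ (k : ℕ) (L : Finset ℕ), L.Nonempty → L ⊆ Finset.range k →
      ∃ α : ℝ, 1 ≤ α ∧
        Asymptotics.IsTheta Filter.atTop
          (fun n : ℕ => ((sSup {s : ℕ | ∃ F : Finset (Finset (Fin n)), F.card = s ∧
              (∀ A ∈ F, A.card = k) ∧
              ∀ A ∈ F, ∀ B ∈ F, A ≠ B → (A ∩ B).card ∈ L} : ℕ) : ℝ))
          (fun n : ℕ => (n : ℝ) ^ α)) := by
  classical
  obtain ⟨H1, h1, h2, h3, h4⟩ := hyperplane M hr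
  obtain ⟨k, L, hLne, hLk, hi, -, hiii⟩ :=
    Pool.Agent.helper36.MFD.domination {v : V // v ≠ 0} (toRank M) (third M) H1 h1 h2 h3 h4
  rw [rk_univ_toRank] at hiii
  have hkpos : 1 ≤ k := by
    obtain ⟨l, hl⟩ := hLne
    have := mem_range.1 (hLk hl)
    omega
  refine Pool.Agent.helper24.S12.frozen_of k L hLne hLk (M.r : ℝ) ?_ ?_
  · intro ε hε
    rw [frequently_atTop]
    intro B
    -- choose `n` so large that `(k n)^(r-ε) ≤ n^(r-ε/2)`
    have hlim : Tendsto (fun n : ℕ => (n : ℝ) ^ (ε / 2)) atTop atTop :=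
      (tendsto_rpow_atTop (by positivity)).comp tendsto_natCast_atTop_atTop
    obtain ⟨n0, hn0⟩ := (tendsto_atTop_atTop.1 hlim) (max 1 ((k : ℝ) ^ ((M.r : ℝ) - ε)))
    obtain ⟨n, hn, R, hR, hcard⟩ := hL (ε / 2) (by positivity) (max (max B n0) 1)
    have hnB : B ≤ n := le_trans (le_trans (le_max_left _ _) (le_max_left _ _)) hn
    have hnn0 : n0 ≤ n := le_trans (le_trans (le_max_right _ _) (le_max_left _ _)) hn
    have hn1 : 1 ≤ n := le_trans (le_max_right _ _) hn
    refine ⟨k * n, le_trans hnB (Nat.le_mul_of_pos_left n hkpos), ?_⟩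
    let res : (V → Fin n) → ({v : V // v ≠ 0} → Fin n) := fun ρ v => ρ v.val
    have hinj : Set.InjOn res (R : Set (V → Fin n)) := by
      intro ρ hρ σ hσ h
      funext v
      by_cases hv : v = 0
      · subst hv
        exact hR ∅ 0 (inCl_zero M _) ρ hρ σ hσ (by simp)
      · exact congrFun h ⟨v, hv⟩
    have hfam := hi n (R.image res) (by
      intro x hx y hy _
      obtain ⟨ρ, hρ, rfl⟩ := mem_image.1 hx
      obtain ⟨σ, hσ, rfl⟩ := mem_image.1 hy
      unfold RankSys.IsFlat
      ext v
      rw [mem_cl]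
      constructor
      · intro h
        rw [mem_filter]
        refine ⟨mem_univ _, ?_⟩
        refine hR _ _ h ρ hρ σ hσ ?_
        intro u hu
        obtain ⟨u', hu', rfl⟩ := mem_image.1 hu
        exact (mem_filter.1 hu').2
      · intro h
        exact inCl_mem M (mem_image_of_mem _ h))
    rw [card_image_of_injOn hinj] at hfam
    have h5 : ((k * n : ℕ) : ℝ) ^ ((M.r : ℝ) - ε) ≤ (n : ℝ) ^ ((M.r : ℝ) - ε / 2) := by
      have hn0' : (0 : ℝ) < n := by exact_mod_cast hn1
      have hk0 : (0 : ℝ) < k := by exact_mod_cast hkpos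
      have e1 : (M.r : ℝ) - ε / 2 = ((M.r : ℝ) - ε) + ε / 2 := by ring
      rw [e1, Real.rpow_add hn0']
      push_cast
      rw [Real.mul_rpow hk0.le hn0'.le, mul_comm]
      refine mul_le_mul_of_nonneg_left ?_ (Real.rpow_nonneg hn0'.le _)
      exact le_trans (le_max_right _ _) (hn0 n hnn0)
    refine h5.trans (hcard.trans ?_)
    exact_mod_cast hfam
  · intro c hc
    by_contra hcon
    rw [not_frequently] at hcon
    have h5 : ∃ᶠ n : ℕ in atTop, c * (n : ℝ) ^ M.r ≤ (Pool.Agent.helper38.LSys.mm n k L : ℝ) := by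
      refine Eventually.frequently ?_
      filter_upwards [hcon] with n hn
      rw [not_lt] at hn
      have : (n : ℝ) ^ ((M.r : ℕ) : ℝ) = (n : ℝ) ^ M.r := Real.rpow_natCast _ _
      rw [this] at hn
      exact hn
    obtain ⟨c', hc', hF⟩ := hiii atTop le_rfl ⟨c, hc, h5⟩
    obtain ⟨n0, hn0⟩ := hU c' hc'
    obtain ⟨n, hn, F, hFc, hFD⟩ := (frequently_atTop.1 hF) (max n0 1)
    have hn1 : 0 < n := lt_of_lt_of_le Nat.zero_lt_one (le_trans (le_max_right _ _) hn)
    let ext : ({v : V // v ≠ 0} → Fin n) → (V → Fin n) := fun ρ v =>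
      if h : v ≠ 0 then ρ ⟨v, h⟩ else ⟨0, hn1⟩
    have hext : ∀ (ρ : {v : V // v ≠ 0} → Fin n) (v : {v : V // v ≠ 0}), ext ρ v.val = ρ v := by
      intro ρ v
      simp only [ext]
      rw [dif_pos v.2]
    have hinj : Function.Injective ext := by
      intro ρ σ h
      funext v
      rw [← hext ρ v, ← hext σ v, h]
    have hEx : Exact M (F.image ext) := by
      intro S v hv x hx y hy hag
      obtain ⟨ρ, hρ, rfl⟩ := mem_image.1 hx
      obtain ⟨σ, hσ, rfl⟩ := mem_image.1 hy
      by_cases h0 : v = 0
      · subst h0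
        simp only [ext]
        rw [dif_neg (by simp), dif_neg (by simp)]
      · let S' : Finset {v : V // v ≠ 0} := univ.filter (fun u => u.val ∈ S)
        have hS' : ∀ u ∈ S, M.InCl (S'.image Subtype.val) u := by
          intro u hu
          by_cases hu0 : u = 0
          · subst hu0
            exact inCl_zero M _
          · exact inCl_mem M (mem_image.2 ⟨⟨u, hu0⟩, by simp [S', hu], rfl⟩)
        have hv' : (⟨v, h0⟩ : {v : V // v ≠ 0}) ∈ (toRank M).cl S' := by
          rw [mem_cl]
          exact inCl_trans M hS' hv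
        have h6 := hFD S' ⟨v, h0⟩ hv' ρ hρ σ hσ (by
          intro i hi
          have h7 := hag i.val (by simpa [S'] using hi)
          rwa [hext, hext] at h7)
        have h8 := hext ρ ⟨v, h0⟩
        have h9 := hext σ ⟨v, h0⟩
        simp only at h8 h9
        rw [h8, h9, h6]
    have h6 := hn0 n (le_trans (le_max_left _ _) hn) (F.image ext) hEx
    rw [card_image_of_injective _ hinj] at h6
    linarith

end

end Pool.Agent.MF.Fin
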