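import Pool.Agent.MF.ConcM
import Pool.Agent.MF.Final
import Pool.Agent.MFLB.Sys

/-!
# MF.Low : the lower bound for the matroid of a finite space of polynomials
-/

open Set Filter

set_option linter.unusedSectionVars false

namespace MFLB

open Pool.Agent.MF (Mat Exact)

variable {k G : Type} {r : ℕ} [CommRing k] [IsDomain k] [Group G] [LinearOrder G]
  [MulSemiringAction G k]

/-- removing `0` does not change the closure -/
theorem Cl_insert_zero (S : Set (PP k G r)) {a : PP k G r}
    (ha : a ∈ Cl (MM k G r) G (insert 0 S)) : a ∈ Cl (MM k G r) G S := by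
  obtain ⟨K, hK⟩ := ha
  refine ⟨K, ?_⟩
  have hsub : tr (K : Set G) (insert 0 S) ∪ tr {k : G | k ∈ K ∧ k < 1} {a} ⊆
      (MM k G r).closure (tr (K : Set G) S ∪ tr {k : G | k ∈ K ∧ k < 1} {a}) := by
    rintro x (⟨h, hh, u, hu, rfl⟩ | hx)
    · rcases hu with rfl | hu
      · rw [smul_zero]
        exact mem_closure_of_adjoin (zero_mem _)
      · apply (MM k G r).subset_closure _ (by rw [MM_E]; exact subset_univ _)
        exact Or.inl ⟨h, hh, u, hu, rfl⟩
    · apply (MM k G r).subset_closure _ (by rw [MM_E]; exact subset_univ _)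
      exact Or.inr hx
  have h1 := (MM k G r).closure_subset_closure hsub hK
  rwa [(MM k G r).closure_closure] at h1

section

variable (hG : LeftInv G) (F : ℕ → Finset G) (hF : Folner F) {V : Type}
    [AddCommGroup V] [Fintype V] [DecidableEq V] (ι : V →+ PP k G r)
    (hnc : ∀ v : V, v ≠ 0 → ι v ∉ Set.range (cc : k →+* PP k G r)) (h2 : ∀ v : V, v + v = 0)
    (hx : ∀ i : Fin r, ∃ v : V, ι v = xx i 1)

include hx in
/-- the total rank -/
theorem matOf_r : (matOf hG F hF ι hnc h2).r = r := by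
  classical
  show drk (MM k G r) F (ι '' ((Finset.univ : Finset V) : Set V)) = r
  have h1 : drk (MM k G r) F ((fun i : Fin r => (xx i 1 : PP k G r)) ''
      ((Finset.univ : Finset (Fin r)) : Set (Fin r))) = r := by
    have h3 := (drk_spec (MM_E (k := k) (G := G) (r := r)) MM_equivar hG hF
      ((Finset.finite_toSet (Finset.univ : Finset (Fin r))).image
        (fun i : Fin r => (xx i 1 : PP k G r)))).unique (isRk_vars hF Finset.univ)
    rw [h3]
    simp
  refine Eq.trans ?_ h1
  apply drk_eq_of_subset_Cl MM_E MM_equivar hG hF ((Finset.finite_toSet _).image _)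
  · rintro _ ⟨i, _, rfl⟩
    obtain ⟨v, hv⟩ := hx i
    exact ⟨v, by simp, hv⟩
  · intro a _
    have h3 := mem_Cl_vars a
    rwa [← image_univ, ← Finset.coe_univ] at h3

include hx in
/-- **the lower bound** -/
theorem stmtLower_matOf
    (hSp : ∀ c : k, c ≠ 0 → ∃ π : k →+* AlgebraicClosure (ZMod 2), π c ≠ 0) :
    Pool.Agent.MF.Fin.StmtLower (matOf hG F hF ι hnc h2) := by
  classical
  intro ε hε B
  have hinj : Function.Injective ι := by
    rw [injective_iff_map_eq_zero]
    intro v hv
    by_contra hv0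
    exact hnc v hv0 ⟨0, by rw [map_zero, hv]⟩
  let E : Finset (PP k G r) := Finset.univ.image ι
  have hxE : ∀ i : Fin r, xx i 1 ∈ E := by
    intro i
    obtain ⟨v, hv⟩ := hx i
    exact Finset.mem_image.2 ⟨v, Finset.mem_univ _, hv⟩
  obtain ⟨N, hN, R, hR, hfd⟩ := lower_bound hG F hF hSp E hxE ε hε (max B 1)
  have hN1 : 1 ≤ N := le_trans (le_max_right _ _) hN
  let jj : V → E := fun v => ⟨ι v, Finset.mem_image.2 ⟨v, Finset.mem_univ _, rfl⟩⟩
  have hjj : Function.Surjective jj := by
    rintro ⟨a, ha⟩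
    obtain ⟨v, _, rfl⟩ := Finset.mem_image.1 ha
    exact ⟨v, rfl⟩
  refine ⟨N, le_trans (le_max_left _ _) hN, R.image (fun ρ v => ρ (jj v)), ?_, ?_⟩
  · intro S v hv ρ hρ σ hσ hagree
    obtain ⟨ρ0, hρ0, rfl⟩ := Finset.mem_image.1 hρ
    obtain ⟨σ0, hσ0, rfl⟩ := Finset.mem_image.1 hσ
    rw [matOf_inCl] at hv
    refine hfd ρ0 hρ0 σ0 hσ0 (S.image jj) (jj v) ?_ ?_
    · have h3 : (Subtype.val '' ((S.image jj : Finset E) : Set E)) = ι '' (S : Set V) := by
        rw [Finset.coe_image, image_image]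
      rw [h3]
      exact hv
    · intro u hu
      obtain ⟨w, hw, rfl⟩ := Finset.mem_image.1 hu
      exact hagree w hw
  · rw [matOf_r hG F hF ι hnc h2 hx, Finset.card_image_of_injective]
    · exact hR
    · intro ρ σ h
      funext e
      obtain ⟨v, rfl⟩ := hjj e
      exact congrFun h v

end

end MFLB
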