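import Pool.Agent.MF.EndAlgN
import Pool.Agent.MF.Low
import Pool.Agent.MFLB.GG

/-!
# MF.Close2 : the frozen negation S07300 from `StmtEM` and the abstract end game
-/

open Set Filter

set_option linter.unusedSectionVars false

namespace MFLB

open Pool.Agent.MF (Mat StmtEM StmtEnd upper_of EndAlg KillAlg)

/-- the end game for every matroid of roles with the algebra of depth `T` -/
def StmtEndAlg (T : ℕ) : Prop :=
  ∀ (N : Type) [AddCommGroup N] [Fintype N] [DecidableEq N] (M : Mat N) (Lin : Finset N) (a b : N)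
    (D : ℕ → AddSubgroup N) (mul : N → N → N) (sq th ze g s : N → N),
    KillAlg M Lin a b (mul a) (mul b) sq → EndAlg M Lin T D mul sq th ze g s → StmtEnd M

theorem close2_hx {k G : Type} {m s : ℕ} [CommRing k] [IsDomain k] [Group G] [LinearOrder G]
    [MulSemiringAction G k] [CharP k 2] (N0 : AddSubgroup (PP k G (m + s)))
    (hL : ∀ i : Fin m, (xx (Fin.castAdd s i) 1 : PP k G (m + s)) ∈ N0) (i : Fin (m + s)) :
    ∃ v : N0 × (Fin s → ZMod 2), iotaN N0 v = xx i 1 := by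
  refine Fin.addCases (motive := fun i => ∃ v : N0 × (Fin s → ZMod 2), iotaN N0 v = xx i 1)
    ?_ ?_ i
  · intro j
    refine ⟨(⟨xx (Fin.castAdd s j) 1, hL j⟩, 0), ?_⟩
    rw [iotaN_near]
  · intro j
    refine ⟨(0, Pi.single j 1), ?_⟩
    rw [iotaN_apply]
    have h1 : (lf (Fin.natAdd m) (Pi.single j 1) : PP k G (m + s)) = xx (Fin.natAdd m j) 1 := by
      unfold lf
      rw [Finset.sum_eq_single j]
      · rw [Pi.single_eq_same, map_one, map_one, one_mul]
      · intro l _ hl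
        rw [Pi.single_eq_of_ne hl, map_zero, map_zero, zero_mul]
      · intro h
        exact absurd (Finset.mem_univ j) h
    rw [h1]
    show ((0 : N0) : PP k G (m + s)) + xx (Fin.natAdd m j) 1 = xx (Fin.natAdd m j) 1
    rw [ZeroMemClass.coe_zero, zero_add]

theorem close2_xx {k G : Type} {m s : ℕ} [CommRing k] [IsDomain k] [Group G] [LinearOrder G]
    [MulSemiringAction G k] [CharP k 2] (θ ζ : k) (g t : G) (T : ℕ) (i : Fin m) :
    (xx (Fin.castAdd s i) 1 : PP k G (m + s)) ∈ (lev θ ζ g t T : AddSubgroup (PP k G (m + s))) := by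
  apply lev_le (Nat.zero_le T)
  rw [lev_zero]
  refine ⟨Pi.single i 1, ?_⟩
  unfold lf
  rw [Finset.sum_eq_single i]
  · rw [Pi.single_eq_same, map_one, map_one, one_mul]
  · intro l _ hl
    rw [Pi.single_eq_of_ne hl, map_zero, map_zero, zero_mul]
  · intro h
    exact absurd (Finset.mem_univ i) h

/-- **Final assembly**: `StmtEM` and the end game give the frozen negation `S07300`. -/
theorem close2 (T : ℕ) (hT : 4 ≤ T) (hEM : StmtEM) (hEnd : StmtEndAlg T) :
    ¬ (∀ (k : ℕ) (L : Finset ℕ), L.Nonempty → L ⊆ Finset.range k →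
      ∃ α : ℝ, 1 ≤ α ∧
        Asymptotics.IsTheta Filter.atTop
          (fun n : ℕ => ((sSup {s : ℕ | ∃ F : Finset (Finset (Fin n)), F.card = s ∧
              (∀ A ∈ F, A.card = k) ∧
              ∀ A ∈ F, ∀ B ∈ F, A ≠ B → (A ∩ B).card ∈ L} : ℕ) : ℝ))
          (fun n : ℕ => (n : ℝ) ^ α)) := by
  obtain ⟨G, iG, iO, k, iK, iA, hdom, hchar, hG, ⟨F, hF⟩, hSp, θ, θi, ζ, g, t, h1, h2, h3, h4, h5⟩ :=
    exists_labels
  obtain ⟨s, hs⟩ := upper_of hEM
  have hN : Near (lev θ ζ g t T : AddSubgroup (PP k G (10 + s))) := lev_near T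
  have iF : Fintype (lev θ ζ g t T : AddSubgroup (PP k G (10 + s))) := hN.fin.fintype
  have iD : DecidableEq (lev θ ζ g t T : AddSubgroup (PP k G (10 + s))) := Classical.decEq _
  have hθ : θ ≠ 0 := by
    rintro rfl
    rw [zero_mul] at h1
    exact zero_ne_one h1
  obtain ⟨_, a, b, _, _, hkill, halg⟩ := roles_near (m := 10) (s := s) hG F hF
    (lev θ ζ g t T) hN θ ζ g t T hT rfl le_rfl hθ h2 h3 h4 h5
  have hU := hs (lev θ ζ g t T : AddSubgroup (PP k G (10 + s))) s le_rfl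
    (matN hG F hF (lev θ ζ g t T) hN)
    (rank_near hG F hF (lev θ ζ g t T) hN) _ _ _ _ _ _ hkill
    (hEnd _ _ _ _ _ _ _ _ _ _ _ _ hkill halg)
  have hx := close2_hx (lev θ ζ g t T : AddSubgroup (PP k G (10 + s))) (close2_xx θ ζ g t T)
  have hL := stmtLower_matOf hG F hF (iotaN (lev θ ζ g t T)) (iotaN_nc hN)
    (two_near (lev θ ζ g t T)) hx hSp
  have hr := matOf_r hG F hF (iotaN (lev θ ζ g t T)) (iotaN_nc hN)
    (two_near (lev θ ζ g t T)) hx
  refine Pool.Agent.MF.Fin.frozen (matN hG F hF (lev θ ζ g t T) hN) ?_ hL hU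
  show 1 ≤ (matOf hG F hF (iotaN (lev θ ζ g t T)) (iotaN_nc hN)
    (two_near (lev θ ζ g t T))).r
  rw [hr]
  omega

end MFLB
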