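import Pool.Agent.MF.SlotB
import Pool.Agent.helper36.MF.Collar

set_option autoImplicit false

/-!
# MP_141f81: the input of the collar from the frame
-/

namespace Pool.Agent.MF

open Finset
open Pool.Agent.helper35.MF (Ball ball_add wd sy CoarseF)

section

variable {V : Type} [AddCommGroup V] [Fintype V] [DecidableEq V] {n : ℕ}

/-- the constant for the words of at most five letters -/
noncomputable def colK (κ : ℝ) : ℕ := ∑ m ∈ range 5, ⌈(κ ^ (2 * m + 1))⁻¹⌉₊ + 1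

theorem Tt_eq (M : Mat V) (L : Finset V) (R S : Finset (V → Fin n)) :
    Tt M ∅ L R S = Pool.Agent.helper36.MF.Tt (Lines M ∅ L R) (PL M ∅ L S) := rfl

/-- the collar input; `P` is the set of the letters of one role -/
theorem colIn_of {M : Mat V} {κ : ℝ} {R S : Finset (V → Fin n)} (hn : 0 < n) (hκ : 0 < κ) (hE : Exact M R)
    (hJ : JCOut M univ κ R S) {Lin L : Finset V} (hLin : LinPart M Lin) (hL : Lin ⊆ L)
    (hadd : ∀ u ∈ L, ∀ v ∈ L, u + v ∈ L) (hS : S.Nonempty) {C0 : ℕ}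
    (hC : Cons (Lines M ∅ L R) 7730 C0) {K q : ℕ} (hK : colK κ ≤ K) (hq : κ⁻¹ ≤ q) :
    ∃ P : Finset (V × Fin n), Pool.Agent.helper36.MF.ColIn (Lines M ∅ L R) (PL M ∅ L S) P Prod.fst n K q C0 := by
  classical
  have hI := imData_top hn hE hJ L hS
  have hr : M.rk ∅ ≤ 2 := by rw [M.rk_empty]; exact Nat.zero_le _
  obtain ⟨v, u, hi⟩ := indL_of hLin hr hL hadd
  obtain ⟨ρ, hρ⟩ := hS
  have hcl : ¬ M.InCl ∅ u := by
    intro hc
    have h2 := hi.1
    unfold Mat.Ind at h2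
    unfold Mat.InCl at hc
    have h3 := M.rk_insert_le v (insert u ∅)
    omega
  refine ⟨(PL M ∅ L S).filter fun p => p.1 = u, ?_, ?_, filter_subset _ _, ?_, ?_, hn, ?_⟩
  · intro vs hne hlen W hW hsep
    rcases W.eq_empty_or_nonempty with h0 | ⟨w0, hw0⟩
    · rw [h0]
      exact Nat.zero_le _
    rcases vs with _ | ⟨v', vs⟩
    · exact absurd rfl hne
    simp only [List.length_cons] at hlen hsep
    obtain ⟨a, ha⟩ := richL_of hLin hr hL hadd (v' :: vs) (by simp only [List.length_cons]; omega) (by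
      intro x hx
      rw [← (hW w0 hw0).1] at hx
      obtain ⟨p, hp, rfl⟩ := List.mem_map.1 hx
      have := (hW w0 hw0).2 p hp
      rw [mem_PL] at this
      exact ⟨this.1, this.2.1⟩)
    have h1 := words_le hI hκ.le a v' vs ha W (by
      intro w hw
      refine ⟨(hW w hw).1, fun x hx => ?_⟩
      have := (hW w hw).2 x hx
      rw [mem_PL] at this
      exact this.2.2) (fun w hw w' hw' hww => hsep w hw w' hw' hww)
    have hk : 0 < κ ^ (2 * vs.length + 1) := by positivity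
    have h2 : (W.card : ℝ) ≤ (κ ^ (2 * vs.length + 1))⁻¹ * n := by
      rw [inv_mul_eq_div, le_div_iff₀ hk, mul_comm]
      exact h1
    have h3 : (κ ^ (2 * vs.length + 1))⁻¹ * n ≤ (⌈(κ ^ (2 * vs.length + 1))⁻¹⌉₊ : ℝ) * n :=
      mul_le_mul_of_nonneg_right (Nat.le_ceil _) (Nat.cast_nonneg _)
    have h4 : W.card ≤ ⌈(κ ^ (2 * vs.length + 1))⁻¹⌉₊ * n := by exact_mod_cast h2.trans h3
    have h5 : ⌈(κ ^ (2 * vs.length + 1))⁻¹⌉₊ ≤ colK κ := by
      rw [colK]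
      have := single_le_sum (f := fun m => ⌈(κ ^ (2 * m + 1))⁻¹⌉₊) (s := range 5) (fun _ _ => Nat.zero_le _)
        (mem_range.2 (show vs.length < 5 by omega))
      omega
    exact h4.trans (Nat.mul_le_mul_right _ (h5.trans hK))
  · intro x hx A hA
    have h1 := hC x.1 x.2 (A.image Prod.snd) (by
      intro y hy
      rw [mem_image] at hy
      obtain ⟨p, hp, rfl⟩ := hy
      obtain ⟨_, h2, h3⟩ := hA p hp
      have h4 : lt x.1 p.2 = sy p := by
        rw [← h2]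
        rfl
      rw [h4]
      exact h3)
    rw [card_image_of_injOn] at h1
    · exact h1
    · intro p hp p' hp' hpp
      exact Prod.ext ((hA p hp).2.1.trans (hA p' hp').2.1.symm) hpp
  · intro p hp p' hp'
    rw [mem_filter] at hp hp'
    rw [hp.2, hp'.2]
  · have h1 := hI.spoke v u hi ρ hρ
    have h2 : (((univ : Finset (Fin n)).filter fun z => ∃ ρ' ∈ S, ρ' v = ρ v ∧ ρ' u = z).image
        fun z => ((u, z) : V × Fin n)) ⊆ (PL M ∅ L S).filter fun p => p.1 = u := by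
      intro p hp
      rw [mem_image] at hp
      obtain ⟨z, hz, rfl⟩ := hp
      rw [mem_filter] at hz
      obtain ⟨_, ρ', hρ', _, h3⟩ := hz
      rw [mem_filter, mem_PL]
      exact ⟨⟨hi.2.2.1, hcl, ρ', hρ', h3⟩, rfl⟩
    have h3 := card_le_card h2
    rw [card_image_of_injective _ (fun z z' hz => (Prod.ext_iff.1 hz).2)] at h3
    have h4 : κ * (n : ℝ) ≤ (((PL M ∅ L S).filter fun p => p.1 = u).card : ℝ) := h1.trans (by exact_mod_cast h3)
    have h5 : (n : ℝ) ≤ q * (((PL M ∅ L S).filter fun p => p.1 = u).card : ℝ) := by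
      calc (n : ℝ) = κ⁻¹ * (κ * n) := by field_simp
        _ ≤ κ⁻¹ * (((PL M ∅ L S).filter fun p => p.1 = u).card : ℝ) := mul_le_mul_of_nonneg_left h4 (by positivity)
        _ ≤ _ := mul_le_mul_of_nonneg_right hq (Nat.cast_nonneg _)
    exact_mod_cast h5
  · refine lt_of_lt_of_le ?_ hK
    rw [colK]
    exact Nat.succ_pos _

theorem JCOut.nonempty {M : Mat V} {TT : Finset (Finset V)} {κ : ℝ} {R S : Finset (V → Fin n)} (hn : 0 < n)
    (hκ : 0 < κ) (hJ : JCOut M TT κ R S) : S.Nonempty := by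
  have h1 := hJ.2.1
  have h2 : 0 < κ * (n : ℝ) ^ M.r := by positivity
  rw [← card_pos]
  exact_mod_cast h2.trans_le h1

/-- the collar input for the whole frame; the constants depend on `κ` only -/
theorem colIn_frame {M : Mat V} {Lin : Finset V} (hLin : LinPart M Lin) {κ : ℝ} (hκ : 0 < κ) :
    ∃ K q : ℕ, ∀ (C0 n : ℕ) (R S : Finset (V → Fin n)), 0 < n → Exact M R → JCOut M univ κ R S →
      Cons (Lines M ∅ univ R) 7730 C0 →
      ∃ P : Finset (V × Fin n),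
        Pool.Agent.helper36.MF.ColIn (Lines M ∅ univ R) (PL M ∅ univ S) P Prod.fst n K q C0 :=
  ⟨colK κ, ⌈κ⁻¹⌉₊, fun _ _ _ _ hn hE hJ hC => colIn_of hn hκ hE hJ hLin (subset_univ _)
    (fun _ _ _ _ => mem_univ _) (hJ.nonempty hn hκ) hC le_rfl (Nat.le_ceil _)⟩

/-- the collar for the frame -/
theorem collar_frame {M : Mat V} {Lin : Finset V} (hLin : LinPart M Lin) {κ : ℝ} (hκ : 0 < κ) (C0 : ℕ) :
    ∃ (l0 M0 Kd Ke : ℕ) (C : ℕ → ℕ), ∀ (n : ℕ) (R S : Finset (V → Fin n)), 0 < n → Exact M R →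
      JCOut M univ κ R S → Cons (Lines M ∅ univ R) 7730 C0 →
      ∃ D F : Set (G V n), D.Finite ∧ CoarseF (Tt M ∅ univ R S) D F 2 17 l0 ∧ (∀ x ∈ PL M ∅ univ S, sy x ∈ D) ∧
        (∀ u ∈ D, {v | v ∈ D ∧ u + v ∈ Ball (Tt M ∅ univ R S) ((17 + 6) * 2 + 1)}.ncard ≤ M0) ∧
        (∀ b, ∀ p ∈ PL M ∅ univ S, ∀ Q ⊆ PL M ∅ univ S,
          (∀ y ∈ Q, sy p + sy y ∈ Ball (Tt M ∅ univ R S) b) → Q.card ≤ C b) ∧
        (∀ W : Finset (G V n), (∀ w ∈ W, ∃ f ∈ D, ∃ p ∈ PL M ∅ univ S, w = f + sy p) →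
          (∀ w ∈ W, ∀ w' ∈ W, w ≠ w' → w + w' ∉ Ball (Tt M ∅ univ R S) 1) → W.card ≤ Kd * n) ∧
        ∀ W : Finset (G V n), (∀ w ∈ W, w ∈ D) →
          (∀ w ∈ W, ∀ w' ∈ W, w ≠ w' → w + w' ∉ AddSubgroup.closure (Tt M ∅ univ R S)) → W.card ≤ Ke * n := by
  obtain ⟨K, q, hKq⟩ := colIn_frame hLin hκ
  refine ⟨Pool.Agent.helper36.MF.FB V K q C0, Pool.Agent.helper36.MF.MB V K q C0,
    2 ^ Pool.Agent.helper36.MF.FB V K q C0 * (Pool.Agent.helper36.MF.NL V 3 * K),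
    2 ^ Pool.Agent.helper36.MF.FB V K q C0 * (Pool.Agent.helper36.MF.NL V 2 * K),
    fun b => Pool.Agent.helper36.MF.MB V K q C0 ^ Pool.Agent.helper35.MF.HH b (Pool.Agent.helper36.MF.FB V K q C0) 17,
    fun n R S hn hE hJ hC => ?_⟩
  obtain ⟨P, hP⟩ := hKq C0 n R S hn hE hJ hC
  exact Pool.Agent.helper36.MF.collar hP

end

end Pool.Agent.MF
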