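import Pool.Agent.MFLB.Indep

/-!
# MF.ConcF : fresh variables and linear forms in the matroid of the difference ring
-/

open Set

set_option linter.unusedSectionVars false

namespace MFLB

section Gen

variable {α : Type*} {G : Type*} [Group G] [LinearOrder G] [MulAction G α]

theorem Cl_mono {M : Matroid α} {S T : Set α} (h : S ⊆ T) : Cl M G S ⊆ Cl M G T := by
  rintro v ⟨K, hK⟩
  exact ⟨K, M.closure_subset_closure (union_subset_union_left _ (tr_mono (Subset.refl _) h)) hK⟩

theorem drk_union_of_subset_Cl {M : Matroid α} (hE : M.E = univ) (hM : Equivar M G)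
    (hG : LeftInv G) {F : ℕ → Finset G} (hF : Folner F) {T B : Set α} (hT : T.Finite)
    (hB : B.Finite) (h : B ⊆ Cl M G T) : drk M F (T ∪ B) = drk M F T := by
  induction B, hB using Set.Finite.induction_on with
  | empty => rw [union_empty]
  | @insert b B _ hB ih =>
    have h1 : B ⊆ Cl M G T := (subset_insert b B).trans h
    have h2 : b ∈ Cl M G (T ∪ B) := Cl_mono subset_union_left (h (mem_insert b B))
    rw [union_insert, drk_insert_dep hE hM hG hF (hT.union hB) h2]
    exact ih h1

theorem drk_eq_of_subset_Cl {M : Matroid α} (hE : M.E = univ) (hM : Equivar M G)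
    (hG : LeftInv G) {F : ℕ → Finset G} (hF : Folner F) {T A : Set α} (hA : A.Finite)
    (hTA : T ⊆ A) (h : A ⊆ Cl M G T) : drk M F A = drk M F T := by
  have h1 := drk_union_of_subset_Cl hE hM hG hF (hA.subset hTA) hA h
  rwa [union_eq_self_of_subset_left hTA] at h1

theorem drk_le_of_subset_Cl {M : Matroid α} (hE : M.E = univ) (hM : Equivar M G)
    (hG : LeftInv G) {F : ℕ → Finset G} (hF : Folner F) {T A : Set α} (hT : T.Finite)
    (hA : A.Finite) (h : A ⊆ Cl M G T) : drk M F A ≤ drk M F T := by
  have h1 := drk_union_of_subset_Cl hE hM hG hF hT hA h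
  rw [← h1]
  exact drk_mono hE hM hG hF (hT.union hA) subset_union_right

theorem Cl_trans {M : Matroid α} (hE : M.E = univ) (hM : Equivar M G)
    (hG : LeftInv G) {F : ℕ → Finset G} (hF : Folner F) {S T : Set α} (hS : S.Finite)
    (hT : T.Finite) (h : T ⊆ Cl M G S) : Cl M G T ⊆ Cl M G S := by
  intro c hc
  have h1 := drk_union_of_subset_Cl hE hM hG hF hS hT h
  have h2 : c ∈ Cl M G (S ∪ T) := Cl_mono subset_union_right hc
  have h3 := drk_insert_dep hE hM hG hF (hS.union hT) h2
  rw [← drk_mem_Cl_iff hE hM hG hF hS]
  apply le_antisymm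
  · have h4 : drk M F (insert c S) ≤ drk M F (insert c (S ∪ T)) :=
      drk_mono hE hM hG hF ((hS.union hT).insert c) (insert_subset_insert subset_union_left)
    rw [h3, h1] at h4
    exact h4
  · exact drk_mono hE hM hG hF (hS.insert c) (subset_insert c S)

end Gen

variable {k : Type*} {G : Type*} {r : ℕ} [CommRing k] [IsDomain k] [Group G] [LinearOrder G]
  [MulSemiringAction G k]

/-- `a` does not involve the variables of index `i` -/
def Free (i : Fin r) (a : PP k G r) : Prop := ∀ h : G, kill (i, h) a = a

theorem Free.zero (i : Fin r) : Free i (0 : PP k G r) := fun _ => map_zero _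

theorem Free.cc (i : Fin r) (c : k) : Free i (cc c : PP k G r) := fun h => kill_cc (i, h) c

theorem Free.add {i : Fin r} {a b : PP k G r} (ha : Free i a) (hb : Free i b) : Free i (a + b) := by
  intro h
  rw [map_add, ha h, hb h]

theorem Free.mul {i : Fin r} {a b : PP k G r} (ha : Free i a) (hb : Free i b) : Free i (a * b) := by
  intro h
  rw [map_mul, ha h, hb h]

theorem Free.sum {ι : Type*} {i : Fin r} {s : Finset ι} {f : ι → PP k G r}
    (hf : ∀ j ∈ s, Free i (f j)) : Free i (∑ j ∈ s, f j) := by
  intro h
  rw [map_sum]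
  exact Finset.sum_congr rfl (fun j hj => hf j hj h)

theorem Free.smul {i : Fin r} {a : PP k G r} (ha : Free i a) (h : G) : Free i (h • a) := by
  intro h'
  have h1 := kill_smul h i (h⁻¹ * h') a
  rw [mul_inv_cancel_left] at h1
  rw [h1, ha]

theorem Free.xx {i j : Fin r} (hij : j ≠ i) (h : G) : Free i (xx j h : PP k G r) := by
  intro h'
  apply kill_xx_ne
  intro h1
  exact hij (Prod.mk.inj h1).1

/-- an element involving the variable `(i, 1)`, but no other variable of index `i`, does not depend on elements
without variables of index `i` -/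
theorem notMem_Cl {i : Fin r} {a : PP k G r} (ha : kill (i, (1 : G)) a ≠ a)
    (ha' : ∀ h : G, h ≠ 1 → kill (i, h) a = a) {S : Set (PP k G r)} (hS : ∀ x ∈ S, Free i x) :
    a ∉ Cl (MM k G r) G S := by
  rintro ⟨K, hK⟩
  refine notMem_closure_of_kill (j := (i, (1 : G))) ha ?_ hK
  rintro x (⟨h, _, u, hu, rfl⟩ | ⟨h, hh, u, hu, rfl⟩)
  · exact (hS u hu).smul h 1
  · rw [Set.mem_singleton_iff] at hu
    subst hu
    have h1 := kill_smul h i h⁻¹ u
    rw [mul_inv_cancel] at h1
    rw [h1, ha']
    intro h2
    have h3 : h = 1 := by rw [← inv_inv h, h2, inv_one]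
    exact absurd hh.2 (by rw [h3]; exact lt_irrefl _)

theorem xx_ne_zero (i : Fin r) (h : G) : (xx i h : PP k G r) ≠ 0 := by
  have : (MvPolynomial.X (i, h) : MvPolynomial (Fin r × G) k) ≠ 0 := MvPolynomial.X_ne_zero _
  exact this

theorem xx_notMem_Cl {i : Fin r} {S : Set (PP k G r)} (hS : ∀ x ∈ S, Free i x) :
    (xx i 1 : PP k G r) ∉ Cl (MM k G r) G S := by
  apply notMem_Cl _ _ hS
  · rw [kill_xx_self]
    exact (xx_ne_zero i 1).symm
  · intro h hh
    apply kill_xx_ne
    intro h1
    exact hh (Prod.mk.inj h1).2.symm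

/-- fresh variables raise the rank -/
theorem drk_union_fresh (hG : LeftInv G) {F : ℕ → Finset G} (hF : Folner F) {ι : Type*} [DecidableEq ι]
    (e : ι → Fin r) (he : Function.Injective e) {S : Set (PP k G r)} (hS : S.Finite)
    (hfree : ∀ a ∈ S, ∀ j : ι, Free (e j) a) (J : Finset ι) :
    drk (MM k G r) F (S ∪ (fun j => (xx (e j) 1 : PP k G r)) '' (J : Set ι)) =
      drk (MM k G r) F S + J.card := by
  induction J using Finset.induction_on with
  | empty => simp
  | insert j J hj ih =>
    rw [Finset.coe_insert, image_insert_eq, union_insert]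
    rw [drk_insert_indep MM_E MM_equivar hG hF, ih, Finset.card_insert_of_notMem hj]
    · ring
    · exact hS.union (J.finite_toSet.image _)
    · apply xx_notMem_Cl
      rintro x (hx | ⟨l, hl, rfl⟩)
      · exact hfree x hx j
      · apply Free.xx
        intro h1
        have := he h1
        subst this
        exact hj hl

/-! ### linear forms -/

variable [CharP k 2]

/-- linear forms with coefficients `0`, `1` -/
noncomputable def lf {m : ℕ} (e : Fin m → Fin r) (c : Fin m → ZMod 2) : PP k G r :=
  ∑ i, cc (ZMod.castHom (dvd_refl 2) k (c i)) * xx (e i) 1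

theorem lf_add {m : ℕ} (e : Fin m → Fin r) (c c' : Fin m → ZMod 2) :
    (lf e (c + c') : PP k G r) = lf e c + lf e c' := by
  unfold lf
  rw [← Finset.sum_add_distrib]
  apply Finset.sum_congr rfl
  intro i _
  rw [Pi.add_apply, map_add, map_add, add_mul]

theorem lf_zero {m : ℕ} (e : Fin m → Fin r) : (lf e 0 : PP k G r) = 0 := by
  unfold lf
  apply Finset.sum_eq_zero
  intro i _
  rw [Pi.zero_apply, map_zero, map_zero, zero_mul]

theorem kill_lf_one {m : ℕ} (e : Fin m → Fin r) (he : Function.Injective e) (c : Fin m → ZMod 2)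
    (i : Fin m) (hi : c i ≠ 0) : kill (e i, (1 : G)) (lf e c : PP k G r) ≠ lf e c := by
  classical
  unfold lf
  rw [map_sum]
  have hci : c i = 1 := by
    have : ∀ z : ZMod 2, z ≠ 0 → z = 1 := by decide
    exact this _ hi
  intro h
  rw [← Finset.add_sum_erase _ _ (Finset.mem_univ i),
    ← Finset.add_sum_erase (s := Finset.univ) (f := fun i => cc (ZMod.castHom (dvd_refl 2) k (c i)) *
      (xx (e i) 1 : PP k G r)) (h := Finset.mem_univ i)] at h
  have h1 : ∑ l ∈ Finset.univ.erase i, kill (e i, (1 : G))
      (cc (ZMod.castHom (dvd_refl 2) k (c l)) * (xx (e l) 1 : PP k G r)) =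
      ∑ l ∈ Finset.univ.erase i, cc (ZMod.castHom (dvd_refl 2) k (c l)) * (xx (e l) 1 : PP k G r) := by
    apply Finset.sum_congr rfl
    intro l hl
    rw [map_mul, kill_cc, kill_xx_ne]
    intro h2
    exact (Finset.ne_of_mem_erase hl) (he (Prod.mk.inj h2).1)
  rw [h1, map_mul, kill_cc, kill_xx_self, mul_zero, hci, map_one, map_one, one_mul] at h
  have h2 : (xx (e i) 1 : PP k G r) = 0 := by
    have := add_right_cancel h
    exact this.symm
  exact xx_ne_zero _ _ h2

theorem kill_lf_ne {m : ℕ} (e : Fin m → Fin r) (c : Fin m → ZMod 2) (i : Fin r) (h : G)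
    (hh : h ≠ 1) : kill (i, h) (lf e c : PP k G r) = lf e c := by
  unfold lf
  rw [map_sum]
  apply Finset.sum_congr rfl
  intro l _
  rw [map_mul, kill_cc, kill_xx_ne]
  intro h2
  exact hh (Prod.mk.inj h2).2.symm

theorem free_lf {m : ℕ} (e : Fin m → Fin r) (he : Function.Injective e) (c : Fin m → ZMod 2)
    (i : Fin m) (hi : c i = 0) : Free (e i) (lf e c : PP k G r) := by
  apply Free.sum
  intro l _
  by_cases hl : l = i
  · subst hl
    rw [hi, map_zero, map_zero, zero_mul]
    exact Free.zero _
  · exact (Free.cc _ _).mul (Free.xx (fun h => hl (he h)) 1)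

theorem free_lf_of_notMem {m : ℕ} (e : Fin m → Fin r) (c : Fin m → ZMod 2)
    (i : Fin r) (hi : ∀ l, e l ≠ i) : Free i (lf e c : PP k G r) := by
  apply Free.sum
  intro l _
  exact (Free.cc _ _).mul (Free.xx (hi l) 1)

theorem lf_injective {m : ℕ} (e : Fin m → Fin r) (he : Function.Injective e) :
    Function.Injective (lf e : (Fin m → ZMod 2) → PP k G r) := by
  intro c c' h
  by_contra hne
  obtain ⟨i, hi⟩ : ∃ i, c i ≠ c' i := by
    by_contra hcon
    push Not at hcon
    exact hne (funext hcon)
  have h1 : (lf e (c + c') : PP k G r) = 0 := by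
    have h0 : c' + c' = 0 := by
      funext i
      have : ∀ z : ZMod 2, z + z = 0 := by decide
      exact this (c' i)
    rw [lf_add, h, ← lf_add, h0, lf_zero]
  have h2 : (c + c') i ≠ 0 := by
    rw [Pi.add_apply]
    have : ∀ z w : ZMod 2, z ≠ w → z + w ≠ 0 := by decide
    exact this _ _ hi
  have h3 := kill_lf_one (k := k) (G := G) e he (c + c') i h2
  rw [h1, map_zero] at h3
  exact h3 rfl

/-- a space of linear forms of dimension `d` has rank at least `d` -/
theorem card_le_two_pow (hG : LeftInv G) {F : ℕ → Finset G} (hF : Folner F) {m : ℕ}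
    (e : Fin m → Fin r) (he : Function.Injective e) (W : AddSubgroup (Fin m → ZMod 2)) :
    Nat.card W ≤ 2 ^ drk (MM k G r) F ((lf e : (Fin m → ZMod 2) → PP k G r) '' (W : Set _)) := by
  classical
  have main : ∀ j : ℕ, j ≤ m → ∀ W : AddSubgroup (Fin m → ZMod 2),
      (∀ c ∈ W, ∀ i : Fin m, j ≤ (i : ℕ) → c i = 0) →
      Nat.card W ≤ 2 ^ drk (MM k G r) F ((lf e : (Fin m → ZMod 2) → PP k G r) '' (W : Set _)) := by
    intro j
    induction j with
    | zero =>
      intro _ W hW
      have h1 : W = ⊥ := by
        rw [eq_bot_iff]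
        intro c hc
        rw [AddSubgroup.mem_bot]
        funext i
        exact hW c hc i (Nat.zero_le _)
      rw [h1]
      simp only [AddSubgroup.card_bot]
      exact Nat.one_le_two_pow
    | succ j ih =>
      intro hj W hW
      set i0 : Fin m := ⟨j, by omega⟩ with hi0
      by_cases hall : ∀ c ∈ W, c i0 = 0
      · apply ih (by omega) W
        intro c hc i hi
        rcases Nat.lt_or_ge j (i : ℕ) with h | h
        · exact hW c hc i h
        · have : i = i0 := by
            apply Fin.ext
            simp only [hi0]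
            omega
          rw [this]
          exact hall c hc
      · push Not at hall
        obtain ⟨b, hb, hb0⟩ := hall
        set W' : AddSubgroup (Fin m → ZMod 2) :=
          W ⊓ (Pi.evalAddMonoidHom (fun _ : Fin m => ZMod 2) i0).ker with hW'
        have hmem : ∀ c, c ∈ W' ↔ c ∈ W ∧ c i0 = 0 := by
          intro c
          rw [hW', AddSubgroup.mem_inf, AddMonoidHom.mem_ker]
          rfl
        have hcard : Nat.card W ≤ Nat.card W' * 2 := by
          have hz : ∀ z w : ZMod 2, z ≠ 0 → w ≠ 0 → z + w = 0 := by decide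
          let f : W → W' × Bool := fun w => if h : (w : Fin m → ZMod 2) i0 = 0 then
            (⟨w, (hmem _).2 ⟨w.2, h⟩⟩, false) else
            (⟨(w : Fin m → ZMod 2) + b, (hmem _).2 ⟨W.add_mem w.2 hb, by
              rw [Pi.add_apply]; exact hz _ _ h hb0⟩⟩, true)
          have hf : Function.Injective f := by
            intro w w' hww
            simp only [f] at hww
            split_ifs at hww with h1 h2 h2
            · have h3 := congrArg (fun p : W' × Bool => ((p.1 : W') : Fin m → ZMod 2)) hww
              exact Subtype.ext h3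
            · have h3 := congrArg (fun p : W' × Bool => p.2) hww
              exact absurd h3 (by simp)
            · have h3 := congrArg (fun p : W' × Bool => p.2) hww
              exact absurd h3 (by simp)
            · have h3 := congrArg (fun p : W' × Bool => ((p.1 : W') : Fin m → ZMod 2)) hww
              exact Subtype.ext (add_right_cancel h3)
          have h4 := Nat.card_le_card_of_injective f hf
          rw [Nat.card_prod] at h4
          simpa using h4
        have hIH := ih (by omega) W' (by
          intro c hc i hi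
          rw [hmem] at hc
          rcases Nat.lt_or_ge j (i : ℕ) with h | h
          · exact hW c hc.1 i h
          · have : i = i0 := by
              apply Fin.ext
              simp only [hi0]
              omega
            rw [this]
            exact hc.2)
        have hfin : ((lf e : (Fin m → ZMod 2) → PP k G r) '' (W' : Set _)).Finite :=
          (Set.toFinite _).image _
        have hb' : (lf e b : PP k G r) ∉ Cl (MM k G r) G
            ((lf e : (Fin m → ZMod 2) → PP k G r) '' (W' : Set _)) := by
          apply notMem_Cl (i := e i0)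
          · exact kill_lf_one e he b i0 hb0
          · intro h hh
            exact kill_lf_ne e b _ h hh
          · rintro x ⟨c, hc, rfl⟩
            exact free_lf e he c i0 ((hmem c).1 hc).2
        have h5 := drk_insert_indep MM_E MM_equivar hG hF hfin hb'
        have h6 : drk (MM k G r) F (insert (lf e b)
            ((lf e : (Fin m → ZMod 2) → PP k G r) '' (W' : Set _))) ≤
            drk (MM k G r) F ((lf e : (Fin m → ZMod 2) → PP k G r) '' (W : Set _)) := by
          apply drk_mono MM_E MM_equivar hG hF ((Set.toFinite _).image _)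
          rw [insert_subset_iff]
          refine ⟨⟨b, hb, rfl⟩, image_mono ?_⟩
          intro c hc
          exact ((hmem c).1 hc).1
        rw [h5] at h6
        calc Nat.card W ≤ Nat.card W' * 2 := hcard
          _ ≤ 2 ^ drk (MM k G r) F ((lf e : (Fin m → ZMod 2) → PP k G r) '' (W' : Set _)) * 2 :=
            Nat.mul_le_mul_right _ hIH
          _ = 2 ^ (drk (MM k G r) F ((lf e : (Fin m → ZMod 2) → PP k G r) '' (W' : Set _)) + 1) := by
            rw [pow_succ]
          _ ≤ _ := Nat.pow_le_pow_right (by norm_num) h6
  exact main m le_rfl W (fun c _ i hi => absurd i.2 (by omega))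

end MFLB
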