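import Pool.Agent.MF.Frame2
import Pool.Agent.MF.ConcF

/-!
# MF.ConcM : the matroid of a finite space of polynomials, closure facts
-/

open Set Filter

set_option linter.unusedSectionVars false

namespace MFLB

/-! ### closure facts -/

section Cl

variable {k : Type*} {G : Type*} {r : ℕ} [CommRing k] [IsDomain k] [Group G] [LinearOrder G]
  [MulSemiringAction G k]

theorem mem_tr_one {S : Set (PP k G r)} {a : PP k G r} (ha : a ∈ S) :
    a ∈ tr (({1} : Finset G) : Set G) S := ⟨1, by simp, a, ha, (one_smul G a).symm⟩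

theorem subset_Cl (S : Set (PP k G r)) : S ⊆ Cl (MM k G r) G S := by
  intro a ha
  exact mem_Cl_of_adjoin {1} (Algebra.subset_adjoin (mem_tr_one ha))

theorem cl_zero (S : Set (PP k G r)) : (0 : PP k G r) ∈ Cl (MM k G r) G S :=
  mem_Cl_of_adjoin {1} (zero_mem _)

theorem cl_cc (S : Set (PP k G r)) (c : k) : (cc c : PP k G r) ∈ Cl (MM k G r) G S :=
  mem_Cl_of_adjoin {1} (Subalgebra.algebraMap_mem _ c)

/-- translates -/
theorem cl_smul {S : Set (PP k G r)} {a : PP k G r} (ha : a ∈ S) (h : G) :
    h • a ∈ Cl (MM k G r) G S :=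
  mem_Cl_of_adjoin {h} (Algebra.subset_adjoin ⟨h, by simp, a, ha, rfl⟩)

theorem cl_of_smul {S : Set (PP k G r)} {a : PP k G r} (h : G) (ha : h • a ∈ S) :
    a ∈ Cl (MM k G r) G S := by
  have h1 := cl_smul ha h⁻¹
  rwa [inv_smul_smul] at h1

theorem cl_add {S : Set (PP k G r)} {a b : PP k G r} (ha : a ∈ S) (hb : b ∈ S) :
    a + b ∈ Cl (MM k G r) G S :=
  mem_Cl_of_adjoin {1} (add_mem (Algebra.subset_adjoin (mem_tr_one ha))
    (Algebra.subset_adjoin (mem_tr_one hb)))

theorem cl_mul {S : Set (PP k G r)} {a b : PP k G r} (ha : a ∈ S) (hb : b ∈ S) :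
    a * b ∈ Cl (MM k G r) G S :=
  mem_Cl_of_adjoin {1} (mul_mem (Algebra.subset_adjoin (mem_tr_one ha))
    (Algebra.subset_adjoin (mem_tr_one hb)))

theorem cl_sq {S : Set (PP k G r)} {a : PP k G r} (ha : a ∈ S) :
    a ^ 2 ∈ Cl (MM k G r) G S := by
  rw [pow_two]
  exact cl_mul ha ha

theorem cl_cc_mul {S : Set (PP k G r)} {a : PP k G r} (ha : a ∈ S) (c : k) :
    cc c * a ∈ Cl (MM k G r) G S :=
  mem_Cl_of_adjoin {1} (mul_mem (Subalgebra.algebraMap_mem _ c)
    (Algebra.subset_adjoin (mem_tr_one ha)))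

/-- `a` is a root of a nonzero polynomial with coefficients in the algebra generated by `S` -/
theorem cl_of_poly {S : Set (PP k G r)} {a : PP k G r} (q : Polynomial (PP k G r)) (hq : q ≠ 0)
    (hc : ∀ j, q.coeff j ∈ Algebra.adjoin k S) (ha : q.eval a = 0) : a ∈ Cl (MM k G r) G S := by
  apply mem_Cl_of_closure {1}
  rw [mem_closure_iff]
  refine ⟨q, hq, fun j => ?_, ha⟩
  exact Algebra.adjoin_mono (fun x hx => mem_tr_one hx) (hc j)

/-- root of a linear polynomial -/
theorem cl_of_lin {S : Set (PP k G r)} {a b c : PP k G r} (hb : b ∈ Algebra.adjoin k S)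
    (hc : c ∈ Algebra.adjoin k S) (hb0 : b ≠ 0) (h : b * a = c) : a ∈ Cl (MM k G r) G S := by
  refine cl_of_poly (Polynomial.C b * Polynomial.X - Polynomial.C c) ?_ ?_ ?_
  · intro h0
    have h1 := congrArg (fun p => Polynomial.coeff p 1) h0
    simp at h1
    exact hb0 h1
  · intro j
    rw [Polynomial.coeff_sub, Polynomial.coeff_C_mul, Polynomial.coeff_X, Polynomial.coeff_C]
    split_ifs
    · exact sub_mem (mul_mem hb (one_mem _)) hc
    · exact sub_mem (mul_mem hb (one_mem _)) (zero_mem _)
    · exact sub_mem (mul_mem hb (zero_mem _)) hc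
    · exact sub_mem (mul_mem hb (zero_mem _)) (zero_mem _)
  · simp [h]

/-- division: `a ∈ cl {b, b a}` for `b ≠ 0` -/
theorem cl_div {S : Set (PP k G r)} {a b : PP k G r} (hb0 : b ≠ 0) (hb : b ∈ S) (hab : b * a ∈ S) :
    a ∈ Cl (MM k G r) G S :=
  cl_of_lin (Algebra.subset_adjoin hb) (Algebra.subset_adjoin hab) hb0 rfl

/-- `a ∈ cl {c a}` for a constant `c ≠ 0` -/
theorem cl_of_cc_mul {S : Set (PP k G r)} {a : PP k G r} {c : k} (hc0 : c ≠ 0)
    (ha : cc c * a ∈ S) : a ∈ Cl (MM k G r) G S := by
  refine cl_of_lin (b := cc c) (Subalgebra.algebraMap_mem _ c) (Algebra.subset_adjoin ha) ?_ rfl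
  intro h
  apply hc0
  apply cc_injective (k := k) (G := G) (r := r)
  rw [h, map_zero]

/-- `a ∈ cl {a ^ 2}` -/
theorem cl_of_sq {S : Set (PP k G r)} {a : PP k G r} (ha : a ^ 2 ∈ S) :
    a ∈ Cl (MM k G r) G S := by
  refine cl_of_poly (Polynomial.X ^ 2 - Polynomial.C (a ^ 2)) (Polynomial.X_pow_sub_C_ne_zero
    (by norm_num) _) ?_ (by simp)
  intro j
  rw [Polynomial.coeff_sub, Polynomial.coeff_X_pow, Polynomial.coeff_C]
  have h1 : a ^ 2 ∈ Algebra.adjoin k S := Algebra.subset_adjoin ha
  split_ifs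
  · exact sub_mem (one_mem _) h1
  · exact sub_mem (one_mem _) (zero_mem _)
  · exact sub_mem (zero_mem _) h1
  · exact sub_mem (zero_mem _) (zero_mem _)

/-- `a ∈ cl {a + b, a b}` -/
theorem cl_of_sum_prod {S : Set (PP k G r)} {a b : PP k G r} (h1 : a + b ∈ S) (h2 : a * b ∈ S) :
    a ∈ Cl (MM k G r) G S := by
  refine cl_of_poly (Polynomial.X ^ 2 - Polynomial.C (a + b) * Polynomial.X +
    Polynomial.C (a * b)) ?_ ?_ ?_
  · intro h0
    have h3 := congrArg (fun p => Polynomial.coeff p 2) h0
    simp at h3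
  · intro j
    rw [Polynomial.coeff_add, Polynomial.coeff_sub, Polynomial.coeff_X_pow,
      Polynomial.coeff_C_mul, Polynomial.coeff_X, Polynomial.coeff_C]
    have e1 : a + b ∈ Algebra.adjoin k S := Algebra.subset_adjoin h1
    have e2 : a * b ∈ Algebra.adjoin k S := Algebra.subset_adjoin h2
    refine add_mem (sub_mem ?_ (mul_mem e1 ?_)) ?_
    · split_ifs
      · exact one_mem _
      · exact zero_mem _
    · split_ifs
      · exact one_mem _
      · exact zero_mem _
    · split_ifs
      · exact e2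
      · exact zero_mem _
  · simp only [Polynomial.eval_add, Polynomial.eval_sub, Polynomial.eval_pow, Polynomial.eval_X,
      Polynomial.eval_mul, Polynomial.eval_C]
    ring

theorem drk_singleton (hG : LeftInv G) {F : ℕ → Finset G} (hF : Folner F) {a : PP k G r}
    (ha : a ∉ Set.range (cc : k →+* PP k G r)) : drk (MM k G r) F ({a} : Set (PP k G r)) = 1 := by
  have h1 : IsRk (MM k G r) F ({a} : Set (PP k G r)) 1 := by
    unfold IsRk
    have h2 : (fun m => (rkf (MM k G r) (F m) ({a} : Set (PP k G r)) : ℝ) / ((F m).card : ℝ)) =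
        fun _ => (1 : ℝ) := by
      funext m
      have h3 : rkf (MM k G r) (F m) ({a} : Set (PP k G r)) = (F m).card := by
        unfold rkf
        rw [eRk_tr_singleton hG ha (F m)]
        exact ENat.toNat_natCast _
      have hpos : ((F m).card : ℝ) ≠ 0 := by
        have := (hF.1 m).card_pos
        exact_mod_cast this.ne'
      rw [h3, div_self hpos]
    rw [h2]
    simp
  exact (drk_spec MM_E MM_equivar hG hF (Set.finite_singleton a)).unique h1

theorem drk_zero_singleton (hG : LeftInv G) {F : ℕ → Finset G} (hF : Folner F) :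
    drk (MM k G r) F ({0} : Set (PP k G r)) = 0 := by
  have h1 := drk_insert_dep (M := MM k G r) MM_E MM_equivar hG hF Set.finite_empty
    (cl_zero (k := k) (G := G) (r := r) ∅)
  rw [insert_empty_eq] at h1
  rw [h1]
  exact (drk_spec MM_E MM_equivar hG hF Set.finite_empty).unique (isRk_empty _ F)

end Cl

/-! ### the matroid -/

section Mat

open Pool.Agent.MF (Mat)

variable {k G : Type} {r : ℕ} [CommRing k] [IsDomain k] [Group G] [LinearOrder G]
  [MulSemiringAction G k]

/-- the matroid of a finite space of polynomials, all nonconstant except `0` -/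
noncomputable def matOf (hG : LeftInv G) (F : ℕ → Finset G) (hF : Folner F) {V : Type}
    [AddCommGroup V] [Fintype V] [DecidableEq V] (ι : V →+ PP k G r)
    (hnc : ∀ v : V, v ≠ 0 → ι v ∉ Set.range (cc : k →+* PP k G r)) (h2 : ∀ v : V, v + v = 0) :
    Mat V where
  two := h2
  rk S := drk (MM k G r) F (ι '' (S : Set V))
  rk_empty := by
    rw [Finset.coe_empty, image_empty]
    exact (drk_spec MM_E MM_equivar hG hF Set.finite_empty).unique (isRk_empty _ F)
  rk_insert_le v S := by
    rw [Finset.coe_insert, image_insert_eq]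
    have hS : (ι '' (S : Set V)).Finite := S.finite_toSet.image _
    by_cases hv : ι v ∈ Cl (MM k G r) G (ι '' (S : Set V))
    · rw [drk_insert_dep MM_E MM_equivar hG hF hS hv]
      omega
    · rw [drk_insert_indep MM_E MM_equivar hG hF hS hv]
  rk_mono h := drk_mono MM_E MM_equivar hG hF ((Finset.finite_toSet _).image _)
    (image_mono (by exact_mod_cast h))
  rk_submod A B := by
    have hinj : Function.Injective ι := by
      rw [injective_iff_map_eq_zero]
      intro v hv
      by_contra hv0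
      exact hnc v hv0 ⟨0, by rw [map_zero, hv]⟩
    rw [Finset.coe_union, Finset.coe_inter, image_union, image_inter hinj]
    exact drk_submod MM_E MM_equivar hG hF ((Finset.finite_toSet _).image _)
      ((Finset.finite_toSet _).image _)
  rk_zero := by
    rw [Finset.coe_singleton, image_singleton, map_zero]
    exact drk_zero_singleton hG hF
  rk_single v hv := by
    rw [Finset.coe_singleton, image_singleton]
    exact drk_singleton hG hF (hnc v hv)
  rk_add u v := by
    apply drk_eq_of_subset_Cl MM_E MM_equivar hG hF ((Finset.finite_toSet _).image _)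
    · apply image_mono
      intro x hx
      simp only [Finset.coe_insert, Finset.coe_singleton, mem_insert_iff, mem_singleton_iff] at hx ⊢
      tauto
    · rintro _ ⟨x, hx, rfl⟩
      simp only [Finset.coe_insert, Finset.coe_singleton, mem_insert_iff, mem_singleton_iff] at hx
      rcases hx with rfl | rfl | rfl
      · exact subset_Cl _ ⟨x, by simp, rfl⟩
      · exact subset_Cl _ ⟨x, by simp, rfl⟩
      · rw [map_add]
        exact cl_add ⟨u, by simp, rfl⟩ ⟨v, by simp, rfl⟩

variable (hG : LeftInv G) (F : ℕ → Finset G) (hF : Folner F) {V : Type}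
    [AddCommGroup V] [Fintype V] [DecidableEq V] (ι : V →+ PP k G r)
    (hnc : ∀ v : V, v ≠ 0 → ι v ∉ Set.range (cc : k →+* PP k G r)) (h2 : ∀ v : V, v + v = 0)

theorem matOf_rk (S : Finset V) :
    (matOf hG F hF ι hnc h2).rk S = drk (MM k G r) F (ι '' (S : Set V)) := rfl

theorem matOf_inCl (S : Finset V) (v : V) :
    (matOf hG F hF ι hnc h2).InCl S v ↔ ι v ∈ Cl (MM k G r) G (ι '' (S : Set V)) := by
  unfold Mat.InCl
  rw [matOf_rk, matOf_rk, Finset.coe_insert, image_insert_eq]
  exact drk_mem_Cl_iff MM_E MM_equivar hG hF (S.finite_toSet.image _)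

end Mat

end MFLB
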