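import Pool.Agent.MF.ConcM

/-!
# MF.ConcN : the near space, fresh variables, linear part and the algebra of Section 8
-/

open Set Filter

set_option linter.unusedSectionVars false

namespace MFLB

open Pool.Agent.MF (Mat LinPart KillAlg)

section

variable {k G : Type} {m s : ℕ} [CommRing k] [IsDomain k] [Group G] [LinearOrder G]
  [MulSemiringAction G k]

/-- the constant coefficient -/
noncomputable def c0 {r : ℕ} : PP k G r →+* k := ev (RingHom.id k) 0

theorem c0_cc {r : ℕ} (c : k) : c0 (cc c : PP k G r) = c := by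
  unfold c0
  rw [ev_cc]
  rfl

theorem c0_xx {r : ℕ} (i : Fin r) (h : G) : c0 (xx i h : PP k G r) = 0 := by
  unfold c0
  rw [ev_xx]
  rfl

/-- near spaces: finite groups of polynomials without the variables of index `m, .., m + s - 1`, all nonconstant
except `0` -/
structure Near (N0 : AddSubgroup (PP k G (m + s))) : Prop where
  fin : (N0 : Set (PP k G (m + s))).Finite
  free : ∀ a ∈ N0, ∀ j : Fin s, Free (Fin.natAdd m j) a
  nc : ∀ a ∈ N0, a ≠ 0 → a ∉ Set.range (cc : k →+* PP k G (m + s))

variable [CharP k 2]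

theorem add_self_PP {r : ℕ} (a : PP k G r) : a + a = 0 := by
  have h1 : (2 : k) = 0 := by exact_mod_cast CharP.cast_eq_zero k 2
  have h2 : (cc (2 : k) : PP k G r) = 0 := by rw [h1, map_zero]
  have h3 : (cc (2 : k) : PP k G r) = 2 := by
    have : (2 : k) = 1 + 1 := by norm_num
    rw [this, map_add, map_one]
    norm_num
  rw [← two_mul, ← h3, h2, zero_mul]

theorem neg_PP {r : ℕ} (a : PP k G r) : -a = a := by
  rw [neg_eq_iff_add_eq_zero]
  exact add_self_PP a

/-- a finitely generated group of polynomials is finite -/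
theorem closure_finite {r : ℕ} (Gen : Set (PP k G r)) (h : Gen.Finite) :
    (AddSubgroup.closure Gen : Set (PP k G r)).Finite := by
  classical
  induction Gen, h using Set.Finite.induction_on with
  | empty => simp
  | @insert a S _ hS ih =>
    have hsub : (AddSubgroup.closure (insert a S) : Set (PP k G r)) ⊆
        (AddSubgroup.closure S : Set (PP k G r)) ∪
          (fun x => a + x) '' (AddSubgroup.closure S : Set (PP k G r)) := by
      intro x hx
      rw [SetLike.mem_coe] at hx
      induction hx using AddSubgroup.closure_induction with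
      | mem x hx =>
        rcases hx with rfl | hx
        · right
          exact ⟨0, zero_mem _, by simp⟩
        · left
          exact AddSubgroup.subset_closure hx
      | zero => exact Or.inl (zero_mem _)
      | add x y _ _ hx hy =>
        rcases hx with hx | ⟨x', hx', rfl⟩ <;> rcases hy with hy | ⟨y', hy', rfl⟩
        · exact Or.inl (add_mem hx hy)
        · right
          exact ⟨x + y', add_mem hx hy', by simp only; ring⟩
        · right
          exact ⟨x' + y, add_mem hx' hy, by simp only; ring⟩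
        · left
          have h1 : a + x' + (a + y') = x' + y' := by
            have : a + x' + (a + y') = (a + a) + (x' + y') := by ring
            rw [this, add_self_PP, zero_add]
          simp only
          rw [h1]
          exact add_mem hx' hy'
      | neg x _ hx => rwa [neg_PP]
    exact (ih.union (ih.image _)).subset hsub

/-- near spaces from generators -/
theorem near_of_gen (Gen : Set (PP k G (m + s))) (h : Gen.Finite)
    (hfree : ∀ a ∈ Gen, ∀ j : Fin s, Free (Fin.natAdd m j) a) (hc : ∀ a ∈ Gen, c0 a = 0) :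
    Near (AddSubgroup.closure Gen) := by
  refine ⟨closure_finite Gen h, ?_, ?_⟩
  · intro a ha j
    induction ha using AddSubgroup.closure_induction with
    | mem x hx => exact hfree x hx j
    | zero => exact Free.zero _
    | add x y _ _ hx hy => exact hx.add hy
    | neg x _ hx => rwa [neg_PP]
  · intro a ha ha0
    have h1 : c0 a = 0 := by
      induction ha using AddSubgroup.closure_induction with
      | mem x hx => exact hc x hx
      | zero => exact map_zero _
      | add x y hx' hy' hx hy =>
        have hx0 : c0 x = 0 := by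
          by_cases h0 : x = 0
          · rw [h0, map_zero]
          · exact hx h0
        have hy0 : c0 y = 0 := by
          by_cases h0 : y = 0
          · rw [h0, map_zero]
          · exact hy h0
        rw [map_add, hx0, hy0, add_zero]
      | neg x _ hx =>
        rw [neg_PP] at ha0 ⊢
        exact hx ha0
    rintro ⟨c, rfl⟩
    rw [c0_cc] at h1
    rw [h1, map_zero] at ha0
    exact ha0 rfl

/-- the embedding of the roles -/
noncomputable def iotaN (N0 : AddSubgroup (PP k G (m + s))) :
    (N0 × (Fin s → ZMod 2)) →+ PP k G (m + s) where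
  toFun p := (p.1 : PP k G (m + s)) + lf (Fin.natAdd m) p.2
  map_zero' := by
    simp only [Prod.fst_zero, Prod.snd_zero, lf_zero]
    simp
  map_add' p q := by
    simp only [Prod.fst_add, Prod.snd_add, lf_add, AddSubgroup.coe_add]
    ring

theorem iotaN_apply (N0 : AddSubgroup (PP k G (m + s))) (p : N0 × (Fin s → ZMod 2)) :
    iotaN N0 p = (p.1 : PP k G (m + s)) + lf (Fin.natAdd m) p.2 := rfl

theorem iotaN_near (N0 : AddSubgroup (PP k G (m + s))) (v : N0) :
    iotaN N0 (v, 0) = (v : PP k G (m + s)) := by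
  rw [iotaN_apply, lf_zero, add_zero]

theorem iotaN_nc {N0 : AddSubgroup (PP k G (m + s))} (hN : Near N0) (p : N0 × (Fin s → ZMod 2))
    (hp : p ≠ 0) : iotaN N0 p ∉ Set.range (cc : k →+* PP k G (m + s)) := by
  rintro ⟨c, hc⟩
  rw [iotaN_apply] at hc
  have hw : p.2 = 0 := by
    by_contra hw
    obtain ⟨j, hj⟩ : ∃ j, p.2 j ≠ 0 := by
      by_contra hcon
      push Not at hcon
      exact hw (funext hcon)
    apply kill_lf_one (k := k) (G := G) (r := m + s) (Fin.natAdd m) (Fin.natAdd_injective s m)
      p.2 j hj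
    have h1 := congrArg (kill (Fin.natAdd m j, (1 : G))) hc
    rw [kill_cc, map_add, hN.free _ p.1.2 j] at h1
    rw [hc] at h1
    exact (add_left_cancel h1).symm
  rw [hw, lf_zero, add_zero] at hc
  refine hN.nc _ p.1.2 ?_ ⟨c, hc⟩
  intro h0
  apply hp
  exact Prod.ext (Subtype.ext h0) hw

theorem two_near (N0 : AddSubgroup (PP k G (m + s))) (p : N0 × (Fin s → ZMod 2)) : p + p = 0 := by
  apply Prod.ext
  · apply Subtype.ext
    exact add_self_PP _
  · funext j
    have : ∀ z : ZMod 2, z + z = 0 := by decide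
    exact this _

variable (hG : LeftInv G) (F : ℕ → Finset G) (hF : Folner F) (N0 : AddSubgroup (PP k G (m + s)))
  (hN : Near N0) [Fintype N0] [DecidableEq N0]

/-- the matroid of all roles -/
noncomputable def matN : Mat (N0 × (Fin s → ZMod 2)) :=
  matOf hG F hF (iotaN N0) (iotaN_nc hN) (two_near N0)

theorem near_rk (S : Finset N0) : (matN hG F hF N0 hN).near.rk S =
    drk (MM k G (m + s)) F ((fun v : N0 => (v : PP k G (m + s))) '' (S : Set N0)) := by
  show (matN hG F hF N0 hN).rk (S.image (fun v => ((v, 0) : N0 × (Fin s → ZMod 2)))) = _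
  unfold matN
  rw [matOf_rk, Finset.coe_image, image_image]
  congr 1
  apply image_congr
  intro v _
  exact iotaN_near N0 v

theorem near_inCl (S : Finset N0) (v : N0) : (matN hG F hF N0 hN).near.InCl S v ↔
    (v : PP k G (m + s)) ∈ Cl (MM k G (m + s)) G
      ((fun v : N0 => (v : PP k G (m + s))) '' (S : Set N0)) := by
  unfold Mat.InCl
  rw [near_rk, near_rk, Finset.coe_insert, image_insert_eq]
  exact drk_mem_Cl_iff MM_E MM_equivar hG hF (S.finite_toSet.image _)

theorem lf_mem_adjoin {r m' : ℕ} (e : Fin m' → Fin r) (c : Fin m' → ZMod 2) (S : Set (PP k G r))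
    (h : ∀ i, (xx (e i) 1 : PP k G r) ∈ Algebra.adjoin k S) :
    (lf e c : PP k G r) ∈ Algebra.adjoin k S := by
  unfold lf
  apply sum_mem
  intro i _
  exact mul_mem (Subalgebra.algebraMap_mem _ _) (h i)

/-- C3: the rank of the whole space -/
theorem rank_near : (matN hG F hF N0 hN).r = (matN hG F hF N0 hN).near.r + s := by
  classical
  unfold Mat.r
  rw [near_rk, Finset.coe_univ, image_univ]
  set S : Set (PP k G (m + s)) := Set.range (fun v : N0 => (v : PP k G (m + s))) with hS
  have hSfin : S.Finite := Set.finite_range _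
  have h1 := drk_union_fresh (k := k) hG hF (Fin.natAdd m : Fin s → Fin (m + s))
    (Fin.natAdd_injective s m) hSfin (by
      rintro a ⟨v, rfl⟩ j
      exact hN.free _ v.2 j) Finset.univ
  rw [Finset.card_univ, Fintype.card_fin] at h1
  rw [← h1]
  have hrk : (matN hG F hF N0 hN).rk Finset.univ =
      drk (MM k G (m + s)) F (iotaN N0 '' ((Finset.univ : Finset (N0 × (Fin s → ZMod 2))) : Set _)) := rfl
  rw [hrk]
  apply drk_eq_of_subset_Cl MM_E MM_equivar hG hF ((Finset.finite_toSet _).image _)
  · rintro a (⟨v, rfl⟩ | ⟨j, _, rfl⟩)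
    · exact ⟨(v, 0), by simp, iotaN_near N0 v⟩
    · refine ⟨(0, Pi.single j 1), by simp, ?_⟩
      rw [iotaN_apply]
      simp only [ZeroMemClass.coe_zero, zero_add]
      unfold lf
      rw [Finset.sum_eq_single j]
      · rw [Pi.single_eq_same, map_one, map_one, one_mul]
      · intro l _ hl
        rw [Pi.single_eq_of_ne hl, map_zero, map_zero, zero_mul]
      · intro h
        exact absurd (Finset.mem_univ j) h
  · rintro _ ⟨p, _, rfl⟩
    rw [iotaN_apply]
    apply mem_Cl_of_adjoin {1}
    apply add_mem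
    · exact Algebra.subset_adjoin (mem_tr_one (Or.inl ⟨p.1, rfl⟩))
    · apply lf_mem_adjoin
      intro i
      exact Algebra.subset_adjoin (mem_tr_one (Or.inr ⟨i, by simp, rfl⟩))

/-- the linear forms in the near variables -/
noncomputable def LinN : Finset N0 := by
  classical
  exact Finset.univ.filter (fun v => ∃ c : Fin m → ZMod 2, (v : PP k G (m + s)) = lf (Fin.castAdd s) c)

theorem mem_LinN (v : N0) : v ∈ LinN N0 ↔ ∃ c : Fin m → ZMod 2,
    (v : PP k G (m + s)) = lf (Fin.castAdd s) c := by
  classical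
  unfold LinN
  simp

/-- the set of the coefficient vectors whose linear form depends on `S` -/
noncomputable def coefCl {F : ℕ → Finset G} (hG : LeftInv G) (hF : Folner F)
    (S : Set (PP k G (m + s))) (hS : S.Finite) : AddSubgroup (Fin m → ZMod 2) where
  carrier := {c | (lf (Fin.castAdd s) c : PP k G (m + s)) ∈ Cl (MM k G (m + s)) G S}
  zero_mem' := by
    show (lf (Fin.castAdd s) 0 : PP k G (m + s)) ∈ Cl (MM k G (m + s)) G S
    rw [lf_zero]
    exact cl_zero S
  add_mem' := by
    intro c c' hc hc'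
    show (lf (Fin.castAdd s) (c + c') : PP k G (m + s)) ∈ Cl (MM k G (m + s)) G S
    rw [lf_add]
    have hT : ({(lf (Fin.castAdd s) c : PP k G (m + s)), lf (Fin.castAdd s) c'} :
        Set (PP k G (m + s))).Finite := Set.toFinite _
    refine Cl_trans MM_E MM_equivar hG hF hS hT ?_ (cl_add (S := {(lf (Fin.castAdd s) c :
      PP k G (m + s)), lf (Fin.castAdd s) c'}) (by simp) (by simp))
    intro x hx
    rcases hx with rfl | hx
    · exact hc
    · rw [Set.mem_singleton_iff] at hx
      rw [hx]
      exact hc'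
  neg_mem' := by
    intro c hc
    have h0 : -c = c := by
      funext i
      have : ∀ z : ZMod 2, -z = z := by decide
      exact this _
    rw [h0]
    exact hc

/-- C4: the linear part -/
theorem linPart_near (hm : 10 ≤ m) (hL : ∀ c : Fin m → ZMod 2,
    (lf (Fin.castAdd s) c : PP k G (m + s)) ∈ N0) :
    LinPart (matN hG F hF N0 hN).near (LinN N0) := by
  classical
  have hcast : Function.Injective (Fin.castAdd s : Fin m → Fin (m + s)) :=
    Fin.castAdd_injective m s
  refine ⟨?_, ?_, ?_, ?_⟩
  · rw [mem_LinN]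
    exact ⟨0, by rw [lf_zero]; rfl⟩
  · intro u hu v hv
    rw [mem_LinN] at hu hv ⊢
    obtain ⟨c, hc⟩ := hu
    obtain ⟨c', hc'⟩ := hv
    refine ⟨c + c', ?_⟩
    rw [lf_add, ← hc, ← hc']
    rfl
  · have h1 : (Finset.univ : Finset (Fin m → ZMod 2)).card ≤ (LinN N0).card := by
      apply Finset.card_le_card_of_injOn (fun c : Fin m → ZMod 2 =>
        (⟨(lf (Fin.castAdd s) c : PP k G (m + s)), hL c⟩ : N0))
      · intro c _
        exact (mem_LinN N0 _).2 ⟨c, rfl⟩
      · intro c _ c' _ h
        have h2 := congrArg (fun v : N0 => (v : PP k G (m + s))) h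
        exact lf_injective (k := k) (G := G) (Fin.castAdd s) hcast h2
    refine le_trans ?_ h1
    rw [Finset.card_univ, Fintype.card_fun, ZMod.card, Fintype.card_fin]
    exact Nat.pow_le_pow_right (by norm_num) hm
  · intro S A hA
    rw [near_rk]
    set S' : Set (PP k G (m + s)) := (fun v : N0 => (v : PP k G (m + s))) '' (S : Set N0) with hS'
    have hS'fin : S'.Finite := S.finite_toSet.image _
    set W := coefCl (m := m) (s := s) hG hF S' hS'fin with hW
    have h1 := card_le_two_pow (k := k) hG hF (Fin.castAdd s) hcast W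
    have h2 : drk (MM k G (m + s)) F
        ((lf (Fin.castAdd s) : (Fin m → ZMod 2) → PP k G (m + s)) '' (W : Set _)) ≤
        drk (MM k G (m + s)) F S' := by
      apply drk_le_of_subset_Cl MM_E MM_equivar hG hF hS'fin ((Set.toFinite _).image _)
      rintro _ ⟨c, hc, rfl⟩
      exact hc
    have h3 : A.card ≤ Nat.card W := by
      have hex : ∀ v : N0, v ∈ A → ∃ c : W, (v : PP k G (m + s)) = lf (Fin.castAdd s) (c : Fin m → ZMod 2) := by
        intro v hv
        obtain ⟨hv1, hv2⟩ := hA v hv
        rw [mem_LinN] at hv1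
        obtain ⟨c, hc⟩ := hv1
        rw [near_inCl, hc] at hv2
        exact ⟨⟨c, hv2⟩, hc⟩
      choose f hf using hex
      have h4 : Function.Injective (fun v : A => f v.1 v.2) := by
        intro v w hvw
        apply Subtype.ext
        apply Subtype.ext
        rw [hf v.1 v.2, hf w.1 w.2]
        simp only at hvw
        rw [hvw]
      have h5 := Nat.card_le_card_of_injective _ h4
      rwa [Nat.card_eq_fintype_card, Fintype.card_coe] at h5
    exact h3.trans (h1.trans (Nat.pow_le_pow_right (by norm_num) h2))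

/-- a map of polynomials as a map of roles -/
noncomputable def toN (f : PP k G (m + s) → PP k G (m + s)) (v : N0) : N0 := by
  classical
  exact if h : f v ∈ N0 then ⟨f v, h⟩ else 0

theorem toN_coe (f : PP k G (m + s) → PP k G (m + s)) (v : N0) (h : f v ∈ N0) :
    ((toN N0 f v : N0) : PP k G (m + s)) = f v := by
  unfold toN
  rw [dif_pos h]

/-- C5: the algebra of Section 8 -/
theorem killAlg_near (hm : 10 ≤ m) (hL : ∀ c : Fin m → ZMod 2,
    (lf (Fin.castAdd s) c : PP k G (m + s)) ∈ N0) (i0 i1 : Fin m) (h01 : i0 ≠ i1)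
    (a b : N0) (ha : (a : PP k G (m + s)) = xx (Fin.castAdd s i0) 1)
    (hb : (b : PP k G (m + s)) = xx (Fin.castAdd s i1) 1)
    (hA : ∀ c : Fin m → ZMod 2, (a : PP k G (m + s)) * lf (Fin.castAdd s) c ∈ N0)
    (hB : ∀ c : Fin m → ZMod 2, (b : PP k G (m + s)) * lf (Fin.castAdd s) c ∈ N0)
    (hsq : ∀ c : Fin m → ZMod 2, (lf (Fin.castAdd s) c : PP k G (m + s)) ^ 2 ∈ N0) :
    KillAlg (matN hG F hF N0 hN).near (LinN N0) a b (toN N0 (fun x => (a : PP k G (m + s)) * x))
      (toN N0 (fun x => (b : PP k G (m + s)) * x)) (toN N0 (fun x => x ^ 2)) := by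
  classical
  have hlin1 : ∀ i : Fin m, (lf (Fin.castAdd s) (Pi.single i 1) : PP k G (m + s)) =
      xx (Fin.castAdd s i) 1 := by
    intro i
    unfold lf
    rw [Finset.sum_eq_single i]
    · rw [Pi.single_eq_same, map_one, map_one, one_mul]
    · intro l _ hl
      rw [Pi.single_eq_of_ne hl, map_zero, map_zero, zero_mul]
    · intro h
      exact absurd (Finset.mem_univ i) h
  have ha_mem : a ∈ LinN N0 := by
    rw [mem_LinN]
    exact ⟨Pi.single i0 1, by rw [hlin1, ha]⟩
  have hb_mem : b ∈ LinN N0 := by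
    rw [mem_LinN]
    exact ⟨Pi.single i1 1, by rw [hlin1, hb]⟩
  have hAc : ∀ v ∈ LinN N0, ((toN N0 (fun x => (a : PP k G (m + s)) * x) v : N0) :
      PP k G (m + s)) = a * v := by
    intro v hv
    rw [mem_LinN] at hv
    obtain ⟨c, hc⟩ := hv
    apply toN_coe
    rw [hc]
    exact hA c
  have hBc : ∀ v ∈ LinN N0, ((toN N0 (fun x => (b : PP k G (m + s)) * x) v : N0) :
      PP k G (m + s)) = b * v := by
    intro v hv
    rw [mem_LinN] at hv
    obtain ⟨c, hc⟩ := hv
    apply toN_coe
    rw [hc]
    exact hB c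
  have hQc : ∀ v ∈ LinN N0, ((toN N0 (fun x => x ^ 2) v : N0) :
      PP k G (m + s)) = (v : PP k G (m + s)) ^ 2 := by
    intro v hv
    rw [mem_LinN] at hv
    obtain ⟨c, hc⟩ := hv
    apply toN_coe
    rw [hc]
    exact hsq c
  have hlp := linPart_near hG F hF N0 hN hm hL
  have ha0 : (a : PP k G (m + s)) ≠ 0 := by
    rw [ha]
    exact xx_ne_zero _ _
  have hb0 : (b : PP k G (m + s)) ≠ 0 := by
    rw [hb]
    exact xx_ne_zero _ _
  have hab0 : ((a + b : N0) : PP k G (m + s)) ≠ 0 := by
    intro h
    have h1 : (a : PP k G (m + s)) + b = 0 := h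
    have h2 : (xx (Fin.castAdd s i0) 1 : PP k G (m + s)) = xx (Fin.castAdd s i1) 1 := by
      rw [← ha, ← hb]
      have h3 : (a : PP k G (m + s)) = -b := eq_neg_of_add_eq_zero_left h1
      rw [h3, neg_PP]
    have h4 := congrArg (kill (Fin.castAdd s i0, (1 : G))) h2
    rw [kill_xx_self, kill_xx_ne] at h4
    · exact xx_ne_zero _ _ h4.symm
    · intro h5
      exact h01 ((Fin.castAdd_injective m s) (Prod.mk.inj h5).1).symm
  refine ⟨hlp, ha_mem, hb_mem, ?_, ?_, ?_, ?_, ?_, ?_, ?_, ?_, ?_, ?_, ?_, ?_, ?_, ?_, ?_⟩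
  · rw [near_rk, Finset.coe_insert, Finset.coe_singleton, image_insert_eq, image_singleton]
    rw [drk_insert_indep MM_E MM_equivar hG hF (Set.finite_singleton _), drk_singleton hG hF]
    · rintro ⟨c, hc⟩
      refine hN.nc _ b.2 hb0 ⟨c, hc⟩
    · rw [ha]
      apply xx_notMem_Cl
      intro x hx
      rw [Set.mem_singleton_iff] at hx
      rw [hx, hb]
      apply Free.xx
      intro h5
      exact h01 ((Fin.castAdd_injective m s) h5).symm
  · intro u hu v hv
    apply Subtype.ext
    rw [hAc _ (hlp.add u hu v hv), AddSubgroup.coe_add, AddSubgroup.coe_add, hAc u hu, hAc v hv]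
    ring
  · intro u hu v hv
    apply Subtype.ext
    rw [hBc _ (hlp.add u hu v hv), AddSubgroup.coe_add, AddSubgroup.coe_add, hBc u hu, hBc v hv]
    ring
  · intro u hu v hv
    apply Subtype.ext
    rw [hQc _ (hlp.add u hu v hv), AddSubgroup.coe_add, AddSubgroup.coe_add, hQc u hu, hQc v hv]
    have h1 : ((u : PP k G (m + s)) + v) ^ 2 = (u : PP k G (m + s)) ^ 2 + (v : PP k G (m + s)) ^ 2 +
        ((u : PP k G (m + s)) * v + (u : PP k G (m + s)) * v) := by ring
    rw [h1, add_self_PP, add_zero]
  · intro v hv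
    rw [near_inCl, hAc v hv]
    exact cl_mul ⟨a, by simp, rfl⟩ ⟨v, by simp, rfl⟩
  · intro v hv
    rw [near_inCl]
    refine cl_div ha0 ⟨a, by simp, rfl⟩ ⟨toN N0 (fun x => (a : PP k G (m + s)) * x) v, by simp, ?_⟩
    exact hAc v hv
  · intro v hv
    rw [near_inCl, hBc v hv]
    exact cl_mul ⟨b, by simp, rfl⟩ ⟨v, by simp, rfl⟩
  · intro v hv
    rw [near_inCl]
    refine cl_div hb0 ⟨b, by simp, rfl⟩ ⟨toN N0 (fun x => (b : PP k G (m + s)) * x) v, by simp, ?_⟩
    exact hBc v hv
  · intro v hv
    rw [near_inCl, AddSubgroup.coe_add, hAc v hv, hBc v hv, ← add_mul]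
    exact cl_mul ⟨a + b, by simp, rfl⟩ ⟨v, by simp, rfl⟩
  · intro v hv
    rw [near_inCl]
    refine cl_div hab0 ⟨a + b, by simp, rfl⟩
      ⟨toN N0 (fun x => (a : PP k G (m + s)) * x) v + toN N0 (fun x => (b : PP k G (m + s)) * x) v,
        by simp, ?_⟩
    show (((toN N0 (fun x => (a : PP k G (m + s)) * x) v +
      toN N0 (fun x => (b : PP k G (m + s)) * x) v : N0)) : PP k G (m + s)) = _
    rw [AddSubgroup.coe_add, hAc v hv, hBc v hv, AddSubgroup.coe_add, add_mul]
  · intro v hv
    rw [near_inCl, hQc v hv]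
    exact cl_sq ⟨v, by simp, rfl⟩
  · intro v hv
    rw [near_inCl]
    refine cl_of_sq ⟨toN N0 (fun x => x ^ 2) v, by simp, ?_⟩
    exact hQc v hv
  · apply Subtype.ext
    rw [hAc b hb_mem, hBc a ha_mem, mul_comm]
  · apply Subtype.ext
    rw [hAc a ha_mem, hQc a ha_mem, pow_two]
  · apply Subtype.ext
    rw [hBc b hb_mem, hQc b hb_mem, pow_two]

end

end MFLB
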