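import Pool.Agent.MF.Frame2

set_option autoImplicit false

/-!
# The algebra of the roles (Section 9)
-/

namespace Pool.Agent.MF

open Finset

/-- The roles form a graded piece of a ring of characteristic two with labels: `D 0 = Lin`, `D 1`, ..., `D T` levels
(subgroups), every operation goes one level up; all identities hold for elements of `D t`, `t + 4 ≤ T`. -/
structure EndAlg {N : Type} [AddCommGroup N] [Fintype N] [DecidableEq N] (M : Mat N) (Lin : Finset N) (T : ℕ)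
    (D : ℕ → AddSubgroup N) (mul : N → N → N) (sq th ze g s : N → N) : Prop where
  lin : ∀ v : N, v ∈ D 0 ↔ v ∈ Lin
  mono : ∀ t, t < T → D t ≤ D (t + 1)
  -- levels
  mul_mem : ∀ t, t < T → ∀ u ∈ D t, ∀ v ∈ D t, mul u v ∈ D (t + 1)
  sq_mem : ∀ t, t < T → ∀ u ∈ D t, sq u ∈ D (t + 1)
  th_mem : ∀ t, t < T → ∀ u ∈ D t, th u ∈ D (t + 1)
  ze_mem : ∀ t, t < T → ∀ u ∈ D t, ze u ∈ D (t + 1)
  g_mem : ∀ t, t < T → ∀ u ∈ D t, g u ∈ D (t + 1)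
  s_mem : ∀ t, t < T → ∀ u ∈ D t, s u ∈ D (t + 1)
  -- additivity
  mul_add : ∀ t, t < T → ∀ u ∈ D t, ∀ v ∈ D t, ∀ w ∈ D t, mul u (v + w) = mul u v + mul u w
  add_mul : ∀ t, t < T → ∀ u ∈ D t, ∀ v ∈ D t, ∀ w ∈ D t, mul (u + v) w = mul u w + mul v w
  sq_add : ∀ t, t < T → ∀ u ∈ D t, ∀ v ∈ D t, sq (u + v) = sq u + sq v
  th_add : ∀ t, t < T → ∀ u ∈ D t, ∀ v ∈ D t, th (u + v) = th u + th v
  ze_add : ∀ t, t < T → ∀ u ∈ D t, ∀ v ∈ D t, ze (u + v) = ze u + ze v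
  g_add : ∀ t, t < T → ∀ u ∈ D t, ∀ v ∈ D t, g (u + v) = g u + g v
  s_add : ∀ t, t < T → ∀ u ∈ D t, ∀ v ∈ D t, s (u + v) = s u + s v
  -- ring identities
  mul_comm : ∀ t, t + 4 ≤ T → ∀ u ∈ D t, ∀ v ∈ D t, mul u v = mul v u
  mul_assoc : ∀ t, t + 4 ≤ T → ∀ u ∈ D t, ∀ v ∈ D t, ∀ w ∈ D t, mul (mul u v) w = mul u (mul v w)
  sq_eq : ∀ t, t + 4 ≤ T → ∀ u ∈ D t, sq u = mul u u
  sq_mul : ∀ t, t + 4 ≤ T → ∀ u ∈ D t, ∀ v ∈ D t, sq (mul u v) = mul (sq u) (sq v)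
  th_mul : ∀ t, t + 4 ≤ T → ∀ u ∈ D t, ∀ v ∈ D t, th (mul u v) = mul (th u) v
  ze_mul : ∀ t, t + 4 ≤ T → ∀ u ∈ D t, ∀ v ∈ D t, ze (mul u v) = mul (ze u) v
  g_mul : ∀ t, t + 4 ≤ T → ∀ u ∈ D t, ∀ v ∈ D t, g (mul u v) = mul (g u) (g v)
  s_mul : ∀ t, t + 4 ≤ T → ∀ u ∈ D t, ∀ v ∈ D t, s (mul u v) = mul (s u) (s v)
  sq_th : ∀ t, t + 4 ≤ T → ∀ u ∈ D t, sq (th u) = th (th (sq u))
  sq_ze : ∀ t, t + 4 ≤ T → ∀ u ∈ D t, sq (ze u) = ze (ze (sq u))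
  sq_g : ∀ t, t + 4 ≤ T → ∀ u ∈ D t, sq (g u) = g (sq u)
  sq_s : ∀ t, t + 4 ≤ T → ∀ u ∈ D t, sq (s u) = s (sq u)
  th_ze : ∀ t, t + 4 ≤ T → ∀ u ∈ D t, th (ze u) = ze (th u)
  g_ze : ∀ t, t + 4 ≤ T → ∀ u ∈ D t, g (ze u) = ze (g u)
  s_ze : ∀ t, t + 4 ≤ T → ∀ u ∈ D t, s (ze u) = ze (s u)
  g_th : ∀ t, t + 4 ≤ T → ∀ u ∈ D t, g (th u) = ze (th (g u))
  s_th : ∀ t, t + 4 ≤ T → ∀ u ∈ D t, s (th (th (th u))) = th (s u)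
  ze_ze : ∀ t, t + 4 ≤ T → ∀ u ∈ D t, ze (ze u) + ze u + u = 0
  -- closure facts
  mul_cl : ∀ t, t < T → ∀ u ∈ D t, ∀ v ∈ D t, M.InCl {u, v} (mul u v)
  mul_cl' : ∀ t, t < T → ∀ u ∈ D t, ∀ v ∈ D t, u ≠ 0 → M.InCl {u, mul u v} v
  swap : ∀ t, t < T → ∀ u ∈ D t, ∀ v ∈ D t, M.InCl {u + v, mul u v} u
  sq_cl : ∀ t, t < T → ∀ v ∈ D t, M.InCl {v} (sq v)
  sq_cl' : ∀ t, t < T → ∀ v ∈ D t, M.InCl {sq v} v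
  as_cl : ∀ t, t < T → ∀ v ∈ D t, M.InCl {v + sq v} v
  th_cl : ∀ t, t < T → ∀ v ∈ D t, M.InCl {v} (th v)
  th_cl' : ∀ t, t < T → ∀ v ∈ D t, M.InCl {th v} v
  ze_cl : ∀ t, t < T → ∀ v ∈ D t, M.InCl {v} (ze v)
  ze_cl' : ∀ t, t < T → ∀ v ∈ D t, M.InCl {ze v} v
  g_cl : ∀ t, t < T → ∀ v ∈ D t, M.InCl {v} (g v)
  g_cl' : ∀ t, t < T → ∀ v ∈ D t, M.InCl {g v} v
  s_cl : ∀ t, t < T → ∀ v ∈ D t, M.InCl {v} (s v)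
  s_cl' : ∀ t, t < T → ∀ v ∈ D t, M.InCl {s v} v

end Pool.Agent.MF
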