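import Pool.Agent.MF.ConcN
import Pool.Agent.MF.EndAlg

/-!
# MF.EndAlgN : the role algebra of the concrete near matroid
-/

open Set Filter

set_option linter.unusedSectionVars false

namespace MFLB

open Pool.Agent.MF (Mat LinPart KillAlg EndAlg)

section

variable {k G : Type} {m s : ℕ} [CommRing k] [IsDomain k] [Group G] [LinearOrder G]
  [MulSemiringAction G k] [CharP k 2]

/-- `a ∈ cl {a + a ^ 2}` -/
theorem cl_of_as {r : ℕ} {S : Set (PP k G r)} {a : PP k G r} (ha : a + a ^ 2 ∈ S) :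
    a ∈ Cl (MM k G r) G S := by
  refine cl_of_poly (Polynomial.X ^ 2 + Polynomial.X - Polynomial.C (a + a ^ 2)) ?_ ?_ ?_
  · intro h0
    have h3 := congrArg (fun p => Polynomial.coeff p 2) h0
    simp only [Polynomial.coeff_sub, Polynomial.coeff_add, Polynomial.coeff_X_pow,
      Polynomial.coeff_X, Polynomial.coeff_C, Polynomial.coeff_zero] at h3
    norm_num at h3
  · intro j
    rw [Polynomial.coeff_sub, Polynomial.coeff_add, Polynomial.coeff_X_pow, Polynomial.coeff_X,
      Polynomial.coeff_C]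
    have h1 : a + a ^ 2 ∈ Algebra.adjoin k S := Algebra.subset_adjoin ha
    refine sub_mem (add_mem ?_ ?_) ?_
    · split_ifs
      · exact one_mem _
      · exact zero_mem _
    · split_ifs
      · exact one_mem _
      · exact zero_mem _
    · split_ifs
      · exact h1
      · exact zero_mem _
  · simp only [Polynomial.eval_add, Polynomial.eval_sub, Polynomial.eval_pow, Polynomial.eval_X,
      Polynomial.eval_C]
    ring

theorem c0_smul {r : ℕ} (h : G) (a : PP k G r) : c0 (h • a) = h • (c0 a : k) := by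
  have h1 : (c0.comp (act h) : PP k G r →+* k) =
      (MulSemiringAction.toRingHom G k h).comp c0 := by
    apply PP_hom_ext
    · intro c
      rw [RingHom.comp_apply, act_cc, c0_cc, RingHom.comp_apply, c0_cc]
      rfl
    · intro i x
      rw [RingHom.comp_apply, act_xx, c0_xx, RingHom.comp_apply, c0_xx, map_zero]
  exact congrArg (fun f => f a) h1

/-- the linear forms in the near variables, as a group -/
noncomputable def lfG (k G : Type) (m s : ℕ) [CommRing k] [IsDomain k] [Group G] [LinearOrder G]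
    [MulSemiringAction G k] [CharP k 2] : AddSubgroup (PP k G (m + s)) where
  carrier := {a | ∃ c : Fin m → ZMod 2, a = lf (Fin.castAdd s) c}
  zero_mem' := ⟨0, (lf_zero _).symm⟩
  add_mem' := by
    rintro a b ⟨c, rfl⟩ ⟨c', rfl⟩
    exact ⟨c + c', (lf_add _ _ _).symm⟩
  neg_mem' := by
    rintro a ⟨c, rfl⟩
    exact ⟨c, neg_PP _⟩

/-- generators of the next level -/
def gens (θ ζ : k) (g s' : G) (A : Set (PP k G (m + s))) : Set (PP k G (m + s)) :=
  A ∪ (Set.image2 (fun u v => u * v) A A ∪ ((fun u => u ^ 2) '' A ∪ ((fun u => cc θ * u) '' A ∪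
    ((fun u => cc ζ * u) '' A ∪ ((fun u => g • u) '' A ∪ (fun u => s' • u) '' A)))))

theorem gens_finite (θ ζ : k) (g s' : G) {A : Set (PP k G (m + s))} (hA : A.Finite) :
    (gens θ ζ g s' A).Finite :=
  hA.union ((hA.image2 _ hA).union ((hA.image _).union ((hA.image _).union ((hA.image _).union
    ((hA.image _).union (hA.image _))))))

/-- the levels -/
noncomputable def lev (θ ζ : k) (g s' : G) : ℕ → AddSubgroup (PP k G (m + s))
  | 0 => lfG k G m s
  | t + 1 => AddSubgroup.closure (gens θ ζ g s' (lev θ ζ g s' t : Set (PP k G (m + s))))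

variable {θ ζ : k} {g s' : G}

theorem lev_zero (a : PP k G (m + s)) : a ∈ lev θ ζ g s' 0 ↔
    ∃ c : Fin m → ZMod 2, a = lf (Fin.castAdd s) c := Iff.rfl

theorem lev_succ {t : ℕ} {a : PP k G (m + s)} (h : a ∈ lev θ ζ g s' t) :
    a ∈ lev θ ζ g s' (t + 1) := AddSubgroup.subset_closure (Or.inl h)

theorem lev_le {t t' : ℕ} (h : t ≤ t') : (lev θ ζ g s' t : AddSubgroup (PP k G (m + s))) ≤
    lev θ ζ g s' t' := by
  induction t', h using Nat.le_induction with
  | base => exact le_refl _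
  | succ n _ ih => exact fun a ha => lev_succ (ih ha)

theorem lev_mul {t : ℕ} {u v : PP k G (m + s)} (hu : u ∈ lev θ ζ g s' t)
    (hv : v ∈ lev θ ζ g s' t) : u * v ∈ lev θ ζ g s' (t + 1) :=
  AddSubgroup.subset_closure (Or.inr (Or.inl ⟨u, hu, v, hv, rfl⟩))

theorem lev_sq {t : ℕ} {u : PP k G (m + s)} (hu : u ∈ lev θ ζ g s' t) :
    u ^ 2 ∈ lev θ ζ g s' (t + 1) :=
  AddSubgroup.subset_closure (Or.inr (Or.inr (Or.inl ⟨u, hu, rfl⟩)))

theorem lev_th {t : ℕ} {u : PP k G (m + s)} (hu : u ∈ lev θ ζ g s' t) :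
    cc θ * u ∈ lev θ ζ g s' (t + 1) :=
  AddSubgroup.subset_closure (Or.inr (Or.inr (Or.inr (Or.inl ⟨u, hu, rfl⟩))))

theorem lev_ze {t : ℕ} {u : PP k G (m + s)} (hu : u ∈ lev θ ζ g s' t) :
    cc ζ * u ∈ lev θ ζ g s' (t + 1) :=
  AddSubgroup.subset_closure (Or.inr (Or.inr (Or.inr (Or.inr (Or.inl ⟨u, hu, rfl⟩)))))

theorem lev_g {t : ℕ} {u : PP k G (m + s)} (hu : u ∈ lev θ ζ g s' t) :
    g • u ∈ lev θ ζ g s' (t + 1) :=
  AddSubgroup.subset_closure (Or.inr (Or.inr (Or.inr (Or.inr (Or.inr (Or.inl ⟨u, hu, rfl⟩))))))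

theorem lev_s {t : ℕ} {u : PP k G (m + s)} (hu : u ∈ lev θ ζ g s' t) :
    s' • u ∈ lev θ ζ g s' (t + 1) :=
  AddSubgroup.subset_closure (Or.inr (Or.inr (Or.inr (Or.inr (Or.inr (Or.inr ⟨u, hu, rfl⟩))))))

/-- an additive property, kept by all operations, holds on all levels -/
theorem lev_induction {p : PP k G (m + s) → Prop}
    (h0 : ∀ c : Fin m → ZMod 2, p (lf (Fin.castAdd s) c)) (hadd : ∀ a b, p a → p b → p (a + b))
    (hmul : ∀ a b, p a → p b → p (a * b)) (hcc : ∀ (c : k) a, p a → p (cc c * a))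
    (hsm : ∀ (h : G) a, p a → p (h • a)) (t : ℕ) : ∀ a ∈ (lev θ ζ g s' t :
      AddSubgroup (PP k G (m + s))), p a := by
  induction t with
  | zero =>
    rintro a ⟨c, rfl⟩
    exact h0 c
  | succ t ih =>
    intro a ha
    induction ha using AddSubgroup.closure_induction with
    | mem x hx =>
      rcases hx with hx | ⟨u, hu, v, hv, rfl⟩ | ⟨u, hu, rfl⟩ | ⟨u, hu, rfl⟩ | ⟨u, hu, rfl⟩ |
        ⟨u, hu, rfl⟩ | ⟨u, hu, rfl⟩
      · exact ih x hx
      · exact hmul u v (ih u hu) (ih v hv)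
      · show p (u ^ 2)
        rw [pow_two]
        exact hmul u u (ih u hu) (ih u hu)
      · exact hcc θ u (ih u hu)
      · exact hcc ζ u (ih u hu)
      · exact hsm g u (ih u hu)
      · exact hsm s' u (ih u hu)
    | zero =>
      have := h0 0
      rwa [lf_zero] at this
    | add x y _ _ hx hy => exact hadd x y hx hy
    | neg x _ hx => rwa [neg_PP]

theorem lev_finite (t : ℕ) : ((lev θ ζ g s' t : AddSubgroup (PP k G (m + s))) :
    Set (PP k G (m + s))).Finite := by
  induction t with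
  | zero =>
    have h1 : ((lev θ ζ g s' 0 : AddSubgroup (PP k G (m + s))) : Set (PP k G (m + s))) =
        Set.range (fun c : Fin m → ZMod 2 => (lf (Fin.castAdd s) c : PP k G (m + s))) := by
      ext a
      constructor
      · rintro ⟨c, rfl⟩
        exact ⟨c, rfl⟩
      · rintro ⟨c, rfl⟩
        exact ⟨c, rfl⟩
    rw [h1]
    exact Set.finite_range _
  | succ t ih => exact closure_finite _ (gens_finite θ ζ g s' ih)

theorem lev_c0 (t : ℕ) : ∀ a ∈ (lev θ ζ g s' t : AddSubgroup (PP k G (m + s))), c0 a = 0 := by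
  apply lev_induction
  · intro c
    unfold lf
    rw [map_sum]
    apply Finset.sum_eq_zero
    intro i _
    rw [map_mul, c0_xx, mul_zero]
  · intro a b ha hb
    rw [map_add, ha, hb, add_zero]
  · intro a b ha hb
    rw [map_mul, ha, zero_mul]
  · intro c a ha
    rw [map_mul, ha, mul_zero]
  · intro h a ha
    rw [c0_smul, ha, smul_zero]

theorem lev_near (t : ℕ) : Near (lev θ ζ g s' t : AddSubgroup (PP k G (m + s))) := by
  refine ⟨lev_finite t, ?_, ?_⟩
  · intro a ha j
    revert a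
    apply lev_induction
    · intro c
      apply free_lf_of_notMem
      intro l h
      have h1 : (Fin.castAdd s l : Fin (m + s)).val = (Fin.natAdd m j : Fin (m + s)).val := by
        rw [h]
      rw [Fin.val_castAdd, Fin.val_natAdd] at h1
      have := l.isLt
      omega
    · intro a b ha hb
      exact ha.add hb
    · intro a b ha hb
      exact ha.mul hb
    · intro c a ha
      exact (Free.cc _ c).mul ha
    · intro h a ha
      exact ha.smul h
  · intro a ha ha0
    have h1 : c0 a = 0 := lev_c0 t a ha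
    rintro ⟨c, rfl⟩
    rw [c0_cc] at h1
    rw [h1, map_zero] at ha0
    exact ha0 rfl

/-- the levels as subgroups of the roles -/
noncomputable def DN (θ ζ : k) (g s' : G) (N0 : AddSubgroup (PP k G (m + s))) (t : ℕ) :
    AddSubgroup N0 := (lev θ ζ g s' t).comap N0.subtype

theorem mem_DN {N0 : AddSubgroup (PP k G (m + s))} {t : ℕ} {v : N0} :
    v ∈ DN θ ζ g s' N0 t ↔ (v : PP k G (m + s)) ∈ lev θ ζ g s' t := Iff.rfl

/-! ### the operations -/

variable (hG : LeftInv G) (F : ℕ → Finset G) (hF : Folner F) (N0 : AddSubgroup (PP k G (m + s)))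
  (hN : Near N0) [Fintype N0] [DecidableEq N0]

/-- the product -/
noncomputable def mulN (u v : N0) : N0 := toN N0 (fun x => (u : PP k G (m + s)) * x) v

/-- the square -/
noncomputable def sqN (v : N0) : N0 := toN N0 (fun x => x ^ 2) v

/-- multiplication by a constant -/
noncomputable def ccN (c : k) (v : N0) : N0 := toN N0 (fun x => cc c * x) v

/-- translation -/
noncomputable def trN (h : G) (v : N0) : N0 := toN N0 (fun x => h • x) v

/-- C6: the role algebra -/
theorem endAlg_near (θ ζ : k) (g s' : G) (T : ℕ) (hT : N0 = lev θ ζ g s' T)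
    (hθ : θ ≠ 0) (hζ : ζ ^ 2 + ζ + 1 = 0) (hgζ : ∀ h : G, h • ζ = ζ) (hgθ : g • θ = ζ * θ)
    (hsθ : (s' • θ) ^ 3 = θ) :
    EndAlg (matN hG F hF N0 hN).near (LinN N0) T (DN θ ζ g s' N0) (mulN N0) (sqN N0)
      (ccN N0 θ) (ccN N0 ζ) (trN N0 g) (trN N0 s') := by
  classical
  have hle : ∀ t, t < T → ∀ a ∈ (lev θ ζ g s' (t + 1) : AddSubgroup (PP k G (m + s))), a ∈ N0 := by
    intro t ht a ha
    rw [hT]
    exact lev_le ht ha
  -- the coercions
  have cmul : ∀ t, t < T → ∀ u ∈ DN θ ζ g s' N0 t, ∀ v ∈ DN θ ζ g s' N0 t,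
      ((mulN N0 u v : N0) : PP k G (m + s)) = u * v := by
    intro t ht u hu v hv
    exact toN_coe N0 _ v (hle t ht _ (lev_mul hu hv))
  have csq : ∀ t, t < T → ∀ v ∈ DN θ ζ g s' N0 t,
      ((sqN N0 v : N0) : PP k G (m + s)) = (v : PP k G (m + s)) ^ 2 := by
    intro t ht v hv
    exact toN_coe N0 _ v (hle t ht _ (lev_sq hv))
  have cth : ∀ t, t < T → ∀ v ∈ DN θ ζ g s' N0 t,
      ((ccN N0 θ v : N0) : PP k G (m + s)) = cc θ * (v : PP k G (m + s)) := by
    intro t ht v hv
    exact toN_coe N0 _ v (hle t ht _ (lev_th hv))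
  have cze : ∀ t, t < T → ∀ v ∈ DN θ ζ g s' N0 t,
      ((ccN N0 ζ v : N0) : PP k G (m + s)) = cc ζ * (v : PP k G (m + s)) := by
    intro t ht v hv
    exact toN_coe N0 _ v (hle t ht _ (lev_ze hv))
  have cg : ∀ t, t < T → ∀ v ∈ DN θ ζ g s' N0 t,
      ((trN N0 g v : N0) : PP k G (m + s)) = g • (v : PP k G (m + s)) := by
    intro t ht v hv
    exact toN_coe N0 _ v (hle t ht _ (lev_g hv))
  have cs : ∀ t, t < T → ∀ v ∈ DN θ ζ g s' N0 t,
      ((trN N0 s' v : N0) : PP k G (m + s)) = s' • (v : PP k G (m + s)) := by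
    intro t ht v hv
    exact toN_coe N0 _ v (hle t ht _ (lev_s hv))
  -- the levels
  have mmul : ∀ t, t < T → ∀ u ∈ DN θ ζ g s' N0 t, ∀ v ∈ DN θ ζ g s' N0 t,
      mulN N0 u v ∈ DN θ ζ g s' N0 (t + 1) := by
    intro t ht u hu v hv
    rw [mem_DN, cmul t ht u hu v hv]
    exact lev_mul hu hv
  have msq : ∀ t, t < T → ∀ v ∈ DN θ ζ g s' N0 t, sqN N0 v ∈ DN θ ζ g s' N0 (t + 1) := by
    intro t ht v hv
    rw [mem_DN, csq t ht v hv]
    exact lev_sq hv
  have mth : ∀ t, t < T → ∀ v ∈ DN θ ζ g s' N0 t, ccN N0 θ v ∈ DN θ ζ g s' N0 (t + 1) := by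
    intro t ht v hv
    rw [mem_DN, cth t ht v hv]
    exact lev_th hv
  have mze : ∀ t, t < T → ∀ v ∈ DN θ ζ g s' N0 t, ccN N0 ζ v ∈ DN θ ζ g s' N0 (t + 1) := by
    intro t ht v hv
    rw [mem_DN, cze t ht v hv]
    exact lev_ze hv
  have mg : ∀ t, t < T → ∀ v ∈ DN θ ζ g s' N0 t, trN N0 g v ∈ DN θ ζ g s' N0 (t + 1) := by
    intro t ht v hv
    rw [mem_DN, cg t ht v hv]
    exact lev_g hv
  have ms : ∀ t, t < T → ∀ v ∈ DN θ ζ g s' N0 t, trN N0 s' v ∈ DN θ ζ g s' N0 (t + 1) := by
    intro t ht v hv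
    rw [mem_DN, cs t ht v hv]
    exact lev_s hv
  have mup : ∀ t, ∀ v ∈ DN θ ζ g s' N0 t, v ∈ DN θ ζ g s' N0 (t + 1) := by
    intro t v hv
    exact lev_succ hv
  have two : ∀ a : PP k G (m + s), a + a = 0 := add_self_PP
  have hζ0 : ζ ≠ 0 := by
    rintro rfl
    norm_num at hζ
  have sqadd : ∀ a b : PP k G (m + s), (a + b) ^ 2 = a ^ 2 + b ^ 2 := by
    intro a b
    have h1 : (a + b) ^ 2 = a ^ 2 + b ^ 2 + (a * b + a * b) := by ring
    rw [h1, two, add_zero]
  have hζP : (cc ζ : PP k G (m + s)) * cc ζ + cc ζ + 1 = 0 := by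
    rw [← map_mul, ← map_one (cc : k →+* PP k G (m + s)), ← map_add, ← map_add, ← pow_two, hζ,
      map_zero]
  have hgP : g • (cc θ : PP k G (m + s)) = cc ζ * cc θ := by
    rw [smul_cc, hgθ, map_mul]
  have hsP : (s' • (cc θ : PP k G (m + s))) ^ 3 = cc θ := by
    rw [smul_cc, ← map_pow, hsθ]
  have hzP : ∀ h : G, h • (cc ζ : PP k G (m + s)) = cc ζ := by
    intro h
    rw [smul_cc, hgζ]
  refine ⟨?_, fun t _ v hv => mup t v hv, mmul, msq, mth, mze, mg, ms, ?_, ?_, ?_, ?_, ?_, ?_, ?_,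
    ?_, ?_, ?_, ?_, ?_, ?_, ?_, ?_, ?_, ?_, ?_, ?_, ?_, ?_, ?_, ?_, ?_, ?_, ?_, ?_, ?_, ?_, ?_, ?_,
    ?_, ?_, ?_, ?_, ?_, ?_, ?_, ?_⟩
  · intro v
    rw [mem_LinN]
    exact Iff.rfl
  -- additivity
  · intro t ht u hu v hv w hw
    apply Subtype.ext
    rw [cmul t ht u hu _ (add_mem hv hw), AddSubgroup.coe_add, AddSubgroup.coe_add,
      cmul t ht u hu v hv, cmul t ht u hu w hw, mul_add]
  · intro t ht u hu v hv w hw
    apply Subtype.ext
    rw [cmul t ht _ (add_mem hu hv) w hw, AddSubgroup.coe_add, AddSubgroup.coe_add,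
      cmul t ht u hu w hw, cmul t ht v hv w hw, add_mul]
  · intro t ht u hu v hv
    apply Subtype.ext
    rw [csq t ht _ (add_mem hu hv), AddSubgroup.coe_add, AddSubgroup.coe_add, csq t ht u hu,
      csq t ht v hv, sqadd]
  · intro t ht u hu v hv
    apply Subtype.ext
    rw [cth t ht _ (add_mem hu hv), AddSubgroup.coe_add, AddSubgroup.coe_add, cth t ht u hu,
      cth t ht v hv, mul_add]
  · intro t ht u hu v hv
    apply Subtype.ext
    rw [cze t ht _ (add_mem hu hv), AddSubgroup.coe_add, AddSubgroup.coe_add, cze t ht u hu,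
      cze t ht v hv, mul_add]
  · intro t ht u hu v hv
    apply Subtype.ext
    rw [cg t ht _ (add_mem hu hv), AddSubgroup.coe_add, AddSubgroup.coe_add, cg t ht u hu,
      cg t ht v hv, smul_add]
  · intro t ht u hu v hv
    apply Subtype.ext
    rw [cs t ht _ (add_mem hu hv), AddSubgroup.coe_add, AddSubgroup.coe_add, cs t ht u hu,
      cs t ht v hv, smul_add]
  -- ring identities
  · intro t ht u hu v hv
    apply Subtype.ext
    rw [cmul t (by omega) u hu v hv, cmul t (by omega) v hv u hu, mul_comm]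
  · intro t ht u hu v hv w hw
    apply Subtype.ext
    rw [cmul (t + 1) (by omega) _ (mmul t (by omega) u hu v hv) w (mup t w hw),
      cmul (t + 1) (by omega) u (mup t u hu) _ (mmul t (by omega) v hv w hw),
      cmul t (by omega) u hu v hv, cmul t (by omega) v hv w hw, mul_assoc]
  · intro t ht u hu
    apply Subtype.ext
    rw [cmul t (by omega) u hu u hu, csq t (by omega) u hu, pow_two]
  · intro t ht u hu v hv
    apply Subtype.ext
    rw [csq (t + 1) (by omega) _ (mmul t (by omega) u hu v hv), cmul t (by omega) u hu v hv,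
      cmul (t + 1) (by omega) _ (msq t (by omega) u hu) _ (msq t (by omega) v hv),
      csq t (by omega) u hu, csq t (by omega) v hv, mul_pow]
  · intro t ht u hu v hv
    apply Subtype.ext
    rw [cth (t + 1) (by omega) _ (mmul t (by omega) u hu v hv), cmul t (by omega) u hu v hv,
      cmul (t + 1) (by omega) _ (mth t (by omega) u hu) _ (mup t v hv),
      cth t (by omega) u hu, mul_assoc]
  · intro t ht u hu v hv
    apply Subtype.ext
    rw [cze (t + 1) (by omega) _ (mmul t (by omega) u hu v hv), cmul t (by omega) u hu v hv,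
      cmul (t + 1) (by omega) _ (mze t (by omega) u hu) _ (mup t v hv),
      cze t (by omega) u hu, mul_assoc]
  · intro t ht u hu v hv
    apply Subtype.ext
    rw [cg (t + 1) (by omega) _ (mmul t (by omega) u hu v hv), cmul t (by omega) u hu v hv,
      cmul (t + 1) (by omega) _ (mg t (by omega) u hu) _ (mg t (by omega) v hv),
      cg t (by omega) u hu, cg t (by omega) v hv, smul_mul']
  · intro t ht u hu v hv
    apply Subtype.ext
    rw [cs (t + 1) (by omega) _ (mmul t (by omega) u hu v hv), cmul t (by omega) u hu v hv,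
      cmul (t + 1) (by omega) _ (ms t (by omega) u hu) _ (ms t (by omega) v hv),
      cs t (by omega) u hu, cs t (by omega) v hv, smul_mul']
  · intro t ht u hu
    apply Subtype.ext
    rw [csq (t + 1) (by omega) _ (mth t (by omega) u hu), cth t (by omega) u hu,
      cth (t + 2) (by omega) _ (mth (t + 1) (by omega) _ (msq t (by omega) u hu)),
      cth (t + 1) (by omega) _ (msq t (by omega) u hu), csq t (by omega) u hu]
    ring
  · intro t ht u hu
    apply Subtype.ext
    rw [csq (t + 1) (by omega) _ (mze t (by omega) u hu), cze t (by omega) u hu,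
      cze (t + 2) (by omega) _ (mze (t + 1) (by omega) _ (msq t (by omega) u hu)),
      cze (t + 1) (by omega) _ (msq t (by omega) u hu), csq t (by omega) u hu]
    ring
  · intro t ht u hu
    apply Subtype.ext
    rw [csq (t + 1) (by omega) _ (mg t (by omega) u hu), cg t (by omega) u hu,
      cg (t + 1) (by omega) _ (msq t (by omega) u hu), csq t (by omega) u hu, smul_pow']
  · intro t ht u hu
    apply Subtype.ext
    rw [csq (t + 1) (by omega) _ (ms t (by omega) u hu), cs t (by omega) u hu,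
      cs (t + 1) (by omega) _ (msq t (by omega) u hu), csq t (by omega) u hu, smul_pow']
  · intro t ht u hu
    apply Subtype.ext
    rw [cth (t + 1) (by omega) _ (mze t (by omega) u hu), cze t (by omega) u hu,
      cze (t + 1) (by omega) _ (mth t (by omega) u hu), cth t (by omega) u hu]
    ring
  · intro t ht u hu
    apply Subtype.ext
    rw [cg (t + 1) (by omega) _ (mze t (by omega) u hu), cze t (by omega) u hu,
      cze (t + 1) (by omega) _ (mg t (by omega) u hu), cg t (by omega) u hu, smul_mul', hzP]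
  · intro t ht u hu
    apply Subtype.ext
    rw [cs (t + 1) (by omega) _ (mze t (by omega) u hu), cze t (by omega) u hu,
      cze (t + 1) (by omega) _ (ms t (by omega) u hu), cs t (by omega) u hu, smul_mul', hzP]
  · intro t ht u hu
    apply Subtype.ext
    rw [cg (t + 1) (by omega) _ (mth t (by omega) u hu), cth t (by omega) u hu,
      cze (t + 2) (by omega) _ (mth (t + 1) (by omega) _ (mg t (by omega) u hu)),
      cth (t + 1) (by omega) _ (mg t (by omega) u hu), cg t (by omega) u hu, smul_mul', hgP,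
      mul_assoc]
  · intro t ht u hu
    apply Subtype.ext
    rw [cs (t + 3) (by omega) _ (mth (t + 2) (by omega) _ (mth (t + 1) (by omega) _
        (mth t (by omega) u hu))),
      cth (t + 2) (by omega) _ (mth (t + 1) (by omega) _ (mth t (by omega) u hu)),
      cth (t + 1) (by omega) _ (mth t (by omega) u hu), cth t (by omega) u hu,
      cth (t + 1) (by omega) _ (ms t (by omega) u hu), cs t (by omega) u hu, smul_mul', smul_mul',
      smul_mul']
    nth_rewrite 4 [← hsP]
    ring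
  · intro t ht u hu
    apply Subtype.ext
    rw [AddSubgroup.coe_add, AddSubgroup.coe_add,
      cze (t + 1) (by omega) _ (mze t (by omega) u hu), cze t (by omega) u hu]
    have h1 : (cc ζ : PP k G (m + s)) * (cc ζ * (u : PP k G (m + s))) +
        cc ζ * (u : PP k G (m + s)) + (u : PP k G (m + s)) =
        (cc ζ * cc ζ + cc ζ + 1) * (u : PP k G (m + s)) := by
      ring
    rw [h1, hζP, zero_mul]
    rfl
  -- closure facts
  · intro t ht u hu v hv
    rw [near_inCl, cmul t ht u hu v hv]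
    exact cl_mul ⟨u, by simp, rfl⟩ ⟨v, by simp, rfl⟩
  · intro t ht u hu v hv hu0
    rw [near_inCl]
    refine cl_div (b := (u : PP k G (m + s))) ?_ ⟨u, by simp, rfl⟩ ⟨mulN N0 u v, by simp, ?_⟩
    · intro h
      exact hu0 (Subtype.ext h)
    · exact cmul t ht u hu v hv
  · intro t ht u hu v hv
    rw [near_inCl]
    refine cl_of_sum_prod (b := (v : PP k G (m + s))) ⟨u + v, by simp, rfl⟩
      ⟨mulN N0 u v, by simp, ?_⟩
    exact cmul t ht u hu v hv
  · intro t ht v hv
    rw [near_inCl, csq t ht v hv]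
    exact cl_sq ⟨v, by simp, rfl⟩
  · intro t ht v hv
    rw [near_inCl]
    exact cl_of_sq ⟨sqN N0 v, by simp, csq t ht v hv⟩
  · intro t ht v hv
    rw [near_inCl]
    refine cl_of_as (S := _) (a := (v : PP k G (m + s))) ⟨v + sqN N0 v, by simp, ?_⟩
    show ((v + sqN N0 v : N0) : PP k G (m + s)) = _
    rw [AddSubgroup.coe_add, csq t ht v hv]
  · intro t ht v hv
    rw [near_inCl, cth t ht v hv]
    refine cl_cc_mul ?_ θ
    exact ⟨v, by simp, rfl⟩
  · intro t ht v hv
    rw [near_inCl]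
    exact cl_of_cc_mul hθ ⟨ccN N0 θ v, by simp, cth t ht v hv⟩
  · intro t ht v hv
    rw [near_inCl, cze t ht v hv]
    refine cl_cc_mul ?_ ζ
    exact ⟨v, by simp, rfl⟩
  · intro t ht v hv
    rw [near_inCl]
    exact cl_of_cc_mul hζ0 ⟨ccN N0 ζ v, by simp, cze t ht v hv⟩
  · intro t ht v hv
    rw [near_inCl, cg t ht v hv]
    refine cl_smul ?_ g
    exact ⟨v, by simp, rfl⟩
  · intro t ht v hv
    rw [near_inCl]
    exact cl_of_smul g ⟨trN N0 g v, by simp, cg t ht v hv⟩
  · intro t ht v hv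
    rw [near_inCl, cs t ht v hv]
    refine cl_smul ?_ s'
    exact ⟨v, by simp, rfl⟩
  · intro t ht v hv
    rw [near_inCl]
    exact cl_of_smul s' ⟨trN N0 s' v, by simp, cs t ht v hv⟩

/-- the package: `N0 = lev T` has the linear part, the algebra of Section 8 and the role algebra -/
theorem roles_near (θ ζ : k) (g s' : G) (T : ℕ) (hT4 : 4 ≤ T) (hT : N0 = lev θ ζ g s' T)
    (hm : 10 ≤ m) (hθ : θ ≠ 0) (hζ : ζ ^ 2 + ζ + 1 = 0) (hgζ : ∀ h : G, h • ζ = ζ)
    (hgθ : g • θ = ζ * θ) (hsθ : (s' • θ) ^ 3 = θ) :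
    LinPart (matN hG F hF N0 hN).near (LinN N0) ∧
    ∃ a b : N0, (a : PP k G (m + s)) = xx (Fin.castAdd s ⟨0, by omega⟩) 1 ∧
      (b : PP k G (m + s)) = xx (Fin.castAdd s ⟨1, by omega⟩) 1 ∧
      KillAlg (matN hG F hF N0 hN).near (LinN N0) a b (mulN N0 a) (mulN N0 b) (sqN N0) ∧
      EndAlg (matN hG F hF N0 hN).near (LinN N0) T (DN θ ζ g s' N0) (mulN N0) (sqN N0)
        (ccN N0 θ) (ccN N0 ζ) (trN N0 g) (trN N0 s') := by
  classical
  have hL : ∀ c : Fin m → ZMod 2, (lf (Fin.castAdd s) c : PP k G (m + s)) ∈ N0 := by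
    intro c
    rw [hT]
    exact lev_le (Nat.zero_le T) ⟨c, rfl⟩
  have hlin1 : ∀ i : Fin m, (lf (Fin.castAdd s) (Pi.single i 1) : PP k G (m + s)) =
      xx (Fin.castAdd s i) 1 := by
    intro i
    unfold lf
    rw [Finset.sum_eq_single i]
    · rw [Pi.single_eq_same, map_one, map_one, one_mul]
    · intro l _ hl
      rw [Pi.single_eq_of_ne hl, map_zero, map_zero, zero_mul]
    · intro h
      exact absurd (Finset.mem_univ i) h
  have hx : ∀ i : Fin m, (xx (Fin.castAdd s i) 1 : PP k G (m + s)) ∈ lev θ ζ g s' 0 := by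
    intro i
    exact ⟨Pi.single i 1, (hlin1 i).symm⟩
  have hxN : ∀ i : Fin m, (xx (Fin.castAdd s i) 1 : PP k G (m + s)) ∈ N0 := by
    intro i
    rw [← hlin1 i]
    exact hL _
  have hle : ∀ a ∈ (lev θ ζ g s' 1 : AddSubgroup (PP k G (m + s))), a ∈ N0 := by
    intro a ha
    rw [hT]
    exact lev_le (by omega : 1 ≤ T) ha
  refine ⟨linPart_near hG F hF N0 hN hm hL, ⟨_, hxN ⟨0, by omega⟩⟩, ⟨_, hxN ⟨1, by omega⟩⟩, rfl,
    rfl, ?_, endAlg_near hG F hF N0 hN θ ζ g s' T hT hθ hζ hgζ hgθ hsθ⟩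
  refine killAlg_near hG F hF N0 hN hm hL ⟨0, by omega⟩ ⟨1, by omega⟩ ?_ _ _ rfl rfl ?_ ?_ ?_
  · intro h
    have := congrArg Fin.val h
    simp at this
  · intro c
    exact hle _ (lev_mul (hx _) ⟨c, rfl⟩)
  · intro c
    exact hle _ (lev_mul (hx _) ⟨c, rfl⟩)
  · intro c
    exact hle _ (lev_sq ⟨c, rfl⟩)

end

end MFLB
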