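import Mathlib

/-!
Greedy choice of anchors (`MP_141f81_co`, joint cleaning).
-/

set_option autoImplicit false

namespace Pool.Agent.MF

open Finset

open Classical in
/-- Two symbols are a bad pair if they have few common neighbours. -/
def Bad {X : Type} {n : ℕ} (H : X → Fin n → Fin n → Prop) (δ : ℝ) (x : X) (a a' : Fin n) : Prop :=
  ((univ.filter (fun e => H x a e ∧ H x a' e)).card : ℝ) < δ * n

open Classical in
/-- The number of bad partners of `a` among the neighbours of the anchor `e`. -/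
noncomputable def bdeg {X : Type} {n : ℕ} (H : X → Fin n → Fin n → Prop) (δ : ℝ) (x : X)
    (a e : Fin n) : ℕ :=
  (univ.filter (fun a' => H x a' e ∧ Bad H δ x a a')).card

open Classical in
lemma sum_bdeg_le {X : Type} {n : ℕ} (H : X → Fin n → Fin n → Prop) {δ : ℝ} (hδ : 0 < δ) (x : X)
    (a : Fin n) :
    ∑ e : Fin n, (if H x a e then (bdeg H δ x a e : ℝ) else 0) ≤ n * (δ * n) := by
  have h1 : ∀ e : Fin n, (if H x a e then (bdeg H δ x a e : ℝ) else 0) =
      ∑ a' : Fin n, (if (H x a e ∧ H x a' e) ∧ Bad H δ x a a' then (1 : ℝ) else 0) := by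
    intro e
    by_cases h : H x a e
    · simp only [h, if_true, true_and, bdeg]
      rw [card_filter]
      push_cast
      rfl
    · simp [h]
  rw [sum_congr rfl (fun e _ => h1 e), sum_comm]
  calc ∑ a' : Fin n, ∑ e : Fin n, (if (H x a e ∧ H x a' e) ∧ Bad H δ x a a' then (1 : ℝ) else 0)
      ≤ ∑ _a' : Fin n, δ * n := by
        apply sum_le_sum
        intro a' _
        by_cases hB : Bad H δ x a a'
        · have : ∑ e : Fin n, (if (H x a e ∧ H x a' e) ∧ Bad H δ x a a' then (1 : ℝ) else 0) =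
              ((univ.filter (fun e => H x a e ∧ H x a' e)).card : ℝ) := by
            rw [card_filter]
            push_cast
            apply sum_congr rfl
            intro e _
            simp [hB]
          rw [this]
          have hB' := hB
          unfold Bad at hB'
          exact hB'.le
        · simp only [hB, and_false, if_false, sum_const_zero]
          positivity
    _ = n * (δ * n) := by rw [sum_const, card_univ, Fintype.card_fin, nsmul_eq_mul]

open Classical in
/-- One anchor step. -/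
theorem anchor_step {Z X : Type} [Fintype X] {n : ℕ} (hn : 0 < n) (Q : Finset Z)
    (x : Z → X) (α : Z → Fin n)
    (H : X → Fin n → Fin n → Prop) {κ δ : ℝ} (hκ : 0 < κ) (hδ : 0 < δ)
    (hdeg : ∀ z ∈ Q, κ * n ≤ ((univ.filter (fun e => H (x z) (α z) e)).card : ℝ)) :
    ∃ e : X → Fin n, ∃ Q' ⊆ Q, (∀ z ∈ Q', H (x z) (α z) (e (x z))) ∧
      κ / 2 * Q.card ≤ (Q'.card : ℝ) ∧
      (∑ z ∈ Q', (bdeg H δ (x z) (α z) (e (x z)) : ℝ)) ≤ 2 * δ / κ * n * Q.card := by
  have hn' : (0 : ℝ) < n := by exact_mod_cast hn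
  set μ : ℝ := κ / (2 * δ * n) with hμ
  have hμpos : 0 < μ := by positivity
  let val : Z → Fin n → ℝ := fun z e =>
    (if H (x z) (α z) e then (1 : ℝ) else 0) -
      μ * (if H (x z) (α z) e then (bdeg H δ (x z) (α z) e : ℝ) else 0)
  have hval : ∀ z ∈ Q, κ / 2 * n ≤ ∑ e : Fin n, val z e := by
    intro z hz
    simp only [val]
    rw [sum_sub_distrib, ← mul_sum]
    have h1 : ∑ e : Fin n, (if H (x z) (α z) e then (1 : ℝ) else 0) =
        ((univ.filter (fun e => H (x z) (α z) e)).card : ℝ) := by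
      rw [card_filter]
      push_cast
      rfl
    have h2 := sum_bdeg_le H hδ (x z) (α z)
    have h3 := hdeg z hz
    have h4 : μ * ∑ e : Fin n, (if H (x z) (α z) e then (bdeg H δ (x z) (α z) e : ℝ) else 0)
        ≤ μ * (n * (δ * n)) := mul_le_mul_of_nonneg_left h2 hμpos.le
    have h5 : μ * (n * (δ * n)) = κ / 2 * n := by
      rw [hμ]
      field_simp
    rw [h1]
    linarith
  have hex : ∀ y : X, ∃ e : Fin n, κ / 2 * ((Q.filter (fun z => x z = y)).card : ℝ) ≤
      ∑ z ∈ Q.filter (fun z => x z = y), val z e := by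
    intro y
    have hne : (univ : Finset (Fin n)).Nonempty := ⟨⟨0, hn⟩, mem_univ _⟩
    have hsum : ∑ _e : Fin n, κ / 2 * ((Q.filter (fun z => x z = y)).card : ℝ) ≤
        ∑ e : Fin n, ∑ z ∈ Q.filter (fun z => x z = y), val z e := by
      rw [sum_comm, sum_const, card_univ, Fintype.card_fin, nsmul_eq_mul]
      have : ∑ _z ∈ Q.filter (fun z => x z = y), κ / 2 * (n : ℝ) ≤
          ∑ z ∈ Q.filter (fun z => x z = y), ∑ e : Fin n, val z e :=
        sum_le_sum (fun z hz => hval z (mem_filter.1 hz).1)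
      rw [sum_const, nsmul_eq_mul] at this
      linarith
    obtain ⟨e, -, he⟩ := exists_le_of_sum_le hne hsum
    exact ⟨e, he⟩
  choose e he using hex
  refine ⟨e, Q.filter (fun z => H (x z) (α z) (e (x z))), filter_subset _ _, ?_, ?_⟩
  · intro z hz
    exact (mem_filter.1 hz).2
  have hall : κ / 2 * (Q.card : ℝ) ≤ ∑ z ∈ Q, val z (e (x z)) := by
    have h1 : (Q.card : ℝ) = ∑ y : X, ((Q.filter (fun z => x z = y)).card : ℝ) := by
      rw [← Nat.cast_sum]
      congr 1
      exact card_eq_sum_card_fiberwise (fun z _ => by simp)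
    have h2 : ∑ z ∈ Q, val z (e (x z)) =
        ∑ y : X, ∑ z ∈ Q.filter (fun z => x z = y), val z (e (x z)) :=
      (sum_fiberwise Q x (fun z => val z (e (x z)))).symm
    rw [h1, h2, mul_sum]
    apply sum_le_sum
    intro y _
    refine (he y).trans (le_of_eq ?_)
    apply sum_congr rfl
    intro z hz
    rw [(mem_filter.1 hz).2]
  have hsplit : ∑ z ∈ Q, val z (e (x z)) =
      ((Q.filter (fun z => H (x z) (α z) (e (x z)))).card : ℝ) -
      μ * ∑ z ∈ Q.filter (fun z => H (x z) (α z) (e (x z))),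
        (bdeg H δ (x z) (α z) (e (x z)) : ℝ) := by
    simp only [val]
    have h2 : ∑ z ∈ Q, (if H (x z) (α z) (e (x z)) then
        (bdeg H δ (x z) (α z) (e (x z)) : ℝ) else 0) =
        ∑ z ∈ Q.filter (fun z => H (x z) (α z) (e (x z))),
        (bdeg H δ (x z) (α z) (e (x z)) : ℝ) := (sum_filter _ _).symm
    rw [sum_sub_distrib, ← mul_sum, h2, card_filter]
    push_cast
    rfl
  set S := ∑ z ∈ Q.filter (fun z => H (x z) (α z) (e (x z))),
        (bdeg H δ (x z) (α z) (e (x z)) : ℝ) with hS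
  have hSnn : 0 ≤ S := sum_nonneg (fun z _ => Nat.cast_nonneg _)
  have hcard : ((Q.filter (fun z => H (x z) (α z) (e (x z)))).card : ℝ) ≤ Q.card := by
    exact_mod_cast card_filter_le _ _
  rw [hsplit] at hall
  refine ⟨?_, ?_⟩
  · have : 0 ≤ μ * S := by positivity
    linarith
  · have h1 : μ * S ≤ Q.card := by
      have : 0 ≤ κ / 2 * (Q.card : ℝ) := by positivity
      linarith
    have h2 : S ≤ Q.card / μ := by
      rw [le_div_iff₀ hμpos]
      linarith
    have h3 : (Q.card : ℝ) / μ = 2 * δ / κ * n * Q.card := by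
      rw [hμ]
      field_simp
    linarith

open Classical in
/-- All anchor steps. -/
theorem anchor_steps {Z X J : Type} [Fintype X] {n : ℕ} (hn : 0 < n) (Q : Finset Z)
    (x : J → Z → X) (α : J → Z → Fin n)
    (H : J → X → Fin n → Fin n → Prop) {κ δ : ℝ} (hκ : 0 < κ) (hδ : 0 < δ) (I : Finset J)
    (hdeg : ∀ i ∈ I, ∀ z ∈ Q,
      κ * n ≤ ((univ.filter (fun e => H i (x i z) (α i z) e)).card : ℝ)) :
    ∃ e : J → X → Fin n, ∃ Q' ⊆ Q, (κ / 2) ^ I.card * Q.card ≤ (Q'.card : ℝ) ∧
      ∀ i ∈ I, (∀ z ∈ Q', H i (x i z) (α i z) (e i (x i z))) ∧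
      (∑ z ∈ Q', (bdeg (H i) δ (x i z) (α i z) (e i (x i z)) : ℝ)) ≤
        2 * δ / κ * n * Q.card := by
  induction I using Finset.induction_on with
  | empty =>
    refine ⟨fun _ _ => ⟨0, hn⟩, Q, subset_rfl, by simp, by simp⟩
  | insert j I hj ih =>
    obtain ⟨e, Q', hQ', hcard, hI⟩ := ih (fun i hi => hdeg i (mem_insert_of_mem hi))
    obtain ⟨ej, Q'', hQ'', h1, h2, h3⟩ := anchor_step hn Q' (x j) (α j) (H j) hκ hδ
      (fun z hz => hdeg j (mem_insert_self _ _) z (hQ' hz))
    refine ⟨Function.update e j ej, Q'', hQ''.trans hQ', ?_, ?_⟩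
    · rw [card_insert_of_notMem hj, pow_succ]
      calc (κ / 2) ^ I.card * (κ / 2) * (Q.card : ℝ) = κ / 2 * ((κ / 2) ^ I.card * Q.card) := by
            ring
        _ ≤ κ / 2 * Q'.card := mul_le_mul_of_nonneg_left hcard (by positivity)
        _ ≤ _ := h2
    · intro i hi
      by_cases hij : i = j
      · subst hij
        rw [Function.update_self]
        refine ⟨h1, h3.trans ?_⟩
        have : (Q'.card : ℝ) ≤ Q.card := by exact_mod_cast card_le_card hQ'
        exact mul_le_mul_of_nonneg_left this (by positivity)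
      · rw [Function.update_of_ne hij]
        have hi' : i ∈ I := (mem_insert.1 hi).resolve_left hij
        refine ⟨fun z hz => (hI i hi').1 z (hQ'' hz), ?_⟩
        exact (sum_le_sum_of_subset_of_nonneg hQ'' (fun z _ _ => Nat.cast_nonneg _)).trans
          (hI i hi').2

end Pool.Agent.MF
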