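import Mathlib
import Pool.Agent.MF.JCa

/-!
Joint cleaning (`MP_141f81_co`, helper90's theorem JC).
-/

set_option autoImplicit false
set_option linter.unusedSectionVars false

namespace Pool.Agent.MF

open Finset

section Basic

variable {N : Type} [Fintype N] [DecidableEq N] {n : ℕ}

/-- The class of a row for a type: its restriction to `τ`. -/
def cls (τ : Finset N) (ρ : N → Fin n) : N → Option (Fin n) :=
  fun u => if u ∈ τ then some (ρ u) else none

lemma cls_eq_iff {τ : Finset N} {ρ ρ' : N → Fin n} :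
    cls τ ρ = cls τ ρ' ↔ ∀ u ∈ τ, ρ u = ρ' u := by
  constructor
  · intro h u hu
    have := congrFun h u
    simpa [cls, hu] using this
  · intro h
    funext u
    by_cases hu : u ∈ τ
    · simp [cls, hu, h u hu]
    · simp [cls, hu]

/-- Exact rows with respect to the rank function. -/
def ExactR (rk : Finset N → ℕ) (R : Finset (N → Fin n)) : Prop :=
  ∀ (S : Finset N) (v : N), rk (insert v S) = rk S → ∀ x ∈ R, ∀ y ∈ R,
    (∀ u ∈ S, x u = y u) → x v = y v

/-- Extension by a basis. -/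
lemma ext_basis (rk : Finset N → ℕ) (hmono : ∀ A B, A ⊆ B → rk A ≤ rk B)
    (A B : Finset N) :
    ∃ C ⊆ B, C.card + rk A ≤ rk (A ∪ B) ∧ ∀ v ∈ B, rk (insert v (A ∪ C)) = rk (A ∪ C) := by
  classical
  let P : Finset (Finset N) := B.powerset.filter (fun C => C.card + rk A ≤ rk (A ∪ C))
  have hP : P.Nonempty := ⟨∅, by simp [P]⟩
  obtain ⟨C, hC, hmax⟩ := exists_max_image P card hP
  simp only [P, mem_filter, mem_powerset] at hC hmax
  refine ⟨C, hC.1, hC.2.trans (hmono _ _ (union_subset_union_right hC.1)), ?_⟩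
  intro v hv
  by_contra hne
  have h1 : rk (A ∪ C) ≤ rk (insert v (A ∪ C)) := hmono _ _ (subset_insert _ _)
  have hvC : v ∉ C := by
    intro h
    apply hne
    rw [insert_eq_of_mem (mem_union_right _ h)]
  have h2 := hmax (insert v C) ⟨insert_subset hv hC.1, by
    rw [card_insert_of_notMem hvC, union_insert]
    omega⟩
  rw [card_insert_of_notMem hvC] at h2
  omega

/-- If `g` determines `f` on `F`, then `f` has at most as many values as `g`. -/
lemma card_image_le_of_det {Z α β : Type} [DecidableEq α] [DecidableEq β] (F : Finset Z)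
    (f : Z → α) (g : Z → β) (h : ∀ x ∈ F, ∀ y ∈ F, g x = g y → f x = f y) :
    (F.image f).card ≤ (F.image g).card := by
  classical
  rcases F.eq_empty_or_nonempty with h0 | ⟨x0, hx0⟩
  · simp [h0]
  let φ : β → α := fun b => if hb : ∃ x ∈ F, g x = b then f hb.choose else f x0
  have hφ : ∀ x ∈ F, φ (g x) = f x := by
    intro x hx
    have hb : ∃ y ∈ F, g y = g x := ⟨x, hx, rfl⟩
    simp only [φ, hb, dif_pos]
    exact h _ hb.choose_spec.1 _ hx hb.choose_spec.2
  have : F.image f ⊆ (F.image g).image φ := by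
    intro a ha
    obtain ⟨x, hx, rfl⟩ := mem_image.1 ha
    exact mem_image.2 ⟨g x, mem_image_of_mem _ hx, hφ x hx⟩
  exact (card_le_card this).trans card_image_le

/-- Number of classes among rows which agree on `A`. -/
lemma count_image (rk : Finset N → ℕ) (hmono : ∀ A B, A ⊆ B → rk A ≤ rk B) (hn : 0 < n)
    {R : Finset (N → Fin n)} (hR : ExactR rk R) (F : Finset (N → Fin n)) (hF : F ⊆ R)
    (A B : Finset N) (hA : ∀ x ∈ F, ∀ y ∈ F, ∀ u ∈ A, x u = y u) :
    (F.image (cls B)).card ≤ n ^ (rk (A ∪ B) - rk A) := by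
  classical
  obtain ⟨C, hCB, hC1, hC2⟩ := ext_basis rk hmono A B
  have h1 : (F.image (cls B)).card ≤ (F.image (fun (ρ : N → Fin n) (u : C) => ρ u)).card := by
    apply card_image_le_of_det
    intro x hx y hy hxy
    rw [cls_eq_iff]
    intro v hv
    apply hR (A ∪ C) v (hC2 v hv) x (hF hx) y (hF hy)
    intro u hu
    rcases mem_union.1 hu with hu | hu
    · exact hA x hx y hy u hu
    · exact congrFun hxy ⟨u, hu⟩
  refine h1.trans ((card_le_univ _).trans ?_)
  rw [Fintype.card_fun, Fintype.card_coe, Fintype.card_fin]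
  apply Nat.pow_le_pow_right hn
  omega

/-- Number of rows with given entries on `A`. -/
lemma count_rows (rk : Finset N → ℕ) (hmono : ∀ A B, A ⊆ B → rk A ≤ rk B) (hn : 0 < n)
    {R : Finset (N → Fin n)} (hR : ExactR rk R) (F : Finset (N → Fin n)) (hF : F ⊆ R)
    (A : Finset N) (hA : ∀ x ∈ F, ∀ y ∈ F, ∀ u ∈ A, x u = y u) :
    F.card ≤ n ^ (rk univ - rk A) := by
  classical
  have h1 := count_image rk hmono hn hR F hF A univ hA
  rw [union_eq_right.2 (subset_univ A)] at h1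
  rwa [card_image_of_injOn] at h1
  intro x _ y _ hxy
  rw [cls_eq_iff] at hxy
  exact funext fun u => hxy u (mem_univ u)

/-- Number of classes. -/
lemma count_cls (rk : Finset N → ℕ) (hmono : ∀ A B, A ⊆ B → rk A ≤ rk B) (hn : 0 < n)
    {R : Finset (N → Fin n)} (hR : ExactR rk R) (F : Finset (N → Fin n)) (hF : F ⊆ R)
    (B : Finset N) :
    (F.image (cls B)).card ≤ n ^ (rk B) := by
  have h1 := count_image rk hmono hn hR F hF ∅ B (fun x _ y _ u hu => absurd hu (notMem_empty u))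
  rw [empty_union] at h1
  exact h1.trans (Nat.pow_le_pow_right hn (Nat.sub_le _ _))

/-- Two step counting. -/
lemma card_le_three {Z α β : Type} [DecidableEq α] [DecidableEq β] (F : Finset Z) (f : Z → α)
    (g : Z → β) (N1 N2 : ℕ) (K : ℝ) (hK : 0 ≤ K)
    (h1 : (F.image f).card ≤ N1)
    (h2 : ∀ x ∈ F, (((F.filter (fun y => f y = f x)).image g).card : ℝ) ≤ K)
    (h3 : ∀ x ∈ F, (F.filter (fun y => f y = f x ∧ g y = g x)).card ≤ N2) :
    (F.card : ℝ) ≤ N1 * (K * N2) := by
  classical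
  have hF : (F.card : ℝ) = ∑ a ∈ F.image f, ((F.filter (fun y => f y = a)).card : ℝ) := by
    rw [← Nat.cast_sum]
    congr 1
    exact card_eq_sum_card_image f F
  rw [hF]
  have hstep : ∀ a ∈ F.image f, ((F.filter (fun y => f y = a)).card : ℝ) ≤ K * N2 := by
    intro a ha
    obtain ⟨x, hx, rfl⟩ := mem_image.1 ha
    set G := F.filter (fun y => f y = f x) with hG
    have hc : G.card = ∑ b ∈ G.image g, (G.filter (fun y => g y = b)).card :=
      card_eq_sum_card_image g G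
    have hle : G.card ≤ (G.image g).card * N2 := by
      rw [hc, ← smul_eq_mul, ← sum_const]
      apply sum_le_sum
      intro b hb
      obtain ⟨y, hy, rfl⟩ := mem_image.1 hb
      have hyF := (mem_filter.1 hy)
      have : G.filter (fun z => g z = g y) = F.filter (fun z => f z = f y ∧ g z = g y) := by
        ext z
        simp only [hG, mem_filter, hyF.2, and_assoc]
      rw [this]
      exact h3 y hyF.1
    have hle' : (G.card : ℝ) ≤ (G.image g).card * N2 := by exact_mod_cast hle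
    exact hle'.trans (mul_le_mul_of_nonneg_right (h2 x hx) (Nat.cast_nonneg _))
  calc ∑ a ∈ F.image f, ((F.filter (fun y => f y = a)).card : ℝ)
      ≤ ∑ _a ∈ F.image f, K * (N2 : ℝ) := sum_le_sum hstep
    _ = (F.image f).card * (K * N2) := by rw [sum_const, nsmul_eq_mul]
    _ ≤ N1 * (K * N2) := by
        apply mul_le_mul_of_nonneg_right _ (by positivity)
        exact_mod_cast h1

open Classical in
/-- The relation `z - e` inside the class `σ` of the type `τ`. -/
def HH (R : Finset (N → Fin n)) (i : Finset N × N × N) (σ : N → Option (Fin n))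
    (z e : Fin n) : Prop :=
  ∃ ρ ∈ R, cls i.1 ρ = σ ∧ ρ i.2.1 = z ∧ ρ i.2.2 = e

open Classical in
/-- Pruning. -/
lemma prune (rk : Finset N → ℕ) (hmono : ∀ A B, A ⊆ B → rk A ≤ rk B) (hn : 0 < n)
    {R : Finset (N → Fin n)} (hR : ExactR rk R) (Q : Finset (N → Fin n)) (hQ : Q ⊆ R)
    (TT : Finset (Finset N)) {κ : ℝ} (hκ : 0 < κ) :
    ∃ S ⊆ Q, (Q.card : ℝ) - κ * TT.card * (n : ℝ) ^ (rk univ) ≤ (S.card : ℝ) ∧
      ∀ τ ∈ TT, ∀ η ∈ S, κ * (n : ℝ) ^ (rk univ - rk τ) ≤
        ((S.filter (fun ρ => ∀ v ∈ τ, ρ v = η v)).card : ℝ) := by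
  let Φ : Finset (N → Fin n) → ℝ := fun S =>
    (S.card : ℝ) - κ * ∑ τ ∈ TT, (n : ℝ) ^ (rk univ - rk τ) * ((S.image (cls τ)).card : ℝ)
  obtain ⟨S, hS, hmax⟩ := exists_max_image Q.powerset Φ ⟨Q, mem_powerset.2 subset_rfl⟩
  rw [mem_powerset] at hS
  refine ⟨S, hS, ?_, ?_⟩
  · have h1 := hmax Q (mem_powerset.2 subset_rfl)
    have h2 : ∑ τ ∈ TT, (n : ℝ) ^ (rk univ - rk τ) * ((Q.image (cls τ)).card : ℝ) ≤
        TT.card * (n : ℝ) ^ (rk univ) := by
      rw [← nsmul_eq_mul, ← sum_const]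
      apply sum_le_sum
      intro τ _
      have h3 : ((Q.image (cls τ)).card : ℝ) ≤ (n : ℝ) ^ (rk τ) := by
        exact_mod_cast count_cls rk hmono hn hR Q hQ τ
      calc (n : ℝ) ^ (rk univ - rk τ) * ((Q.image (cls τ)).card : ℝ)
          ≤ (n : ℝ) ^ (rk univ - rk τ) * (n : ℝ) ^ (rk τ) :=
            mul_le_mul_of_nonneg_left h3 (by positivity)
        _ = (n : ℝ) ^ (rk univ) := by
            rw [← pow_add, Nat.sub_add_cancel (hmono _ _ (subset_univ _))]
    have h4 : 0 ≤ ∑ τ ∈ TT, (n : ℝ) ^ (rk univ - rk τ) * ((S.image (cls τ)).card : ℝ) :=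
      sum_nonneg (fun τ _ => by positivity)
    have h5 : κ * ∑ τ ∈ TT, (n : ℝ) ^ (rk univ - rk τ) * ((Q.image (cls τ)).card : ℝ) ≤
        κ * (TT.card * (n : ℝ) ^ (rk univ)) := mul_le_mul_of_nonneg_left h2 hκ.le
    have h6 : 0 ≤ κ * ∑ τ ∈ TT, (n : ℝ) ^ (rk univ - rk τ) * ((S.image (cls τ)).card : ℝ) :=
      mul_nonneg hκ.le h4
    simp only [Φ] at h1
    linarith
  · intro τ hτ η hη
    set S' := S.filter (fun ρ => ¬ ∀ v ∈ τ, ρ v = η v) with hS'
    have h1 := hmax S' (mem_powerset.2 ((filter_subset _ _).trans hS))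
    have hcard : (S.card : ℝ) = ((S.filter (fun ρ => ∀ v ∈ τ, ρ v = η v)).card : ℝ) +
        (S'.card : ℝ) := by
      rw [← Nat.cast_add]
      congr 1
      exact (card_filter_add_card_filter_not (s := S) (fun ρ => ∀ v ∈ τ, ρ v = η v)).symm
    have hsub : ∀ τ', S'.image (cls τ') ⊆ S.image (cls τ') :=
      fun τ' => image_subset_image (filter_subset _ _)
    have hτ1 : ((S'.image (cls τ)).card : ℝ) + 1 ≤ ((S.image (cls τ)).card : ℝ) := by
      have hss : S'.image (cls τ) ⊂ S.image (cls τ) := by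
        rw [ssubset_iff_of_subset (hsub τ)]
        refine ⟨cls τ η, mem_image_of_mem _ hη, ?_⟩
        intro h
        obtain ⟨ρ, hρ, he⟩ := mem_image.1 h
        rw [cls_eq_iff] at he
        exact (mem_filter.1 hρ).2 he
      exact_mod_cast card_lt_card hss
    have hsum : ∑ τ' ∈ TT, (n : ℝ) ^ (rk univ - rk τ') * ((S'.image (cls τ')).card : ℝ) +
        (n : ℝ) ^ (rk univ - rk τ) ≤
        ∑ τ' ∈ TT, (n : ℝ) ^ (rk univ - rk τ') * ((S.image (cls τ')).card : ℝ) := by
      rw [← add_sum_erase TT _ hτ, ← add_sum_erase TT _ hτ]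
      have e1 : ∑ τ' ∈ TT.erase τ, (n : ℝ) ^ (rk univ - rk τ') *
          ((S'.image (cls τ')).card : ℝ) ≤ ∑ τ' ∈ TT.erase τ, (n : ℝ) ^ (rk univ - rk τ') *
          ((S.image (cls τ')).card : ℝ) := by
        apply sum_le_sum
        intro τ' _
        apply mul_le_mul_of_nonneg_left _ (by positivity)
        exact_mod_cast card_le_card (hsub τ')
      have e2 : (n : ℝ) ^ (rk univ - rk τ) * (((S'.image (cls τ)).card : ℝ) + 1) ≤
          (n : ℝ) ^ (rk univ - rk τ) * ((S.image (cls τ)).card : ℝ) :=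
        mul_le_mul_of_nonneg_left hτ1 (by positivity)
      linarith
    have hsum' := mul_le_mul_of_nonneg_left hsum hκ.le
    simp only [Φ] at h1
    linarith

end Basic

section Main

variable {N : Type} [Fintype N] [DecidableEq N]

open Classical in
/-- Few rows have low degree. -/
lemma low_degree (rk : Finset N → ℕ) (hmono : ∀ A B, A ⊆ B → rk A ≤ rk B)
    (hins : ∀ v A, rk (insert v A) ≤ rk A + 1) {n : ℕ} (hn : 0 < n)
    {R : Finset (N → Fin n)} (hR : ExactR rk R) (i : Finset N × N × N)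
    (hi : rk (insert i.2.2 (insert i.2.1 i.1)) = rk i.1 + 2) {κ : ℝ} (hκ : 0 < κ)
    (F : Finset (N → Fin n)) (hF : F ⊆ R)
    (hlow : ∀ z ∈ F, ((univ.filter (fun e => HH R i (cls i.1 z) (z i.2.1) e)).card : ℝ) < κ * n) :
    (F.card : ℝ) ≤ κ * (n : ℝ) ^ (rk univ) := by
  obtain ⟨τ, a, b⟩ := i
  simp only at hi hlow
  have hr1 : rk (insert a τ) = rk τ + 1 := by
    have h1 := hins a τ
    have h2 := hins b (insert a τ)
    omega
  have hr2 : rk τ + 2 ≤ rk univ := by
    rw [← hi]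
    exact hmono _ _ (subset_univ _)
  have h := card_le_three F (cls (insert a τ)) (fun ρ => ρ b) (n ^ (rk τ + 1))
    (n ^ (rk univ - (rk τ + 2))) (κ * n) (by positivity)
    (by
      have := count_cls rk hmono hn hR F hF (insert a τ)
      rwa [hr1] at this)
    (by
      intro x hx
      refine le_trans ?_ (hlow x hx).le
      have : (F.filter (fun y => cls (insert a τ) y = cls (insert a τ) x)).image (fun ρ => ρ b) ⊆
          univ.filter (fun e => HH R (τ, a, b) (cls τ x) (x a) e) := by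
        intro e he
        obtain ⟨y, hy, rfl⟩ := mem_image.1 he
        rw [mem_filter, cls_eq_iff] at hy
        simp only [mem_filter, mem_univ, true_and]
        refine ⟨y, hF hy.1, ?_, hy.2 a (mem_insert_self _ _), rfl⟩
        rw [cls_eq_iff]
        exact fun u hu => hy.2 u (mem_insert_of_mem hu)
      exact_mod_cast card_le_card this)
    (by
      intro x hx
      have := count_rows rk hmono hn hR
        (F.filter (fun y => cls (insert a τ) y = cls (insert a τ) x ∧ y b = x b))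
        ((filter_subset _ _).trans hF) (insert b (insert a τ)) (by
          intro y hy z hz u hu
          rw [mem_filter, cls_eq_iff] at hy hz
          rcases mem_insert.1 hu with rfl | hu
          · rw [hy.2.2, hz.2.2]
          · rw [hy.2.1 u hu, hz.2.1 u hu])
      rwa [hi] at this)
  refine h.trans (le_of_eq ?_)
  push_cast
  have : (n : ℝ) ^ (rk univ) = (n : ℝ) ^ (rk τ + 1) * n * (n : ℝ) ^ (rk univ - (rk τ + 2)) := by
    rw [← pow_succ, ← pow_add]
    congr 1
    omega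
  rw [this]
  ring

open Classical in
/-- Few rows have a small neighbourhood of the anchor. -/
lemma small_nbhd (rk : Finset N → ℕ) (hmono : ∀ A B, A ⊆ B → rk A ≤ rk B)
    (hins : ∀ v A, rk (insert v A) ≤ rk A + 1) {n : ℕ} (hn : 0 < n)
    {R : Finset (N → Fin n)} (hR : ExactR rk R) (i : Finset N × N × N)
    (hi : rk (insert i.2.2 (insert i.2.1 i.1)) = rk i.1 + 2) {κ : ℝ} (hκ : 0 < κ)
    (anc : (N → Option (Fin n)) → Fin n)
    (F : Finset (N → Fin n)) (hF : F ⊆ R)
    (hA : ∀ z ∈ F, HH R i (cls i.1 z) (z i.2.1) (anc (cls i.1 z)))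
    (hlow : ∀ z ∈ F, ((univ.filter (fun e => HH R i (cls i.1 z) e (anc (cls i.1 z)))).card : ℝ)
      < κ * n) :
    (F.card : ℝ) ≤ κ * (n : ℝ) ^ (rk univ) := by
  obtain ⟨τ, a, b⟩ := i
  simp only at hi hlow hA
  have hr1 : rk (insert a τ) = rk τ + 1 := by
    have h1 := hins a τ
    have h2 := hins b (insert a τ)
    omega
  have hr2 : rk τ + 2 ≤ rk univ := by
    rw [← hi]
    exact hmono _ _ (subset_univ _)
  have h := card_le_three F (cls τ) (fun ρ => ρ a) (n ^ (rk τ))
    (n ^ (rk univ - (rk τ + 1))) (κ * n) (by positivity)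
    (count_cls rk hmono hn hR F hF τ)
    (by
      intro x hx
      refine le_trans ?_ (hlow x hx).le
      have : (F.filter (fun y => cls τ y = cls τ x)).image (fun ρ => ρ a) ⊆
          univ.filter (fun e => HH R (τ, a, b) (cls τ x) e (anc (cls τ x))) := by
        intro e he
        obtain ⟨y, hy, rfl⟩ := mem_image.1 he
        rw [mem_filter] at hy
        simp only [mem_filter, mem_univ, true_and]
        rw [← hy.2]
        exact hA y hy.1
      exact_mod_cast card_le_card this)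
    (by
      intro x hx
      have := count_rows rk hmono hn hR
        (F.filter (fun y => cls τ y = cls τ x ∧ y a = x a))
        ((filter_subset _ _).trans hF) (insert a τ) (by
          intro y hy z hz u hu
          rw [mem_filter, cls_eq_iff] at hy hz
          rcases mem_insert.1 hu with rfl | hu
          · rw [hy.2.2, hz.2.2]
          · rw [hy.2.1 u hu, hz.2.1 u hu])
      rwa [hr1] at this)
  refine h.trans (le_of_eq ?_)
  push_cast
  have : (n : ℝ) ^ (rk univ) = (n : ℝ) ^ (rk τ) * n * (n : ℝ) ^ (rk univ - (rk τ + 1)) := by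
    rw [← pow_succ, ← pow_add]
    congr 1
    omega
  rw [this]
  ring

open Classical in
/-- Many paths of length four between good elements of the neighbourhood of an anchor. -/
lemma many_paths {X : Type} {n : ℕ} (hn : 0 < n) (H : X → Fin n → Fin n → Prop)
    {δ δ3 : ℝ} (hδ : 0 < δ) (hδ3 : 0 < δ3) (x : X) (anc z1 z2 : Fin n)
    (hM : δ3 * n ≤ ((univ.filter (fun e => H x e anc)).card : ℝ))
    (h1 : (bdeg H δ x z1 anc : ℝ) ≤ δ3 / 4 * n) (h2 : (bdeg H δ x z2 anc : ℝ) ≤ δ3 / 4 * n) :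
    δ3 / 2 * δ ^ 2 * (n : ℝ) ^ 3 ≤
      ((univ.filter (fun t : Fin n × Fin n × Fin n =>
        H x z1 t.1 ∧ H x t.2.1 t.1 ∧ H x t.2.1 t.2.2 ∧ H x z2 t.2.2)).card : ℝ) := by
  set M := univ.filter (fun e => H x e anc) with hMdef
  set B1 := univ.filter (fun a' => H x a' anc ∧ Bad H δ x z1 a') with hB1
  set B2 := univ.filter (fun a' => H x a' anc ∧ Bad H δ x z2 a') with hB2
  let W := (M \ B1) \ B2
  have hW : δ3 / 2 * n ≤ (W.card : ℝ) := by
    have e1 : M.card ≤ (M \ B1).card + B1.card := by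
      have := le_card_sdiff B1 M
      omega
    have e2 : (M \ B1).card ≤ W.card + B2.card := by
      have : (M \ B1).card - B2.card ≤ W.card := le_card_sdiff B2 (M \ B1)
      omega
    have e1' : (M.card : ℝ) ≤ (M \ B1).card + B1.card := by exact_mod_cast e1
    have e2' : ((M \ B1).card : ℝ) ≤ W.card + B2.card := by exact_mod_cast e2
    have e3 : (B1.card : ℝ) ≤ δ3 / 4 * n := h1
    have e4 : (B2.card : ℝ) ≤ δ3 / 4 * n := h2
    linarith
  have hprop : ∀ z ∈ W, δ * n ≤ ((univ.filter (fun e => H x z1 e ∧ H x z e)).card : ℝ) ∧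
      δ * n ≤ ((univ.filter (fun e => H x z2 e ∧ H x z e)).card : ℝ) := by
    intro z hz
    simp only [W, mem_sdiff, hB1, hB2, hMdef, mem_filter, mem_univ, true_and, not_and] at hz
    have b1 := hz.1.2 hz.1.1
    have b2 := hz.2 hz.1.1
    unfold Bad at b1 b2
    exact ⟨not_lt.1 b1, not_lt.1 b2⟩
  -- injection of a sigma type
  let T := W.sigma (fun z => (univ.filter (fun e => H x z1 e ∧ H x z e)) ×ˢ
    (univ.filter (fun e => H x z2 e ∧ H x z e)))
  have hT : (W.card : ℝ) * (δ * n * (δ * n)) ≤ (T.card : ℝ) := by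
    simp only [T, card_sigma, card_product]
    push_cast
    rw [← nsmul_eq_mul, ← sum_const]
    apply sum_le_sum
    intro z hz
    exact mul_le_mul (hprop z hz).1 (hprop z hz).2 (by positivity) (by positivity)
  have hTle : T.card ≤ (univ.filter (fun t : Fin n × Fin n × Fin n =>
        H x z1 t.1 ∧ H x t.2.1 t.1 ∧ H x t.2.1 t.2.2 ∧ H x z2 t.2.2)).card := by
    apply card_le_card_of_injOn (fun s => (s.2.1, s.1, s.2.2))
    · intro s hs
      have hs' : s ∈ T := hs
      simp only [T, mem_sigma, mem_product, mem_filter, mem_univ, true_and] at hs'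
      simp only [coe_filter, mem_univ, true_and, Set.mem_ofPred_eq]
      exact ⟨hs'.2.1.1, hs'.2.1.2, hs'.2.2.2, hs'.2.2.1⟩
    · rintro ⟨z, e, e'⟩ _ ⟨z', f, f'⟩ _ h
      simp only [Prod.mk.injEq] at h
      obtain ⟨rfl, rfl, rfl⟩ := h
      rfl
  have hTle' : (T.card : ℝ) ≤ ((univ.filter (fun t : Fin n × Fin n × Fin n =>
        H x z1 t.1 ∧ H x t.2.1 t.1 ∧ H x t.2.1 t.2.2 ∧ H x z2 t.2.2)).card : ℝ) := by
    exact_mod_cast hTle
  refine le_trans ?_ hTle'
  refine le_trans ?_ hT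
  have := mul_le_mul_of_nonneg_right hW (by positivity : (0 : ℝ) ≤ δ * n * (δ * n))
  refine le_trans (le_of_eq ?_) this
  ring

open Classical in
/-- Joint cleaning. -/
theorem joint_cleaning (rk : Finset N → ℕ) (hmono : ∀ A B, A ⊆ B → rk A ≤ rk B)
    (hins : ∀ v A, rk (insert v A) ≤ rk A + 1) (TT : Finset (Finset N)) (c : ℝ) (hc : 0 < c) :
    ∃ kap : ℝ, 0 < kap ∧ ∀ n : ℕ, 0 < n → ∀ R : Finset (N → Fin n), ExactR rk R →
      c * (n : ℝ) ^ (rk univ) ≤ (R.card : ℝ) →
      ∃ S ⊆ R, kap * (n : ℝ) ^ (rk univ) ≤ (S.card : ℝ) ∧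
        ∀ τ ∈ TT, ∀ η ∈ S,
          kap * (n : ℝ) ^ (rk univ - rk τ) ≤
            ((S.filter (fun ρ => ∀ v ∈ τ, ρ v = η v)).card : ℝ) ∧
          ∀ a b : N, rk (insert b (insert a τ)) = rk τ + 2 →
            ∀ η1 ∈ S, ∀ η2 ∈ S, (∀ v ∈ τ, η1 v = η v) → (∀ v ∈ τ, η2 v = η v) →
              kap * (n : ℝ) ^ 3 ≤ ((univ.filter (fun t : Fin n × Fin n × Fin n =>
                (∃ ρ ∈ R, (∀ v ∈ τ, ρ v = η v) ∧ ρ a = η1 a ∧ ρ b = t.1) ∧
                (∃ ρ ∈ R, (∀ v ∈ τ, ρ v = η v) ∧ ρ a = t.2.1 ∧ ρ b = t.1) ∧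
                (∃ ρ ∈ R, (∀ v ∈ τ, ρ v = η v) ∧ ρ a = t.2.1 ∧ ρ b = t.2.2) ∧
                (∃ ρ ∈ R, (∀ v ∈ τ, ρ v = η v) ∧ ρ a = η2 a ∧ ρ b = t.2.2))).card : ℝ) := by
  let I : Finset (Finset N × N × N) :=
    univ.filter (fun i => i.1 ∈ TT ∧ rk (insert i.2.2 (insert i.2.1 i.1)) = rk i.1 + 2)
  set q : ℝ := (I.card : ℝ) + 1 with hq
  have hqpos : 0 < q := by positivity
  have hIq : (I.card : ℝ) ≤ q := by rw [hq]; linarith
  set κ : ℝ := c / (2 * q) with hκ
  have hκpos : 0 < κ := by positivity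
  set δ1 : ℝ := (κ / 2) ^ I.card * (c / 2) with hδ1
  have hδ1pos : 0 < δ1 := by positivity
  set δ3 : ℝ := δ1 / (8 * q) with hδ3
  have hδ3pos : 0 < δ3 := by positivity
  set δ : ℝ := κ * δ3 * δ1 / (64 * q) with hδ
  have hδpos : 0 < δ := by positivity
  set t : ℝ := (TT.card : ℝ) + 1 with ht
  have htpos : 0 < t := by positivity
  set κ' : ℝ := δ1 / (4 * t) with hκ'
  have hκ'pos : 0 < κ' := by positivity
  refine ⟨min (δ1 / 2) (min κ' (δ3 / 2 * δ ^ 2)), by positivity, ?_⟩
  intro n hn R hR hcard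
  have hn' : (0 : ℝ) < n := by exact_mod_cast hn
  set r := rk univ with hr
  have hnr : (0 : ℝ) < (n : ℝ) ^ r := by positivity
  -- upper bound for the number of rows
  have hRle : (R.card : ℝ) ≤ (n : ℝ) ^ r := by
    have := count_rows rk hmono hn hR R subset_rfl ∅
      (fun x _ y _ u hu => absurd hu (notMem_empty u))
    have h2 : R.card ≤ n ^ r := this.trans (Nat.pow_le_pow_right hn (Nat.sub_le _ _))
    exact_mod_cast h2
  -- degree cleaning
  let low : (Finset N × N × N) → Finset (N → Fin n) := fun i =>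
    R.filter (fun z => ((univ.filter (fun e => HH R i (cls i.1 z) (z i.2.1) e)).card : ℝ) < κ * n)
  let Q0 := R.filter (fun z => ∀ i ∈ I,
    κ * n ≤ ((univ.filter (fun e => HH R i (cls i.1 z) (z i.2.1) e)).card : ℝ))
  have hlow : ∀ i ∈ I, ((low i).card : ℝ) ≤ κ * (n : ℝ) ^ r := by
    intro i hi
    simp only [I, mem_filter, mem_univ, true_and] at hi
    apply low_degree rk hmono hins hn hR i hi.2 hκpos (low i) (filter_subset _ _)
    intro z hz
    exact (mem_filter.1 hz).2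
  have hQ0 : c / 2 * (n : ℝ) ^ r ≤ (Q0.card : ℝ) := by
    have hsub : R ⊆ Q0 ∪ I.biUnion low := by
      intro z hz
      rw [mem_union, mem_biUnion]
      by_cases h : ∀ i ∈ I,
        κ * n ≤ ((univ.filter (fun e => HH R i (cls i.1 z) (z i.2.1) e)).card : ℝ)
      · left
        exact mem_filter.2 ⟨hz, h⟩
      · right
        push Not at h
        obtain ⟨i, hi, h⟩ := h
        exact ⟨i, hi, mem_filter.2 ⟨hz, h⟩⟩
    have h1 : R.card ≤ Q0.card + ∑ i ∈ I, (low i).card :=
      (card_le_card hsub).trans ((card_union_le _ _).trans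
        (Nat.add_le_add_left card_biUnion_le _))
    have h2 : (R.card : ℝ) ≤ Q0.card + ∑ i ∈ I, ((low i).card : ℝ) := by exact_mod_cast h1
    have h3 : ∑ i ∈ I, ((low i).card : ℝ) ≤ I.card * (κ * (n : ℝ) ^ r) := by
      rw [← nsmul_eq_mul, ← sum_const]
      exact sum_le_sum hlow
    have h4 : (I.card : ℝ) * (κ * (n : ℝ) ^ r) ≤ q * (κ * (n : ℝ) ^ r) :=
      mul_le_mul_of_nonneg_right hIq (by positivity)
    have h5 : q * (κ * (n : ℝ) ^ r) = c / 2 * (n : ℝ) ^ r := by
      rw [hκ]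
      field_simp
    linarith
  have hQ0R : Q0 ⊆ R := filter_subset _ _
  have hQ0le : (Q0.card : ℝ) ≤ (n : ℝ) ^ r :=
    (by exact_mod_cast card_le_card hQ0R : (Q0.card : ℝ) ≤ R.card).trans hRle
  -- anchors
  obtain ⟨anc, Q, hQQ0, hQcard, hQI⟩ := anchor_steps hn Q0
    (fun (i : Finset N × N × N) (z : N → Fin n) => cls i.1 z)
    (fun (i : Finset N × N × N) (z : N → Fin n) => z i.2.1)
    (fun i => HH R i) hκpos hδpos I
    (fun i hi z hz => (mem_filter.1 hz).2 i hi)
  have hQR : Q ⊆ R := hQQ0.trans hQ0R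
  have hQ1 : δ1 * (n : ℝ) ^ r ≤ (Q.card : ℝ) := by
    refine le_trans ?_ hQcard
    rw [hδ1, mul_assoc]
    exact mul_le_mul_of_nonneg_left hQ0 (by positivity)
  -- second cleaning
  let bad1 : (Finset N × N × N) → Finset (N → Fin n) := fun i =>
    Q.filter (fun z => ((univ.filter (fun e => HH R i (cls i.1 z) e (anc i (cls i.1 z)))).card : ℝ)
      < δ3 * n)
  let bad2 : (Finset N × N × N) → Finset (N → Fin n) := fun i =>
    Q.filter (fun z => δ3 / 4 * n < (bdeg (HH R i) δ (cls i.1 z) (z i.2.1) (anc i (cls i.1 z)) : ℝ))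
  let Q2 := Q.filter (fun z => ∀ i ∈ I,
    δ3 * n ≤ ((univ.filter (fun e => HH R i (cls i.1 z) e (anc i (cls i.1 z)))).card : ℝ) ∧
    (bdeg (HH R i) δ (cls i.1 z) (z i.2.1) (anc i (cls i.1 z)) : ℝ) ≤ δ3 / 4 * n)
  have hbad1 : ∀ i ∈ I, ((bad1 i).card : ℝ) ≤ δ3 * (n : ℝ) ^ r := by
    intro i hi
    have hi' := hi
    simp only [I, mem_filter, mem_univ, true_and] at hi'
    apply small_nbhd rk hmono hins hn hR i hi'.2 hδ3pos (anc i) (bad1 i)
      ((filter_subset _ _).trans hQR)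
    · intro z hz
      exact (hQI i hi).1 z (mem_filter.1 hz).1
    · intro z hz
      exact (mem_filter.1 hz).2
  have hbad2 : ∀ i ∈ I, ((bad2 i).card : ℝ) ≤ δ3 * (n : ℝ) ^ r := by
    intro i hi
    have h1 := (hQI i hi).2
    have h2 : ((bad2 i).card : ℝ) * (δ3 / 4 * n) ≤
        ∑ z ∈ Q, (bdeg (HH R i) δ (cls i.1 z) (z i.2.1) (anc i (cls i.1 z)) : ℝ) := by
      calc ((bad2 i).card : ℝ) * (δ3 / 4 * n) = ∑ _z ∈ bad2 i, δ3 / 4 * (n : ℝ) := by
            rw [sum_const, nsmul_eq_mul]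
        _ ≤ ∑ z ∈ bad2 i, (bdeg (HH R i) δ (cls i.1 z) (z i.2.1) (anc i (cls i.1 z)) : ℝ) :=
            sum_le_sum (fun z hz => (mem_filter.1 hz).2.le)
        _ ≤ _ := sum_le_sum_of_subset_of_nonneg (filter_subset _ _)
            (fun z _ _ => Nat.cast_nonneg _)
    have h3 : ((bad2 i).card : ℝ) * (δ3 / 4 * n) ≤ 2 * δ / κ * n * (n : ℝ) ^ r :=
      h2.trans (h1.trans (mul_le_mul_of_nonneg_left hQ0le (by positivity)))
    have h4 : 2 * δ / κ * n * (n : ℝ) ^ r = δ1 / (8 * q) * (n : ℝ) ^ r * (δ3 / 4 * n) := by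
      rw [hδ]
      field_simp
      ring
    rw [h4] at h3
    have h5 := le_of_mul_le_mul_right h3 (by positivity)
    rw [← hδ3] at h5
    exact h5
  have hQ2 : 3 / 4 * δ1 * (n : ℝ) ^ r ≤ (Q2.card : ℝ) := by
    have hsub : Q ⊆ Q2 ∪ (I.biUnion bad1 ∪ I.biUnion bad2) := by
      intro z hz
      rw [mem_union, mem_union, mem_biUnion, mem_biUnion]
      by_cases h : ∀ i ∈ I,
        δ3 * n ≤ ((univ.filter (fun e => HH R i (cls i.1 z) e (anc i (cls i.1 z)))).card : ℝ) ∧
        (bdeg (HH R i) δ (cls i.1 z) (z i.2.1) (anc i (cls i.1 z)) : ℝ) ≤ δ3 / 4 * n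
      · left
        exact mem_filter.2 ⟨hz, h⟩
      · right
        push Not at h
        obtain ⟨i, hi, h⟩ := h
        by_cases h' : δ3 * n ≤
            ((univ.filter (fun e => HH R i (cls i.1 z) e (anc i (cls i.1 z)))).card : ℝ)
        · right
          exact ⟨i, hi, mem_filter.2 ⟨hz, h h'⟩⟩
        · left
          exact ⟨i, hi, mem_filter.2 ⟨hz, not_le.1 h'⟩⟩
    have h1 : Q.card ≤ Q2.card + (∑ i ∈ I, (bad1 i).card + ∑ i ∈ I, (bad2 i).card) :=
      (card_le_card hsub).trans ((card_union_le _ _).trans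
        (Nat.add_le_add_left ((card_union_le _ _).trans
          (Nat.add_le_add card_biUnion_le card_biUnion_le)) _))
    have h2 : (Q.card : ℝ) ≤ Q2.card + (∑ i ∈ I, ((bad1 i).card : ℝ) +
        ∑ i ∈ I, ((bad2 i).card : ℝ)) := by exact_mod_cast h1
    have h3 : ∑ i ∈ I, ((bad1 i).card : ℝ) ≤ I.card * (δ3 * (n : ℝ) ^ r) := by
      rw [← nsmul_eq_mul, ← sum_const]
      exact sum_le_sum hbad1
    have h3' : ∑ i ∈ I, ((bad2 i).card : ℝ) ≤ I.card * (δ3 * (n : ℝ) ^ r) := by
      rw [← nsmul_eq_mul, ← sum_const]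
      exact sum_le_sum hbad2
    have h4 : (I.card : ℝ) * (δ3 * (n : ℝ) ^ r) ≤ q * (δ3 * (n : ℝ) ^ r) :=
      mul_le_mul_of_nonneg_right hIq (by positivity)
    have h5 : q * (δ3 * (n : ℝ) ^ r) = δ1 / 8 * (n : ℝ) ^ r := by
      rw [hδ3]
      field_simp
    linarith
  -- pruning
  obtain ⟨S, hSQ2, hS1, hS2⟩ := prune rk hmono hn hR Q2 ((filter_subset _ _).trans hQR) TT hκ'pos
  have hSQ : S ⊆ Q := hSQ2.trans (filter_subset _ _)
  have hκt : κ' * TT.card * (n : ℝ) ^ r ≤ δ1 / 4 * (n : ℝ) ^ r := by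
    have h1 : (TT.card : ℝ) ≤ t := by rw [ht]; linarith
    have h2 : κ' * TT.card ≤ κ' * t := mul_le_mul_of_nonneg_left h1 hκ'pos.le
    have h3 : κ' * t = δ1 / 4 := by
      rw [hκ']
      field_simp
    exact mul_le_mul_of_nonneg_right (h2.trans h3.le) hnr.le
  refine ⟨S, hSQ.trans hQR, ?_, ?_⟩
  · have h1 : δ1 / 2 * (n : ℝ) ^ r ≤ (S.card : ℝ) := by linarith
    exact (mul_le_mul_of_nonneg_right (min_le_left _ _) hnr.le).trans h1
  · intro τ hτ η hη
    refine ⟨?_, ?_⟩
    · refine le_trans ?_ (hS2 τ hτ η hη)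
      apply mul_le_mul_of_nonneg_right _ (by positivity)
      exact (min_le_right _ _).trans (min_le_left _ _)
    · intro a b hab η1 hη1 η2 hη2 hag1 hag2
      have hi : ((τ, a, b) : Finset N × N × N) ∈ I := by
        simp only [I, mem_filter, mem_univ, true_and]
        exact ⟨hτ, hab⟩
      have hc1 : cls τ η1 = cls τ η := cls_eq_iff.2 hag1
      have hc2 : cls τ η2 = cls τ η := cls_eq_iff.2 hag2
      have g1 := (mem_filter.1 (hSQ2 hη1)).2 _ hi
      have g2 := (mem_filter.1 (hSQ2 hη2)).2 _ hi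
      simp only [hc1, hc2] at g1 g2
      have hmp := many_paths hn (HH R (τ, a, b)) hδpos hδ3pos (cls τ η)
        (anc (τ, a, b) (cls τ η)) (η1 a) (η2 a) g1.1 g1.2 g2.2
      have hle : min (δ1 / 2) (min κ' (δ3 / 2 * δ ^ 2)) * (n : ℝ) ^ 3 ≤
          δ3 / 2 * δ ^ 2 * (n : ℝ) ^ 3 := by
        apply mul_le_mul_of_nonneg_right _ (by positivity)
        exact (min_le_right _ _).trans (min_le_right _ _)
      refine hle.trans (hmp.trans (le_of_eq ?_))
      congr 2
      apply filter_congr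
      intro s _
      simp only [HH, cls_eq_iff]

end Main

end Pool.Agent.MF
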