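import Mathlib
import Pool.Agent.MF.Frame2
import Pool.Agent.MF.JC

/-!
Joint cleaning in the form of the frame.
-/

set_option autoImplicit false

namespace Pool.Agent.MF

open Finset

theorem stmtJC : StmtJC := by
  intro N _ _ _ M TT c hc
  obtain ⟨κ, hκ, h⟩ := joint_cleaning M.rk (fun A B h => M.rk_mono h)
    (fun v A => M.rk_insert_le v A) TT c hc
  refine ⟨κ, hκ, ?_⟩
  intro n hn R hR hcard
  have hE : ExactR M.rk R := fun S v hv x hx y hy hxy => hR S v hv x hx y hy hxy
  obtain ⟨S, hSR, hS1, hS2⟩ := h n hn R hE hcard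
  refine ⟨S, hSR, hS1, ?_⟩
  intro τ hτ η hη
  obtain ⟨h1, h2⟩ := hS2 τ hτ η hη
  have hsub : ∀ (F : Finset (N → Fin n)), sub F τ η = F.filter (fun ρ => ∀ v ∈ τ, ρ v = η v) := by
    intro F
    apply filter_congr
    intro ρ _
    constructor
    · exact fun h v hv => (h v hv).symm
    · exact fun h v hv => (h v hv).symm
  refine ⟨?_, ?_⟩
  · rw [hsub S]
    exact h1
  · intro a b hab η₁ hη₁ η₂ hη₂
    rw [hsub S, mem_filter] at hη₁ hη₂
    have hab' : M.rk (insert b (insert a τ)) = M.rk τ + 2 := by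
      rw [Finset.insert_comm]
      exact hab
    refine (h2 a b hab' η₁ hη₁.1 η₂ hη₂.1 hη₁.2 hη₂.2).trans (le_of_eq ?_)
    congr 2
    apply filter_congr
    intro t _
    simp only [hsub R, mem_filter, and_assoc]

end Pool.Agent.MF
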