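import Pool.Agent.MF.SlotB
import Pool.Agent.helper53.MF9.L

set_option autoImplicit false

/-!
# MP_141f81, Section 9: the input of `exists_L` from the rows

`R` the rows of `EMOut`, `S` its cleaned rows, `S2` cleaned rows of `S`. The letters of `S2` with roles in `L` and the lines
of `S` satisfy `LIn` with radii `22` and `42`.
-/

namespace Pool.Agent.MF

open Finset
open Pool.Agent.helper35.MF (Ball ball_add wd sy)

/-! ### additive maps on words -/

/-- the additive map of the words with given values at the letters -/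
noncomputable def exG {X H : Type*} [AddCommGroup H] (h2 : ∀ g : H, g + g = 0) (f : X → H) : (X →₀ ZMod 2) →+ H :=
  Finsupp.liftAddHom fun x => ZMod.lift 2 ⟨zmultiplesHom H (f x), by
    rw [zmultiplesHom_apply, Nat.cast_ofNat, ofNat_zsmul, two_nsmul, h2]⟩

theorem exG_single {X H : Type*} [AddCommGroup H] (h2 : ∀ g : H, g + g = 0) (f : X → H) (x : X) :
    exG h2 f (Finsupp.single x 1) = f x := by
  rw [exG, Finsupp.liftAddHom_apply_single]
  have h1 : (1 : ZMod 2) = ((1 : ℤ) : ZMod 2) := by simp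
  rw [h1, ZMod.lift_coe]
  simp

theorem exG_sy {X : Type} {H : Type*} [AddCommGroup H] (h2 : ∀ g : H, g + g = 0) (f : X → H) (x : X) :
    exG h2 f (sy x) = f x := exG_single h2 f x

section

variable {V : Type} [AddCommGroup V] [Fintype V] [DecidableEq V] {n : ℕ}

/-- few words of `m + 1` letters are pairwise not at distance `10 (m + 1) - 8` for the lines -/
theorem cov_lines {M : Mat V} {τ L : Finset V} {R S : Finset (V → Fin n)} {κ : ℝ}
    (h : ImData (IndL M τ L) R S lt (Lines M τ L R) κ) (hκ : 0 < κ) {m : ℕ}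
    (hrich : RichL M τ L (m + 1)) (W : Finset (G V n))
    (hW : ∀ w ∈ W, ∃ l : List (V × Fin n), l.length = m + 1 ∧ (∀ x ∈ l, x ∈ PL M τ L S) ∧ wd l = w)
    (hsep : ∀ w ∈ W, ∀ w' ∈ W, w ≠ w' → w + w' ∉ Ball (Lines M τ L R) (10 * (m + 1) - 8)) :
    W.card ≤ covK κ (Fintype.card V) m * n := by
  classical
  choose! f hf1 hf2 hf3 using hW
  set RL : Finset (List V) := (univ : Finset (List.Vector V (m + 1))).image List.Vector.toList with hRL
  have hRLc : RL.card ≤ Fintype.card V ^ (m + 1) := by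
    refine card_image_le.trans ?_
    rw [card_univ, card_vector]
  have hmaps : ∀ w ∈ W, (f w).map Prod.fst ∈ RL := by
    intro w hw
    rw [hRL, mem_image]
    exact ⟨⟨(f w).map Prod.fst, by rw [List.length_map, hf1 w hw]⟩, mem_univ _, rfl⟩
  have hfib : ∀ vs ∈ RL, (W.filter fun w => (f w).map Prod.fst = vs).card ≤ ⌈(κ ^ (2 * m + 1))⁻¹⌉₊ * n := by
    intro vs hvs
    rw [hRL, mem_image] at hvs
    obtain ⟨⟨vs, hlen⟩, _, rfl⟩ := hvs
    simp only [List.Vector.toList]
    rcases (W.filter fun w => (f w).map Prod.fst = vs).eq_empty_or_nonempty with h0 | ⟨w0, hw0⟩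
    · rw [h0]
      exact Nat.zero_le _
    rw [mem_filter] at hw0
    rcases vs with _ | ⟨v, vs⟩
    · simp at hlen
    have hlen' : vs.length = m := by simpa using hlen
    obtain ⟨a, ha⟩ := hrich (v :: vs) (le_of_eq hlen) (by
      intro x hx
      rw [← hw0.2] at hx
      obtain ⟨p, hp, rfl⟩ := List.mem_map.1 hx
      have := hf2 w0 hw0.1 p hp
      rw [mem_PL] at this
      exact ⟨this.1, this.2.1⟩)
    have hinj : Set.InjOn f (W.filter fun w => (f w).map Prod.fst = v :: vs) := by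
      intro w hw w' hw' hww
      rw [mem_coe, mem_filter] at hw hw'
      rw [← hf3 w hw.1, ← hf3 w' hw'.1, hww]
    have h1 := words_le h hκ.le a v vs ha ((W.filter fun w => (f w).map Prod.fst = v :: vs).image f) (by
      intro l hl
      rw [mem_image] at hl
      obtain ⟨w, hw, rfl⟩ := hl
      rw [mem_filter] at hw
      refine ⟨hw.2, fun x hx => ?_⟩
      have := hf2 w hw.1 x hx
      rw [mem_PL] at this
      exact this.2.2) (by
      intro l hl l' hl' hne hb
      rw [mem_image] at hl hl'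
      obtain ⟨w, hw, rfl⟩ := hl
      obtain ⟨w', hw', rfl⟩ := hl'
      rw [mem_filter] at hw hw'
      refine hsep w hw.1 w' hw'.1 (fun hh => hne (by rw [hh])) ?_
      rw [hlen'] at hb
      rw [← hf3 w hw.1, ← hf3 w' hw'.1]
      exact hb)
    rw [card_image_of_injOn hinj, hlen'] at h1
    have hk : 0 < κ ^ (2 * m + 1) := by positivity
    have h2 : ((W.filter fun w => (f w).map Prod.fst = v :: vs).card : ℝ) ≤ (κ ^ (2 * m + 1))⁻¹ * n := by
      rw [inv_mul_eq_div, le_div_iff₀ hk, mul_comm]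
      exact h1
    have h3 : (κ ^ (2 * m + 1))⁻¹ * n ≤ (⌈(κ ^ (2 * m + 1))⁻¹⌉₊ : ℝ) * n :=
      mul_le_mul_of_nonneg_right (Nat.le_ceil _) (Nat.cast_nonneg _)
    exact_mod_cast h2.trans h3
  rw [card_eq_sum_card_fiberwise hmaps]
  calc ∑ vs ∈ RL, (W.filter fun w => (f w).map Prod.fst = vs).card
      ≤ ∑ _vs ∈ RL, ⌈(κ ^ (2 * m + 1))⁻¹⌉₊ * n := sum_le_sum hfib
    _ = RL.card * (⌈(κ ^ (2 * m + 1))⁻¹⌉₊ * n) := by rw [sum_const, smul_eq_mul]
    _ ≤ Fintype.card V ^ (m + 1) * (⌈(κ ^ (2 * m + 1))⁻¹⌉₊ * n) := Nat.mul_le_mul_right _ hRLc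
    _ = covK κ (Fintype.card V) m * n := by rw [covK]; ring

/-- **the input of `exists_L`**: letters of `S2`, lines of `S`, values `π`, operators `A` of the letters -/
theorem lIn_of {M : Mat V} {T : ℕ} {R S S2 : Finset (V → Fin n)} {U : Type} [AddCommGroup U] [Fintype U]
    [DecidableEq U] {π : V → Fin n → U} (h : EMOut M n T R S U π) (hn : 0 < n) {κ : ℝ} (hκ : 0 < κ)
    (hSR : S ⊆ R) (hJ : JCOut M univ κ S S2) {Lin L : Finset V} (hLin : LinPart M Lin) (hL : Lin ⊆ L)
    (hadd : ∀ u ∈ L, ∀ v ∈ L, u + v ∈ L) {Mo : Type} [AddCommGroup Mo] (twoM : ∀ x : Mo, x + x = 0)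
    {Bb : ℕ → Set Mo} (hB : Pool.Agent.helper71.MF7b.Nrm Bb) {c1 : ℕ} (A : V × Fin n → Mo)
    (hA : ∀ u v, IndL M ∅ L u v → ∀ ρ ∈ S, A (u, ρ u) + A (v, ρ v) + A (u + v, ρ (u + v)) ∈ Bb c1) :
    Pool.Agent.helper53.MF9.LIn ⌈κ⁻¹⌉₊ 22 42 (covK κ (Fintype.card V) 2) (covK κ (Fintype.card V) 4) T
      (Fintype.card V * T) c1 n Bb (Lines M ∅ L S) (PL M ∅ L S2) (exG h.two fun p => π p.1 p.2) (exG twoM A) := by
  classical
  have hE : Exact M S := h.exact.mono hSR
  have hr : M.rk ∅ ≤ 2 := by rw [M.rk_empty]; exact Nat.zero_le _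
  have hne : S2.Nonempty := by
    have h1 := hJ.2.1
    have h2 : 0 < κ * (n : ℝ) ^ M.r := by positivity
    rw [← card_pos]
    exact_mod_cast h2.trans_le h1
  have hI := imData_top hn hE hJ L hne
  have hlin : ∀ {H : Type} [AddCommGroup H] (h2 : ∀ g : H, g + g = 0) (f : V × Fin n → H) (ρ : V → Fin n) (u v : V),
      exG h2 f (lin ρ u v) = f (u, ρ u) + f (v, ρ v) + f (u + v, ρ (u + v)) := by
    intro H _ h2 f ρ u v
    rw [lin, map_add, map_add, lt, lt, lt, exG_single, exG_single, exG_single]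
  refine ⟨hB, h.two, twoM, hn, ?_, h.cardU, ?_, ?_, ?_, ?_, ?_⟩
  · exact PL_big hI hκ hne (indL_of hLin hr hL hadd) (Nat.le_ceil _)
  · rintro t ⟨ρ, hρ, u, hu, v, hv, huv, hi, rfl⟩
    rw [hlin, h.add ρ (hSR hρ) u v, h.two]
  · rintro t ⟨ρ, hρ, u, hu, v, hv, huv, hi, rfl⟩
    rw [hlin]
    exact hA u v ⟨hi, hu, hv, huv⟩ ρ hρ
  · intro p hp Q hQ hq
    have h1 : Q ⊆ (univ : Finset V).biUnion fun v => if v = 0 then ∅ else
        ((univ.filter fun y : Fin n => (∃ ρ ∈ R, ρ v = y) ∧ π v y = π p.1 p.2).image fun y => ((v, y) : V × Fin n)) := by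
      intro q hqQ
      rw [mem_biUnion]
      have h2 := hQ hqQ
      rw [mem_PL] at h2
      obtain ⟨_, h3, ρ, hρ, h4⟩ := h2
      refine ⟨q.1, mem_univ _, ?_⟩
      rw [if_neg (SD_ne h3), mem_image]
      refine ⟨q.2, ?_, rfl⟩
      rw [mem_filter]
      have h5 := hq q hqQ
      rw [exG_sy, exG_sy] at h5
      exact ⟨mem_univ _, ⟨ρ, hSR (hJ.1 hρ), h4⟩, h5⟩
    refine (card_le_card h1).trans ?_
    refine (card_biUnion_le_card_mul _ _ T ?_).trans (le_of_eq (by rw [card_univ]))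
    intro v _
    by_cases hv : v = 0
    · rw [if_pos hv]
      exact Nat.zero_le _
    · rw [if_neg hv]
      exact card_image_le.trans (h.fib v _ hv)
  · intro W hW hs
    exact cov_lines hI hκ ((richL_of hLin hr hL hadd).mono (by norm_num)) W hW hs
  · intro W hW hs
    exact cov_lines hI hκ ((richL_of hLin hr hL hadd).mono (by norm_num)) W hW hs

end

end Pool.Agent.MF
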