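import Mathlib

/-!
# MF.LemT : Lemma T of Section 9 (finite effective form)

`U` is a finite group of exponent two, `nr f` is the size of the range of `f : U →+ U`.  If `g Θ ≈ ζ Θ g`,
`s Θ Θ Θ ≈ Θ s`, `ζ Θ ≈ Θ ζ`, `ζ ζ + ζ + 1 ≈ 0` up to maps with at most `K` values and `g`, `s` have kernels of
size at most `K`, then the kernel of `Θ ^ N + 1` has at most `D K N` elements.
-/

set_option autoImplicit false

namespace Pool.Agent.MF.LemT

variable {U : Type*} [AddCommGroup U]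

/-- The size of the range. -/
noncomputable def nr (f : AddMonoid.End U) : ℕ := Nat.card (AddMonoidHom.range f)

/-- The kernel. -/
def kr (f : AddMonoid.End U) : AddSubgroup U := AddMonoidHom.ker f

theorem mem_kr {f : AddMonoid.End U} {v : U} : v ∈ kr f ↔ f v = 0 := Iff.rfl

theorem mul_app (f g : AddMonoid.End U) (v : U) : (f * g) v = f (g v) := rfl

theorem add_app (f g : AddMonoid.End U) (v : U) : (f + g) v = f v + g v := rfl

theorem one_app (v : U) : (1 : AddMonoid.End U) v = v := rfl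

variable [Finite U]

theorem nr_pos (f : AddMonoid.End U) : 0 < nr f := Nat.card_pos

theorem nr_add (f g : AddMonoid.End U) : nr (f + g) ≤ nr f * nr g := by
  classical
  unfold nr
  rw [← Nat.card_prod]
  apply Nat.card_le_card_of_surjective
    (fun p : (AddMonoidHom.range f) × (AddMonoidHom.range g) =>
      if h : (p.1 : U) + (p.2 : U) ∈ AddMonoidHom.range (f + g) then
        (⟨(p.1 : U) + (p.2 : U), h⟩ : AddMonoidHom.range (f + g)) else 0)
  rintro ⟨_, v, rfl⟩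
  refine ⟨(⟨f v, v, rfl⟩, ⟨g v, v, rfl⟩), ?_⟩
  have h : f v + g v ∈ AddMonoidHom.range (f + g) := ⟨v, rfl⟩
  simp only
  rw [dif_pos h]
  rfl

theorem nr_mul_left (h f : AddMonoid.End U) : nr (h * f) ≤ nr f := by
  classical
  unfold nr
  apply Nat.card_le_card_of_surjective
    (fun p : AddMonoidHom.range f =>
      if hh : h (p : U) ∈ AddMonoidHom.range (h * f) then
        (⟨h (p : U), hh⟩ : AddMonoidHom.range (h * f)) else 0)
  rintro ⟨_, v, rfl⟩
  refine ⟨⟨f v, v, rfl⟩, ?_⟩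
  have hh : h (f v) ∈ AddMonoidHom.range (h * f) := ⟨v, rfl⟩
  simp only
  rw [dif_pos hh]
  rfl

theorem nr_mul_right (f h : AddMonoid.End U) : nr (f * h) ≤ nr f := by
  unfold nr
  apply Nat.card_le_card_of_injective
    (fun p : AddMonoidHom.range (f * h) => (⟨(p : U), by
      obtain ⟨v, hv⟩ := p.2
      exact ⟨h v, hv⟩⟩ : AddMonoidHom.range f))
  intro p q hpq
  exact Subtype.ext (Subtype.mk.inj hpq)

/-- the isomorphism theorem for the restriction to a subgroup -/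
theorem card_map_mul (H : AddSubgroup U) (f : AddMonoid.End U) :
    Nat.card H = Nat.card (H.map f) * Nat.card (H ⊓ kr f : AddSubgroup U) := by
  set φ : H →+ U := (f : U →+ U).comp H.subtype with hφ
  have h1 := AddSubgroup.card_eq_card_quotient_mul_card_addSubgroup φ.ker
  have h2 : Nat.card (H ⧸ φ.ker) = Nat.card φ.range :=
    Nat.card_congr (QuotientAddGroup.quotientKerEquivRange φ).toEquiv
  have h3 : φ.range = H.map f := by
    ext x
    constructor
    · rintro ⟨v, rfl⟩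
      exact ⟨v, v.2, rfl⟩
    · rintro ⟨v, hv, rfl⟩
      exact ⟨⟨v, hv⟩, rfl⟩
  have h4 : Nat.card φ.ker = Nat.card (H ⊓ kr f : AddSubgroup U) := by
    apply Nat.card_congr
    refine ⟨fun v => ⟨(v : H), ?_⟩, fun v => ⟨⟨v, v.2.1⟩, ?_⟩, fun v => ?_, fun v => ?_⟩
    · exact ⟨(v : H).2, v.2⟩
    · exact v.2.2
    · rfl
    · rfl
  rw [h1, h2, h3, h4]

theorem card_le_ker (H : AddSubgroup U) (f : AddMonoid.End U) {c : ℕ} (hc : nr f ≤ c) :
    Nat.card H ≤ c * Nat.card (H ⊓ kr f : AddSubgroup U) := by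
  rw [card_map_mul H f]
  apply Nat.mul_le_mul_right
  refine le_trans ?_ hc
  unfold nr
  exact Nat.card_le_card_of_injective
    (fun p : H.map f => (⟨(p : U), by
      obtain ⟨v, _, hv⟩ := p.2
      exact ⟨v, hv⟩⟩ : AddMonoidHom.range f))
    (fun p q hpq => Subtype.ext (Subtype.mk.inj hpq))

theorem card_mono {H H' : AddSubgroup U} (h : H ≤ H') : Nat.card H ≤ Nat.card H' :=
  Nat.card_le_card_of_injective (fun p : H => (⟨(p : U), h p.2⟩ : H'))
    (fun p q hpq => Subtype.ext (Subtype.mk.inj hpq))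

/-- a map with small kernel -/
theorem card_le_map (H H' : AddSubgroup U) (f : AddMonoid.End U) {c : ℕ} (hc : Nat.card (kr f) ≤ c)
    (h : ∀ v ∈ H, f v ∈ H') : Nat.card H ≤ c * Nat.card H' := by
  rw [card_map_mul H f, mul_comm]
  apply Nat.mul_le_mul
  · exact (card_mono inf_le_right).trans hc
  · apply card_mono
    rintro _ ⟨v, hv, rfl⟩
    exact h v hv

section

variable (two : ∀ u : U, u + u = 0)

include two

theorem add_self (f : AddMonoid.End U) : f + f = 0 := by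
  ext v
  exact two (f v)

/-- transitivity -/
theorem tr {a b c : AddMonoid.End U} {x y : ℕ} (h1 : nr (a + b) ≤ x) (h2 : nr (b + c) ≤ y) :
    nr (a + c) ≤ x * y := by
  have h3 : a + c = (a + b) + (b + c) := by
    have : (a + b) + (b + c) = a + c + (b + b) := by abel
    rw [this, add_self two b, add_zero]
  rw [h3]
  exact (nr_add _ _).trans (Nat.mul_le_mul h1 h2)

theorem eq_of_add {u v : U} (h : u + v = 0) : u = v := by
  have h1 : u + v = v + v := by rw [h, two v]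
  exact add_right_cancel h1

end

theorem nr_zero : nr (0 : AddMonoid.End U) = 1 := by
  unfold nr
  rw [Nat.card_eq_one_iff_unique]
  refine ⟨⟨fun p q => ?_⟩, ⟨0⟩⟩
  obtain ⟨_, v, rfl⟩ := p
  obtain ⟨_, w, rfl⟩ := q
  rfl

/-- The hypotheses. -/
structure Lab (K : ℕ) (Θ ζ g s : AddMonoid.End U) : Prop where
  two : ∀ u : U, u + u = 0
  kg : Nat.card (kr g) ≤ K
  ks : Nat.card (kr s) ≤ K
  gT : nr (g * Θ + ζ * Θ * g) ≤ K
  sT : nr (s * (Θ * Θ * Θ) + Θ * s) ≤ K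
  zT : nr (ζ * Θ + Θ * ζ) ≤ K
  zz : nr (ζ * ζ + ζ + 1) ≤ K

variable {K : ℕ} {Θ ζ g s : AddMonoid.End U}

theorem Lab.Kpos (h : Lab K Θ ζ g s) : 1 ≤ K := (nr_pos _).trans_le h.gT

theorem Lab.s_pow (h : Lab K Θ ζ g s) (n : ℕ) : nr (s * Θ ^ (3 * n) + Θ ^ n * s) ≤ K ^ n := by
  induction n with
  | zero =>
    rw [mul_zero, pow_zero, mul_one, one_mul, add_self h.two, nr_zero, pow_zero]
  | succ n ih =>
    rw [pow_succ K]
    apply tr h.two (b := Θ ^ n * s * (Θ * Θ * Θ))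
    · have h1 : s * Θ ^ (3 * (n + 1)) + Θ ^ n * s * (Θ * Θ * Θ) =
          (s * Θ ^ (3 * n) + Θ ^ n * s) * (Θ * Θ * Θ) := by
        rw [add_mul, show 3 * (n + 1) = 3 * n + 1 + 1 + 1 by ring, pow_succ, pow_succ, pow_succ]
        simp only [mul_assoc]
      rw [h1]
      exact (nr_mul_right _ _).trans ih
    · have h1 : Θ ^ n * s * (Θ * Θ * Θ) + Θ ^ (n + 1) * s =
          Θ ^ n * (s * (Θ * Θ * Θ) + Θ * s) := by
        rw [mul_add, pow_succ]
        simp only [mul_assoc]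
      rw [h1]
      exact (nr_mul_left _ _).trans h.sT

theorem Lab.z_pow (h : Lab K Θ ζ g s) (n : ℕ) : nr (Θ ^ n * ζ + ζ * Θ ^ n) ≤ K ^ n := by
  induction n with
  | zero =>
    rw [pow_zero, mul_one, one_mul, add_self h.two, nr_zero, pow_zero]
  | succ n ih =>
    rw [pow_succ K, mul_comm (K ^ n)]
    apply tr h.two (b := Θ ^ n * (ζ * Θ))
    · have h1 : Θ ^ (n + 1) * ζ + Θ ^ n * (ζ * Θ) = Θ ^ n * (ζ * Θ + Θ * ζ) := by
        rw [mul_add, pow_succ, mul_assoc, add_comm]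
      rw [h1]
      exact (nr_mul_left _ _).trans h.zT
    · have h1 : Θ ^ n * (ζ * Θ) + ζ * Θ ^ (n + 1) = (Θ ^ n * ζ + ζ * Θ ^ n) * Θ := by
        rw [add_mul, pow_succ]
        simp only [mul_assoc]
      rw [h1]
      exact (nr_mul_right _ _).trans ih

theorem Lab.g_pow (h : Lab K Θ ζ g s) (n : ℕ) : nr (g * Θ ^ n + (ζ * Θ) ^ n * g) ≤ K ^ n := by
  induction n with
  | zero =>
    rw [pow_zero, pow_zero, mul_one, one_mul, add_self h.two, nr_zero, pow_zero]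
  | succ n ih =>
    rw [pow_succ K]
    apply tr h.two (b := (ζ * Θ) ^ n * g * Θ)
    · have h1 : g * Θ ^ (n + 1) + (ζ * Θ) ^ n * g * Θ = (g * Θ ^ n + (ζ * Θ) ^ n * g) * Θ := by
        rw [add_mul, pow_succ]
        simp only [mul_assoc]
      rw [h1]
      exact (nr_mul_right _ _).trans ih
    · have h1 : (ζ * Θ) ^ n * g * Θ + (ζ * Θ) ^ (n + 1) * g =
          (ζ * Θ) ^ n * (g * Θ + ζ * Θ * g) := by
        rw [mul_add, pow_succ]
        simp only [mul_assoc]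
      rw [h1]
      exact (nr_mul_left _ _).trans h.gT

theorem Lab.zT_pow (h : Lab K Θ ζ g s) (n : ℕ) :
    nr ((ζ * Θ) ^ n + ζ ^ n * Θ ^ n) ≤ K ^ (n * n) := by
  induction n with
  | zero =>
    rw [pow_zero, pow_zero, pow_zero, mul_one, add_self h.two, nr_zero]
    simp
  | succ n ih =>
    have hK : K ^ (n * n) * K ^ n ≤ K ^ ((n + 1) * (n + 1)) := by
      rw [← pow_add]
      exact Nat.pow_le_pow_right h.Kpos (by ring_nf; omega)
    refine le_trans ?_ hK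
    apply tr h.two (b := ζ ^ n * Θ ^ n * (ζ * Θ))
    · have h1 : (ζ * Θ) ^ (n + 1) + ζ ^ n * Θ ^ n * (ζ * Θ) =
          ((ζ * Θ) ^ n + ζ ^ n * Θ ^ n) * (ζ * Θ) := by
        rw [add_mul, pow_succ]
      rw [h1]
      exact (nr_mul_right _ _).trans ih
    · have h1 : ζ ^ n * Θ ^ n * (ζ * Θ) + ζ ^ (n + 1) * Θ ^ (n + 1) =
          ζ ^ n * (Θ ^ n * ζ + ζ * Θ ^ n) * Θ := by
        rw [mul_add, add_mul, pow_succ, pow_succ]
        simp only [mul_assoc]
      rw [h1]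
      exact (nr_mul_right _ _).trans ((nr_mul_left _ _).trans (h.z_pow n))

theorem Lab.z_three (h : Lab K Θ ζ g s) : nr (ζ ^ 3 + 1) ≤ K := by
  have h1 : ζ ^ 3 + 1 = (ζ + 1) * (ζ * ζ + ζ + 1) := by
    have h2 : (ζ + 1) * (ζ * ζ + ζ + 1) = ζ ^ 3 + 1 + ((ζ * ζ + ζ * ζ) + (ζ + ζ)) := by
      noncomm_ring
    rw [h2, add_self h.two, add_self h.two, add_zero, add_zero]
  rw [h1]
  exact (nr_mul_left _ _).trans h.zz

theorem Lab.z_three_pow (h : Lab K Θ ζ g s) (n : ℕ) : nr (ζ ^ (3 * n) + 1) ≤ K ^ n := by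
  induction n with
  | zero =>
    rw [mul_zero, pow_zero, pow_zero, add_self h.two, nr_zero]
  | succ n ih =>
    rw [pow_succ K]
    apply tr h.two (b := ζ ^ 3)
    · have h1 : ζ ^ (3 * (n + 1)) + ζ ^ 3 = (ζ ^ (3 * n) + 1) * ζ ^ 3 := by
        rw [add_mul, one_mul, ← pow_add]
        congr 1
      rw [h1]
      exact (nr_mul_right _ _).trans ih
    · exact h.z_three

theorem Lab.g_three (h : Lab K Θ ζ g s) (N : ℕ) :
    nr (g * Θ ^ (3 * N) + Θ ^ (3 * N) * g) ≤ K ^ (3 * N) * (K ^ (3 * N * (3 * N)) * K ^ N) := by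
  apply tr h.two (h.g_pow (3 * N))
  apply tr h.two (b := ζ ^ (3 * N) * Θ ^ (3 * N) * g)
  · have h1 : (ζ * Θ) ^ (3 * N) * g + ζ ^ (3 * N) * Θ ^ (3 * N) * g =
        ((ζ * Θ) ^ (3 * N) + ζ ^ (3 * N) * Θ ^ (3 * N)) * g := by
      rw [add_mul]
    rw [h1]
    exact (nr_mul_right _ _).trans (h.zT_pow (3 * N))
  · have h1 : ζ ^ (3 * N) * Θ ^ (3 * N) * g + Θ ^ (3 * N) * g =
        (ζ ^ (3 * N) + 1) * (Θ ^ (3 * N) * g) := by
      rw [add_mul, one_mul, mul_assoc]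
    rw [h1]
    exact (nr_mul_right _ _).trans (h.z_three_pow N)

theorem Lab.g_one (h : Lab K Θ ζ g s) (N : ℕ) :
    nr (g * Θ ^ N + ζ ^ N * Θ ^ N * g) ≤ K ^ N * K ^ (N * N) := by
  apply tr h.two (h.g_pow N)
  have h1 : (ζ * Θ) ^ N * g + ζ ^ N * Θ ^ N * g = ((ζ * Θ) ^ N + ζ ^ N * Θ ^ N) * g := by
    rw [add_mul]
  rw [h1]
  exact (nr_mul_right _ _).trans (h.zT_pow N)

/-- the fixed space of `Θ ^ N` -/
theorem mem_fix (two : ∀ u : U, u + u = 0) {N : ℕ} {v : U} :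
    v ∈ kr (Θ ^ N + 1) ↔ (Θ ^ N) v = v := by
  rw [mem_kr, add_app, one_app]
  constructor
  · exact eq_of_add two
  · intro h
    rw [h, two]

theorem Lab.step (h : Lab K Θ ζ g s) (N : ℕ) :
    Nat.card (kr (Θ ^ (3 * N) + 1)) ≤ K ^ N * (K * Nat.card (kr (Θ ^ N + 1))) := by
  refine (card_le_ker _ (s * Θ ^ (3 * N) + Θ ^ N * s) (h.s_pow N)).trans ?_
  apply Nat.mul_le_mul_left
  apply card_le_map _ _ s h.ks
  intro v hv
  rw [AddSubgroup.mem_inf] at hv
  obtain ⟨hv1, hv2⟩ := hv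
  rw [mem_fix h.two] at hv1
  rw [mem_kr, add_app, mul_app, mul_app] at hv2
  rw [mem_fix h.two]
  have h1 := eq_of_add h.two hv2
  rw [← h1, hv1]

theorem fix_mono (two : ∀ u : U, u + u = 0) (N : ℕ) :
    kr (Θ ^ N + 1) ≤ kr (Θ ^ (3 * N) + 1) := by
  intro v hv
  rw [mem_fix two] at hv ⊢
  rw [show 3 * N = N + N + N by ring, pow_add, pow_add, mul_app, mul_app, hv, hv, hv]

/-- the case `3 ∤ N` -/
theorem Lab.main (h : Lab K Θ ζ g s) (N : ℕ) (hN : ¬ 3 ∣ N) :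
    Nat.card (kr (Θ ^ N + 1)) ≤ (K ^ (3 * N) * (K ^ (3 * N * (3 * N)) * K ^ N)) *
      ((K ^ N * K) * ((K ^ N * K ^ (N * N)) * (K * (K * K)))) := by
  set Z := kr (Θ ^ N + 1) with hZ
  set Z3 := kr (Θ ^ (3 * N) + 1) with hZ3
  -- first restriction
  refine (card_le_ker Z (g * Θ ^ (3 * N) + Θ ^ (3 * N) * g) (h.g_three N)).trans ?_
  apply Nat.mul_le_mul_left
  set H1 := Z ⊓ kr (g * Θ ^ (3 * N) + Θ ^ (3 * N) * g) with hH1
  have hH1g : ∀ v ∈ H1, g v ∈ Z3 := by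
    intro v hv
    rw [hH1, AddSubgroup.mem_inf] at hv
    obtain ⟨hv1, hv2⟩ := hv
    have hv3 := fix_mono h.two N hv1
    rw [mem_fix h.two] at hv3
    rw [mem_kr, add_app, mul_app, mul_app] at hv2
    rw [hZ3, mem_fix h.two]
    have h1 := eq_of_add h.two hv2
    rw [← h1, hv3]
  -- second restriction: `g v ∈ Z`
  have h2 : Nat.card H1 ≤ (K ^ N * K) *
      Nat.card (H1 ⊓ kr ((Θ ^ N + 1) * g) : AddSubgroup U) := by
    rw [card_map_mul H1 ((Θ ^ N + 1) * g)]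
    apply Nat.mul_le_mul_right
    have h3 : H1.map ((Θ ^ N + 1) * g) ≤ Z3.map (Θ ^ N + 1) := by
      rintro _ ⟨v, hv, rfl⟩
      exact ⟨g v, hH1g v hv, rfl⟩
    refine (card_mono h3).trans ?_
    have h4 := card_map_mul Z3 (Θ ^ N + 1)
    have h5 : Z3 ⊓ kr (Θ ^ N + 1) = Z := by
      rw [← hZ]
      exact inf_eq_right.mpr (fix_mono h.two N)
    rw [h5] at h4
    have h6 := h.step N
    rw [← hZ, ← hZ3, h4] at h6
    have h7 : 0 < Nat.card Z := Nat.card_pos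
    have h8 : Nat.card (Z3.map (Θ ^ N + 1)) * Nat.card Z ≤ (K ^ N * K) * Nat.card Z := by
      refine h6.trans (le_of_eq ?_)
      ring
    exact Nat.le_of_mul_le_mul_right h8 h7
  refine h2.trans ?_
  apply Nat.mul_le_mul_left
  set H2 := H1 ⊓ kr ((Θ ^ N + 1) * g) with hH2
  -- third restriction
  refine (card_le_ker H2 (g * Θ ^ N + ζ ^ N * Θ ^ N * g) (h.g_one N)).trans ?_
  apply Nat.mul_le_mul_left
  set H3 := H2 ⊓ kr (g * Θ ^ N + ζ ^ N * Θ ^ N * g) with hH3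
  -- fourth restriction
  refine (card_le_ker H3 ((ζ ^ 3 + 1) * g) ((nr_mul_right _ _).trans h.z_three)).trans ?_
  apply Nat.mul_le_mul_left
  set H4 := H3 ⊓ kr ((ζ ^ 3 + 1) * g) with hH4
  have hrange : Nat.card (AddMonoidHom.range (ζ * ζ + ζ + 1)) ≤ K := h.zz
  refine (card_le_map H4 (AddMonoidHom.range (ζ * ζ + ζ + 1)) g h.kg ?_).trans
    (Nat.mul_le_mul_left _ hrange)
  intro v hv
  rw [hH4, AddSubgroup.mem_inf, hH3, AddSubgroup.mem_inf, hH2, AddSubgroup.mem_inf, hH1,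
    AddSubgroup.mem_inf] at hv
  obtain ⟨⟨⟨⟨hv1, _⟩, hv3⟩, hv4⟩, hv5⟩ := hv
  rw [hZ, mem_fix h.two] at hv1
  set w := g v with hw
  have e1 : (Θ ^ N) w = w := by
    have h1 : (Θ ^ N + 1 : AddMonoid.End U) (g v) = 0 := hv3
    exact (mem_fix h.two).1 h1
  have e2 : (ζ ^ N) w = w := by
    rw [mem_kr, add_app, mul_app, mul_app, mul_app] at hv4
    have h1 := eq_of_add h.two hv4
    rw [hv1, ← hw, e1] at h1
    exact h1.symm
  have e3 : (ζ ^ 3) w = w := by
    have h1 : (ζ ^ 3 + 1 : AddMonoid.End U) (g v) = 0 := hv5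
    exact (mem_fix (Θ := ζ) h.two).1 h1
  have e4 : ∀ q : ℕ, (ζ ^ (3 * q)) w = w := by
    intro q
    induction q with
    | zero => rw [mul_zero, pow_zero, one_app]
    | succ q ih => rw [show 3 * (q + 1) = 3 * q + 3 by ring, pow_add, mul_app, e3, ih]
  have e5 : ζ w = w := by
    have h1 : N % 3 = 1 ∨ N % 3 = 2 := by omega
    have h2 : N = 3 * (N / 3) + N % 3 := (Nat.div_add_mod N 3).symm
    rcases h1 with h1 | h1
    · rw [h1] at h2
      rw [h2, add_comm, pow_add, pow_one, mul_app, e4] at e2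
      exact e2
    · rw [h1] at h2
      rw [h2, add_comm, pow_add, mul_app, e4] at e2
      have h3 : (ζ ^ 3) w = ζ ((ζ ^ 2) w) := by
        rw [show (3 : ℕ) = 1 + 2 by norm_num, pow_add, pow_one, mul_app]
      rw [e2, e3] at h3
      exact h3.symm
  refine ⟨w, ?_⟩
  show (ζ * ζ + ζ + 1) w = w
  rw [add_app, add_app, mul_app, one_app, e5, e5, h.two, zero_add]

/-- **Lemma T.** -/
theorem exists_bound (K N : ℕ) (hN : 1 ≤ N) : ∃ D : ℕ, ∀ (U : Type) [AddCommGroup U] [Finite U]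
    (Θ ζ g s : AddMonoid.End U), Lab K Θ ζ g s → Nat.card (kr (Θ ^ N + 1)) ≤ D := by
  induction N using Nat.strong_induction_on with
  | _ N ih =>
    by_cases h3 : 3 ∣ N
    · obtain ⟨M, rfl⟩ := h3
      obtain ⟨D, hD⟩ := ih M (by omega) (by omega)
      refine ⟨K ^ M * (K * D), ?_⟩
      intro U _ _ Θ ζ g s h
      exact (h.step M).trans (Nat.mul_le_mul_left _ (Nat.mul_le_mul_left _ (hD U Θ ζ g s h)))
    · exact ⟨_, fun U _ _ Θ ζ g s h => h.main N h3⟩

end Pool.Agent.MF.LemT
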