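import Mathlib
import Pool.Agent.MF.Frame2

set_option autoImplicit false
set_option linter.unusedSectionVars false
set_option linter.unusedVariables false

/-!
# MP_141f81: basic facts on the matroid of roles, exact rows, sub-structures and the linear part
-/

namespace Pool.Agent.MF

open Finset
open Pool.Agent.helper35.MF (Ball)

section closure

variable {V : Type} [AddCommGroup V] [Fintype V] [DecidableEq V] {M : Mat V}

theorem Mat.InCl.mono {S S' : Finset V} {v : V} (hv : M.InCl S v) (h : S ⊆ S') : M.InCl S' v := by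
  unfold Mat.InCl at *
  have h1 := M.rk_submod (insert v S) S'
  have h2 : insert v S ∪ S' = insert v S' := by
    ext x
    simp only [mem_union, mem_insert]
    constructor
    · rintro ((h' | h') | h')
      · exact Or.inl h'
      · exact Or.inr (h h')
      · exact Or.inr h'
    · rintro (h' | h')
      · exact Or.inl (Or.inl h')
      · exact Or.inr h'
  have h3 : M.rk S ≤ M.rk (insert v S ∩ S') := M.rk_mono (subset_inter (subset_insert _ _) h)
  have h4 : M.rk S' ≤ M.rk (insert v S') := M.rk_mono (subset_insert _ _)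
  rw [h2] at h1
  omega

theorem Mat.inCl_mem {S : Finset V} {v : V} (hv : v ∈ S) : M.InCl S v := by
  unfold Mat.InCl
  rw [insert_eq_of_mem hv]

theorem Mat.inCl_zero (S : Finset V) : M.InCl S 0 := by
  refine Mat.InCl.mono ?_ (empty_subset S)
  unfold Mat.InCl
  rw [M.rk_empty]
  exact M.rk_zero

theorem Mat.rk_union_of_inCl {A : Finset V} (B : Finset V) (h : ∀ v ∈ B, M.InCl A v) :
    M.rk (A ∪ B) = M.rk A := by
  induction B using Finset.induction_on with
  | empty => rw [union_empty]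
  | insert v B _ ih =>
    have h1 := ih (fun w hw => h w (mem_insert_of_mem hw))
    have h2 : A ∪ insert v B = insert v (A ∪ B) := by rw [union_insert]
    have h3 : M.InCl (A ∪ B) v := (h v (mem_insert_self _ _)).mono subset_union_left
    rw [h2, h3, h1]

/-- closure is idempotent: `w ∈ cl B`, `B ⊆ cl A` give `w ∈ cl A` -/
theorem Mat.InCl.trans {A B : Finset V} {w : V} (hw : M.InCl B w) (h : ∀ v ∈ B, M.InCl A v) : M.InCl A w := by
  have h1 := Mat.rk_union_of_inCl B h
  have h2 : M.InCl (A ∪ B) w := hw.mono subset_union_right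
  have h3 : M.rk (insert w A) ≤ M.rk (insert w (A ∪ B)) := M.rk_mono (insert_subset_insert _ subset_union_left)
  have h4 : M.rk A ≤ M.rk (insert w A) := M.rk_mono (subset_insert _ _)
  unfold Mat.InCl at *
  omega

/-- `w ∈ cl (A ∪ {x})` and `x ∈ cl A` give `w ∈ cl A` -/
theorem Mat.InCl.of_insert {A : Finset V} {x w : V} (hw : M.InCl (insert x A) w) (hx : M.InCl A x) :
    M.InCl A w := by
  refine hw.trans ?_
  intro v hv
  rcases mem_insert.1 hv with rfl | hv
  · exact hx
  · exact Mat.inCl_mem hv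

theorem Mat.InCl.add {A : Finset V} {u v : V} (hu : M.InCl A u) (hv : M.InCl A v) : M.InCl A (u + v) := by
  refine Mat.InCl.trans (B := {u, v}) ?_ ?_
  · unfold Mat.InCl
    have h := M.rk_add u v
    have h2 : insert (u + v) ({u, v} : Finset V) = {u, v, u + v} := by
      ext x
      simp only [mem_insert, mem_singleton]
      tauto
    rw [h2, h]
  · intro w hw
    rw [mem_insert, mem_singleton] at hw
    rcases hw with rfl | rfl
    · exact hu
    · exact hv

theorem Mat.add_add_self (M : Mat V) (u v : V) : u + (u + v) = v := by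
  rw [← add_assoc, M.two, zero_add]

theorem Mat.add_self_add (M : Mat V) (u v : V) : u + v + v = u := by
  rw [add_assoc, M.two, add_zero]

theorem Mat.neg_eq (M : Mat V) (u : V) : -u = u := neg_eq_of_add_eq_zero_left (M.two u)

theorem Mat.add_eq_zero (M : Mat V) {u v : V} : u + v = 0 ↔ u = v := by
  rw [add_eq_zero_iff_eq_neg, M.neg_eq]

theorem Mat.inCl_add_iff {A : Finset V} {u v : V} (hu : M.InCl A u) : M.InCl A (u + v) ↔ M.InCl A v := by
  constructor
  · intro h
    have h1 := hu.add h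
    rwa [M.add_add_self] at h1
  · intro h
    exact hu.add h

theorem Mat.inCl_add_iff' {A : Finset V} {u v : V} (hv : M.InCl A v) : M.InCl A (u + v) ↔ M.InCl A u := by
  rw [add_comm, Mat.inCl_add_iff hv]

theorem Mat.InCl.sum {ι : Type*} {A : Finset V} (s : Finset ι) (f : ι → V) (h : ∀ i ∈ s, M.InCl A (f i)) :
    M.InCl A (∑ i ∈ s, f i) := by
  classical
  induction s using Finset.induction_on with
  | empty => rw [sum_empty]; exact Mat.inCl_zero A
  | insert i s hi ih =>
    rw [sum_insert hi]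
    exact (h i (mem_insert_self _ _)).add (ih (fun j hj => h j (mem_insert_of_mem hj)))

theorem Mat.rk_insert_of_not {A : Finset V} {v : V} (h : ¬ M.InCl A v) : M.rk (insert v A) = M.rk A + 1 := by
  have h1 := M.rk_insert_le v A
  have h2 : M.rk A ≤ M.rk (insert v A) := M.rk_mono (subset_insert _ _)
  unfold Mat.InCl at h
  omega

theorem Mat.not_inCl_iff {A : Finset V} {v : V} : ¬ M.InCl A v ↔ M.rk (insert v A) = M.rk A + 1 := by
  constructor
  · exact Mat.rk_insert_of_not
  · intro h h'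
    unfold Mat.InCl at h'
    omega

theorem Mat.exchange {A : Finset V} {x y : V} (h : M.InCl (insert x A) y) (hn : ¬ M.InCl A y) :
    M.InCl (insert y A) x := by
  have h1 := Mat.rk_insert_of_not hn
  have h2 := M.rk_insert_le x A
  unfold Mat.InCl at *
  have h3 : insert x (insert y A) = insert y (insert x A) := Finset.insert_comm _ _ _
  have h4 : M.rk (insert y A) ≤ M.rk (insert x (insert y A)) := M.rk_mono (subset_insert _ _)
  rw [h3] at h4 ⊢
  omega

/-- equal rank: `A ⊆ B` and `rk A = rk B` give `B ⊆ cl A` -/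
theorem Mat.inCl_of_rk_le {A B : Finset V} (hAB : A ⊆ B) (h : M.rk B ≤ M.rk A) {v : V} (hv : M.InCl B v) :
    M.InCl A v := by
  unfold Mat.InCl at *
  have h1 : M.rk (insert v A) ≤ M.rk (insert v B) := M.rk_mono (insert_subset_insert _ hAB)
  have h2 : M.rk A ≤ M.rk (insert v A) := M.rk_mono (subset_insert _ _)
  omega

theorem Mat.inCl_all {A : Finset V} (h : M.r ≤ M.rk A) (v : V) : M.InCl A v :=
  Mat.inCl_of_rk_le (subset_univ A) h (Mat.inCl_mem (mem_univ v))

theorem Mat.rk_le_r (A : Finset V) : M.rk A ≤ M.r := M.rk_mono (subset_univ A)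

/-- the rank is monotone for closures -/
theorem Mat.rk_le_of_inCl {A B : Finset V} (h : ∀ v ∈ B, M.InCl A v) : M.rk B ≤ M.rk A := by
  have h1 := Mat.rk_union_of_inCl B h
  have h2 : M.rk B ≤ M.rk (A ∪ B) := M.rk_mono subset_union_right
  omega

theorem Mat.rk_union_le (A B : Finset V) : M.rk (A ∪ B) ≤ M.rk A + B.card := by
  induction B using Finset.induction_on with
  | empty => rw [union_empty]; omega
  | insert v B hv ih =>
    rw [card_insert_of_notMem hv, union_insert]
    have := M.rk_insert_le v (A ∪ B)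
    omega

theorem Mat.rk_le_card (A : Finset V) : M.rk A ≤ A.card := by
  have h := Mat.rk_union_le (M := M) ∅ A
  rw [empty_union, M.rk_empty] at h
  omega

theorem Mat.rk_pair_le (u v : V) : M.rk {u, v} ≤ 2 := (Mat.rk_le_card _).trans (card_le_two)

theorem Mat.rk_singleton_le (u : V) : M.rk {u} ≤ 1 := (Mat.rk_le_card _).trans (by simp)

theorem Mat.inCl_empty_iff {v : V} : M.InCl ∅ v ↔ v = 0 := by
  constructor
  · intro h
    by_contra hv
    have h1 := M.rk_single v hv
    unfold Mat.InCl at h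
    rw [M.rk_empty] at h
    have h2 : (insert v (∅ : Finset V)) = {v} := rfl
    rw [h2] at h
    omega
  · rintro rfl
    exact Mat.inCl_zero _

/-- relative basis: a subset `C` of `B` of size `rk (A ∪ B) - rk A` with `B ⊆ cl (A ∪ C)` -/
theorem Mat.exists_basis_in (M : Mat V) (A B : Finset V) :
    ∃ C ⊆ B, C.card + M.rk A = M.rk (A ∪ B) ∧ M.rk (A ∪ C) = M.rk (A ∪ B) ∧ ∀ v ∈ B, M.InCl (A ∪ C) v := by
  classical
  let P : Finset (Finset V) := B.powerset.filter (fun C => C.card + M.rk A ≤ M.rk (A ∪ C))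
  have hP : P.Nonempty := ⟨∅, by simp [P]⟩
  obtain ⟨C, hC, hmax⟩ := exists_max_image P card hP
  simp only [P, mem_filter, mem_powerset] at hC hmax
  have hcl : ∀ v ∈ B, M.InCl (A ∪ C) v := by
    intro v hv
    by_contra hne
    have h1 := Mat.rk_insert_of_not hne
    have hvC : v ∉ C := by
      intro h
      exact hne (Mat.inCl_mem (mem_union_right _ h))
    have h2 := hmax (insert v C) ⟨insert_subset hv hC.1, by
      rw [card_insert_of_notMem hvC, union_insert]
      omega⟩
    rw [card_insert_of_notMem hvC] at h2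
    omega
  have h1 : M.rk (A ∪ C) = M.rk (A ∪ B) := by
    refine le_antisymm (M.rk_mono (union_subset_union_right hC.1)) ?_
    refine Mat.rk_le_of_inCl ?_
    intro v hv
    rcases mem_union.1 hv with hv | hv
    · exact Mat.inCl_mem (mem_union_left _ hv)
    · exact hcl v hv
  have h2 := Mat.rk_union_le (M := M) A C
  refine ⟨C, hC.1, by omega, h1, hcl⟩

/-- a set completing `τ` to a spanning set -/
theorem Mat.exists_basis (M : Mat V) (τ : Finset V) :
    ∃ B : Finset V, B.card = M.r - M.rk τ ∧ ∀ v, M.InCl (τ ∪ B) v := by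
  obtain ⟨C, -, h1, h2, h3⟩ := M.exists_basis_in τ univ
  rw [union_eq_right.2 (subset_univ τ)] at h1 h2
  refine ⟨C, ?_, fun v => h3 v (mem_univ v)⟩
  have h4 : M.rk univ = M.r := rfl
  omega

/-! ### independent pairs -/

theorem ind_iff {τ : Finset V} {u v : V} : M.Ind τ u v ↔ ¬ M.InCl τ v ∧ ¬ M.InCl (insert v τ) u := by
  unfold Mat.Ind
  constructor
  · intro h
    have h1 := M.rk_insert_le v τ
    have h2 := M.rk_insert_le u (insert v τ)
    constructor
    · rw [Mat.not_inCl_iff]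
      omega
    · rw [Mat.not_inCl_iff]
      omega
  · rintro ⟨h1, h2⟩
    rw [Mat.not_inCl_iff] at h1 h2
    omega

theorem Mat.Ind.symm {τ : Finset V} {u v : V} (h : M.Ind τ u v) : M.Ind τ v u := by
  unfold Mat.Ind at *
  rw [Finset.insert_comm]
  exact h

theorem ind_comm {τ : Finset V} {u v : V} : M.Ind τ u v ↔ M.Ind τ v u := ⟨Mat.Ind.symm, Mat.Ind.symm⟩

theorem Mat.Ind.right {τ : Finset V} {u v : V} (h : M.Ind τ u v) : ¬ M.InCl τ v := (ind_iff.1 h).1

theorem Mat.Ind.left {τ : Finset V} {u v : V} (h : M.Ind τ u v) : ¬ M.InCl τ u := h.symm.right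

theorem Mat.Ind.right' {τ : Finset V} {u v : V} (h : M.Ind τ u v) : ¬ M.InCl (insert u τ) v :=
  (ind_iff.1 h.symm).2

theorem Mat.Ind.left' {τ : Finset V} {u v : V} (h : M.Ind τ u v) : ¬ M.InCl (insert v τ) u :=
  (ind_iff.1 h).2

theorem ind_iff' {τ : Finset V} {u v : V} : M.Ind τ u v ↔ ¬ M.InCl τ u ∧ ¬ M.InCl (insert u τ) v := by
  rw [ind_comm, ind_iff]

/-- if `u ∈ cl (τ ∪ u')`, `v ∈ cl (τ ∪ v')` and `u`, `v` are independent over `τ`, then so are `u'`, `v'` -/
theorem Mat.Ind.of_inCl {τ : Finset V} {u v u' v' : V} (h : M.Ind τ u v) (hu : M.InCl (insert u' τ) u)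
    (hv : M.InCl (insert v' τ) v) : M.Ind τ u' v' := by
  unfold Mat.Ind at *
  have h1 := M.rk_insert_le v' τ
  have h2 := M.rk_insert_le u' (insert v' τ)
  have h3 : M.rk (insert u (insert v τ)) ≤ M.rk (insert u' (insert v' τ)) := by
    refine Mat.rk_le_of_inCl ?_
    intro w hw
    rcases mem_insert.1 hw with rfl | hw
    · exact hu.mono (insert_subset_insert _ (subset_insert _ _))
    · rcases mem_insert.1 hw with rfl | hw
      · exact hv.mono (subset_insert _ _)
      · exact Mat.inCl_mem (mem_insert_of_mem (mem_insert_of_mem hw))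
  omega

/-- independence over a larger type gives independence over a smaller one -/
theorem Mat.Ind.of_type {τ τ' : Finset V} {u v : V} (h : M.Ind τ u v) (hτ : ∀ w ∈ τ', M.InCl τ w) :
    M.Ind τ' u v := by
  rw [ind_iff] at *
  refine ⟨fun h' => h.1 (h'.trans hτ), fun h' => h.2 (h'.trans ?_)⟩
  intro w hw
  rcases mem_insert.1 hw with rfl | hw
  · exact Mat.inCl_mem (mem_insert_self _ _)
  · exact (hτ w hw).mono (subset_insert _ _)

theorem Mat.Ind.mono {τ τ' : Finset V} {u v : V} (h : M.Ind τ u v) (hτ : τ' ⊆ τ) : M.Ind τ' u v :=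
  h.of_type (fun w hw => Mat.inCl_mem (hτ hw))

theorem Mat.Ind.empty {τ : Finset V} {u v : V} (h : M.Ind τ u v) : M.Ind ∅ u v := h.mono (empty_subset _)

/-- image roles: `u ∈ cl (τ ∪ A u)`, `v ∈ cl (τ ∪ A v)`, `u`, `v` independent over `τ` -/
theorem Mat.Ind.image {τ : Finset V} {u v : V} (A : V → V) (h : M.Ind τ u v) (hu : M.InCl (insert (A u) τ) u)
    (hv : M.InCl (insert (A v) τ) v) : M.Ind ∅ (A u) (A v) := (h.of_inCl hu hv).empty

theorem Mat.Ind.add_right {τ : Finset V} {u v : V} (h : M.Ind τ u v) : M.Ind τ u (u + v) := by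
  rw [ind_iff'] at *
  refine ⟨h.1, fun h' => h.2 ?_⟩
  rwa [Mat.inCl_add_iff (Mat.inCl_mem (mem_insert_self _ _))] at h'

theorem Mat.Ind.add_left {τ : Finset V} {u v : V} (h : M.Ind τ u v) : M.Ind τ (u + v) v := by
  have h1 := h.symm.add_right
  rw [add_comm v u] at h1
  exact h1.symm

theorem Mat.Ind.not_inCl_add {τ : Finset V} {u v : V} (h : M.Ind τ u v) : ¬ M.InCl τ (u + v) := h.add_left.left

theorem Mat.Ind.ne {τ : Finset V} {u v : V} (h : M.Ind τ u v) : u ≠ v := by
  rintro rfl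
  exact h.left' (Mat.inCl_mem (mem_insert_self _ _))

theorem Mat.Ind.left_ne_zero {τ : Finset V} {u v : V} (h : M.Ind τ u v) : u ≠ 0 := by
  rintro rfl
  exact h.left (Mat.inCl_zero _)

theorem Mat.Ind.right_ne_zero {τ : Finset V} {u v : V} (h : M.Ind τ u v) : v ≠ 0 := h.symm.left_ne_zero

/-- two distinct nonzero roles are independent over the empty type iff they have rank two -/
theorem ind_empty_iff {u v : V} : M.Ind ∅ u v ↔ M.rk {u, v} = 2 := by
  unfold Mat.Ind
  rw [M.rk_empty]
  rfl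

end closure

/-! ### exact rows and sub-structures -/

section rows

variable {V : Type} [AddCommGroup V] [Fintype V] [DecidableEq V] {M : Mat V} {n : ℕ}

theorem Exact.mono {R R' : Finset (V → Fin n)} (hR : Exact M R) (h : R' ⊆ R) : Exact M R' :=
  fun S v hv ρ hρ σ hσ => hR S v hv ρ (h hρ) σ (h hσ)

theorem Agree.rfl' {τ : Finset V} (ρ : V → Fin n) : Agree τ ρ ρ := fun _ _ => rfl

theorem Agree.symm {τ : Finset V} {ρ σ : V → Fin n} (h : Agree τ ρ σ) : Agree τ σ ρ := fun v hv => (h v hv).symm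

theorem Agree.trans {τ : Finset V} {ρ σ η : V → Fin n} (h : Agree τ ρ σ) (h' : Agree τ σ η) : Agree τ ρ η :=
  fun v hv => (h v hv).trans (h' v hv)

theorem Agree.mono {τ τ' : Finset V} {ρ σ : V → Fin n} (h : Agree τ ρ σ) (hτ : τ' ⊆ τ) : Agree τ' ρ σ :=
  fun v hv => h v (hτ hv)

/-- rows of `R` which agree on `τ` agree on the closure of `τ` -/
theorem Exact.agree {R : Finset (V → Fin n)} (hR : Exact M R) {τ : Finset V} {ρ σ : V → Fin n} (hρ : ρ ∈ R)
    (hσ : σ ∈ R) (h : Agree τ ρ σ) {v : V} (hv : M.InCl τ v) : ρ v = σ v := hR τ v hv ρ hρ σ hσ h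

theorem mem_sub {R : Finset (V → Fin n)} {τ : Finset V} {η ρ : V → Fin n} :
    ρ ∈ sub R τ η ↔ ρ ∈ R ∧ Agree τ η ρ := by
  unfold sub
  rw [mem_filter]

theorem sub_subset {R : Finset (V → Fin n)} {τ : Finset V} {η : V → Fin n} : sub R τ η ⊆ R := filter_subset _ _

theorem self_mem_sub {R : Finset (V → Fin n)} {τ : Finset V} {η : V → Fin n} (h : η ∈ R) : η ∈ sub R τ η :=
  mem_sub.2 ⟨h, Agree.rfl' η⟩

theorem sub_mono {R R' : Finset (V → Fin n)} {τ τ' : Finset V} {η : V → Fin n} (hR : R ⊆ R') (hτ : τ' ⊆ τ) :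
    sub R τ η ⊆ sub R' τ' η := fun _ h => mem_sub.2 ⟨hR (mem_sub.1 h).1, (mem_sub.1 h).2.mono hτ⟩

theorem sub_congr {R : Finset (V → Fin n)} {τ : Finset V} {η η' : V → Fin n} (h : Agree τ η η') :
    sub R τ η = sub R τ η' := by
  ext ρ
  rw [mem_sub, mem_sub]
  exact ⟨fun hh => ⟨hh.1, h.symm.trans hh.2⟩, fun hh => ⟨hh.1, h.trans hh.2⟩⟩

theorem agree_of_mem_sub {R R' : Finset (V → Fin n)} {τ : Finset V} {η ρ σ : V → Fin n} (hρ : ρ ∈ sub R τ η)
    (hσ : σ ∈ sub R' τ η) : Agree τ ρ σ := (mem_sub.1 hρ).2.symm.trans (mem_sub.1 hσ).2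

theorem sub_empty {R : Finset (V → Fin n)} {η : V → Fin n} : sub R ∅ η = R := by
  ext ρ
  rw [mem_sub]
  exact ⟨fun h => h.1, fun h => ⟨h, fun v hv => absurd hv (notMem_empty v)⟩⟩

/-- an exact set of rows is determined by a spanning set of roles -/
theorem card_sub_le_of_basis {R : Finset (V → Fin n)} (hR : Exact M R) (τ B : Finset V) (η : V → Fin n)
    (hB : ∀ v, M.InCl (τ ∪ B) v) : (sub R τ η).card ≤ n ^ B.card := by
  classical
  have h1 : (sub R τ η).card ≤ (univ : Finset (B → Fin n)).card := by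
    refine card_le_card_of_injOn (fun ρ (u : B) => ρ u) (fun _ _ => mem_coe.2 (mem_univ _)) ?_
    intro ρ hρ σ hσ h
    have hρ' := mem_sub.1 (mem_coe.1 hρ)
    have hσ' := mem_sub.1 (mem_coe.1 hσ)
    funext v
    refine hR (τ ∪ B) v (hB v) ρ hρ'.1 σ hσ'.1 ?_
    intro u hu
    rcases mem_union.1 hu with hu | hu
    · exact (hρ'.2.symm.trans hσ'.2) u hu
    · exact congrFun h ⟨u, hu⟩
  refine h1.trans ?_
  rw [card_univ, Fintype.card_fun, Fintype.card_coe, Fintype.card_fin]

theorem card_sub_le {R : Finset (V → Fin n)} (hR : Exact M R) (τ : Finset V) (η : V → Fin n) :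
    (sub R τ η).card ≤ n ^ (M.r - M.rk τ) := by
  obtain ⟨B, hB1, hB2⟩ := M.exists_basis τ
  rw [← hB1]
  exact card_sub_le_of_basis hR τ B η hB2

theorem card_sub_le_real {R : Finset (V → Fin n)} (hR : Exact M R) (τ : Finset V) (η : V → Fin n) :
    ((sub R τ η).card : ℝ) ≤ (n : ℝ) ^ (M.r - M.rk τ) := by
  exact_mod_cast card_sub_le hR τ η

theorem card_le_pow {R : Finset (V → Fin n)} (hR : Exact M R) : R.card ≤ n ^ M.r := by
  rcases R.eq_empty_or_nonempty with rfl | ⟨η, -⟩
  · simp
  · have h := card_sub_le hR ∅ η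
    rwa [sub_empty, M.rk_empty, Nat.sub_zero] at h

/-- the number of rows of a sub-structure with a given value at `v` -/
theorem card_fibre_le {R : Finset (V → Fin n)} (hR : Exact M R) (τ : Finset V) (η : V → Fin n) (v : V)
    (x : Fin n) : ((sub R τ η).filter (fun ρ => ρ v = x)).card ≤ n ^ (M.r - M.rk (insert v τ)) := by
  classical
  rcases ((sub R τ η).filter (fun ρ => ρ v = x)).eq_empty_or_nonempty with h | ⟨σ, hσ⟩
  · rw [h]
    simp
  · refine (card_le_card ?_).trans (card_sub_le hR (insert v τ) σ)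
    intro ρ hρ
    rw [mem_filter] at hσ hρ
    refine mem_sub.2 ⟨(mem_sub.1 hρ.1).1, ?_⟩
    intro w hw
    rcases mem_insert.1 hw with rfl | hw
    · rw [hσ.2, hρ.2]
    · exact agree_of_mem_sub hσ.1 hρ.1 w hw

/-- the number of rows of a sub-structure with given values on `B` -/
theorem card_fibre_le' {R : Finset (V → Fin n)} (hR : Exact M R) (τ B : Finset V) (η x : V → Fin n) :
    ((sub R τ η).filter (fun ρ => ∀ v ∈ B, ρ v = x v)).card ≤ n ^ (M.r - M.rk (τ ∪ B)) := by
  classical
  rcases ((sub R τ η).filter (fun ρ => ∀ v ∈ B, ρ v = x v)).eq_empty_or_nonempty with h | ⟨σ, hσ⟩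
  · rw [h]
    simp
  · refine (card_le_card ?_).trans (card_sub_le hR (τ ∪ B) σ)
    intro ρ hρ
    rw [mem_filter] at hσ hρ
    refine mem_sub.2 ⟨(mem_sub.1 hρ.1).1, ?_⟩
    intro w hw
    rcases mem_union.1 hw with hw | hw
    · exact agree_of_mem_sub hσ.1 hρ.1 w hw
    · rw [hσ.2 w hw, hρ.2 w hw]

end rows

/-! ### words -/

section words

variable {V : Type} {n : ℕ}

theorem G.two (g : G V n) : g + g = 0 := by
  ext x
  rw [Finsupp.add_apply, Finsupp.zero_apply]
  exact CharTwo.add_self_eq_zero _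

theorem G.neg_eq (g : G V n) : -g = g := neg_eq_of_add_eq_zero_left (G.two g)

theorem G.add_add_self (g h : G V n) : g + (g + h) = h := by rw [← add_assoc, G.two, zero_add]

theorem G.add_eq_zero {g h : G V n} : g + h = 0 ↔ g = h := by
  rw [add_eq_zero_iff_eq_neg, G.neg_eq]

theorem lt_inj {v v' : V} {x x' : Fin n} : lt v x = lt v' x' ↔ v = v' ∧ x = x' := by
  unfold lt
  rw [Finsupp.single_left_inj (one_ne_zero), Prod.mk.injEq]

theorem lin_comm [AddCommGroup V] (ρ : V → Fin n) (u v : V) : lin ρ u v = lin ρ v u := by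
  unfold lin
  rw [add_comm u v, add_comm (lt u (ρ u))]

end words

section lines

variable {V : Type} [AddCommGroup V] [Fintype V] [DecidableEq V] {M : Mat V} {n : ℕ}

theorem Lines.mono {τ τ' L L' : Finset V} {R R' : Finset (V → Fin n)} (hτ : ∀ w ∈ τ', M.InCl τ w) (hL : L ⊆ L')
    (hR : R ⊆ R') : Lines M τ L R ⊆ Lines M τ' L' R' := by
  rintro g ⟨ρ, hρ, u, hu, v, hv, huv, hI, rfl⟩
  exact ⟨ρ, hR hρ, u, hL hu, v, hL hv, hL huv, hI.of_type hτ, rfl⟩

theorem lin_mem_Lines {τ L : Finset V} {R : Finset (V → Fin n)} {ρ : V → Fin n} (hρ : ρ ∈ R) {u v : V}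
    (hu : u ∈ L) (hv : v ∈ L) (huv : u + v ∈ L) (h : M.Ind τ u v) : lin ρ u v ∈ Lines M τ L R :=
  ⟨ρ, hρ, u, hu, v, hv, huv, h, rfl⟩

theorem Cons.mono {T T' : Set (G V n)} {b b' C C' : ℕ} (h : Cons T' b' C) (hT : T ⊆ T') (hb : b ≤ b')
    (hC : C ≤ C') : Cons T b C' := by
  intro v x A hA
  refine (h v x A ?_).trans hC
  intro y hy
  obtain ⟨l, h1, h2, h3⟩ := hA y hy
  exact ⟨l, h1.trans hb, fun z hz => hT (h2 z hz), h3⟩

end lines

/-! ### the near matroid -/

section near

variable {N W : Type} [AddCommGroup N] [Fintype N] [DecidableEq N] [AddCommGroup W] [Fintype W] [DecidableEq W]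
  {M : Mat (N × W)} {n : ℕ}

/-- the near part of a row -/
def nr (σ : N × W → Fin n) : N → Fin n := fun v => σ (v, 0)

theorem near_rk (S : Finset N) : M.near.rk S = M.rk (S.image (fun v => ((v, 0) : N × W))) := rfl

theorem near_inCl {S : Finset N} {v : N} :
    M.near.InCl S v ↔ M.InCl (S.image (fun v => ((v, 0) : N × W))) (v, 0) := by
  unfold Mat.InCl
  rw [near_rk, near_rk, image_insert]

theorem near_ind {τ : Finset N} {u v : N} :
    M.near.Ind τ u v ↔ M.Ind (τ.image (fun v => ((v, 0) : N × W))) (u, 0) (v, 0) := by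
  unfold Mat.Ind
  rw [near_rk, near_rk, image_insert, image_insert]

theorem near_r_le : M.near.r ≤ M.r := M.rk_mono (subset_univ _)

/-- rows on the near roles which come from exact rows are exact -/
theorem Exact.near_of {R : Finset (N × W → Fin n)} (hR : Exact M R) {S : Finset (N → Fin n)}
    (hS : ∀ ρ ∈ S, ∃ σ ∈ R, ∀ v : N, ρ v = σ (v, 0)) : Exact M.near S := by
  intro A v hv ρ hρ ρ' hρ' h
  obtain ⟨σ, hσ, h1⟩ := hS ρ hρ
  obtain ⟨σ', hσ', h2⟩ := hS ρ' hρ'
  rw [h1, h2]
  refine hR _ _ (near_inCl.1 hv) σ hσ σ' hσ' ?_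
  intro u hu
  obtain ⟨w, hw, rfl⟩ := mem_image.1 hu
  rw [← h1, ← h2]
  exact h w hw

theorem Exact.near {R : Finset (N × W → Fin n)} (hR : Exact M R) : Exact M.near (R.image nr) := by
  refine hR.near_of ?_
  intro ρ hρ
  obtain ⟨σ, hσ, rfl⟩ := mem_image.1 hρ
  exact ⟨σ, hσ, fun _ => rfl⟩

/-- the near parts are dense if the rows are -/
theorem card_near {R : Finset (N × W → Fin n)} (hR : Exact M R) :
    R.card ≤ (R.image nr).card * n ^ (M.r - M.near.r) := by
  classical
  rw [mul_comm]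
  refine card_le_mul_card_image R (n ^ (M.r - M.near.r)) ?_
  intro ρ hρ
  obtain ⟨σ, hσ, rfl⟩ := mem_image.1 hρ
  refine (card_le_card ?_).trans (card_sub_le hR ((univ : Finset N).image (fun v => ((v, 0) : N × W))) σ)
  intro η hη
  rw [mem_filter] at hη
  refine mem_sub.2 ⟨hη.1, ?_⟩
  intro w hw
  obtain ⟨v, -, rfl⟩ := mem_image.1 hw
  exact (congrFun hη.2 v).symm

theorem card_near_real {R : Finset (N × W → Fin n)} (hn : 0 < n) (hR : Exact M R) {c : ℝ}
    (h : c * (n : ℝ) ^ M.r ≤ (R.card : ℝ)) : c * (n : ℝ) ^ M.near.r ≤ ((R.image nr).card : ℝ) := by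
  have h1 : (R.card : ℝ) ≤ ((R.image nr).card : ℝ) * (n : ℝ) ^ (M.r - M.near.r) := by
    exact_mod_cast card_near hR
  have h2 : M.r = M.near.r + (M.r - M.near.r) := by
    have := near_r_le (M := M)
    omega
  have hn' : (0 : ℝ) < (n : ℝ) ^ (M.r - M.near.r) := by positivity
  have h3 : c * (n : ℝ) ^ M.r = (c * (n : ℝ) ^ M.near.r) * (n : ℝ) ^ (M.r - M.near.r) := by
    conv_lhs => rw [h2, pow_add]
    ring
  rw [h3] at h
  exact le_of_mul_le_mul_right (h.trans h1) hn'

end near

/-! ### the linear part -/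

section linpart

variable {N : Type} [AddCommGroup N] [Fintype N] [DecidableEq N] {M : Mat N} {Lin : Finset N}

/-- few elements of the linear part lie in a translate of a closed set -/
theorem LinPart.card_coset (h : LinPart M Lin) (S : Finset N) (w : N) (A : Finset N)
    (hA : ∀ a ∈ A, a ∈ Lin ∧ M.InCl S (a + w)) : A.card ≤ 2 ^ M.rk S := by
  classical
  rcases A.eq_empty_or_nonempty with rfl | ⟨a0, ha0⟩
  · simp
  · have h1 : (A.image (fun a => a0 + a)).card = A.card := card_image_of_injective _ (add_right_injective a0)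
    rw [← h1]
    refine h.small S _ ?_
    intro v hv
    obtain ⟨a, ha, rfl⟩ := mem_image.1 hv
    refine ⟨h.add _ (hA a0 ha0).1 _ (hA a ha).1, ?_⟩
    have h2 := (hA a0 ha0).2.add (hA a ha).2
    have h3 : a0 + w + (a + w) = a0 + a := by
      have : a0 + w + (a + w) = a0 + a + (w + w) := by abel
      rw [this, M.two, add_zero]
    rwa [h3] at h2

/-- **Rich.**  For pairs `(w j, v j)`, `j ∈ J`, and types `τ j` of rank at most `2` with `v j ∉ cl (τ j)` there is
`a ∈ Lin` with `a + w j`, `v j` independent over `τ j` for all `j ∈ J`, as long as `8 |J| < 1024`; moreover `a` can be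
chosen outside a given set `E`, `8 |J| + |E| < 1024`. -/
theorem LinPart.rich {ι : Type*} (h : LinPart M Lin) (J : Finset ι) (τ : ι → Finset N) (w v : ι → N)
    (hτ : ∀ j ∈ J, M.rk (τ j) ≤ 2) (hv : ∀ j ∈ J, ¬ M.InCl (τ j) (v j)) (E : Finset N)
    (hJ : 8 * J.card + E.card < 2 ^ 10) : ∃ a ∈ Lin, a ∉ E ∧ ∀ j ∈ J, M.Ind (τ j) (a + w j) (v j) := by
  classical
  by_contra hcon
  push Not at hcon
  have h1 : Lin ⊆ E ∪ J.biUnion (fun j => Lin.filter (fun a => M.InCl (insert (v j) (τ j)) (a + w j))) := by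
    intro a ha
    by_cases haE : a ∈ E
    · exact mem_union_left _ haE
    · obtain ⟨j, hj, hj'⟩ := hcon a ha haE
      refine mem_union_right _ (mem_biUnion.2 ⟨j, hj, mem_filter.2 ⟨ha, ?_⟩⟩)
      by_contra h'
      exact hj' (ind_iff.2 ⟨hv j hj, h'⟩)
  have h2 : ∀ j ∈ J, (Lin.filter (fun a => M.InCl (insert (v j) (τ j)) (a + w j))).card ≤ 8 := by
    intro j hj
    refine (h.card_coset (insert (v j) (τ j)) (w j) _ (fun a ha => ⟨(mem_filter.1 ha).1, (mem_filter.1 ha).2⟩)).trans ?_
    have h3 := M.rk_insert_le (v j) (τ j)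
    have h4 := hτ j hj
    calc 2 ^ M.rk (insert (v j) (τ j)) ≤ 2 ^ 3 := Nat.pow_le_pow_right (by norm_num) (by omega)
      _ = 8 := by norm_num
  have h3 := (card_le_card h1).trans (card_union_le _ _)
  have h4 := card_biUnion_le_card_mul J (fun j => Lin.filter (fun a => M.InCl (insert (v j) (τ j)) (a + w j))) 8 h2
  have h5 := h.card
  omega

/-- `Rich` for one type and at most nine (in fact 127) pairs -/
theorem LinPart.rich_list (h : LinPart M Lin) {τ : Finset N} (hτ : M.rk τ ≤ 2) (P : List (N × N))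
    (hP : P.length ≤ 127) (hv : ∀ p ∈ P, ¬ M.InCl τ p.2) :
    ∃ a ∈ Lin, ∀ p ∈ P, M.Ind τ (a + p.1) p.2 := by
  classical
  obtain ⟨a, ha, -, h1⟩ := h.rich P.toFinset (fun _ => τ) Prod.fst Prod.snd (fun _ _ => hτ)
    (fun p hp => hv p (List.mem_toFinset.1 hp)) ∅ (by
      have := List.toFinset_card_le P
      rw [card_empty]
      omega)
  exact ⟨a, ha, fun p hp => h1 p (List.mem_toFinset.2 hp)⟩

/-- an element of the linear part outside the closure of a set of small rank -/
theorem LinPart.exists_not_inCl (h : LinPart M Lin) {ι : Type*} (J : Finset ι) (S : ι → Finset N) (w : ι → N)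
    (hS : ∀ j ∈ J, M.rk (S j) ≤ 3) (E : Finset N) (hJ : 8 * J.card + E.card < 2 ^ 10) :
    ∃ a ∈ Lin, a ∉ E ∧ ∀ j ∈ J, ¬ M.InCl (S j) (a + w j) := by
  classical
  by_contra hcon
  push Not at hcon
  have h1 : Lin ⊆ E ∪ J.biUnion (fun j => Lin.filter (fun a => M.InCl (S j) (a + w j))) := by
    intro a ha
    by_cases haE : a ∈ E
    · exact mem_union_left _ haE
    · obtain ⟨j, hj, hj'⟩ := hcon a ha haE
      exact mem_union_right _ (mem_biUnion.2 ⟨j, hj, mem_filter.2 ⟨ha, hj'⟩⟩)
  have h2 : ∀ j ∈ J, (Lin.filter (fun a => M.InCl (S j) (a + w j))).card ≤ 8 := by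
    intro j hj
    refine (h.card_coset (S j) (w j) _ (fun a ha => ⟨(mem_filter.1 ha).1, (mem_filter.1 ha).2⟩)).trans ?_
    have h4 := hS j hj
    calc 2 ^ M.rk (S j) ≤ 2 ^ 3 := Nat.pow_le_pow_right (by norm_num) h4
      _ = 8 := by norm_num
  have h3 := (card_le_card h1).trans (card_union_le _ _)
  have h4 := card_biUnion_le_card_mul J (fun j => Lin.filter (fun a => M.InCl (S j) (a + w j))) 8 h2
  have h5 := h.card
  omega

theorem LinPart.sum_mem {ι : Type*} (h : LinPart M Lin) (s : Finset ι) (f : ι → N) (hf : ∀ i ∈ s, f i ∈ Lin) :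
    ∑ i ∈ s, f i ∈ Lin := by
  classical
  induction s using Finset.induction_on with
  | empty => rw [sum_empty]; exact h.zero
  | insert i s hi ih =>
    rw [sum_insert hi]
    exact h.add _ (hf i (mem_insert_self _ _)) _ (ih (fun j hj => hf j (mem_insert_of_mem hj)))

end linpart

/-! ### the algebra of the roles used in Section 7 -/

section kill

variable {N : Type} [AddCommGroup N] [Fintype N] [DecidableEq N] {M : Mat N} {Lin : Finset N} {a b : N}
  {A B sq : N → N}

theorem KillAlg.ind_ab (h : KillAlg M Lin a b A B sq) : M.Ind ∅ a b := ind_empty_iff.2 h.ind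

theorem KillAlg.A_zero (h : KillAlg M Lin a b A B sq) : A 0 = 0 := by
  have := h.A_add 0 h.lin.zero 0 h.lin.zero
  rw [add_zero] at this
  exact left_eq_add.1 this

theorem KillAlg.B_zero (h : KillAlg M Lin a b A B sq) : B 0 = 0 := by
  have := h.B_add 0 h.lin.zero 0 h.lin.zero
  rw [add_zero] at this
  exact left_eq_add.1 this

theorem KillAlg.sq_zero (h : KillAlg M Lin a b A B sq) : sq 0 = 0 := by
  have := h.sq_add 0 h.lin.zero 0 h.lin.zero
  rw [add_zero] at this
  exact left_eq_add.1 this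

/-- `u`, `v` independent over a type containing `a`: the products `a u`, `a v` are independent -/
theorem KillAlg.ind_A (h : KillAlg M Lin a b A B sq) {τ : Finset N} (ha : M.InCl τ a) {u v : N} (hu : u ∈ Lin)
    (hv : v ∈ Lin) (hI : M.Ind τ u v) : M.Ind τ (A u) (A v) := by
  refine hI.of_inCl ((h.A_cl' u hu).trans ?_) ((h.A_cl' v hv).trans ?_)
  all_goals
    intro w hw
    rcases mem_insert.1 hw with rfl | hw
    · exact ha.mono (subset_insert _ _)
    · rw [mem_singleton] at hw
      subst hw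
      exact Mat.inCl_mem (mem_insert_self _ _)

theorem KillAlg.ind_B (h : KillAlg M Lin a b A B sq) {τ : Finset N} (hb : M.InCl τ b) {u v : N} (hu : u ∈ Lin)
    (hv : v ∈ Lin) (hI : M.Ind τ u v) : M.Ind τ (B u) (B v) := by
  refine hI.of_inCl ((h.B_cl' u hu).trans ?_) ((h.B_cl' v hv).trans ?_)
  all_goals
    intro w hw
    rcases mem_insert.1 hw with rfl | hw
    · exact hb.mono (subset_insert _ _)
    · rw [mem_singleton] at hw
      subst hw
      exact Mat.inCl_mem (mem_insert_self _ _)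

theorem KillAlg.ind_C (h : KillAlg M Lin a b A B sq) {τ : Finset N} (hc : M.InCl τ (a + b)) {u v : N}
    (hu : u ∈ Lin) (hv : v ∈ Lin) (hI : M.Ind τ u v) : M.Ind τ (A u + B u) (A v + B v) := by
  refine hI.of_inCl ((h.C_cl' u hu).trans ?_) ((h.C_cl' v hv).trans ?_)
  all_goals
    intro w hw
    rcases mem_insert.1 hw with rfl | hw
    · exact hc.mono (subset_insert _ _)
    · rw [mem_singleton] at hw
      subst hw
      exact Mat.inCl_mem (mem_insert_self _ _)

theorem KillAlg.ind_sq (h : KillAlg M Lin a b A B sq) {τ : Finset N} {u v : N} (hu : u ∈ Lin) (hv : v ∈ Lin)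
    (hI : M.Ind τ u v) : M.Ind τ (sq u) (sq v) :=
  hI.of_inCl ((h.sq_cl' u hu).mono (by intro w hw; rw [mem_singleton] at hw; rw [hw]; exact mem_insert_self _ _))
    ((h.sq_cl' v hv).mono (by intro w hw; rw [mem_singleton] at hw; rw [hw]; exact mem_insert_self _ _))

end kill

end Pool.Agent.MF
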