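import Pool.Agent.MF.Frame

set_option autoImplicit false

/-!
# MP_141f81: images of words (N4)

Inside one sub-structure: `N` is the space of roles, `R` the rows, `S` the cleaned rows, the symbol `x` of role `v` has
the value `val v x` in a group `H` of exponent two, and the lines of `R` have values in `T`. A word `x_1 .. x_l` of
letters of `S` with roles `v_1 .. v_l` is equal, up to `5 l - 4` elements of `T`, to a word
`z_1, (s_(j,1) .. s_(j,4))_(j < l), z_l'` with given roles, in at least `κ ^ (2 l - 1) n ^ (4 l - 3)` ways. So at most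
`κ ^ (- (2 l - 1)) n` words with given roles are pairwise not at distance `10 l - 8`.
-/

namespace Pool.Agent.MF

open Finset
open Pool.Agent.helper35.MF (Ball ball_add wd sy)

variable {N : Type} [AddCommGroup N] {n : ℕ} {H : Type*} [AddCommGroup H]

/-- the symbols `z` of role `a` and `e` of role `b` are on a common row -/
def N4HH (R : Finset (N → Fin n)) (a b : N) (z e : Fin n) : Prop := ∃ ρ ∈ R, ρ a = z ∧ ρ b = e

/-- the value of a word -/
def N4wv (val : N → Fin n → H) (w : List (N × Fin n)) : H := (w.map fun x => val x.1 x.2).sum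

open Classical in
/-- the data inside one sub-structure; `walk` is J2, `spoke` follows from J1 (see `spoke_of`) -/
structure ImData (Ind : N → N → Prop) (R S : Finset (N → Fin n)) (val : N → Fin n → H) (T : Set H)
    (κ : ℝ) : Prop where
  two : ∀ v : N, v + v = 0
  twoH : ∀ g : H, g + g = 0
  sub : S ⊆ R
  symm : ∀ u v, Ind u v → Ind v u
  add : ∀ u v, Ind u v → Ind u (u + v)
  fd : ∀ u v, Ind u v → ∀ ρ ∈ R, ∀ ρ' ∈ R, ρ u = ρ' u → ρ v = ρ' v → ρ (u + v) = ρ' (u + v)
  line : ∀ u v, Ind u v → ∀ ρ ∈ R, val u (ρ u) + val v (ρ v) + val (u + v) (ρ (u + v)) ∈ T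
  walk : ∀ a b, Ind a b → ∀ ρ ∈ S, ∀ ρ' ∈ S, κ * (n : ℝ) ^ 3 ≤
    (((univ : Finset (Fin n × Fin n × Fin n)).filter fun q =>
      N4HH R a b (ρ a) q.1 ∧ N4HH R a b q.2.1 q.1 ∧ N4HH R a b q.2.1 q.2.2 ∧ N4HH R a b (ρ' a) q.2.2).card : ℝ)
  spoke : ∀ v a, Ind v a → ∀ ρ ∈ S, κ * (n : ℝ) ≤
    (((univ : Finset (Fin n)).filter fun z => ∃ ρ' ∈ S, ρ' v = ρ v ∧ ρ' a = z).card : ℝ)

/-- the roles `v_j` are independent of the positions `a + v_1 + .. + v_(j-1)` -/
def Pth (Ind : N → N → Prop) : N → List N → Prop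
  | _, [] => True
  | a, v :: vs => Ind a v ∧ Pth Ind (a + v) vs

theorem Pth_iff {Ind : N → N → Prop} (a : N) (vs : List N) :
    Pth Ind a vs ↔ ∀ (j : ℕ) (hj : j < vs.length), Ind (a + (vs.take j).sum) vs[j] := by
  induction vs generalizing a with
  | nil => simp [Pth]
  | cons v vs ih =>
    rw [Pth, ih]
    constructor
    · rintro ⟨h1, h2⟩ j hj
      rcases j with _ | j
      · simpa using h1
      · have := h2 j (by simpa using hj)
        simpa [add_assoc] using this
    · intro h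
      refine ⟨?_, fun j hj => ?_⟩
      · have h0 := h 0 (by simp)
        simp only [List.take_zero, List.sum_nil, add_zero, List.getElem_cons_zero] at h0
        exact h0
      · have := h (j + 1) (by simpa using hj)
        simpa [add_assoc] using this

/-- `x` is a letter of `S` -/
def IsL (S : Finset (N → Fin n)) (x : N × Fin n) : Prop := ∃ ρ ∈ S, ρ x.1 = x.2

open Classical in
/-- the third symbol of a line -/
noncomputable def lab (R : Finset (N → Fin n)) (u v : N) (x y : Fin n) : Fin n :=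
  if h : ∃ ρ ∈ R, ρ u = x ∧ ρ v = y then h.choose (u + v) else x

section

variable {Ind : N → N → Prop} {R S : Finset (N → Fin n)} {val : N → Fin n → H} {T : Set H} {κ : ℝ}

theorem lab_eq (h : ImData Ind R S val T κ) {u v : N} (hi : Ind u v) {ρ : N → Fin n} (hρ : ρ ∈ R) {x y : Fin n}
    (hx : ρ u = x) (hy : ρ v = y) : lab R u v x y = ρ (u + v) := by
  have h1 : ∃ ρ ∈ R, ρ u = x ∧ ρ v = y := ⟨ρ, hρ, hx, hy⟩
  rw [lab, dif_pos h1]
  obtain ⟨h2, h3, h4⟩ := h1.choose_spec
  exact h.fd u v hi _ h2 _ hρ (h3.trans hx.symm) (h4.trans hy.symm)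

theorem lab_right (h : ImData Ind R S val T κ) {u v : N} (hi : Ind u v) {x y y' : Fin n} (h1 : N4HH R u v x y)
    (h2 : N4HH R u v x y') (he : lab R u v x y = lab R u v x y') : y = y' := by
  obtain ⟨ρ, hρ, hx, hy⟩ := h1
  obtain ⟨ρ', hρ', hx', hy'⟩ := h2
  rw [lab_eq h hi hρ hx hy, lab_eq h hi hρ' hx' hy'] at he
  have h3 := h.fd u (u + v) (h.add u v hi) ρ hρ ρ' hρ' (hx.trans hx'.symm) he
  have h4 : u + (u + v) = v := by rw [← add_assoc, h.two, zero_add]
  rw [h4] at h3
  rw [← hy, ← hy', h3]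

theorem lab_left (h : ImData Ind R S val T κ) {u v : N} (hi : Ind u v) {x x' y : Fin n} (h1 : N4HH R u v x y)
    (h2 : N4HH R u v x' y) (he : lab R u v x y = lab R u v x' y) : x = x' := by
  obtain ⟨ρ, hρ, hx, hy⟩ := h1
  obtain ⟨ρ', hρ', hx', hy'⟩ := h2
  rw [lab_eq h hi hρ hx hy, lab_eq h hi hρ' hx' hy', add_comm u v] at he
  have h3 := h.fd v (v + u) (h.add v u (h.symm u v hi)) ρ hρ ρ' hρ' (hy.trans hy'.symm) he
  have h4 : v + (v + u) = u := by rw [← add_assoc, h.two, zero_add]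
  rw [h4] at h3
  rw [← hx, ← hx', h3]

/-- a line of `R` as a word -/
theorem lab_line (h : ImData Ind R S val T κ) {u v : N} (hi : Ind u v) {x y : Fin n} (h1 : N4HH R u v x y) :
    val u x + val v y + val (u + v) (lab R u v x y) ∈ Ball T 1 := by
  obtain ⟨ρ, hρ, hx, hy⟩ := h1
  rw [lab_eq h hi hρ hx hy, ← hx, ← hy]
  exact Pool.Agent.helper35.MF.Ball.one (h.line u v hi ρ hρ)

open Classical in
/-- the choices of one step: `z' - e - z'' - e' - z`, and `z` is joined to the letter `x` -/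
noncomputable def stp (R S : Finset (N → Fin n)) (c : N) (x : N × Fin n) (z' : Fin n) :
    Finset (Fin n × Fin n × Fin n × Fin n) :=
  univ.filter fun q => N4HH R c x.1 z' q.2.1 ∧ N4HH R c x.1 q.2.2.1 q.2.1 ∧ N4HH R c x.1 q.2.2.1 q.2.2.2 ∧
    N4HH R c x.1 q.1 q.2.2.2 ∧ ∃ ρ ∈ S, ρ x.1 = x.2 ∧ ρ c = q.1

open Classical in
/-- the ends of the images -/
noncomputable def tails (R S : Finset (N → Fin n)) : N → List (N × Fin n) → Fin n → Finset (List (Fin n))
  | _, [], z' => {[z']}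
  | c, x :: w, z' => (stp R S c x z').biUnion fun q =>
      (tails R S (c + x.1) w (lab R c x.1 q.1 x.2)).image fun t =>
        lab R c x.1 z' q.2.1 :: lab R c x.1 q.2.2.1 q.2.1 :: lab R c x.1 q.2.2.1 q.2.2.2 ::
          lab R c x.1 q.1 q.2.2.2 :: t

omit [AddCommGroup N] in
open Classical in
theorem mem_stp {c : N} {x : N × Fin n} {z' : Fin n} {q : Fin n × Fin n × Fin n × Fin n} :
    q ∈ stp R S c x z' ↔ N4HH R c x.1 z' q.2.1 ∧ N4HH R c x.1 q.2.2.1 q.2.1 ∧ N4HH R c x.1 q.2.2.1 q.2.2.2 ∧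
    N4HH R c x.1 q.1 q.2.2.2 ∧ ∃ ρ ∈ S, ρ x.1 = x.2 ∧ ρ c = q.1 := by
  simp [stp]

theorem tails_len {c : N} {w : List (N × Fin n)} {z' : Fin n} {t : List (Fin n)} (ht : t ∈ tails R S c w z') :
    t.length = 4 * w.length + 1 := by
  classical
  induction w generalizing c z' t with
  | nil =>
    rw [tails, mem_singleton] at ht
    rw [ht]; rfl
  | cons x w ih =>
    rw [tails, mem_biUnion] at ht
    obtain ⟨q, _, hq⟩ := ht
    rw [mem_image] at hq
    obtain ⟨t', ht', rfl⟩ := hq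
    simp only [List.length_cons, ih ht']
    ring

open Classical in
/-- the number of choices -/
theorem stp_card (h : ImData Ind R S val T κ) (hκ : 0 ≤ κ) {c : N} {x : N × Fin n} (hi : Ind c x.1) {ρ0 : N → Fin n}
    (h0 : ρ0 ∈ S) (hx : IsL S x) : κ ^ 2 * (n : ℝ) ^ 4 ≤ ((stp R S c x (ρ0 c)).card : ℝ) := by
  obtain ⟨η, hη, hηx⟩ := hx
  set Z : Finset (Fin n) := univ.filter fun z => ∃ ρ' ∈ S, ρ' x.1 = η x.1 ∧ ρ' c = z with hZ
  have h1 : κ * (n : ℝ) ≤ (Z.card : ℝ) := h.spoke x.1 c (h.symm _ _ hi) η hη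
  have h2 : ∀ z ∈ Z, κ * (n : ℝ) ^ 3 ≤ (((univ : Finset (Fin n × Fin n × Fin n)).filter fun q =>
      N4HH R c x.1 (ρ0 c) q.1 ∧ N4HH R c x.1 q.2.1 q.1 ∧ N4HH R c x.1 q.2.1 q.2.2 ∧ N4HH R c x.1 z q.2.2).card : ℝ) := by
    intro z hz
    rw [hZ, mem_filter] at hz
    obtain ⟨_, ρ', hρ', _, rfl⟩ := hz
    exact h.walk c x.1 hi ρ0 h0 ρ' hρ'
  have h3 : stp R S c x (ρ0 c) = (Z.sigma fun z => (univ : Finset (Fin n × Fin n × Fin n)).filter
      fun q : Fin n × Fin n × Fin n =>
      N4HH R c x.1 (ρ0 c) q.1 ∧ N4HH R c x.1 q.2.1 q.1 ∧ N4HH R c x.1 q.2.1 q.2.2 ∧ N4HH R c x.1 z q.2.2).map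
      ⟨fun p => (p.1, p.2), by
        rintro ⟨a, b⟩ ⟨a', b'⟩ hab
        simp only [Prod.mk.injEq] at hab
        obtain ⟨rfl, rfl⟩ := hab
        rfl⟩ := by
    ext q
    simp only [mem_stp, mem_map, mem_sigma, mem_filter, mem_univ, true_and, Function.Embedding.coeFn_mk, hZ]
    constructor
    · rintro ⟨a1, a2, a3, a4, ρ, hρ, h5, h6⟩
      exact ⟨⟨q.1, q.2⟩, ⟨⟨ρ, hρ, h5.trans hηx.symm, h6⟩, a1, a2, a3, a4⟩, rfl⟩
    · rintro ⟨⟨z, p⟩, ⟨⟨ρ, hρ, h5, h6⟩, a1, a2, a3, a4⟩, rfl⟩
      exact ⟨a1, a2, a3, a4, ρ, hρ, h5.trans hηx, h6⟩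
  rw [h3, card_map, card_sigma]
  push_cast
  calc κ ^ 2 * (n : ℝ) ^ 4 = (κ * n) * (κ * (n : ℝ) ^ 3) := by ring
    _ ≤ (Z.card : ℝ) * (κ * (n : ℝ) ^ 3) := mul_le_mul_of_nonneg_right h1 (by positivity)
    _ = ∑ _z ∈ Z, κ * (n : ℝ) ^ 3 := by rw [sum_const, nsmul_eq_mul]
    _ ≤ _ := sum_le_sum h2

/-- the number of tails -/
theorem tails_card (h : ImData Ind R S val T κ) (hκ : 0 ≤ κ) {c : N} {w : List (N × Fin n)} {ρ0 : N → Fin n}
    (h0 : ρ0 ∈ S) (hw : ∀ x ∈ w, IsL S x) (hp : Pth Ind c (w.map Prod.fst)) :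
    (κ ^ 2 * (n : ℝ) ^ 4) ^ w.length ≤ ((tails R S c w (ρ0 c)).card : ℝ) := by
  classical
  induction w generalizing c ρ0 with
  | nil => simp [tails]
  | cons x w ih =>
    simp only [List.map_cons, Pth] at hp
    obtain ⟨hi, hp⟩ := hp
    rw [tails, card_biUnion]
    · push_cast
      have h1 := stp_card h hκ hi h0 (hw x List.mem_cons_self)
      have h2 : ∀ q ∈ stp R S c x (ρ0 c), (κ ^ 2 * (n : ℝ) ^ 4) ^ w.length ≤
          ((((tails R S (c + x.1) w (lab R c x.1 q.1 x.2)).image fun t =>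
        lab R c x.1 (ρ0 c) q.2.1 :: lab R c x.1 q.2.2.1 q.2.1 :: lab R c x.1 q.2.2.1 q.2.2.2 ::
          lab R c x.1 q.1 q.2.2.2 :: t)).card : ℝ) := by
        intro q hq
        obtain ⟨_, _, _, _, ρ, hρ, h5, h6⟩ := mem_stp.1 hq
        rw [card_image_of_injective _ (fun t t' htt => by simpa using htt),
          lab_eq h hi (h.sub hρ) h6 h5]
        exact ih hρ (fun y hy => hw y (List.mem_cons_of_mem _ hy)) hp
      calc (κ ^ 2 * (n : ℝ) ^ 4) ^ (x :: w).length
          = (κ ^ 2 * (n : ℝ) ^ 4) * (κ ^ 2 * (n : ℝ) ^ 4) ^ w.length := by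
            rw [List.length_cons, pow_succ]; ring
        _ ≤ ((stp R S c x (ρ0 c)).card : ℝ) * (κ ^ 2 * (n : ℝ) ^ 4) ^ w.length :=
            mul_le_mul_of_nonneg_right h1 (by positivity)
        _ = ∑ _q ∈ stp R S c x (ρ0 c), (κ ^ 2 * (n : ℝ) ^ 4) ^ w.length := by rw [sum_const, nsmul_eq_mul]
        _ ≤ _ := sum_le_sum h2
    · intro q hq q' hq' hne
      rw [Function.onFun, disjoint_left]
      intro t ht ht'
      rw [mem_image] at ht ht'
      obtain ⟨t1, _, rfl⟩ := ht
      obtain ⟨t2, _, he⟩ := ht'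
      simp only [List.cons.injEq] at he
      obtain ⟨e1, e2, e3, e4, _⟩ := he
      obtain ⟨a1, a2, a3, a4, _⟩ := mem_stp.1 hq
      obtain ⟨b1, b2, b3, b4, _⟩ := mem_stp.1 hq'
      apply hne
      have f1 : q'.2.1 = q.2.1 := lab_right h hi b1 a1 e1
      rw [f1] at b2 e2
      have f2 : q'.2.2.1 = q.2.2.1 := lab_left h hi b2 a2 e2
      rw [f2] at b3 e3
      have f3 : q'.2.2.2 = q.2.2.2 := lab_right h hi b3 a3 e3
      rw [f3] at b4 e4
      have f4 : q'.1 = q.1 := lab_left h hi b4 a4 e4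
      exact (Prod.ext f4 (Prod.ext f1 (Prod.ext f2 f3))).symm

/-- the value of a tail with roles `vs` -/
def tv (val : N → Fin n → H) : N → List N → List (Fin n) → H
  | c, [], t => (t.map fun s => val c s).sum
  | c, v :: vs, t => ((t.take 4).map fun s => val (c + v) s).sum + tv val (c + v) vs (t.drop 4)

theorem tails_val (h : ImData Ind R S val T κ) {c : N} {w : List (N × Fin n)} {z' : Fin n} {t : List (Fin n)}
    (hp : Pth Ind c (w.map Prod.fst)) (ht : t ∈ tails R S c w z') :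
    val c z' + N4wv val w + tv val c (w.map Prod.fst) t ∈ Ball T (5 * w.length) := by
  classical
  induction w generalizing c z' t with
  | nil =>
    rw [tails, mem_singleton] at ht
    subst ht
    have h1 : val c z' + N4wv val ([] : List (N × Fin n)) + tv val c (([] : List (N × Fin n)).map Prod.fst) [z'] =
        (0 : H) := by
      simp only [N4wv, List.map_nil, List.sum_nil, tv, List.map_cons, List.sum_cons, add_zero]
      exact h.twoH _
    rw [h1]
    exact Pool.Agent.helper35.MF.Ball.zero _ _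
  | cons x w ih =>
    simp only [List.map_cons, Pth] at hp
    obtain ⟨hi, hp⟩ := hp
    rw [tails, mem_biUnion] at ht
    obtain ⟨q, hq, ht⟩ := ht
    rw [mem_image] at ht
    obtain ⟨t', ht', rfl⟩ := ht
    obtain ⟨a1, a2, a3, a4, ρ, hρ, h5, h6⟩ := mem_stp.1 hq
    have l1 := lab_line h hi a1
    have l2 := lab_line h hi a2
    have l3 := lab_line h hi a3
    have l4 := lab_line h hi a4
    have l5 := lab_line h hi (x := q.1) (y := x.2) ⟨ρ, h.sub hρ, h6, h5⟩
    have l6 := ih hp ht'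
    have l7 := ball_add (ball_add (ball_add (ball_add (ball_add l1 l2) l3) l4) l5) l6
    have e1 : 1 + 1 + 1 + 1 + 1 + 5 * w.length = 5 * (x :: w).length := by
      rw [List.length_cons]; ring
    rw [e1] at l7
    convert l7 using 1
    simp only [N4wv, List.map_cons, List.sum_cons, tv, List.take_succ_cons, List.take_zero, List.drop_succ_cons,
      List.drop_zero, List.map_nil, List.sum_nil, add_zero]
    set A := val c z'
    set B := val x.1 q.2.1
    set C := val c q.2.2.1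
    set D := val x.1 q.2.2.2
    set E := val c q.1
    set F := val (c + x.1) (lab R c x.1 q.1 x.2)
    set s1 := val (c + x.1) (lab R c x.1 z' q.2.1)
    set s2 := val (c + x.1) (lab R c x.1 q.2.2.1 q.2.1)
    set s3 := val (c + x.1) (lab R c x.1 q.2.2.1 q.2.2.2)
    set s4 := val (c + x.1) (lab R c x.1 q.1 q.2.2.2)
    set V := tv val (c + x.1) (List.map Prod.fst w) t'
    set U := (List.map (fun x => val x.1 x.2) w).sum
    have e2 : A + B + s1 + (C + B + s2) + (C + D + s3) + (E + D + s4) + (E + val x.1 x.2 + F) + (F + U + V) =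
        A + (val x.1 x.2 + U) + (s1 + (s2 + (s3 + s4)) + V) + (B + B) + (C + C) + (D + D) + (E + E) + (F + F) := by
      abel
    rw [e2, h.twoH, h.twoH, h.twoH, h.twoH, h.twoH]
    abel

open Classical in
/-- the images of a word -/
noncomputable def imgs (R S : Finset (N → Fin n)) (a : N) : List (N × Fin n) → Finset (List (Fin n))
  | [] => ∅
  | x :: w => (univ.filter fun z => ∃ ρ ∈ S, ρ x.1 = x.2 ∧ ρ a = z).biUnion fun z =>
      (tails R S (a + x.1) w (lab R a x.1 z x.2)).image fun t => z :: t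

/-- the value of an image -/
def iv (val : N → Fin n → H) (a : N) : List N → List (Fin n) → H
  | [], _ => 0
  | v :: vs, t => ((t.take 1).map fun s => val a s).sum + tv val (a + v) vs (t.drop 1)

theorem imgs_len {a : N} {x : N × Fin n} {w : List (N × Fin n)} {t : List (Fin n)}
    (ht : t ∈ imgs R S a (x :: w)) : t.length = 4 * w.length + 2 := by
  classical
  rw [imgs, mem_biUnion] at ht
  obtain ⟨z, _, ht⟩ := ht
  rw [mem_image] at ht
  obtain ⟨t', ht', rfl⟩ := ht
  rw [List.length_cons, tails_len ht']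

theorem imgs_val (h : ImData Ind R S val T κ) {a : N} {x : N × Fin n} {w : List (N × Fin n)} {t : List (Fin n)}
    (hp : Pth Ind a ((x :: w).map Prod.fst)) (ht : t ∈ imgs R S a (x :: w)) :
    N4wv val (x :: w) + iv val a ((x :: w).map Prod.fst) t ∈ Ball T (5 * w.length + 1) := by
  classical
  simp only [List.map_cons, Pth] at hp
  obtain ⟨hi, hp⟩ := hp
  rw [imgs, mem_biUnion] at ht
  obtain ⟨z, hz, ht⟩ := ht
  rw [mem_filter] at hz
  obtain ⟨_, ρ, hρ, h5, h6⟩ := hz
  rw [mem_image] at ht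
  obtain ⟨t', ht', rfl⟩ := ht
  have l5 := lab_line h hi (x := z) (y := x.2) ⟨ρ, h.sub hρ, h6, h5⟩
  have l6 := tails_val h hp ht'
  have l7 := ball_add l6 l5
  convert l7 using 1
  simp only [N4wv, List.map_cons, List.sum_cons, iv, List.take_succ_cons, List.take_zero, List.drop_succ_cons,
    List.drop_zero, List.map_nil, List.sum_nil, add_zero]
  set E := val a z
  set F := val (a + x.1) (lab R a x.1 z x.2)
  set V := tv val (a + x.1) (List.map Prod.fst w) t'
  set U := (List.map (fun x => val x.1 x.2) w).sum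
  have e2 : F + U + V + (E + val x.1 x.2 + F) = val x.1 x.2 + U + (E + V) + (F + F) := by abel
  rw [e2, h.twoH, add_zero]

theorem imgs_card (h : ImData Ind R S val T κ) (hκ : 0 ≤ κ) {a : N} {x : N × Fin n} {w : List (N × Fin n)}
    (hw : ∀ y ∈ x :: w, IsL S y) (hp : Pth Ind a ((x :: w).map Prod.fst)) :
    κ ^ (2 * w.length + 1) * (n : ℝ) ^ (4 * w.length + 1) ≤ ((imgs R S a (x :: w)).card : ℝ) := by
  classical
  simp only [List.map_cons, Pth] at hp
  obtain ⟨hi, hp⟩ := hp
  obtain ⟨η, hη, hηx⟩ := hw x List.mem_cons_self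
  rw [imgs, card_biUnion]
  · push_cast
    have h1 : κ * (n : ℝ) ≤ (((univ : Finset (Fin n)).filter fun z => ∃ ρ ∈ S, ρ x.1 = x.2 ∧ ρ a = z).card : ℝ) := by
      have h2 := h.spoke x.1 a (h.symm _ _ hi) η hη
      rw [hηx] at h2
      exact h2
    have h2 : ∀ z ∈ (univ : Finset (Fin n)).filter fun z => ∃ ρ ∈ S, ρ x.1 = x.2 ∧ ρ a = z,
        (κ ^ 2 * (n : ℝ) ^ 4) ^ w.length ≤
          ((((tails R S (a + x.1) w (lab R a x.1 z x.2)).image fun t => z :: t)).card : ℝ) := by
      intro z hz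
      rw [mem_filter] at hz
      obtain ⟨_, ρ, hρ, h5, h6⟩ := hz
      rw [card_image_of_injective _ (fun t t' htt => by simpa using htt), lab_eq h hi (h.sub hρ) h6 h5]
      exact tails_card h hκ hρ (fun y hy => hw y (List.mem_cons_of_mem _ hy)) hp
    calc κ ^ (2 * w.length + 1) * (n : ℝ) ^ (4 * w.length + 1)
        = (κ * n) * (κ ^ 2 * (n : ℝ) ^ 4) ^ w.length := by
          rw [mul_pow, ← pow_mul, ← pow_mul]; ring
      _ ≤ (((univ : Finset (Fin n)).filter fun z => ∃ ρ ∈ S, ρ x.1 = x.2 ∧ ρ a = z).card : ℝ) *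
          (κ ^ 2 * (n : ℝ) ^ 4) ^ w.length := mul_le_mul_of_nonneg_right h1 (by positivity)
      _ = ∑ _z ∈ (univ : Finset (Fin n)).filter fun z => ∃ ρ ∈ S, ρ x.1 = x.2 ∧ ρ a = z,
          (κ ^ 2 * (n : ℝ) ^ 4) ^ w.length := by rw [sum_const, nsmul_eq_mul]
      _ ≤ _ := sum_le_sum h2
  · intro z _ z' _ hne
    rw [Function.onFun, disjoint_left]
    intro t ht ht'
    rw [mem_image] at ht ht'
    obtain ⟨t1, _, rfl⟩ := ht
    obtain ⟨t2, _, he⟩ := ht'
    simp only [List.cons.injEq] at he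
    exact hne he.1.symm

/-- two words with the same roles and a common image are near -/
theorem imgs_common (h : ImData Ind R S val T κ) {a : N} {w w' : List (N × Fin n)} {v : N} {vs : List N}
    (hw : w.map Prod.fst = v :: vs) (hw' : w'.map Prod.fst = v :: vs) (hp : Pth Ind a (v :: vs))
    {t : List (Fin n)} (ht : t ∈ imgs R S a w) (ht' : t ∈ imgs R S a w') :
    N4wv val w + N4wv val w' ∈ Ball T (10 * (vs.length + 1) - 8) := by
  rcases w with _ | ⟨x, w⟩
  · simp at hw
  rcases w' with _ | ⟨x', w'⟩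
  · simp at hw'
  have l1 : w.length = vs.length := by
    have := congrArg List.length hw
    simpa using this
  have l2 : w'.length = vs.length := by
    have := congrArg List.length hw'
    simpa using this
  have h1 := imgs_val h (by rw [hw]; exact hp) ht
  have h2 := imgs_val h (by rw [hw']; exact hp) ht'
  rw [hw] at h1
  rw [hw'] at h2
  have h3 := ball_add h1 h2
  have e1 : N4wv val (x :: w) + iv val a (v :: vs) t + (N4wv val (x' :: w') + iv val a (v :: vs) t) =
      N4wv val (x :: w) + N4wv val (x' :: w') := by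
    have e2 : N4wv val (x :: w) + iv val a (v :: vs) t + (N4wv val (x' :: w') + iv val a (v :: vs) t) =
        N4wv val (x :: w) + N4wv val (x' :: w') + (iv val a (v :: vs) t + iv val a (v :: vs) t) := by abel
    rw [e2, h.twoH, add_zero]
  rw [e1] at h3
  exact Pool.Agent.helper35.MF.Ball.mono (by omega) h3

/-- **(N4)** pairwise distant words with given roles are at most `κ ^ (- (2 l - 1)) n` in number -/
theorem words_le (h : ImData Ind R S val T κ) (hκ : 0 ≤ κ) (a v : N) (vs : List N) (hp : Pth Ind a (v :: vs))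
    (W : Finset (List (N × Fin n)))
    (hW : ∀ w ∈ W, w.map Prod.fst = v :: vs ∧ ∀ x ∈ w, IsL S x)
    (hsep : ∀ w ∈ W, ∀ w' ∈ W, w ≠ w' → N4wv val w + N4wv val w' ∉ Ball T (10 * (vs.length + 1) - 8)) :
    κ ^ (2 * vs.length + 1) * (W.card : ℝ) ≤ n := by
  classical
  rcases Nat.eq_zero_or_pos n with hn | hn
  · subst hn
    have h1 : W = ∅ := by
      rw [eq_empty_iff_forall_notMem]
      intro w hw
      rcases w with _ | ⟨x, w⟩
      · have := (hW _ hw).1
        simp at this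
      · exact x.2.elim0
    rw [h1]
    simp
  have h1 : ((W.biUnion fun w => imgs R S a w).card : ℝ) ≤ (n : ℝ) ^ (4 * vs.length + 2) := by
    have h2 : (W.biUnion fun w => imgs R S a w) ⊆
        (univ : Finset (List.Vector (Fin n) (4 * vs.length + 2))).image List.Vector.toList := by
      intro t ht
      rw [mem_biUnion] at ht
      obtain ⟨w, hw, ht⟩ := ht
      rcases w with _ | ⟨x, w⟩
      · have := (hW _ hw).1
        simp at this
      have l1 : w.length = vs.length := by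
        have := congrArg List.length (hW _ hw).1
        simpa using this
      rw [mem_image]
      exact ⟨⟨t, by rw [imgs_len ht, l1]⟩, mem_univ _, rfl⟩
    have h3 := (card_le_card h2).trans card_image_le
    rw [card_univ, card_vector, Fintype.card_fin] at h3
    exact_mod_cast h3
  have h2 : ∀ w ∈ W, κ ^ (2 * vs.length + 1) * (n : ℝ) ^ (4 * vs.length + 1) ≤ ((imgs R S a w).card : ℝ) := by
    intro w hw
    rcases w with _ | ⟨x, w⟩
    · have := (hW _ hw).1
      simp at this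
    have l1 : w.length = vs.length := by
      have := congrArg List.length (hW _ hw).1
      simpa using this
    have h3 := imgs_card h hκ (hW _ hw).2 (a := a) (by rw [(hW _ hw).1]; exact hp)
    rwa [l1] at h3
  rw [card_biUnion] at h1
  · push_cast at h1
    have h3 : (W.card : ℝ) * (κ ^ (2 * vs.length + 1) * (n : ℝ) ^ (4 * vs.length + 1)) ≤
        (n : ℝ) ^ (4 * vs.length + 2) := by
      calc (W.card : ℝ) * (κ ^ (2 * vs.length + 1) * (n : ℝ) ^ (4 * vs.length + 1))
          = ∑ _w ∈ W, κ ^ (2 * vs.length + 1) * (n : ℝ) ^ (4 * vs.length + 1) := by rw [sum_const, nsmul_eq_mul]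
        _ ≤ _ := sum_le_sum h2
        _ ≤ _ := h1
    have h4 : (0 : ℝ) < (n : ℝ) ^ (4 * vs.length + 1) := by positivity
    have h5 : κ ^ (2 * vs.length + 1) * (W.card : ℝ) * (n : ℝ) ^ (4 * vs.length + 1) ≤
        n * (n : ℝ) ^ (4 * vs.length + 1) := by
      calc κ ^ (2 * vs.length + 1) * (W.card : ℝ) * (n : ℝ) ^ (4 * vs.length + 1)
          = (W.card : ℝ) * (κ ^ (2 * vs.length + 1) * (n : ℝ) ^ (4 * vs.length + 1)) := by ring
        _ ≤ (n : ℝ) ^ (4 * vs.length + 2) := h3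
        _ = n * (n : ℝ) ^ (4 * vs.length + 1) := by ring
    exact le_of_mul_le_mul_right h5 h4
  · intro w hw w' hw' hne
    rw [Function.onFun, disjoint_left]
    intro t ht ht'
    exact hsep w hw w' hw' hne (imgs_common h (hW w hw).1 (hW w' hw').1 hp ht ht')

end

omit [AddCommGroup N] in
open Classical in
/-- `spoke` from J1 for the type `tau + v` and the upper bound for the rows through `(v, x)` and `(a, z)` -/
theorem spoke_of {S : Finset (N → Fin n)} {κ : ℝ} {m : ℕ} {v a : N} {ρ : N → Fin n}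
    (hn : 0 < n) (h1 : κ * (n : ℝ) ^ (m + 1) ≤ ((S.filter fun ρ' => ρ' v = ρ v).card : ℝ))
    (h2 : ∀ z, (S.filter fun ρ' => ρ' v = ρ v ∧ ρ' a = z).card ≤ n ^ m) :
    κ * (n : ℝ) ≤ (((univ : Finset (Fin n)).filter fun z => ∃ ρ' ∈ S, ρ' v = ρ v ∧ ρ' a = z).card : ℝ) := by
  set Z : Finset (Fin n) := univ.filter fun z => ∃ ρ' ∈ S, ρ' v = ρ v ∧ ρ' a = z with hZ
  have h3 : (S.filter fun ρ' => ρ' v = ρ v).card ≤ Z.card * n ^ m := by
    have h4 : (S.filter fun ρ' => ρ' v = ρ v) ⊆ Z.biUnion fun z => S.filter fun ρ' => ρ' v = ρ v ∧ ρ' a = z := by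
      intro ρ' hρ'
      rw [mem_filter] at hρ'
      rw [mem_biUnion]
      exact ⟨ρ' a, by rw [hZ, mem_filter]; exact ⟨mem_univ _, ρ', hρ'.1, hρ'.2, rfl⟩,
        by rw [mem_filter]; exact ⟨hρ'.1, hρ'.2, rfl⟩⟩
    exact (card_le_card h4).trans (card_biUnion_le_card_mul _ _ _ fun z _ => h2 z)
  have h5 : κ * (n : ℝ) * (n : ℝ) ^ m ≤ (Z.card : ℝ) * (n : ℝ) ^ m := by
    calc κ * (n : ℝ) * (n : ℝ) ^ m = κ * (n : ℝ) ^ (m + 1) := by ring
      _ ≤ _ := h1
      _ ≤ _ := by exact_mod_cast h3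
  exact le_of_mul_le_mul_right h5 (by positivity)

/-! ### the frame -/

section

variable {V : Type} [AddCommGroup V] [Fintype V] [DecidableEq V]

/-- independent roles over `τ`, all three roles of the line in `L` -/
def IndL (M : Mat V) (τ L : Finset V) (u v : V) : Prop := M.Ind τ u v ∧ u ∈ L ∧ v ∈ L ∧ u + v ∈ L

theorem IndL.symm {M : Mat V} {τ L : Finset V} {u v : V} (h : IndL M τ L u v) : IndL M τ L v u := by
  refine ⟨?_, h.2.2.1, h.2.1, by rw [add_comm]; exact h.2.2.2⟩
  have h1 := h.1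
  unfold Mat.Ind at h1 ⊢
  rw [Finset.insert_comm]
  exact h1

theorem N4_addadd (M : Mat V) (u v : V) : u + (u + v) = v := by rw [← add_assoc, M.two, zero_add]

/-- `v ∈ cl {u, u + v}` over `τ` -/
theorem N4_cl (M : Mat V) (τ : Finset V) (u v : V) :
    M.rk (insert (u + v) (insert u (insert v τ))) = M.rk (insert u (insert v τ)) := by
  refine le_antisymm ?_ (M.rk_mono (subset_insert _ _))
  have h1 := M.rk_submod (insert u (insert v τ)) {u, v, u + v}
  have h2 : ({u, v} : Finset V) ⊆ insert u (insert v τ) ∩ {u, v, u + v} := by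
    intro x hx
    simp only [mem_insert, mem_singleton] at hx
    simp only [mem_inter, mem_insert, mem_singleton]
    rcases hx with rfl | rfl <;> simp
  have h3 : insert (u + v) (insert u (insert v τ)) ⊆ insert u (insert v τ) ∪ {u, v, u + v} := by
    intro x hx
    simp only [mem_insert] at hx
    simp only [mem_union, mem_insert, mem_singleton]
    tauto
  have h4 := M.rk_mono h2
  have h5 := M.rk_mono h3
  have h6 := M.rk_add u v
  omega

theorem IndL.add {M : Mat V} {τ L : Finset V} {u v : V} (h : IndL M τ L u v) : IndL M τ L u (u + v) := by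
  refine ⟨?_, h.2.1, h.2.2.2, by rw [N4_addadd M]; exact h.2.2.1⟩
  have h1 := h.1
  unfold Mat.Ind at h1 ⊢
  have h2 := N4_cl M τ u (u + v)
  rw [N4_addadd M] at h2
  have h3 : insert u (insert v τ) ⊆ insert v (insert u (insert (u + v) τ)) := by
    intro x hx
    simp only [mem_insert] at hx ⊢
    tauto
  have h4 := M.rk_mono h3
  have h5 := M.rk_insert_le u (insert (u + v) τ)
  have h6 := M.rk_insert_le (u + v) τ
  omega

/-- the data of one sub-structure -/
theorem imData_of {M : Mat V} {TT : Finset (Finset V)} {κ : ℝ} {R S : Finset (V → Fin n)} (hn : 0 < n)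
    (hE : Exact M R) (hcard : ∀ (τ : Finset V) (η : V → Fin n), (sub R τ η).card ≤ n ^ (M.r - M.rk τ))
    (hJ : JCOut M TT κ R S) {τ : Finset V} (hτ : τ ∈ TT) {η : V → Fin n} (hη : η ∈ S) (L : Finset V)
    (hTT : ∀ v ∈ L, ¬ M.InCl τ v → insert v τ ∈ TT) (h2 : ∀ g : H, g + g = 0) {val : V → Fin n → H} {T : Set H}
    (hline : ∀ u v, IndL M τ L u v → ∀ ρ ∈ sub R τ η, val u (ρ u) + val v (ρ v) + val (u + v) (ρ (u + v)) ∈ T) :
    ImData (IndL M τ L) (sub R τ η) (sub S τ η) val T κ := by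
  classical
  have hsub : ∀ {ρ : V → Fin n}, ρ ∈ sub S τ η → ρ ∈ sub R τ η := by
    intro ρ hρ
    rw [sub, mem_filter] at hρ ⊢
    exact ⟨hJ.1 hρ.1, hρ.2⟩
  refine ⟨M.two, h2, fun ρ hρ => hsub hρ, fun u v h => h.symm, fun u v h => h.add, ?_, hline, ?_, ?_⟩
  · intro u v hi ρ hρ ρ' hρ' hu hv
    rw [sub, mem_filter] at hρ hρ'
    refine hE (insert u (insert v τ)) (u + v) (N4_cl M τ u v) ρ hρ.1 ρ' hρ'.1 ?_
    intro x hx
    simp only [mem_insert] at hx
    rcases hx with rfl | rfl | hx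
    · exact hu
    · exact hv
    · exact (hρ.2 x hx).symm.trans (hρ'.2 x hx)
  · intro a b hi ρ hρ ρ' hρ'
    have h3 := ((hJ.2.2 τ hτ η hη).2 a b hi.1 ρ hρ ρ' hρ')
    refine h3.trans (le_of_eq ?_)
    congr 2
    ext q
    simp only [N4HH, mem_filter]
  · intro v a hi ρ hρ
    have hv : M.rk (insert v τ) = M.rk τ + 1 := by
      have h3 := M.rk_insert_le v τ
      have h4 := M.rk_insert_le a (insert v τ)
      have h5 := hi.symm.1
      unfold Mat.Ind at h5
      omega
    have hav : M.rk (insert a (insert v τ)) = M.rk τ + 2 := hi.symm.1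
    have hr : M.rk τ + 2 ≤ M.r := by
      rw [← hav]
      exact M.rk_mono (subset_univ _)
    have hρS : ρ ∈ S := (mem_filter.1 hρ).1
    have hρτ : Agree τ η ρ := (mem_filter.1 hρ).2
    have hcl : ¬ M.InCl τ v := by
      intro h3
      unfold Mat.InCl at h3
      omega
    have h6 := (hJ.2.2 _ (hTT v hi.2.1 hcl) ρ hρS).1
    have e1 : sub S (insert v τ) ρ = (sub S τ η).filter fun ρ' => ρ' v = ρ v := by
      ext ρ'
      simp only [sub, mem_filter, Agree, mem_insert, forall_eq_or_imp]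
      constructor
      · rintro ⟨h7, h8, h9⟩
        exact ⟨⟨h7, fun x hx => (hρτ x hx).trans (h9 x hx)⟩, h8.symm⟩
      · rintro ⟨⟨h7, h8⟩, h9⟩
        exact ⟨h7, h9.symm, fun x hx => (hρτ x hx).symm.trans (h8 x hx)⟩
    rw [e1, hv] at h6
    have e2 : M.r - (M.rk τ + 1) = (M.r - M.rk τ - 2) + 1 := by omega
    rw [e2] at h6
    refine spoke_of hn h6 ?_
    intro z
    rcases (((sub S τ η).filter fun ρ' => ρ' v = ρ v ∧ ρ' a = z)).eq_empty_or_nonempty with h7 | ⟨σ, hσ⟩
    · rw [h7]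
      exact Nat.zero_le _
    have h8 := hcard (insert a (insert v τ)) σ
    rw [hav] at h8
    have e3 : M.r - (M.rk τ + 2) = M.r - M.rk τ - 2 := by omega
    rw [e3] at h8
    refine (card_le_card ?_).trans h8
    intro ρ' hρ'
    rw [mem_filter] at hρ' hσ
    rw [sub, mem_filter]
    have h9 := hsub hρ'.1
    have h10 := hsub hσ.1
    rw [sub, mem_filter] at h9 h10
    refine ⟨h9.1, ?_⟩
    intro x hx
    simp only [mem_insert] at hx
    rcases hx with rfl | rfl | hx
    · rw [hσ.2.2, hρ'.2.2]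
    · rw [hσ.2.1, hρ'.2.1]
    · exact (h10.2 x hx).symm.trans (h9.2 x hx)

omit [AddCommGroup V] [Fintype V] [DecidableEq V] in
theorem N4wv_lt (w : List (V × Fin n)) : N4wv lt w = wd w := rfl

end

end Pool.Agent.MF
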