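import Mathlib
import Pool.Agent.MF.MatB
import Pool.Agent.MF.Frame2

set_option autoImplicit false

/-!
# MP_141f81, Section 9: popular classes of rows

`pop_rows` : finitely many functions of the rows with values in sets of at most `K` elements are constant on a subset
`S3` of the rows with `|S2| ≤ K ^ k * |S3|`.
`pop_dense` : if `n ^ r ≤ c * |S3|`, `S3 ⊆ R`, then the values `π a (η a)`, `η ∈ S3`, are a positive proportion of `U`.
-/

namespace Pool.Agent.MF.PopC

open Finset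

section rows

/-- pigeonhole for one function -/
theorem pop_one {X Y : Type} (S : Finset X) (f : X → Y) (V : Set Y) (hV : V.Finite) {K : ℕ} (hK : V.ncard ≤ K)
    (hf : ∀ η ∈ S, f η ∈ V) :
    ∃ S3 ⊆ S, (∀ η ∈ S3, ∀ η' ∈ S3, f η = f η') ∧ S.card ≤ K * S3.card := by
  classical
  rcases S.eq_empty_or_nonempty with rfl | hne
  · exact ⟨∅, Subset.refl _, by simp, by simp⟩
  obtain ⟨W, hW⟩ : ∃ W : Finset Y, W = hV.toFinset := ⟨_, rfl⟩
  have hWc : W.card ≤ K := by
    rw [hW, ← Set.ncard_eq_toFinset_card V hV]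
    exact hK
  have hfW : ∀ η ∈ S, f η ∈ W := by
    intro η hη
    rw [hW, Set.Finite.mem_toFinset]
    exact hf η hη
  by_contra hcon
  push Not at hcon
  have h1 : ∀ y ∈ W, K * (S.filter (fun η => f η = y)).card < S.card := by
    intro y _
    refine hcon _ (filter_subset _ _) ?_
    intro η hη η' hη'
    rw [mem_filter] at hη hη'
    rw [hη.2, hη'.2]
  have h2 : S.card = ∑ y ∈ W, (S.filter (fun η => f η = y)).card :=
    card_eq_sum_card_fiberwise (fun η hη => hfW η hη)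
  obtain ⟨η0, hη0⟩ := hne
  have hWne : W.Nonempty := ⟨f η0, hfW η0 hη0⟩
  have h3 : K * S.card < W.card * S.card := by
    calc K * S.card = ∑ y ∈ W, K * (S.filter (fun η => f η = y)).card := by rw [h2, mul_sum]
      _ < ∑ _y ∈ W, S.card := sum_lt_sum_of_nonempty hWne h1
      _ = W.card * S.card := by rw [sum_const, smul_eq_mul]
  have h4 : W.card * S.card ≤ K * S.card := Nat.mul_le_mul_right _ hWc
  omega

/-- pigeonhole for finitely many functions -/
theorem pop_rows {X ι : Type} [Fintype ι] {Y : ι → Type} (f : ∀ i, X → Y i) (V : ∀ i, Set (Y i))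
    (hV : ∀ i, (V i).Finite) {K : ℕ} (hK : ∀ i, (V i).ncard ≤ K) (S : Finset X)
    (hf : ∀ i, ∀ η ∈ S, f i η ∈ V i) :
    ∃ S3 ⊆ S, (∀ i, ∀ η ∈ S3, ∀ η' ∈ S3, f i η = f i η') ∧ S.card ≤ K ^ Fintype.card ι * S3.card := by
  classical
  have key : ∀ J : Finset ι, ∃ S3 ⊆ S, (∀ i ∈ J, ∀ η ∈ S3, ∀ η' ∈ S3, f i η = f i η') ∧
      S.card ≤ K ^ J.card * S3.card := by
    intro J
    induction J using Finset.induction_on with
    | empty => exact ⟨S, Subset.refl _, by simp, by simp⟩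
    | insert i J hi ih =>
      obtain ⟨S1, h1, h2, h3⟩ := ih
      obtain ⟨S3, h4, h5, h6⟩ := pop_one S1 (f i) (V i) (hV i) (hK i) (fun η hη => hf i η (h1 hη))
      refine ⟨S3, h4.trans h1, ?_, ?_⟩
      · intro j hj η hη η' hη'
        rcases mem_insert.1 hj with rfl | hj
        · exact h5 η hη η' hη'
        · exact h2 j hj η (h4 hη) η' (h4 hη')
      · rw [card_insert_of_notMem hi, pow_succ, mul_assoc]
        exact h3.trans (Nat.mul_le_mul_left _ h6)
  obtain ⟨S3, h1, h2, h3⟩ := key univ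
  exact ⟨S3, h1, fun i => h2 i (mem_univ i), by rwa [card_univ] at h3⟩

/-- pigeonhole for finitely many functions with values in one type -/
theorem pop_rows' {X Y : Type} {k : ℕ} (f : Fin k → X → Y) (V : Fin k → Set Y)
    (hV : ∀ i, (V i).Finite) {K : ℕ} (hK : ∀ i, (V i).ncard ≤ K) (S : Finset X)
    (hf : ∀ i, ∀ η ∈ S, f i η ∈ V i) :
    ∃ S3 ⊆ S, (∀ i, ∀ η ∈ S3, ∀ η' ∈ S3, f i η = f i η') ∧ S.card ≤ K ^ k * S3.card := by
  have h := pop_rows f V hV hK S hf
  rwa [Fintype.card_fin] at h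

/-- the constant value of a function on a popular class -/
theorem pop_const {X Y : Type} (S3 : Finset X) (f : X → Y) (h : ∀ η ∈ S3, ∀ η' ∈ S3, f η = f η')
    (hne : S3.Nonempty) : ∃ c, ∀ η ∈ S3, f η = c := by
  obtain ⟨η0, h0⟩ := hne
  exact ⟨f η0, fun η hη => h η hη η0 h0⟩

end rows

section dense

variable {N : Type} [AddCommGroup N] [Fintype N] [DecidableEq N] {M : Mat N} {n T : ℕ}
  {R S : Finset (N → Fin n)} {U : Type} [AddCommGroup U] [Fintype U] [DecidableEq U] {π : N → Fin n → U}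

omit [AddCommGroup U] [Fintype U] [DecidableEq U] in
/-- the number of letters of the role `a` in a large set of rows, over the type `τ` -/
theorem pop_letters {τ : Finset N} {a : N} (hR : Exact M R) (hn : 0 < n) {η : N → Fin n}
    (ha : M.rk (insert a τ) = M.rk τ + 1) {S3 : Finset (N → Fin n)} (hS3 : S3 ⊆ sub R τ η) {c : ℕ}
    (hc : n ^ (M.r - M.rk τ) ≤ c * S3.card) : n ≤ c * (S3.image (fun ρ => ρ a)).card := by
  classical
  have h1 : S3.card ≤ (S3.image (fun ρ => ρ a)).card * n ^ (M.r - M.rk (insert a τ)) := by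
    rw [card_eq_sum_card_image (fun ρ : N → Fin n => ρ a) S3]
    refine (sum_le_card_nsmul _ _ (n ^ (M.r - M.rk (insert a τ))) ?_).trans (by rw [smul_eq_mul])
    intro x _
    refine (card_le_card ?_).trans (card_fibre_le hR τ η a x)
    intro ρ hρ
    rw [mem_filter] at hρ ⊢
    exact ⟨hS3 hρ.1, hρ.2⟩
  have hr : M.rk (insert a τ) ≤ M.r := M.rk_mono (subset_univ _)
  have h2 : n ^ (M.r - M.rk τ) = n * n ^ (M.r - M.rk (insert a τ)) := by
    rw [← pow_succ']
    congr 1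
    omega
  have h3 : n * n ^ (M.r - M.rk (insert a τ)) ≤
      (c * (S3.image (fun ρ => ρ a)).card) * n ^ (M.r - M.rk (insert a τ)) := by
    rw [← h2, mul_assoc]
    exact hc.trans (Nat.mul_le_mul_left _ h1)
  exact Nat.le_of_mul_le_mul_right h3 (Nat.pow_pos hn)

/-- the values of the letters: at most `T` letters of one role have the same value -/
theorem pop_values (h : EMOut M n T R S U π) {a : N} (ha : a ≠ 0) (A : Finset (Fin n))
    (hA : ∀ x ∈ A, ∃ ρ ∈ R, ρ a = x) : A.card ≤ T * ((π a) '' (A : Set (Fin n))).ncard := by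
  classical
  have h1 : ((π a) '' (A : Set (Fin n))).ncard = (A.image (π a)).card := by
    rw [← coe_image, Set.ncard_coe_finset]
  rw [h1, card_eq_sum_card_image (π a) A]
  refine (sum_le_card_nsmul _ _ T ?_).trans (by rw [smul_eq_mul, mul_comm])
  intro w _
  refine (card_le_card ?_).trans (h.fib a w ha)
  intro x hx
  rw [mem_filter] at hx ⊢
  exact ⟨mem_univ _, hA x hx.1, hx.2⟩

/-- **density**: the values `π a (ρ a)` for the rows of a large subset of `sub R τ η` are a positive proportion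
of `U` -/
theorem pop_dense_sub (h : EMOut M n T R S U π) (hn : 0 < n) {τ : Finset N} {a : N} (ha0 : a ≠ 0)
    {η : N → Fin n} (ha : M.rk (insert a τ) = M.rk τ + 1) {S3 : Finset (N → Fin n)} (hS3 : S3 ⊆ sub R τ η) {c : ℕ}
    (hc : n ^ (M.r - M.rk τ) ≤ c * S3.card) :
    Nat.card U ≤ T * c * T * ((fun ρ : N → Fin n => π a (ρ a)) '' (S3 : Set (N → Fin n))).ncard := by
  classical
  have h1 := pop_letters h.exact hn ha hS3 hc
  have h2 := pop_values h ha0 (S3.image (fun ρ => ρ a)) (by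
    intro x hx
    obtain ⟨ρ, hρ, rfl⟩ := mem_image.1 hx
    exact ⟨ρ, (mem_sub.1 (hS3 hρ)).1, rfl⟩)
  have h3 : (π a) '' ((S3.image (fun ρ => ρ a) : Finset (Fin n)) : Set (Fin n)) =
      (fun ρ : N → Fin n => π a (ρ a)) '' (S3 : Set (N → Fin n)) := by
    rw [coe_image, Set.image_image]
  rw [h3] at h2
  rw [Nat.card_eq_fintype_card]
  calc Fintype.card U ≤ T * n := h.cardU
    _ ≤ T * (c * (S3.image (fun ρ => ρ a)).card) := Nat.mul_le_mul_left _ h1
    _ ≤ T * (c * (T * ((fun ρ : N → Fin n => π a (ρ a)) '' (S3 : Set (N → Fin n))).ncard)) := by gcongr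
    _ = _ := by ring

/-- **density** for the whole set of rows -/
theorem pop_dense (h : EMOut M n T R S U π) (hn : 0 < n) {a : N} (ha : a ≠ 0) {S3 : Finset (N → Fin n)}
    (hS3 : S3 ⊆ R) {c : ℕ} (hc : n ^ M.r ≤ c * S3.card) :
    Nat.card U ≤ T * c * T * ((fun ρ : N → Fin n => π a (ρ a)) '' (S3 : Set (N → Fin n))).ncard := by
  classical
  rcases S3.eq_empty_or_nonempty with rfl | ⟨η, hη⟩
  · exfalso
    rw [card_empty, mul_zero] at hc
    have := Nat.pow_pos (n := M.r) hn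
    omega
  refine pop_dense_sub (τ := ∅) h hn (η := η) ha ?_ ?_ ?_
  · have := M.rk_single a ha
    rw [M.rk_empty, zero_add]
    simpa using this
  · intro ρ hρ
    rw [mem_sub]
    exact ⟨hS3 hρ, fun v hv => absurd hv (notMem_empty v)⟩
  · rw [M.rk_empty, Nat.sub_zero]
    exact hc

/-- **popular class**: from rows `S2` with `n ^ r ≤ c * |S2|`, finitely many colours `col i η ∈ VV` and noises
`noi j η ∈ E j` (sets of at most `K` elements) to rows `S3 ⊆ S2` on which all of them are constant; the values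
`π a (η a)`, `η ∈ S3`, stay dense in `U`. -/
theorem pop_class (h : EMOut M n T R S U π) (hn : 0 < n) {S2 : Finset (N → Fin n)} (hS2 : S2 ⊆ R) {c : ℕ}
    (hc : n ^ M.r ≤ c * S2.card) {K k1 k2 : ℕ} {X1 X2 : Type}
    (col : Fin k1 → (N → Fin n) → X1) (VV : Fin k1 → Set X1) (hVf : ∀ i, (VV i).Finite)
    (hV : ∀ i, (VV i).ncard ≤ K) (hcol : ∀ i, ∀ η ∈ S2, col i η ∈ VV i)
    (noi : Fin k2 → (N → Fin n) → X2) (E : Fin k2 → Set X2) (hEf : ∀ j, (E j).Finite)
    (hE : ∀ j, (E j).ncard ≤ K) (hnoi : ∀ j, ∀ η ∈ S2, noi j η ∈ E j) :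
    ∃ S3 ⊆ S2, S3.Nonempty ∧ (∀ i, ∃ v ∈ VV i, ∀ η ∈ S3, col i η = v) ∧
      (∀ j, ∃ e ∈ E j, ∀ η ∈ S3, noi j η = e) ∧
      n ^ M.r ≤ (c * K ^ (k1 + k2)) * S3.card ∧
      ∀ a : N, a ≠ 0 → Nat.card U ≤ T * (c * K ^ (k1 + k2)) * T *
        ((fun ρ : N → Fin n => π a (ρ a)) '' (S3 : Set (N → Fin n))).ncard := by
  classical
  obtain ⟨S1, h1, h2, h3⟩ := pop_rows' col VV hVf hV S2 hcol
  obtain ⟨S3, h4, h5, h6⟩ := pop_rows' noi E hEf hE S1 (fun j η hη => hnoi j η (h1 hη))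
  have hcard : n ^ M.r ≤ (c * K ^ (k1 + k2)) * S3.card := by
    calc n ^ M.r ≤ c * S2.card := hc
      _ ≤ c * (K ^ k1 * (K ^ k2 * S3.card)) := by gcongr; exact h3.trans (Nat.mul_le_mul_left _ h6)
      _ = (c * K ^ (k1 + k2)) * S3.card := by rw [pow_add]; ring
  have hne : S3.Nonempty := by
    rw [nonempty_iff_ne_empty]
    rintro rfl
    rw [card_empty, mul_zero] at hcard
    have := Nat.pow_pos (n := M.r) hn
    omega
  obtain ⟨η0, h0⟩ := hne
  refine ⟨S3, h4.trans h1, ⟨η0, h0⟩, ?_, ?_, hcard, ?_⟩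
  · intro i
    exact ⟨col i η0, hcol i η0 (h1 (h4 h0)), fun η hη => h2 i η (h4 hη) η0 (h4 h0)⟩
  · intro j
    exact ⟨noi j η0, hnoi j η0 (h1 (h4 h0)), fun η hη => h5 j η hη η0 h0⟩
  · intro a ha
    exact pop_dense h hn ha ((h4.trans h1).trans hS2) hcard

/-- the same inside `sub S2 τ η0` (for the slots `D_z`) -/
theorem pop_class_sub (h : EMOut M n T R S U π) (hn : 0 < n) {τ : Finset N} {η0 : N → Fin n}
    {S2 : Finset (N → Fin n)} (hS2 : S2 ⊆ sub R τ η0) {c : ℕ}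
    (hc : n ^ (M.r - M.rk τ) ≤ c * S2.card) {K k1 k2 : ℕ} {X1 X2 : Type}
    (col : Fin k1 → (N → Fin n) → X1) (VV : Fin k1 → Set X1) (hVf : ∀ i, (VV i).Finite)
    (hV : ∀ i, (VV i).ncard ≤ K) (hcol : ∀ i, ∀ η ∈ S2, col i η ∈ VV i)
    (noi : Fin k2 → (N → Fin n) → X2) (E : Fin k2 → Set X2) (hEf : ∀ j, (E j).Finite)
    (hE : ∀ j, (E j).ncard ≤ K) (hnoi : ∀ j, ∀ η ∈ S2, noi j η ∈ E j) :
    ∃ S3 ⊆ S2, S3.Nonempty ∧ (∀ i, ∃ v ∈ VV i, ∀ η ∈ S3, col i η = v) ∧
      (∀ j, ∃ e ∈ E j, ∀ η ∈ S3, noi j η = e) ∧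
      n ^ (M.r - M.rk τ) ≤ (c * K ^ (k1 + k2)) * S3.card ∧
      ∀ a : N, M.rk (insert a τ) = M.rk τ + 1 → Nat.card U ≤ T * (c * K ^ (k1 + k2)) * T *
        ((fun ρ : N → Fin n => π a (ρ a)) '' (S3 : Set (N → Fin n))).ncard := by
  classical
  obtain ⟨S1, h1, h2, h3⟩ := pop_rows' col VV hVf hV S2 hcol
  obtain ⟨S3, h4, h5, h6⟩ := pop_rows' noi E hEf hE S1 (fun j η hη => hnoi j η (h1 hη))
  have hcard : n ^ (M.r - M.rk τ) ≤ (c * K ^ (k1 + k2)) * S3.card := by
    calc n ^ (M.r - M.rk τ) ≤ c * S2.card := hc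
      _ ≤ c * (K ^ k1 * (K ^ k2 * S3.card)) := by gcongr; exact h3.trans (Nat.mul_le_mul_left _ h6)
      _ = (c * K ^ (k1 + k2)) * S3.card := by rw [pow_add]; ring
  have hne : S3.Nonempty := by
    rw [nonempty_iff_ne_empty]
    rintro rfl
    rw [card_empty, mul_zero] at hcard
    have := Nat.pow_pos (n := M.r - M.rk τ) hn
    omega
  obtain ⟨η1, h0⟩ := hne
  refine ⟨S3, h4.trans h1, ⟨η1, h0⟩, ?_, ?_, hcard, ?_⟩
  · intro i
    exact ⟨col i η1, hcol i η1 (h1 (h4 h0)), fun η hη => h2 i η (h4 hη) η1 (h4 h0)⟩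
  · intro j
    exact ⟨noi j η1, hnoi j η1 (h1 (h4 h0)), fun η hη => h5 j η hη η1 h0⟩
  · intro a ha
    refine pop_dense_sub h hn ?_ ha ((h4.trans h1).trans hS2) hcard
    rintro rfl
    have e1 : M.rk (insert 0 τ) ≤ M.rk τ := by
      have e2 := M.rk_submod τ {0}
      rw [M.rk_zero] at e2
      have e3 : τ ∪ {0} = insert 0 τ := by
        ext x
        simp only [mem_union, mem_singleton, mem_insert]
        tauto
      rw [e3] at e2
      omega
    omega

/-- real constants to natural constants -/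
theorem nat_const {κ : ℝ} {c : ℕ} (hκ : 1 ≤ κ * c) {x y : ℕ} (h : κ * (x : ℝ) ≤ (y : ℝ)) : x ≤ c * y := by
  have hc : (0 : ℝ) ≤ (c : ℝ) := Nat.cast_nonneg c
  have h1 : (x : ℝ) ≤ (c : ℝ) * y := by
    calc (x : ℝ) = 1 * x := (one_mul _).symm
      _ ≤ (κ * c) * x := mul_le_mul_of_nonneg_right hκ (Nat.cast_nonneg x)
      _ = c * (κ * x) := by ring
      _ ≤ c * y := mul_le_mul_of_nonneg_left h hc
  exact_mod_cast h1

/-- the size of a joint cleaning in natural numbers -/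
theorem jc_card {TT : Finset (Finset N)} {κ : ℝ} {R' S' : Finset (N → Fin n)} (h : JCOut M TT κ R' S') {c : ℕ}
    (hκ : 1 ≤ κ * c) : n ^ M.r ≤ c * S'.card := by
  refine nat_const hκ ?_
  rw [Nat.cast_pow]
  exact h.2.1

/-- the size of the sub-structures of a joint cleaning in natural numbers -/
theorem jc_sub_card {TT : Finset (Finset N)} {κ : ℝ} {R' S' : Finset (N → Fin n)} (h : JCOut M TT κ R' S') {c : ℕ}
    (hκ : 1 ≤ κ * c) {τ : Finset N} (hτ : τ ∈ TT) {η : N → Fin n} (hη : η ∈ S') :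
    n ^ (M.r - M.rk τ) ≤ c * (sub S' τ η).card := by
  refine nat_const hκ ?_
  rw [Nat.cast_pow]
  exact (h.2.2 τ hτ η hη).1

end dense

end Pool.Agent.MF.PopC
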