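import Pool.Agent.MF.ConcN
import Pool.Agent.MF.Low

/-!
# MF.Roles : the role space of Section 9
-/

open Set Filter

set_option linter.unusedSectionVars false

namespace MFLB

open Pool.Agent.MF (Mat Exact LinPart KillAlg)

section Lev

variable {k G : Type} {r : ℕ} [CommRing k] [IsDomain k] [Group G] [LinearOrder G]
  [MulSemiringAction G k]

/-- generators of level `j` : closed under the labels and under products, one step per level -/
noncomputable def levG (HS : Set G) (CS : Set k) (X : Set (PP k G r)) : ℕ → Set (PP k G r)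
  | 0 => X
  | j + 1 => levG HS CS X j ∪ image2 (fun h u => h • u) HS (levG HS CS X j) ∪
      image2 (fun c u => cc c * u) CS (levG HS CS X j) ∪
      image2 (fun u v => u * v) (levG HS CS X j) (levG HS CS X j)

variable {HS : Set G} {CS : Set k} {X : Set (PP k G r)}

theorem levG_finite (hH : HS.Finite) (hC : CS.Finite) (hX : X.Finite) (j : ℕ) :
    (levG HS CS X j).Finite := by
  induction j with
  | zero => exact hX
  | succ j ih =>
    unfold levG
    exact ((ih.union (hH.image2 _ ih)).union (hC.image2 _ ih)).union (ih.image2 _ ih)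

theorem levG_induction (P : PP k G r → Prop) (h0 : ∀ a ∈ X, P a)
    (h1 : ∀ h ∈ HS, ∀ a, P a → P (h • a)) (h2 : ∀ c ∈ CS, ∀ a, P a → P (cc c * a))
    (h3 : ∀ a b, P a → P b → P (a * b)) (j : ℕ) : ∀ a ∈ levG HS CS X j, P a := by
  induction j with
  | zero => exact h0
  | succ j ih =>
    intro a ha
    unfold levG at ha
    rcases ha with ((ha | ⟨h, hh, u, hu, rfl⟩) | ⟨c, hc, u, hu, rfl⟩) | ⟨u, hu, v, hv, rfl⟩
    · exact ih a ha
    · exact h1 h hh u (ih u hu)
    · exact h2 c hc u (ih u hu)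
    · exact h3 u v (ih u hu) (ih v hv)

/-- the space of level `j` -/
noncomputable def lev (HS : Set G) (CS : Set k) (X : Set (PP k G r)) (j : ℕ) :
    AddSubgroup (PP k G r) := AddSubgroup.closure (levG HS CS X j)

theorem levG_sub (j : ℕ) : levG HS CS X j ⊆ levG HS CS X (j + 1) := by
  intro a ha
  unfold levG
  exact Or.inl (Or.inl (Or.inl ha))

theorem lev_succ {j : ℕ} {a : PP k G r} (ha : a ∈ lev HS CS X j) : a ∈ lev HS CS X (j + 1) :=
  AddSubgroup.closure_mono (levG_sub j) ha

theorem lev_mono {i j : ℕ} (hij : i ≤ j) {a : PP k G r} (ha : a ∈ lev HS CS X i) :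
    a ∈ lev HS CS X j := by
  induction hij with
  | refl => exact ha
  | step _ ih => exact lev_succ ih

theorem lev_base {a : PP k G r} (ha : a ∈ X) (j : ℕ) : a ∈ lev HS CS X j :=
  lev_mono (Nat.zero_le j) (AddSubgroup.subset_closure ha)

theorem lev_smul {h : G} (hh : h ∈ HS) {j : ℕ} {a : PP k G r} (ha : a ∈ lev HS CS X j) :
    h • a ∈ lev HS CS X (j + 1) := by
  unfold lev at ha
  induction ha using AddSubgroup.closure_induction with
  | mem x hx =>
    apply AddSubgroup.subset_closure
    unfold levG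
    exact Or.inl (Or.inl (Or.inr ⟨h, hh, x, hx, rfl⟩))
  | zero =>
    rw [smul_zero]
    exact zero_mem _
  | add x y _ _ hx hy =>
    rw [smul_add]
    exact add_mem hx hy
  | neg x _ hx =>
    rw [smul_neg]
    exact neg_mem hx

theorem lev_cc {c : k} (hc : c ∈ CS) {j : ℕ} {a : PP k G r} (ha : a ∈ lev HS CS X j) :
    cc c * a ∈ lev HS CS X (j + 1) := by
  unfold lev at ha
  induction ha using AddSubgroup.closure_induction with
  | mem x hx =>
    apply AddSubgroup.subset_closure
    unfold levG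
    exact Or.inl (Or.inr ⟨c, hc, x, hx, rfl⟩)
  | zero =>
    rw [mul_zero]
    exact zero_mem _
  | add x y _ _ hx hy =>
    rw [mul_add]
    exact add_mem hx hy
  | neg x _ hx =>
    rw [mul_neg]
    exact neg_mem hx

theorem lev_mul {j : ℕ} {a b : PP k G r} (ha : a ∈ lev HS CS X j) (hb : b ∈ lev HS CS X j) :
    a * b ∈ lev HS CS X (j + 1) := by
  have key : ∀ x ∈ levG HS CS X j, ∀ y ∈ lev HS CS X j, x * y ∈ lev HS CS X (j + 1) := by
    intro x hx y hy
    unfold lev at hy
    induction hy using AddSubgroup.closure_induction with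
    | mem y hy =>
      apply AddSubgroup.subset_closure
      unfold levG
      exact Or.inr ⟨x, hx, y, hy, rfl⟩
    | zero =>
      rw [mul_zero]
      exact zero_mem _
    | add u v _ _ hu hv =>
      rw [mul_add]
      exact add_mem hu hv
    | neg u _ hu =>
      rw [mul_neg]
      exact neg_mem hu
  unfold lev at ha
  induction ha using AddSubgroup.closure_induction with
  | mem x hx => exact key x hx b hb
  | zero =>
    rw [zero_mul]
    exact zero_mem _
  | add u v _ _ hu hv =>
    rw [add_mul]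
    exact add_mem hu hv
  | neg u _ hu =>
    rw [neg_mul]
    exact neg_mem hu

theorem lev_sq {j : ℕ} {a : PP k G r} (ha : a ∈ lev HS CS X j) :
    a ^ 2 ∈ lev HS CS X (j + 1) := by
  rw [pow_two]
  exact lev_mul ha ha

end Lev

section Roles

variable {k G : Type} {m s : ℕ} [CommRing k] [IsDomain k] [Group G] [LinearOrder G]
  [MulSemiringAction G k]

theorem c0_smul {r : ℕ} (h : G) (a : PP k G r) : c0 (h • a) = h • c0 a := by
  have h1 : (c0 : PP k G r →+* k).comp (act h) = (MulSemiringAction.toRingHom G k h).comp c0 := by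
    apply PP_hom_ext
    · intro c
      rw [RingHom.comp_apply, RingHom.comp_apply, act_cc, c0_cc, c0_cc]
      rfl
    · intro i x
      rw [RingHom.comp_apply, RingHom.comp_apply, act_xx, c0_xx, c0_xx, map_zero]
  exact RingHom.congr_fun h1 a

/-- the near variables -/
def nearVars (k G : Type) (m s : ℕ) [CommRing k] [Group G] : Set (PP k G (m + s)) :=
  Set.range (fun i : Fin m => (xx (Fin.castAdd s i) 1 : PP k G (m + s)))

theorem xx_mem_near (i : Fin m) :
    (xx (Fin.castAdd s i) 1 : PP k G (m + s)) ∈ nearVars k G m s := ⟨i, rfl⟩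

/-- the labels: `g`, `t` automorphisms, `θ`, `θ⁻¹`, `ζ` scalars -/
noncomputable def roleSpace (θ θi ζ : k) (g t : G) (m s J : ℕ) : AddSubgroup (PP k G (m + s)) :=
  lev ({g, g⁻¹, t, t⁻¹} : Set G) ({θ, θi, ζ} : Set k) (nearVars k G m s) J

variable [CharP k 2]

theorem near_roles (θ θi ζ : k) (g t : G) (J : ℕ) : Near (roleSpace θ θi ζ g t m s J) := by
  apply near_of_gen
  · exact levG_finite (by simp) (by simp) (Set.finite_range _) J
  · intro a ha j
    refine levG_induction (P := fun a => Free (Fin.natAdd m j) a) ?_ ?_ ?_ ?_ J a ha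
    · rintro _ ⟨i, rfl⟩
      apply Free.xx
      intro h
      have h1 := congrArg Fin.val h
      simp only [Fin.val_castAdd, Fin.val_natAdd] at h1
      have := i.isLt
      omega
    · intro h _ a ha
      exact ha.smul h
    · intro c _ a ha
      exact (Free.cc _ c).mul ha
    · intro a b ha hb
      exact ha.mul hb
  · intro a ha
    refine levG_induction (P := fun a => c0 a = 0) ?_ ?_ ?_ ?_ J a ha
    · rintro _ ⟨i, rfl⟩
      exact c0_xx _ _
    · intro h _ a ha
      rw [c0_smul, ha, smul_zero]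
    · intro c _ a ha
      rw [map_mul, ha, mul_zero]
    · intro a b ha hb
      rw [map_mul, ha, zero_mul]

theorem lf_mem_lev (HS : Set G) (CS : Set k) (c : Fin m → ZMod 2) (j : ℕ) :
    (lf (Fin.castAdd s) c : PP k G (m + s)) ∈ lev HS CS (nearVars k G m s) j := by
  unfold lf
  apply sum_mem
  intro i _
  have hc : ∀ z : ZMod 2, z = 0 ∨ z = 1 := by decide
  rcases hc (c i) with h | h
  · rw [h, map_zero, map_zero, zero_mul]
    exact zero_mem _
  · rw [h, map_one, map_one, one_mul]
    exact lev_base (xx_mem_near i) j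

theorem lf_mem_roles (θ θi ζ : k) (g t : G) (J : ℕ) (c : Fin m → ZMod 2) :
    (lf (Fin.castAdd s) c : PP k G (m + s)) ∈ roleSpace θ θi ζ g t m s J :=
  lf_mem_lev _ _ c J

/-- every variable is a role -/
theorem roles_hx (N0 : AddSubgroup (PP k G (m + s)))
    (hL : ∀ i : Fin m, (xx (Fin.castAdd s i) 1 : PP k G (m + s)) ∈ N0) (i : Fin (m + s)) :
    ∃ v : N0 × (Fin s → ZMod 2), iotaN N0 v = xx i 1 := by
  refine Fin.addCases (motive := fun i => ∃ v : N0 × (Fin s → ZMod 2), iotaN N0 v = xx i 1)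
    ?_ ?_ i
  · intro j
    refine ⟨(⟨xx (Fin.castAdd s j) 1, hL j⟩, 0), ?_⟩
    rw [iotaN_near]
  · intro j
    refine ⟨(0, Pi.single j 1), ?_⟩
    rw [iotaN_apply]
    have h1 : (lf (Fin.natAdd m) (Pi.single j 1) : PP k G (m + s)) = xx (Fin.natAdd m j) 1 := by
      unfold lf
      rw [Finset.sum_eq_single j]
      · rw [Pi.single_eq_same, map_one, map_one, one_mul]
      · intro l _ hl
        rw [Pi.single_eq_of_ne hl, map_zero, map_zero, zero_mul]
      · intro h
        exact absurd (Finset.mem_univ j) h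
    rw [h1]
    show ((0 : N0) : PP k G (m + s)) + xx (Fin.natAdd m j) 1 = xx (Fin.natAdd m j) 1
    rw [ZeroMemClass.coe_zero, zero_add]

/-- `x_i` as a role of `roleSpace` -/
theorem xx_mem_roles (θ θi ζ : k) (g t : G) (J : ℕ) (i : Fin m) :
    (xx (Fin.castAdd s i) 1 : PP k G (m + s)) ∈ roleSpace θ θi ζ g t m s J :=
  lev_base (xx_mem_near i) J

/-- the algebra of Section 8 in the role space -/
theorem killAlg_roles (hG : LeftInv G) (F : ℕ → Finset G) (hF : Folner F) (θ θi ζ : k) (g t : G)
    (J : ℕ) (hJ : 1 ≤ J) [Fintype (roleSpace θ θi ζ g t m s J)]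
    [DecidableEq (roleSpace θ θi ζ g t m s J)] (hm : 10 ≤ m) (i0 i1 : Fin m) (h01 : i0 ≠ i1) :
    KillAlg (matN hG F hF (roleSpace θ θi ζ g t m s J) (near_roles θ θi ζ g t J)).near
      (LinN (roleSpace θ θi ζ g t m s J))
      (⟨xx (Fin.castAdd s i0) 1, xx_mem_roles θ θi ζ g t J i0⟩)
      (⟨xx (Fin.castAdd s i1) 1, xx_mem_roles θ θi ζ g t J i1⟩)
      (toN (roleSpace θ θi ζ g t m s J) (fun x => xx (Fin.castAdd s i0) 1 * x))
      (toN (roleSpace θ θi ζ g t m s J) (fun x => xx (Fin.castAdd s i1) 1 * x))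
      (toN (roleSpace θ θi ζ g t m s J) (fun x => x ^ 2)) := by
  obtain ⟨J', rfl⟩ : ∃ J', J = J' + 1 := ⟨J - 1, by omega⟩
  refine killAlg_near hG F hF _ (near_roles θ θi ζ g t (J' + 1)) hm
    (fun c => lf_mem_roles θ θi ζ g t (J' + 1) c) i0 i1 h01 _ _ rfl rfl ?_ ?_ ?_
  · intro c
    exact lev_mul (lev_base (xx_mem_near i0) J') (lf_mem_lev _ _ c J')
  · intro c
    exact lev_mul (lev_base (xx_mem_near i1) J') (lf_mem_lev _ _ c J')
  · intro c
    exact lev_sq (lf_mem_lev _ _ c J')

end Roles

end MFLB
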