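import Pool.Agent.MF.SlotDefs
import Pool.Agent.helper16.MF.S7In

set_option autoImplicit false

/-!
# MP_141f81: the sub-structures are slots

`cov_words`: few words of `m + 1` letters of a sub-structure are pairwise not relators apart (from `words_le`).
`slot_of`: the letters and relators of a sub-structure form a `Slot`.
-/

namespace Pool.Agent.MF

open Finset
open Pool.Agent.helper35.MF (Ball ball_add wd sy)
open Pool.Agent.helper16.MF (C7 Slot)

section

variable {V : Type} [AddCommGroup V] [Fintype V] [DecidableEq V] {n : ℕ}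

/-- every list of at most `m` roles of `L` outside `cl τ` has a start -/
def RichL (M : Mat V) (τ L : Finset V) (m : ℕ) : Prop :=
  ∀ vs : List V, vs.length ≤ m → (∀ v ∈ vs, v ∈ L ∧ ¬ M.InCl τ v) → ∃ a, Pth (IndL M τ L) a vs

theorem RichL.mono {M : Mat V} {τ L : Finset V} {m m' : ℕ} (h : RichL M τ L m) (hm : m' ≤ m) : RichL M τ L m' :=
  fun vs h1 h2 => h vs (h1.trans hm) h2

/-- the constant of `cov_words` for words of `m + 1` letters -/
noncomputable def covK (κ : ℝ) (v m : ℕ) : ℕ := v ^ (m + 1) * ⌈(κ ^ (2 * m + 1))⁻¹⌉₊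

theorem cov_words {M : Mat V} {τ L : Finset V} {R S : Finset (V → Fin n)} {κ : ℝ}
    (h : ImData (IndL M τ L) R S lt (Lines M τ L R) κ) (hκ : 0 < κ) {m : ℕ} (hm : m ≤ 7)
    (hrich : RichL M τ L (m + 1)) (W : Finset (G V n))
    (hW : ∀ w ∈ W, ∃ l : List (V × Fin n), l.length = m + 1 ∧ (∀ x ∈ l, x ∈ PL M τ L S) ∧ wd l = w)
    (hsep : ∀ w ∈ W, ∀ w' ∈ W, w ≠ w' → w + w' ∉ Ball (Tt M τ L R S) 1) :
    W.card ≤ covK κ (Fintype.card V) m * n := by
  classical
  choose! f hf1 hf2 hf3 using hW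
  set RL : Finset (List V) := (univ : Finset (List.Vector V (m + 1))).image List.Vector.toList with hRL
  have hRLc : RL.card ≤ Fintype.card V ^ (m + 1) := by
    refine card_image_le.trans ?_
    rw [card_univ, card_vector]
  have hmaps : ∀ w ∈ W, (f w).map Prod.fst ∈ RL := by
    intro w hw
    rw [hRL, mem_image]
    exact ⟨⟨(f w).map Prod.fst, by rw [List.length_map, hf1 w hw]⟩, mem_univ _, rfl⟩
  have hfib : ∀ vs ∈ RL, (W.filter fun w => (f w).map Prod.fst = vs).card ≤ ⌈(κ ^ (2 * m + 1))⁻¹⌉₊ * n := by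
    intro vs hvs
    rw [hRL, mem_image] at hvs
    obtain ⟨⟨vs, hlen⟩, _, rfl⟩ := hvs
    simp only [List.Vector.toList]
    rcases (W.filter fun w => (f w).map Prod.fst = vs).eq_empty_or_nonempty with h0 | ⟨w0, hw0⟩
    · rw [h0]
      exact Nat.zero_le _
    rw [mem_filter] at hw0
    rcases vs with _ | ⟨v, vs⟩
    · simp at hlen
    have hlen' : vs.length = m := by simpa using hlen
    obtain ⟨a, ha⟩ := hrich (v :: vs) (le_of_eq hlen) (by
      intro x hx
      rw [← hw0.2] at hx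
      obtain ⟨p, hp, rfl⟩ := List.mem_map.1 hx
      have := hf2 w0 hw0.1 p hp
      rw [mem_PL] at this
      exact ⟨this.1, this.2.1⟩)
    have hinj : Set.InjOn f (W.filter fun w => (f w).map Prod.fst = v :: vs) := by
      intro w hw w' hw' hww
      rw [mem_coe, mem_filter] at hw hw'
      rw [← hf3 w hw.1, ← hf3 w' hw'.1, hww]
    have h1 := words_le h hκ.le a v vs ha ((W.filter fun w => (f w).map Prod.fst = v :: vs).image f) (by
      intro l hl
      rw [mem_image] at hl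
      obtain ⟨w, hw, rfl⟩ := hl
      rw [mem_filter] at hw
      refine ⟨hw.2, fun x hx => ?_⟩
      have := hf2 w hw.1 x hx
      rw [mem_PL] at this
      exact this.2.2) (by
      intro l hl l' hl' hne hb
      rw [mem_image] at hl hl'
      obtain ⟨w, hw, rfl⟩ := hl
      obtain ⟨w', hw', rfl⟩ := hl'
      rw [mem_filter] at hw hw'
      refine hsep w hw.1 w' hw'.1 (fun hh => hne (by rw [hh])) ?_
      have h2 : wd (f w ++ f w') = w + w' := by
        rw [wd, List.map_append, List.sum_append]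
        show wd (f w) + wd (f w') = w + w'
        rw [hf3 w hw.1, hf3 w' hw'.1]
      rw [← h2]
      refine Pool.Agent.helper35.MF.Ball.one (wd_Tt ?_ ?_ (r := 10 * (vs.length + 1) - 8) (by omega) ?_)
      · rw [List.length_append, hf1 w hw.1, hf1 w' hw'.1]
        omega
      · intro x hx
        rcases List.mem_append.1 hx with hx | hx
        · exact hf2 w hw.1 x hx
        · exact hf2 w' hw'.1 x hx
      · rw [h2, ← hf3 w hw.1, ← hf3 w' hw'.1]
        exact hb)
    rw [card_image_of_injOn hinj, hlen'] at h1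
    have hk : 0 < κ ^ (2 * m + 1) := by positivity
    have h2 : ((W.filter fun w => (f w).map Prod.fst = v :: vs).card : ℝ) ≤ (κ ^ (2 * m + 1))⁻¹ * n := by
      rw [inv_mul_eq_div, le_div_iff₀ hk, mul_comm]
      exact h1
    have h3 : (κ ^ (2 * m + 1))⁻¹ * n ≤ (⌈(κ ^ (2 * m + 1))⁻¹⌉₊ : ℝ) * n :=
      mul_le_mul_of_nonneg_right (Nat.le_ceil _) (Nat.cast_nonneg _)
    exact_mod_cast h2.trans h3
  rw [card_eq_sum_card_fiberwise hmaps]
  calc ∑ vs ∈ RL, (W.filter fun w => (f w).map Prod.fst = vs).card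
      ≤ ∑ _vs ∈ RL, ⌈(κ ^ (2 * m + 1))⁻¹⌉₊ * n := sum_le_sum hfib
    _ = RL.card * (⌈(κ ^ (2 * m + 1))⁻¹⌉₊ * n) := by rw [sum_const, smul_eq_mul]
    _ ≤ Fintype.card V ^ (m + 1) * (⌈(κ ^ (2 * m + 1))⁻¹⌉₊ * n) := Nat.mul_le_mul_right _ hRLc
    _ = covK κ (Fintype.card V) m * n := by rw [covK]; ring

/-- a positive proportion of letters -/
theorem PL_big {M : Mat V} {τ L : Finset V} {R S : Finset (V → Fin n)} {κ : ℝ}
    (h : ImData (IndL M τ L) R S lt (Lines M τ L R) κ) (hκ : 0 < κ) (hS : S.Nonempty)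
    (hne : ∃ u v, IndL M τ L u v) {a : ℕ} (ha : κ⁻¹ ≤ a) : n ≤ (PL M τ L S).card * a := by
  classical
  obtain ⟨v, u, hi⟩ := hne
  obtain ⟨ρ, hρ⟩ := hS
  have h1 := h.spoke v u hi ρ hρ
  have hcl : ¬ M.InCl τ u := by
    intro hc
    have h2 := hi.1
    unfold Mat.Ind at h2
    unfold Mat.InCl at hc
    have h3 := M.rk_insert_le v (insert u τ)
    omega
  have h2 : (((univ : Finset (Fin n)).filter fun z => ∃ ρ' ∈ S, ρ' v = ρ v ∧ ρ' u = z).image
      fun z => ((u, z) : V × Fin n)) ⊆ PL M τ L S := by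
    intro p hp
    rw [mem_image] at hp
    obtain ⟨z, hz, rfl⟩ := hp
    rw [mem_filter] at hz
    obtain ⟨_, ρ', hρ', _, h3⟩ := hz
    rw [mem_PL]
    exact ⟨hi.2.2.1, hcl, ρ', hρ', h3⟩
  have h3 := card_le_card h2
  rw [card_image_of_injective _ (fun z z' hz => (Prod.ext_iff.1 hz).2)] at h3
  have h4 : κ * (n : ℝ) ≤ ((PL M τ L S).card : ℝ) := h1.trans (by exact_mod_cast h3)
  have h5 : (n : ℝ) ≤ ((PL M τ L S).card : ℝ) * a := by
    calc (n : ℝ) = κ⁻¹ * (κ * n) := by field_simp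
      _ ≤ κ⁻¹ * ((PL M τ L S).card : ℝ) := mul_le_mul_of_nonneg_left h4 (by positivity)
      _ ≤ a * ((PL M τ L S).card : ℝ) := mul_le_mul_of_nonneg_right ha (Nat.cast_nonneg _)
      _ = _ := mul_comm _ _
  exact_mod_cast h5

/-- the lines of a sub-structure -/
theorem imData_lines {M : Mat V} {TT : Finset (Finset V)} {κ : ℝ} {R S : Finset (V → Fin n)} (hn : 0 < n)
    (hE : Exact M R) (hcard : ∀ (τ : Finset V) (η : V → Fin n), (sub R τ η).card ≤ n ^ (M.r - M.rk τ))
    (hJ : JCOut M TT κ R S) {τ : Finset V} (hτ : τ ∈ TT) {η : V → Fin n} (hη : η ∈ S) (L : Finset V)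
    (hTT : ∀ v ∈ L, ¬ M.InCl τ v → insert v τ ∈ TT) :
    ImData (IndL M τ L) (sub R τ η) (sub S τ η) lt (Lines M τ L (sub R τ η)) κ := by
  refine imData_of hn hE hcard hJ hτ hη L hTT ?_ ?_
  · intro g
    ext x
    simp [CharTwo.add_self_eq_zero]
  · intro u v hi ρ hρ
    exact ⟨ρ, hρ, u, hi.2.1, v, hi.2.2.1, hi.2.2.2, hi.1, rfl⟩

/-- **the sub-structures are slots** -/
theorem slot_of {M : Mat V} {TT : Finset (Finset V)} {κ : ℝ} {R S : Finset (V → Fin n)} (hn : 0 < n)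
    (hκ : 0 < κ) (hE : Exact M R)
    (hcard : ∀ (τ : Finset V) (η : V → Fin n), (sub R τ η).card ≤ n ^ (M.r - M.rk τ))
    (hJ : JCOut M TT κ R S) {τ : Finset V} (hτ : τ ∈ TT) {η : V → Fin n} (hη : η ∈ S) (L : Finset V)
    (hTT : ∀ v ∈ L, ¬ M.InCl τ v → insert v τ ∈ TT) (hrich : RichL M τ L 5) (hne : ∃ u v, IndL M τ L u v)
    {k : C7} (hb3 : k.b3 = 1) (hb5 : k.b5 = 1) (ha : κ⁻¹ ≤ k.a) (h3 : covK κ (Fintype.card V) 2 ≤ k.K3)
    (h5 : covK κ (Fintype.card V) 4 ≤ k.K5) :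
    Slot k n (Tt M ∅ univ R S) (Tt M τ L (sub R τ η) (sub S τ η)) (PL M τ L (sub S τ η)) := by
  have hI := imData_lines hn hE hcard hJ hτ hη L hTT
  refine ⟨Tt_mono (empty_subset _) (subset_univ _) (sub_sub _) (sub_sub _), ?_, ?_, ?_⟩
  · refine PL_big hI hκ ⟨η, ?_⟩ hne ha
    rw [sub, mem_filter]
    exact ⟨hη, fun _ _ => rfl⟩
  · intro W hW hsep
    rw [hb3] at hsep
    exact (cov_words hI hκ (by norm_num) (hrich.mono (by norm_num)) W hW hsep).trans (Nat.mul_le_mul_right _ h3)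
  · intro W hW hsep
    rw [hb5] at hsep
    exact (cov_words hI hκ (by norm_num) (hrich.mono (by norm_num)) W hW hsep).trans (Nat.mul_le_mul_right _ h5)

end

end Pool.Agent.MF
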