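import Pool.Agent.MF.SlotA
import Pool.Agent.MF.MatB

set_option autoImplicit false

/-!
# MP_141f81: the sub-structures of the frame are slots

`richL_of`: `RichL` from the linear part. `slot_frame`: for a type `τ` of rank at most two and an additively closed set of
roles containing the linear part, every sub-structure is a `Slot`.
-/

namespace Pool.Agent.MF

open Finset
open Pool.Agent.helper35.MF (Ball ball_add wd sy)
open Pool.Agent.helper16.MF (C7 Slot)

section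

variable {V : Type} [AddCommGroup V] [Fintype V] [DecidableEq V] {n : ℕ}

omit [Fintype V] [DecidableEq V] in
theorem SB_sum {L : Finset V} (h0 : (0 : V) ∈ L) (hadd : ∀ u ∈ L, ∀ v ∈ L, u + v ∈ L) (vs : List V)
    (h : ∀ v ∈ vs, v ∈ L) : vs.sum ∈ L := by
  induction vs with
  | nil => simpa using h0
  | cons v vs ih =>
    rw [List.sum_cons]
    exact hadd _ (h v List.mem_cons_self) _ (ih fun x hx => h x (List.mem_cons_of_mem _ hx))

theorem richL_of {M : Mat V} {Lin L τ : Finset V} (h : LinPart M Lin) (hτ : M.rk τ ≤ 2) (hL : Lin ⊆ L)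
    (hadd : ∀ u ∈ L, ∀ v ∈ L, u + v ∈ L) : RichL M τ L 127 := by
  intro vs hlen hvs
  set P : List (V × V) := (List.finRange vs.length).map
    (fun j : Fin vs.length => (((vs.take j.1).sum, vs[j.1]'j.2) : V × V)) with hP
  have hPl : P.length ≤ 127 := by
    rw [hP, List.length_map, List.length_finRange]
    exact hlen
  have hPv : ∀ p ∈ P, ¬ M.InCl τ p.2 := by
    intro p hp
    rw [hP, List.mem_map] at hp
    obtain ⟨j, _, rfl⟩ := hp
    exact (hvs _ (List.getElem_mem _)).2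
  obtain ⟨a, ha, h1⟩ := h.rich_list hτ P hPl hPv
  have h0 : (0 : V) ∈ L := hL h.zero
  refine ⟨a, ?_⟩
  rw [Pth_iff]
  intro j hj
  have h2 := h1 ((vs.take j).sum, vs[j]) (by
    rw [hP, List.mem_map]
    exact ⟨⟨j, hj⟩, List.mem_finRange _, rfl⟩)
  have h3 : a + (vs.take j).sum ∈ L :=
    hadd _ (hL ha) _ (SB_sum h0 hadd _ fun v hv => (hvs v (List.mem_of_mem_take hv)).1)
  have h4 : vs[j] ∈ L := (hvs _ (List.getElem_mem _)).1
  exact ⟨h2, h3, h4, hadd _ h3 _ h4⟩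

theorem indL_of {M : Mat V} {Lin L τ : Finset V} (h : LinPart M Lin) (hτ : M.rk τ ≤ 2) (hL : Lin ⊆ L)
    (hadd : ∀ u ∈ L, ∀ v ∈ L, u + v ∈ L) : ∃ u v, IndL M τ L u v := by
  obtain ⟨v, hv, -, h1⟩ := h.exists_not_inCl ({()} : Finset Unit) (fun _ => τ) (fun _ => 0)
    (fun _ _ => by omega) ∅ (by simp)
  have h2 : ¬ M.InCl τ v := by simpa using h1 () (by simp)
  obtain ⟨a, ha⟩ := richL_of h hτ hL hadd [v] (by simp) (by
    intro x hx
    rw [List.mem_singleton] at hx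
    rw [hx]
    exact ⟨hL hv, h2⟩)
  exact ⟨a, v, ha.1⟩

/-- words of a sub-structure of the frame: `ImData` with all hypotheses discharged (`TT = univ`) -/
theorem imData_frame {M : Mat V} {κ : ℝ} {R S : Finset (V → Fin n)} (hn : 0 < n) (hE : Exact M R)
    (hJ : JCOut M univ κ R S) (τ L : Finset V) {η : V → Fin n} (hη : η ∈ S) :
    ImData (IndL M τ L) (sub R τ η) (sub S τ η) lt (Lines M τ L (sub R τ η)) κ :=
  imData_lines hn hE (card_sub_le hE) hJ (mem_univ _) hη L (fun _ _ _ => mem_univ _)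

/-- words of the whole structure -/
theorem imData_top {M : Mat V} {κ : ℝ} {R S : Finset (V → Fin n)} (hn : 0 < n) (hE : Exact M R)
    (hJ : JCOut M univ κ R S) (L : Finset V) (hS : S.Nonempty) :
    ImData (IndL M ∅ L) R S lt (Lines M ∅ L R) κ := by
  obtain ⟨η, hη⟩ := hS
  have h := imData_frame hn hE hJ ∅ L hη
  have e1 : ∀ Q : Finset (V → Fin n), sub Q ∅ η = Q := by
    intro Q
    rw [sub, filter_true_of_mem]
    intro ρ _ x hx
    simp at hx
  rw [e1, e1] at h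
  exact h

/-- **every sub-structure of the frame is a slot** -/
theorem slot_frame {M : Mat V} {κ : ℝ} {R S : Finset (V → Fin n)} (hn : 0 < n) (hκ : 0 < κ) (hE : Exact M R)
    (hJ : JCOut M univ κ R S) {Lin L τ : Finset V} (hLin : LinPart M Lin) (hτ : M.rk τ ≤ 2) (hL : Lin ⊆ L)
    (hadd : ∀ u ∈ L, ∀ v ∈ L, u + v ∈ L) {η : V → Fin n} (hη : η ∈ S)
    {k : C7} (hb3 : k.b3 = 1) (hb5 : k.b5 = 1) (ha : κ⁻¹ ≤ k.a) (h3 : covK κ (Fintype.card V) 2 ≤ k.K3)
    (h5 : covK κ (Fintype.card V) 4 ≤ k.K5) :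
    Slot k n (Tt M ∅ univ R S) (Tt M τ L (sub R τ η) (sub S τ η)) (PL M τ L (sub S τ η)) :=
  slot_of hn hκ hE (card_sub_le hE) hJ (mem_univ _) hη L (fun _ _ _ => mem_univ _)
    ((richL_of hLin hτ hL hadd).mono (by norm_num)) (indL_of hLin hτ hL hadd) hb3 hb5 ha h3 h5

/-- the slot of all rows -/
theorem slot_top {M : Mat V} {κ : ℝ} {R S : Finset (V → Fin n)} (hn : 0 < n) (hκ : 0 < κ) (hE : Exact M R)
    (hJ : JCOut M univ κ R S) {Lin L : Finset V} (hLin : LinPart M Lin) (hL : Lin ⊆ L)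
    (hadd : ∀ u ∈ L, ∀ v ∈ L, u + v ∈ L) (hS : S.Nonempty)
    {k : C7} (hb3 : k.b3 = 1) (hb5 : k.b5 = 1) (ha : κ⁻¹ ≤ k.a) (h3 : covK κ (Fintype.card V) 2 ≤ k.K3)
    (h5 : covK κ (Fintype.card V) 4 ≤ k.K5) :
    Slot k n (Tt M ∅ univ R S) (Tt M ∅ L R S) (PL M ∅ L S) := by
  obtain ⟨η, hη⟩ := hS
  have h := slot_frame hn hκ hE hJ hLin (by rw [M.rk_empty]; exact Nat.zero_le _) hL hadd hη hb3 hb5 ha h3 h5
  have e1 : ∀ Q : Finset (V → Fin n), sub Q ∅ η = Q := by
    intro Q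
    rw [sub, filter_true_of_mem]
    intro ρ _ x hx
    simp at hx
  rw [e1, e1] at h
  exact h

end

end Pool.Agent.MF
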