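import Pool.Agent.MF.N4

set_option autoImplicit false

/-!
# MP_141f81: letters and relators of a sub-structure

`PL M τ L S` are the letters of the rows `S` with roles in `L` outside `cl τ`; `Tt M τ L R S` are the words of at most
`17` such letters which are sums of at most `82` lines of `R` (with `R`, `S` the rows of the sub-structure).
-/

namespace Pool.Agent.MF

open Finset
open Pool.Agent.helper35.MF (Ball ball_add wd sy)

section

variable {V : Type} [AddCommGroup V] [Fintype V] [DecidableEq V] {n : ℕ}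

open Classical in
/-- the letters of the rows `S` with roles in `L` outside `cl τ` -/
noncomputable def PL (M : Mat V) (τ L : Finset V) (S : Finset (V → Fin n)) : Finset (V × Fin n) :=
  univ.filter fun p => p.1 ∈ L ∧ ¬ M.InCl τ p.1 ∧ ∃ ρ ∈ S, ρ p.1 = p.2

theorem mem_PL {M : Mat V} {τ L : Finset V} {S : Finset (V → Fin n)} {p : V × Fin n} :
    p ∈ PL M τ L S ↔ p.1 ∈ L ∧ ¬ M.InCl τ p.1 ∧ ∃ ρ ∈ S, ρ p.1 = p.2 := by
  simp [PL]

/-- the relators of a sub-structure: words of at most `17` letters of `S` which are sums of at most `82` lines of `R` -/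
def Tt (M : Mat V) (τ L : Finset V) (R S : Finset (V → Fin n)) : Set (G V n) :=
  {g | (∃ l : List (V × Fin n), l.length ≤ 17 ∧ (∀ x ∈ l, x ∈ PL M τ L S) ∧ wd l = g) ∧ g ∈ Ball (Lines M τ L R) 82}

/-! ### ranks -/

theorem SD_ind {M : Mat V} {τ τ' : Finset V} (h : τ' ⊆ τ) {u v : V} (hi : M.Ind τ u v) : M.Ind τ' u v := by
  unfold Mat.Ind at hi ⊢
  have h1 := M.rk_submod τ (insert u (insert v τ'))
  have h2 : τ' ⊆ τ ∩ insert u (insert v τ') := by
    intro x hx
    simp only [mem_inter, mem_insert]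
    exact ⟨h hx, Or.inr (Or.inr hx)⟩
  have h3 : insert u (insert v τ) ⊆ τ ∪ insert u (insert v τ') := by
    intro x hx
    simp only [mem_union, mem_insert] at hx ⊢
    tauto
  have h4 := M.rk_mono h2
  have h5 := M.rk_mono h3
  have h6 := M.rk_insert_le u (insert v τ')
  have h7 := M.rk_insert_le v τ'
  omega

theorem SD_ncl {M : Mat V} {τ τ' : Finset V} (h : τ' ⊆ τ) {v : V} (hi : ¬ M.InCl τ v) : ¬ M.InCl τ' v := by
  intro hc
  apply hi
  unfold Mat.InCl at hc ⊢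
  have h1 := M.rk_submod τ (insert v τ')
  have h2 : τ' ⊆ τ ∩ insert v τ' := by
    intro x hx
    simp only [mem_inter, mem_insert]
    exact ⟨h hx, Or.inr hx⟩
  have h3 : insert v τ ⊆ τ ∪ insert v τ' := by
    intro x hx
    simp only [mem_union, mem_insert] at hx ⊢
    tauto
  have h4 := M.rk_mono h2
  have h5 := M.rk_mono h3
  have h6 := M.rk_mono (subset_insert v τ)
  omega

theorem SD_zero (M : Mat V) (τ : Finset V) : M.InCl τ 0 := by
  unfold Mat.InCl
  refine le_antisymm ?_ (M.rk_mono (subset_insert _ _))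
  have h1 := M.rk_submod τ {0}
  have h2 : insert 0 τ ⊆ τ ∪ {0} := by
    intro x hx
    simp only [mem_insert] at hx
    simp only [mem_union, mem_singleton]
    tauto
  have h3 := M.rk_mono h2
  have h4 := M.rk_zero
  omega

theorem SD_ne {M : Mat V} {τ : Finset V} {v : V} (h : ¬ M.InCl τ v) : v ≠ 0 := by
  rintro rfl
  exact h (SD_zero M τ)

theorem SD_empty {M : Mat V} {v : V} : ¬ M.InCl ∅ v ↔ v ≠ 0 := by
  refine ⟨SD_ne, ?_⟩
  intro h hc
  unfold Mat.InCl at hc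
  have h1 := M.rk_single v h
  have h2 := M.rk_empty
  rw [show (insert v ∅ : Finset V) = {v} from rfl] at hc
  omega

theorem SD_rk {M : Mat V} {τ : Finset V} {v : V} (h : ¬ M.InCl τ v) : M.rk (insert v τ) = M.rk τ + 1 := by
  unfold Mat.InCl at h
  have h1 := M.rk_insert_le v τ
  have h2 := M.rk_mono (subset_insert v τ)
  omega

/-! ### monotonicity -/

omit [AddCommGroup V] in
theorem sub_anti {R : Finset (V → Fin n)} {τ τ' : Finset V} (h : τ' ⊆ τ) (η : V → Fin n) :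
    sub R τ η ⊆ sub R τ' η := by
  intro ρ hρ
  rw [sub, mem_filter] at hρ ⊢
  exact ⟨hρ.1, fun x hx => hρ.2 x (h hx)⟩

omit [AddCommGroup V] in
theorem sub_sub {R : Finset (V → Fin n)} {τ : Finset V} (η : V → Fin n) : sub R τ η ⊆ R :=
  filter_subset _ _

theorem PL_mono {M : Mat V} {τ τ' L L' : Finset V} {S S' : Finset (V → Fin n)} (hτ : τ' ⊆ τ) (hL : L ⊆ L')
    (hS : S ⊆ S') : PL M τ L S ⊆ PL M τ' L' S' := by
  intro p hp
  rw [mem_PL] at hp ⊢
  obtain ⟨h1, h2, ρ, hρ, h3⟩ := hp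
  exact ⟨hL h1, SD_ncl hτ h2, ρ, hS hρ, h3⟩

theorem Lines_mono {M : Mat V} {τ τ' L L' : Finset V} {R R' : Finset (V → Fin n)} (hτ : τ' ⊆ τ) (hL : L ⊆ L')
    (hR : R ⊆ R') : Lines M τ L R ⊆ Lines M τ' L' R' := by
  rintro g ⟨ρ, hρ, u, hu, v, hv, huv, hi, rfl⟩
  exact ⟨ρ, hR hρ, u, hL hu, v, hL hv, hL huv, SD_ind hτ hi, rfl⟩

theorem Ball_mono' {H : Type*} [AddCommGroup H] {T T' : Set H} (h : T ⊆ T') (r : ℕ) : Ball T r ⊆ Ball T' r := by
  rintro g ⟨l, h1, h2, h3⟩
  exact ⟨l, h1, fun x hx => h (h2 x hx), h3⟩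

/-- balls of balls -/
theorem Ball_ball {H : Type*} [AddCommGroup H] {T T' : Set H} {c : ℕ} (h : T' ⊆ Ball T c) (r : ℕ) :
    Ball T' r ⊆ Ball T (c * r) := by
  rintro g ⟨l, h1, h2, h3⟩
  induction l generalizing g r with
  | nil =>
    simp only [List.sum_nil] at h3
    rw [← h3]
    exact Pool.Agent.helper35.MF.Ball.zero _ _
  | cons x l ih =>
    simp only [List.length_cons] at h1
    have h4 := ih (r := r - 1) (g := l.sum) (by omega) (fun y hy => h2 y (List.mem_cons_of_mem _ hy)) rfl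
    have h5 := ball_add (h (h2 x List.mem_cons_self)) h4
    rw [List.sum_cons] at h3
    rw [h3] at h5
    refine Pool.Agent.helper35.MF.Ball.mono ?_ h5
    obtain ⟨r, rfl⟩ : ∃ r', r = r' + 1 := ⟨r - 1, by omega⟩
    simp only [Nat.add_sub_cancel]
    ring_nf
    omega

theorem Tt_mono {M : Mat V} {τ τ' L L' : Finset V} {R R' S S' : Finset (V → Fin n)} (hτ : τ' ⊆ τ) (hL : L ⊆ L')
    (hR : R ⊆ R') (hS : S ⊆ S') : Tt M τ L R S ⊆ Tt M τ' L' R' S' := by
  rintro g ⟨⟨l, h1, h2, h3⟩, h4⟩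
  exact ⟨⟨l, h1, fun x hx => PL_mono hτ hL hS (h2 x hx), h3⟩, Ball_mono' (Lines_mono hτ hL hR) _ h4⟩

/-- `Ball (Tt) r` is contained in the ball of radius `82 r` of the lines -/
theorem Tt_ball {M : Mat V} {τ L : Finset V} {R S : Finset (V → Fin n)} (r : ℕ) :
    Ball (Tt M τ L R S) r ⊆ Ball (Lines M τ L R) (82 * r) :=
  Ball_ball (fun _ hg => hg.2) r

/-- the lines of `S` are relators -/
theorem Lines_Tt {M : Mat V} {τ L : Finset V} {R S : Finset (V → Fin n)} (hS : S ⊆ R) :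
    Lines M τ L S ⊆ Tt M τ L R S := by
  rintro g ⟨ρ, hρ, u, hu, v, hv, huv, hi, rfl⟩
  have hl : IndL M τ L u v := ⟨hi, hu, hv, huv⟩
  have ncl : ∀ {x y : V}, M.Ind τ x y → ¬ M.InCl τ x := by
    intro x y hxy hc
    unfold Mat.Ind at hxy
    unfold Mat.InCl at hc
    have h1 := M.rk_insert_le y (insert x τ)
    rw [insert_comm] at h1
    omega
  refine ⟨⟨[(u, ρ u), (v, ρ v), (u + v, ρ (u + v))], by simp, ?_, ?_⟩, ?_⟩
  · intro x hx
    simp only [List.mem_cons, List.not_mem_nil, or_false] at hx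
    rw [mem_PL]
    rcases hx with rfl | rfl | rfl
    · exact ⟨hu, ncl hi, ρ, hρ, rfl⟩
    · exact ⟨hv, ncl hl.symm.1, ρ, hρ, rfl⟩
    · exact ⟨huv, ncl hl.add.symm.1, ρ, hρ, rfl⟩
  · simp only [wd, List.map_cons, List.map_nil, List.sum_cons, List.sum_nil, add_zero, lin, lt, sy]
    rw [add_assoc]
  · exact Pool.Agent.helper35.MF.Ball.mono (by norm_num)
      (Pool.Agent.helper35.MF.Ball.one ⟨ρ, hS hρ, u, hu, v, hv, huv, hi, rfl⟩)

/-- sums of few letters of `S` of small area are relators -/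
theorem wd_Tt {M : Mat V} {τ L : Finset V} {R S : Finset (V → Fin n)} {l : List (V × Fin n)} (h : l.length ≤ 17)
    (hl : ∀ x ∈ l, x ∈ PL M τ L S) {r : ℕ} (hr : r ≤ 82) (hb : wd l ∈ Ball (Lines M τ L R) r) :
    wd l ∈ Tt M τ L R S :=
  ⟨⟨l, h, hl, rfl⟩, Pool.Agent.helper35.MF.Ball.mono hr hb⟩

end

end Pool.Agent.MF
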