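import Pool.Agent.MF.Frame2
import Pool.Agent.helper71.MF7b

set_option autoImplicit false

/-!
# MP_141f81: lemma SUB (helper71)

In the exact finite space `U` the letters of a sub-structure (values of a tuple of additive role maps) generate a
subgroup of size at most `K n`.  Each role has between `n / T²` and `n` values; sums of two letters have few values
(joint cleaning, rows through two independent roles, Ruzsa triangle inequality); then Plünnecke and Ruzsa covering.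
-/

namespace Pool.Agent.MF

open Finset
open scoped Pointwise
open Pool.Agent.helper71.MF7b (span_fin)

namespace SubG

/-- a set of small doubling in a group of exponent two generates a small subgroup -/
theorem closure_card {G' : Type*} [AddCommGroup G'] [DecidableEq G'] (two : ∀ g : G', g + g = 0)
    (A : Finset G') (hA : A.Nonempty) (K : ℕ) (h : (A + A).card ≤ K * A.card) :
    Nat.card (AddSubgroup.closure (A : Set G')) ≤ 2 ^ (K ^ 5 + 1) * (A + A).card := by
  have hneg : ∀ g : G', -g = g := fun g => neg_eq_of_add_eq_zero_left (two g)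
  have hsub : A - A = A + A := by
    ext x
    simp only [Finset.mem_sub, Finset.mem_add]
    constructor
    · rintro ⟨y, hy, z, hz, rfl⟩
      exact ⟨y, hy, z, hz, by rw [sub_eq_add_neg, hneg]⟩
    · rintro ⟨y, hy, z, hz, rfl⟩
      exact ⟨y, hy, z, hz, by rw [sub_eq_add_neg, hneg]⟩
  have hApos : 0 < A.card := hA.card_pos
  -- Plünnecke
  have h5 : (5 • A).card ≤ K ^ 5 * A.card := by
    have h1 := pluennecke_ruzsa_inequality_nsmul_add hA A 5
    have h2 : ((A + A).card / A.card : ℚ≥0) ≤ K := by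
      rw [div_le_iff₀ (by exact_mod_cast hApos)]
      exact_mod_cast h
    have h3 : ((5 • A).card : ℚ≥0) ≤ (K : ℚ≥0) ^ 5 * A.card :=
      h1.trans (mul_le_mul_left (pow_le_pow_left₀ (by positivity) h2 5) _)
    exact_mod_cast h3
  have h4A : ((4 • A + A).card : ℝ) ≤ ((K ^ 5 : ℕ) : ℝ) * (A.card : ℝ) := by
    have h1 : 4 • A + A = 5 • A := by
      rw [← succ_nsmul]
    rw [h1]
    exact_mod_cast h5
  obtain ⟨F, hF4, hFc, hcov⟩ := ruzsa_covering_add hA h4A
  have hFc' : F.card ≤ K ^ 5 := by exact_mod_cast hFc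
  obtain ⟨a0, ha0⟩ := hA
  obtain ⟨S, hSc, hS0, hFS, hSadd, -⟩ := span_fin two (insert a0 F)
  have h4 : ∀ a ∈ A, ∀ b ∈ A, ∀ c ∈ A, ∀ d ∈ A, ∃ f ∈ S, ∃ x ∈ A, ∃ y ∈ A, a + b + (c + d) = x + y + f := by
    intro a ha b hb c hc d hd
    have h1 : a + b + (c + d) ∈ 4 • A := by
      have h2 : 4 • A = (A + A) + (A + A) := by
        rw [← two_nsmul, ← two_nsmul, ← mul_nsmul]
      rw [h2]
      exact add_mem_add (add_mem_add ha hb) (add_mem_add hc hd)
    have h2 := hcov h1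
    rw [hsub] at h2
    obtain ⟨f, hf, xy, hxy, h3⟩ := Finset.mem_add.mp h2
    obtain ⟨x, hx, y, hy, h4⟩ := Finset.mem_add.mp hxy
    refine ⟨f, hFS f (Finset.mem_insert_of_mem hf), x, hx, y, hy, ?_⟩
    rw [← h3, ← h4]
    abel
  let D : Finset G' := (A + A) + S
  have hD0 : (0 : G') ∈ D := by
    have h1 : a0 + a0 + 0 ∈ D := add_mem_add (add_mem_add ha0 ha0) hS0
    rwa [two, add_zero] at h1
  have hDadd : ∀ x ∈ D, ∀ y ∈ D, x + y ∈ D := by
    intro x hx y hy
    obtain ⟨ab, hab, s, hs, rfl⟩ := Finset.mem_add.mp hx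
    obtain ⟨a, ha, b, hb, rfl⟩ := Finset.mem_add.mp hab
    obtain ⟨cd, hcd, s', hs', rfl⟩ := Finset.mem_add.mp hy
    obtain ⟨c, hc, d, hd, rfl⟩ := Finset.mem_add.mp hcd
    obtain ⟨f, hf, x, hx, y, hy, h1⟩ := h4 a ha b hb c hc d hd
    have h2 : a + b + s + (c + d + s') = x + y + (f + (s + s')) := by
      have h3 : a + b + s + (c + d + s') = a + b + (c + d) + (s + s') := by abel
      rw [h3, h1]
      abel
    rw [h2]
    exact add_mem_add (add_mem_add hx hy) (hSadd f hf _ (hSadd s hs s' hs'))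
  let H : AddSubgroup G' :=
    { carrier := (D : Set G')
      zero_mem' := hD0
      add_mem' := fun {x y} hx hy => hDadd x hx y hy
      neg_mem' := fun {x} hx => by
        show -x ∈ (D : Set G')
        rw [hneg]
        exact hx }
  have hle : AddSubgroup.closure (A : Set G') ≤ H := by
    rw [AddSubgroup.closure_le]
    intro a ha
    show a ∈ (D : Set G')
    have h1 : a0 + a + a0 ∈ D := add_mem_add (add_mem_add ha0 ha) (hFS a0 (Finset.mem_insert_self _ _))
    have h2 : a0 + a + a0 = a + (a0 + a0) := by abel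
    rw [h2, two, add_zero] at h1
    exact h1
  have hfin : Finite H := (D.finite_toSet : ((D : Set G')).Finite)
  have h1 : Nat.card (AddSubgroup.closure (A : Set G')) ≤ Nat.card H :=
    AddSubgroup.card_le_of_le hle
  have h2 : Nat.card H = D.card := by
    show Nat.card (D : Set G') = D.card
    rw [Nat.card_coe_set_eq, Set.ncard_coe_finset]
  have h3 : D.card ≤ (A + A).card * S.card := card_add_le
  have h6 : S.card ≤ 2 ^ (K ^ 5 + 1) :=
    hSc.trans (Nat.pow_le_pow_right (by norm_num) ((Finset.card_insert_le _ _).trans (Nat.succ_le_succ hFc')))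
  calc Nat.card (AddSubgroup.closure (A : Set G')) ≤ D.card := h1.trans h2.le
    _ ≤ (A + A).card * S.card := h3
    _ ≤ (A + A).card * 2 ^ (K ^ 5 + 1) := Nat.mul_le_mul_left _ h6
    _ = _ := mul_comm _ _

/-- double counting -/
theorem count_sums {G' γ : Type*} [AddCommGroup G'] [DecidableEq G'] (Sg : Finset G') (C : Finset γ)
    (g : γ → G') (Q : Finset G') (m k : ℕ) (h : ∀ s ∈ Sg, m ≤ k * (C.filter fun c => g c + s ∈ Q).card) :
    Sg.card * m ≤ k * (C.card * Q.card) := by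
  have h1 : ∑ s ∈ Sg, (C.filter fun c => g c + s ∈ Q).card = ∑ c ∈ C, (Sg.filter fun s => g c + s ∈ Q).card :=
    Finset.sum_card_bipartiteAbove_eq_sum_card_bipartiteBelow (fun s c => g c + s ∈ Q)
  have h2 : ∑ c ∈ C, (Sg.filter fun s => g c + s ∈ Q).card ≤ C.card * Q.card := by
    calc ∑ c ∈ C, (Sg.filter fun s => g c + s ∈ Q).card ≤ ∑ _c ∈ C, Q.card := by
          refine Finset.sum_le_sum fun c _ => ?_
          refine Finset.card_le_card_of_injOn (fun s => g c + s) (fun s hs => ?_) (fun s _ s' _ hss => ?_)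
          · exact (Finset.mem_filter.mp hs).2
          · exact add_left_cancel hss
      _ = C.card * Q.card := by rw [Finset.sum_const, smul_eq_mul]
  calc Sg.card * m = ∑ _s ∈ Sg, m := by rw [Finset.sum_const, smul_eq_mul]
    _ ≤ ∑ s ∈ Sg, k * (C.filter fun c => g c + s ∈ Q).card := Finset.sum_le_sum h
    _ = k * ∑ s ∈ Sg, (C.filter fun c => g c + s ∈ Q).card := by rw [Finset.mul_sum]
    _ ≤ k * (C.card * Q.card) := Nat.mul_le_mul_left _ (h1.le.trans h2)

/-! ### the matroid -/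

section

variable {V : Type} [AddCommGroup V] [Fintype V] [DecidableEq V] (M : Mat V)

theorem SubG_le (v : V) (A : Finset V) : M.rk A ≤ M.rk (insert v A) := M.rk_mono (Finset.subset_insert v A)

theorem SubG_not {v : V} {A : Finset V} (h : ¬ M.InCl A v) : M.rk (insert v A) = M.rk A + 1 := by
  have h1 := M.rk_insert_le v A
  have h2 := SubG_le M v A
  have h3 : M.rk (insert v A) ≠ M.rk A := h
  omega

theorem SubG_mono {A B : Finset V} (h : A ⊆ B) {v : V} (hv : M.InCl A v) : M.InCl B v := by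
  have h1 := M.rk_submod B (insert v A)
  have h2 : B ∪ insert v A = insert v B := by
    ext x
    simp only [Finset.mem_union, Finset.mem_insert]
    constructor
    · rintro (h3 | h3 | h3)
      · exact Or.inr h3
      · exact Or.inl h3
      · exact Or.inr (h h3)
    · rintro (h3 | h3)
      · exact Or.inr (Or.inl h3)
      · exact Or.inl h3
  have h3 : M.rk A ≤ M.rk (B ∩ insert v A) :=
    M.rk_mono (fun x hx => Finset.mem_inter.mpr ⟨h hx, Finset.mem_insert_of_mem hx⟩)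
  have h4 : M.rk (insert v A) = M.rk A := hv
  have h5 := SubG_le M v B
  rw [h2] at h1
  show M.rk (insert v B) = M.rk B
  omega

theorem SubG_zero (τ : Finset V) : M.InCl τ 0 := by
  refine SubG_mono M (Finset.empty_subset τ) ?_
  show M.rk (insert 0 ∅) = M.rk ∅
  rw [M.rk_empty]
  exact M.rk_zero

theorem SubG_univ {τ : Finset V} (h : ∀ v, M.InCl τ v) : M.r = M.rk τ := by
  have h1 : ∀ A : Finset V, M.rk (A ∪ τ) = M.rk τ := by
    intro A
    induction A using Finset.induction_on with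
    | empty => rw [Finset.empty_union]
    | insert v A _ ih =>
      rw [Finset.insert_union, ← ih]
      exact SubG_mono M Finset.subset_union_right (h v)
  have h2 := h1 Finset.univ
  rw [Finset.union_eq_left.mpr (Finset.subset_univ τ)] at h2
  exact h2

/-- the number of rows of a sub-structure -/
theorem SubG_card {n : ℕ} {R : Finset (V → Fin n)} (hR : Exact M R) :
    ∀ (d : ℕ) (τ : Finset V) (η : V → Fin n), M.r - M.rk τ = d → (sub R τ η).card ≤ n ^ d := by
  intro d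
  induction d with
  | zero =>
    intro τ η hd
    have h1 : ∀ v, M.InCl τ v := by
      intro v
      by_contra hv
      have h2 := SubG_not M hv
      have h3 : M.rk (insert v τ) ≤ M.r := M.rk_mono (Finset.subset_univ _)
      omega
    rw [pow_zero, Finset.card_le_one]
    intro ρ hρ σ hσ
    rw [sub, Finset.mem_filter] at hρ hσ
    funext v
    exact hR τ v (h1 v) ρ hρ.1 σ hσ.1 fun u hu => (hρ.2 u hu).symm.trans (hσ.2 u hu)
  | succ d ih =>
    intro τ η hd
    have h1 : ∃ v, ¬ M.InCl τ v := by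
      by_contra hcon
      push Not at hcon
      have := SubG_univ M hcon
      omega
    obtain ⟨v, hv⟩ := h1
    have h2 := SubG_not M hv
    have hvτ : v ∉ τ := by
      intro h3
      apply hv
      show M.rk (insert v τ) = M.rk τ
      rw [Finset.insert_eq_of_mem h3]
    have h3 : sub R τ η ⊆ (Finset.univ : Finset (Fin n)).biUnion fun x =>
        sub R (insert v τ) (Function.update η v x) := by
      intro ρ hρ
      rw [sub, Finset.mem_filter] at hρ
      rw [Finset.mem_biUnion]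
      refine ⟨ρ v, Finset.mem_univ _, ?_⟩
      rw [sub, Finset.mem_filter]
      refine ⟨hρ.1, fun u hu => ?_⟩
      rcases Finset.mem_insert.mp hu with rfl | hu
      · rw [Function.update_self]
      · have h4 : u ≠ v := fun h5 => hvτ (h5 ▸ hu)
        rw [Function.update_of_ne h4]
        exact hρ.2 u hu
    refine (Finset.card_le_card h3).trans ?_
    refine (Finset.card_biUnion_le_card_mul _ _ (n ^ d) fun x _ => ih _ _ (by omega)).trans ?_
    rw [Finset.card_univ, Fintype.card_fin, pow_succ, mul_comm]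

/-- a generic member of the linear part -/
theorem SubG_gen {Lin : Finset V} (hL : LinPart M Lin) (A B : Finset V) (hA : M.rk A ≤ 3) (hB : M.rk B ≤ 3) :
    ∃ w ∈ Lin, ¬ M.InCl A w ∧ ¬ M.InCl B w := by
  classical
  by_contra hcon
  push Not at hcon
  have h1 : Lin ⊆ (Lin.filter fun w => M.InCl A w) ∪ (Lin.filter fun w => M.InCl B w) := by
    intro w hw
    rw [Finset.mem_union, Finset.mem_filter, Finset.mem_filter]
    by_cases h2 : M.InCl A w
    · exact Or.inl ⟨hw, h2⟩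
    · exact Or.inr ⟨hw, hcon w hw h2⟩
  have h2 := (Finset.card_le_card h1).trans (Finset.card_union_le _ _)
  have h3 := hL.small A (Lin.filter fun w => M.InCl A w) fun v hv => Finset.mem_filter.mp hv
  have h4 := hL.small B (Lin.filter fun w => M.InCl B w) fun v hv => Finset.mem_filter.mp hv
  have h5 : 2 ^ M.rk A ≤ 2 ^ 3 := Nat.pow_le_pow_right (by norm_num) hA
  have h6 : 2 ^ M.rk B ≤ 2 ^ 3 := Nat.pow_le_pow_right (by norm_num) hB
  have h7 := hL.card
  norm_num at h5 h6 h7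
  omega

end

/-! ### the values of the letters -/

section

variable {N : Type} [AddCommGroup N] [Fintype N] [DecidableEq N] {M : Mat N} {n T m : ℕ}
  {R S : Finset (N → Fin n)} {U : Type} [AddCommGroup U] [Fintype U] [DecidableEq U] {π : N → Fin n → U}

/-- the value of the role `v` in the row `ρ` -/
def wv (π : N → Fin n → U) (β : Fin m → N → N) (ρ : N → Fin n) (v : N) : Fin m → U :=
  fun i => π (β i v) (ρ (β i v))

open Classical in
/-- the value of a letter of the sub-structure -/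
noncomputable def vl (R : Finset (N → Fin n)) (π : N → Fin n → U) (β : Fin m → N → N) (τ : Finset N)
    (η : N → Fin n) (v : N) (x : Fin n) : Fin m → U :=
  if h : ∃ ρ ∈ sub R τ η, ρ v = x then wv π β h.choose v else 0

omit [Fintype U] [DecidableEq U] in
theorem vl_eq (hR : Exact M R) (β : Fin m → N → N) (τ : Finset N) (η : N → Fin n) (v : N)
    (hv : ∀ i, M.InCl (insert v τ) (β i v)) {ρ : N → Fin n} (hρ : ρ ∈ sub R τ η) :
    vl R π β τ η v (ρ v) = wv π β ρ v := by
  have h : ∃ σ ∈ sub R τ η, σ v = ρ v := ⟨ρ, hρ, rfl⟩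
  rw [vl, dif_pos h]
  obtain ⟨h1, h2⟩ := h.choose_spec
  set σ := h.choose
  rw [sub, Finset.mem_filter] at h1 hρ
  funext i
  show π (β i v) (σ (β i v)) = π (β i v) (ρ (β i v))
  rw [hR (insert v τ) (β i v) (hv i) σ h1.1 ρ hρ.1 fun u hu => ?_]
  rcases Finset.mem_insert.mp hu with rfl | hu
  · exact h2
  · exact (h1.2 u hu).symm.trans (hρ.2 u hu)

theorem wv_add (hE : EMOut M n T R S U π) (β : Fin m → N → N) {u v : N}
    (h : ∀ i, β i (u + v) = β i u + β i v) {ρ : N → Fin n} (hρ : ρ ∈ R) :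
    wv π β ρ (u + v) = wv π β ρ u + wv π β ρ v := by
  funext i
  show π (β i (u + v)) (ρ (β i (u + v))) = π (β i u) (ρ (β i u)) + π (β i v) (ρ (β i v))
  rw [h i]
  exact hE.add ρ hρ _ _

/-- the fibres of the value map -/
theorem vl_fib (hE : EMOut M n T R S U π) (β : Fin (m + 1) → N → N) (hβ0 : ∀ v, β 0 v = v) (τ : Finset N)
    (η : N → Fin n) (v : N) (hv0 : v ≠ 0) (hv : ∀ i, M.InCl (insert v τ) (β i v)) (g : Fin (m + 1) → U)
    (A : Finset (Fin n)) (hA : ∀ x ∈ A, (∃ ρ ∈ sub R τ η, ρ v = x) ∧ vl R π β τ η v x = g) : A.card ≤ T := by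
  classical
  refine le_trans (Finset.card_le_card ?_) (hE.fib v (g 0) hv0)
  intro x hx
  obtain ⟨⟨ρ, hρ, rfl⟩, h1⟩ := hA x hx
  rw [Finset.mem_filter]
  refine ⟨Finset.mem_univ _, ⟨ρ, (Finset.mem_filter.mp hρ).1, rfl⟩, ?_⟩
  rw [vl_eq hE.exact β τ η v hv hρ] at h1
  have h2 := congrFun h1 0
  have h3 : wv π β ρ v 0 = π (β 0 v) (ρ (β 0 v)) := rfl
  rw [h3, hβ0] at h2
  exact h2

/-- the values of the role `v` on the cleaned rows -/
noncomputable def Pv (π : N → Fin n → U) (β : Fin m → N → N) (S : Finset (N → Fin n)) (τ : Finset N)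
    (η : N → Fin n) (v : N) : Finset (Fin m → U) := (sub S τ η).image fun ρ => wv π β ρ v

omit [AddCommGroup N] [AddCommGroup U] [Fintype U] in
theorem mem_Pv {β : Fin m → N → N} {τ : Finset N} {η : N → Fin n} {v : N} {p : Fin m → U} :
    p ∈ Pv π β S τ η v ↔ ∃ ρ ∈ sub S τ η, wv π β ρ v = p := Finset.mem_image

omit [Fintype U] in
theorem Qv_card (hR : Exact M R) (β : Fin m → N → N) (τ : Finset N) (η : N → Fin n) (v : N)
    (hv : ∀ i, M.InCl (insert v τ) (β i v)) : (Pv π β R τ η v).card ≤ n := by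
  classical
  have h1 : Pv π β R τ η v ⊆ Finset.univ.image (vl R π β τ η v) := by
    intro p hp
    obtain ⟨ρ, hρ, rfl⟩ := mem_Pv.mp hp
    rw [Finset.mem_image]
    exact ⟨ρ v, Finset.mem_univ _, vl_eq hR β τ η v hv hρ⟩
  refine (Finset.card_le_card h1).trans (Finset.card_image_le.trans ?_)
  rw [Finset.card_univ, Fintype.card_fin]

/-- joint cleaning in natural numbers -/
theorem jc_nat (hE : EMOut M n T R S U π) : S ⊆ R ∧ ∀ (τ : Finset N), ∀ η ∈ S,
    n ^ (M.r - M.rk τ) ≤ T * (sub S τ η).card ∧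
    ∀ a b : N, M.Ind τ a b → ∀ η₁ ∈ sub S τ η, ∀ η₂ ∈ sub S τ η,
      n ^ 3 ≤ T * ((univ : Finset (Fin n × Fin n × Fin n)).filter (fun t =>
        (∃ ρ ∈ sub R τ η, ρ a = η₁ a ∧ ρ b = t.1) ∧ (∃ ρ ∈ sub R τ η, ρ a = t.2.1 ∧ ρ b = t.1) ∧
        (∃ ρ ∈ sub R τ η, ρ a = t.2.1 ∧ ρ b = t.2.2) ∧
        (∃ ρ ∈ sub R τ η, ρ a = η₂ a ∧ ρ b = t.2.2))).card := by
  obtain ⟨κ, hκ, hSR, -, h⟩ := hE.jc
  have key : ∀ (e c : ℕ), κ * (n : ℝ) ^ e ≤ (c : ℝ) → n ^ e ≤ T * c := by
    intro e c h1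
    have h2 : (n : ℝ) ^ e ≤ T * c := by
      calc (n : ℝ) ^ e = 1 * (n : ℝ) ^ e := (one_mul _).symm
        _ ≤ (κ * T) * (n : ℝ) ^ e := mul_le_mul_of_nonneg_right hκ (by positivity)
        _ = T * (κ * (n : ℝ) ^ e) := by ring
        _ ≤ T * c := mul_le_mul_of_nonneg_left h1 (by positivity)
    exact_mod_cast h2
  refine ⟨hSR, fun τ η hη => ?_⟩
  obtain ⟨h1, h2⟩ := h τ (Finset.mem_univ _) η hη
  exact ⟨key _ _ h1, fun a b hab η₁ h3 η₂ h4 => key _ _ (h2 a b hab η₁ h3 η₂ h4)⟩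

/-- many tuples of letters -/
theorem img_card (hE : EMOut M n T R S U π) (hn : 0 < n) (τ B : Finset N) (e : ℕ)
    (hB : M.rk (B ∪ τ) = M.rk τ + e) {γ : Type*} [DecidableEq γ] (f : (N → Fin n) → γ)
    (hf : ∀ ρ σ, f ρ = f σ → ∀ u ∈ B, ρ u = σ u) {η : N → Fin n} (hη : η ∈ S) :
    n ^ e ≤ T * ((sub S τ η).image f).card := by
  obtain ⟨hSR, h⟩ := jc_nat hE
  have h1 := (h τ η hη).1
  have h2 : M.rk (B ∪ τ) ≤ M.r := M.rk_mono (Finset.subset_univ _)
  have h3 : M.r - M.rk τ = (M.r - M.rk (B ∪ τ)) + e := by omega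
  have h4 : (sub S τ η).card ≤ n ^ (M.r - M.rk (B ∪ τ)) * ((sub S τ η).image f).card := by
    refine Finset.card_le_mul_card_image _ _ fun g hg => ?_
    obtain ⟨σ, hσ, rfl⟩ := Finset.mem_image.mp hg
    refine le_trans (Finset.card_le_card ?_) (SubG_card M hE.exact _ (B ∪ τ) σ rfl)
    intro ρ hρ
    obtain ⟨h5, h6⟩ := Finset.mem_filter.mp hρ
    rw [sub, Finset.mem_filter] at h5 hσ ⊢
    refine ⟨hSR h5.1, fun u hu => ?_⟩
    rcases Finset.mem_union.mp hu with hu | hu
    · exact (hf ρ σ h6 u hu).symm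
    · exact (hσ.2 u hu).symm.trans (h5.2 u hu)
  have h5 : n ^ (M.r - M.rk (B ∪ τ)) * n ^ e ≤
      n ^ (M.r - M.rk (B ∪ τ)) * (T * ((sub S τ η).image f).card) := by
    calc n ^ (M.r - M.rk (B ∪ τ)) * n ^ e = n ^ (M.r - M.rk τ) := by rw [h3, pow_add]
      _ ≤ T * (sub S τ η).card := h1
      _ ≤ T * (n ^ (M.r - M.rk (B ∪ τ)) * ((sub S τ η).image f).card) := Nat.mul_le_mul_left _ h4
      _ = _ := by ring
  exact Nat.le_of_mul_le_mul_left h5 (Nat.pow_pos hn)

/-- the hypotheses on the role maps -/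
structure SubH (M : Mat N) (Lin L τ : Finset N) (β : Fin (m + 1) → N → N) : Prop where
  rkτ : M.rk τ ≤ 2
  LinL : Lin ⊆ L
  add : ∀ u ∈ L, ∀ v ∈ L, u + v ∈ L
  β0 : ∀ v, β 0 v = v
  badd : ∀ i, ∀ u ∈ L, ∀ v ∈ L, β i (u + v) = β i u + β i v
  bcl : ∀ i, ∀ v ∈ L, M.InCl (insert v τ) (β i v)

theorem Ind_l {τ : Finset N} {a b : N} (h : M.Ind τ a b) : ¬ M.InCl τ a := by
  intro h1
  have h2 := SubG_mono M (Finset.subset_insert b τ) h1
  have h3 := M.rk_insert_le b τ
  have h4 : M.rk (insert a (insert b τ)) = M.rk τ + 2 := h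
  have h5 : M.rk (insert a (insert b τ)) = M.rk (insert b τ) := h2
  omega

theorem Ind_r {τ : Finset N} {a b : N} (h : M.Ind τ a b) : ¬ M.InCl τ b := by
  intro h1
  have h3 := M.rk_insert_le a (insert b τ)
  have h4 : M.rk (insert a (insert b τ)) = M.rk τ + 2 := h
  have h5 : M.rk (insert b τ) = M.rk τ := h1
  omega

theorem ne_zero_of {τ : Finset N} {a : N} (h : ¬ M.InCl τ a) : a ≠ 0 := by
  rintro rfl
  exact h (SubG_zero M τ)

theorem P_card (hE : EMOut M n T R S U π) (hn : 0 < n) {Lin L τ : Finset N} {β : Fin (m + 1) → N → N}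
    (hH : SubH M Lin L τ β) {η : N → Fin n} (hη : η ∈ S) {v : N} (hv : v ∈ L) (hvτ : ¬ M.InCl τ v) :
    n ≤ T ^ 2 * (Pv π β S τ η v).card := by
  classical
  obtain ⟨hSR, -⟩ := jc_nat hE
  have h1 := img_card hE hn τ {v} 1 (SubG_not M hvτ) (fun ρ => ρ v)
    (fun ρ σ h u hu => by rw [Finset.mem_singleton] at hu; rw [hu]; exact h) hη
  have h2 : ((sub S τ η).image fun ρ => ρ v).card ≤
      T * (((sub S τ η).image fun ρ => ρ v).image (vl R π β τ η v)).card := by
    refine Finset.card_le_mul_card_image _ _ fun g _ => ?_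
    refine vl_fib hE β hH.β0 τ η v (ne_zero_of hvτ) (fun i => hH.bcl i v hv) g _ fun x hx => ?_
    obtain ⟨h3, h4⟩ := Finset.mem_filter.mp hx
    obtain ⟨ρ, hρ, rfl⟩ := Finset.mem_image.mp h3
    rw [sub, Finset.mem_filter] at hρ
    exact ⟨⟨ρ, Finset.mem_filter.mpr ⟨hSR hρ.1, hρ.2⟩, rfl⟩, h4⟩
  have h3 : ((sub S τ η).image fun ρ => ρ v).image (vl R π β τ η v) = Pv π β S τ η v := by
    rw [Finset.image_image, Pv]
    refine Finset.image_congr fun ρ hρ => ?_
    have hρ' : ρ ∈ sub R τ η := by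
      rw [Finset.mem_coe, sub, Finset.mem_filter] at hρ
      exact Finset.mem_filter.mpr ⟨hSR hρ.1, hρ.2⟩
    exact vl_eq hE.exact β τ η v (fun i => hH.bcl i v hv) hρ'
  rw [h3] at h2
  rw [pow_one] at h1
  calc n ≤ T * ((sub S τ η).image fun ρ => ρ v).card := h1
    _ ≤ T * (T * (Pv π β S τ η v).card) := Nat.mul_le_mul_left _ h2
    _ = _ := by ring

theorem E_card (hE : EMOut M n T R S U π) (hn : 0 < n) {Lin L τ : Finset N} {β : Fin (m + 1) → N → N}
    (hH : SubH M Lin L τ β) {η : N → Fin n} (hη : η ∈ S) {a b : N} (ha : a ∈ L) (hb : b ∈ L)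
    (hab : M.Ind τ a b) :
    n ^ 2 ≤ T ^ 3 * ((sub S τ η).image fun ρ => (wv π β ρ a, wv π β ρ b)).card := by
  classical
  obtain ⟨hSR, -⟩ := jc_nat hE
  have hrk : M.rk ({a, b} ∪ τ) = M.rk τ + 2 := by
    rw [Finset.insert_union, Finset.singleton_union]
    exact hab
  have h1 := img_card hE hn τ {a, b} 2 hrk (fun ρ => (ρ a, ρ b))
    (fun ρ σ h u hu => by
      rw [Finset.mem_insert, Finset.mem_singleton] at hu
      rcases hu with rfl | rfl
      · exact congrArg Prod.fst h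
      · exact congrArg Prod.snd h) hη
  let Ψ : Fin n × Fin n → (Fin (m + 1) → U) × (Fin (m + 1) → U) :=
    fun x => (vl R π β τ η a x.1, vl R π β τ η b x.2)
  have h2 : ((sub S τ η).image fun ρ => (ρ a, ρ b)).card ≤
      T * T * (((sub S τ η).image fun ρ => (ρ a, ρ b)).image Ψ).card := by
    refine Finset.card_le_mul_card_image _ _ fun g _ => ?_
    let A1 : Finset (Fin n) := Finset.univ.filter fun x => (∃ ρ ∈ sub R τ η, ρ a = x) ∧ vl R π β τ η a x = g.1
    let A2 : Finset (Fin n) := Finset.univ.filter fun x => (∃ ρ ∈ sub R τ η, ρ b = x) ∧ vl R π β τ η b x = g.2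
    have h3 : A1.card ≤ T := vl_fib hE β hH.β0 τ η a (ne_zero_of (Ind_l hab)) (fun i => hH.bcl i a ha) g.1 A1
      fun x hx => (Finset.mem_filter.mp hx).2
    have h4 : A2.card ≤ T := vl_fib hE β hH.β0 τ η b (ne_zero_of (Ind_r hab)) (fun i => hH.bcl i b hb) g.2 A2
      fun x hx => (Finset.mem_filter.mp hx).2
    refine le_trans (Finset.card_le_card (t := A1 ×ˢ A2) ?_) ?_
    · intro x hx
      obtain ⟨h5, h6⟩ := Finset.mem_filter.mp hx
      obtain ⟨ρ, hρ, rfl⟩ := Finset.mem_image.mp h5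
      rw [sub, Finset.mem_filter] at hρ
      have hρ' : ρ ∈ sub R τ η := Finset.mem_filter.mpr ⟨hSR hρ.1, hρ.2⟩
      rw [Finset.mem_product]
      refine ⟨Finset.mem_filter.mpr ⟨Finset.mem_univ _, ⟨ρ, hρ', rfl⟩, ?_⟩,
        Finset.mem_filter.mpr ⟨Finset.mem_univ _, ⟨ρ, hρ', rfl⟩, ?_⟩⟩
      · exact congrArg Prod.fst h6
      · exact congrArg Prod.snd h6
    · rw [Finset.card_product]
      exact Nat.mul_le_mul h3 h4
  have h3 : ((sub S τ η).image fun ρ => (ρ a, ρ b)).image Ψ =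
      (sub S τ η).image fun ρ => (wv π β ρ a, wv π β ρ b) := by
    rw [Finset.image_image]
    refine Finset.image_congr fun ρ hρ => ?_
    have hρ' : ρ ∈ sub R τ η := by
      rw [Finset.mem_coe, sub, Finset.mem_filter] at hρ
      exact Finset.mem_filter.mpr ⟨hSR hρ.1, hρ.2⟩
    show (vl R π β τ η a (ρ a), vl R π β τ η b (ρ b)) = (wv π β ρ a, wv π β ρ b)
    rw [vl_eq hE.exact β τ η a (fun i => hH.bcl i a ha) hρ', vl_eq hE.exact β τ η b (fun i => hH.bcl i b hb) hρ']
  rw [h3] at h2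
  calc n ^ 2 ≤ T * ((sub S τ η).image fun ρ => (ρ a, ρ b)).card := h1
    _ ≤ T * (T * T * ((sub S τ η).image fun ρ => (wv π β ρ a, wv π β ρ b)).card) := Nat.mul_le_mul_left _ h2
    _ = _ := by ring

/-- (a): two letters of one role -/
theorem sum_same (hE : EMOut M n T R S U π) (hn : 0 < n) {Lin L τ : Finset N} {β : Fin (m + 1) → N → N}
    (hH : SubH M Lin L τ β) {η : N → Fin n} (hη : η ∈ S) {a b : N} (ha : a ∈ L) (hb : b ∈ L)
    (hab : M.Ind τ a b) : (Pv π β S τ η a + Pv π β S τ η a).card ≤ T ^ 4 * n := by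
  classical
  obtain ⟨hSR, hJ⟩ := jc_nat hE
  have two' : ∀ g : Fin (m + 1) → U, g + g = 0 := fun g => funext fun i => hE.two (g i)
  let Q := Pv π β R τ η (a + b)
  have hQ : Q.card ≤ n := Qv_card hE.exact β τ η (a + b) fun i => hH.bcl i _ (hH.add a ha b hb)
  let C := Q ×ˢ Q ×ˢ Q
  let g : (Fin (m + 1) → U) × (Fin (m + 1) → U) × (Fin (m + 1) → U) → (Fin (m + 1) → U) :=
    fun c => c.1 + c.2.1 + c.2.2
  have hadd : ∀ ρ ∈ sub R τ η, vl R π β τ η a (ρ a) + vl R π β τ η b (ρ b) ∈ Q := by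
    intro ρ hρ
    rw [vl_eq hE.exact β τ η a (fun i => hH.bcl i a ha) hρ, vl_eq hE.exact β τ η b (fun i => hH.bcl i b hb) hρ,
      ← wv_add hE β (fun i => hH.badd i a ha b hb) (Finset.mem_filter.mp hρ).1]
    exact mem_Pv.mpr ⟨ρ, hρ, rfl⟩
  have hcount := count_sums (Pv π β S τ η a + Pv π β S τ η a) C g Q (n ^ 3) (T ^ 4) (by
    intro s hs
    obtain ⟨p, hp, p', hp', rfl⟩ := Finset.mem_add.mp hs
    obtain ⟨η₁, hη₁, rfl⟩ := mem_Pv.mp hp
    obtain ⟨η₂, hη₂, rfl⟩ := mem_Pv.mp hp'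
    have hj := (hJ τ η hη).2 a b hab η₁ hη₁ η₂ hη₂
    have hη₁R : η₁ ∈ sub R τ η := by
      rw [sub, Finset.mem_filter] at hη₁ ⊢
      exact ⟨hSR hη₁.1, hη₁.2⟩
    have hη₂R : η₂ ∈ sub R τ η := by
      rw [sub, Finset.mem_filter] at hη₂ ⊢
      exact ⟨hSR hη₂.1, hη₂.2⟩
    have hp1 : vl R π β τ η a (η₁ a) = wv π β η₁ a := vl_eq hE.exact β τ η a (fun i => hH.bcl i a ha) hη₁R
    have hp2 : vl R π β τ η a (η₂ a) = wv π β η₂ a := vl_eq hE.exact β τ η a (fun i => hH.bcl i a ha) hη₂R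
    rw [← hp1, ← hp2]
    set p := vl R π β τ η a (η₁ a)
    set p' := vl R π β τ η a (η₂ a)
    set F := ((univ : Finset (Fin n × Fin n × Fin n)).filter (fun t =>
        (∃ ρ ∈ sub R τ η, ρ a = η₁ a ∧ ρ b = t.1) ∧ (∃ ρ ∈ sub R τ η, ρ a = t.2.1 ∧ ρ b = t.1) ∧
        (∃ ρ ∈ sub R τ η, ρ a = t.2.1 ∧ ρ b = t.2.2) ∧
        (∃ ρ ∈ sub R τ η, ρ a = η₂ a ∧ ρ b = t.2.2))) with hF
    let Φ : Fin n × Fin n × Fin n → (Fin (m + 1) → U) × (Fin (m + 1) → U) × (Fin (m + 1) → U) := fun t =>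
      (p + vl R π β τ η b t.1, vl R π β τ η a t.2.1 + vl R π β τ η b t.1,
        vl R π β τ η a t.2.1 + vl R π β τ η b t.2.2)
    have h1 : F.card ≤ T * (T * T) * (F.image Φ).card := by
      refine Finset.card_le_mul_card_image _ _ fun c _ => ?_
      let A1 : Finset (Fin n) := Finset.univ.filter fun x =>
        (∃ ρ ∈ sub R τ η, ρ b = x) ∧ vl R π β τ η b x = c.1 - p
      let A2 : Finset (Fin n) := Finset.univ.filter fun x =>
        (∃ ρ ∈ sub R τ η, ρ a = x) ∧ vl R π β τ η a x = c.2.1 - (c.1 - p)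
      let A3 : Finset (Fin n) := Finset.univ.filter fun x =>
        (∃ ρ ∈ sub R τ η, ρ b = x) ∧ vl R π β τ η b x = c.2.2 - (c.2.1 - (c.1 - p))
      have h3 : A1.card ≤ T := vl_fib hE β hH.β0 τ η b (ne_zero_of (Ind_r hab)) (fun i => hH.bcl i b hb) _ A1
        fun x hx => (Finset.mem_filter.mp hx).2
      have h4 : A2.card ≤ T := vl_fib hE β hH.β0 τ η a (ne_zero_of (Ind_l hab)) (fun i => hH.bcl i a ha) _ A2
        fun x hx => (Finset.mem_filter.mp hx).2
      have h5 : A3.card ≤ T := vl_fib hE β hH.β0 τ η b (ne_zero_of (Ind_r hab)) (fun i => hH.bcl i b hb) _ A3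
        fun x hx => (Finset.mem_filter.mp hx).2
      refine le_trans (Finset.card_le_card (t := A1 ×ˢ A2 ×ˢ A3) ?_) ?_
      · intro t ht
        obtain ⟨h6, h7⟩ := Finset.mem_filter.mp ht
        rw [hF, Finset.mem_filter] at h6
        obtain ⟨-, ⟨ρ1, hρ1, e1, f1⟩, ⟨ρ2, hρ2, e2, f2⟩, ⟨ρ3, hρ3, e3, f3⟩, -⟩ := h6
        have k1 : p + vl R π β τ η b t.1 = c.1 := congrArg Prod.fst h7
        have k2 : vl R π β τ η a t.2.1 + vl R π β τ η b t.1 = c.2.1 :=
          congrArg (fun x : (Fin (m + 1) → U) × (Fin (m + 1) → U) × (Fin (m + 1) → U) => x.2.1) h7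
        have k3 : vl R π β τ η a t.2.1 + vl R π β τ η b t.2.2 = c.2.2 :=
          congrArg (fun x : (Fin (m + 1) → U) × (Fin (m + 1) → U) × (Fin (m + 1) → U) => x.2.2) h7
        have k1' : vl R π β τ η b t.1 = c.1 - p := by rw [← k1]; abel
        have k2' : vl R π β τ η a t.2.1 = c.2.1 - (c.1 - p) := by rw [← k2, ← k1]; abel
        have k3' : vl R π β τ η b t.2.2 = c.2.2 - (c.2.1 - (c.1 - p)) := by rw [← k3, ← k2, ← k1]; abel
        rw [Finset.mem_product, Finset.mem_product]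
        exact ⟨Finset.mem_filter.mpr ⟨Finset.mem_univ _, ⟨ρ1, hρ1, f1⟩, k1'⟩,
          Finset.mem_filter.mpr ⟨Finset.mem_univ _, ⟨ρ2, hρ2, e2⟩, k2'⟩,
          Finset.mem_filter.mpr ⟨Finset.mem_univ _, ⟨ρ3, hρ3, f3⟩, k3'⟩⟩
      · rw [Finset.card_product, Finset.card_product]
        exact Nat.mul_le_mul h3 (Nat.mul_le_mul h4 h5)
    have h2 : F.image Φ ⊆ C.filter fun c => g c + (p + p') ∈ Q := by
      intro c hc
      obtain ⟨t, ht, rfl⟩ := Finset.mem_image.mp hc
      rw [hF, Finset.mem_filter] at ht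
      obtain ⟨-, ⟨ρ1, hρ1, e1, f1⟩, ⟨ρ2, hρ2, e2, f2⟩, ⟨ρ3, hρ3, e3, f3⟩, ⟨ρ4, hρ4, e4, f4⟩⟩ := ht
      have q1 := hadd ρ1 hρ1
      have q2 := hadd ρ2 hρ2
      have q3 := hadd ρ3 hρ3
      have q4 := hadd ρ4 hρ4
      rw [e1, f1] at q1
      rw [e2, f2] at q2
      rw [e3, f3] at q3
      rw [e4, f4] at q4
      rw [Finset.mem_filter]
      refine ⟨Finset.mem_product.mpr ⟨q1, Finset.mem_product.mpr ⟨q2, q3⟩⟩, ?_⟩
      have h5 : g (Φ t) + (p + p') = p' + vl R π β τ η b t.2.2 := by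
        show p + vl R π β τ η b t.1 + (vl R π β τ η a t.2.1 + vl R π β τ η b t.1) +
          (vl R π β τ η a t.2.1 + vl R π β τ η b t.2.2) + (p + p') = p' + vl R π β τ η b t.2.2
        have h6 : p + vl R π β τ η b t.1 + (vl R π β τ η a t.2.1 + vl R π β τ η b t.1) +
          (vl R π β τ η a t.2.1 + vl R π β τ η b t.2.2) + (p + p') =
          (p + p) + (vl R π β τ η b t.1 + vl R π β τ η b t.1) + (vl R π β τ η a t.2.1 + vl R π β τ η a t.2.1) +
          (p' + vl R π β τ η b t.2.2) := by abel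
        rw [h6, two' p, two' (vl R π β τ η b t.1), two' (vl R π β τ η a t.2.1), zero_add, zero_add, zero_add]
      rw [h5]
      exact q4
    calc n ^ 3 ≤ T * F.card := hj
      _ ≤ T * (T * (T * T) * (F.image Φ).card) := Nat.mul_le_mul_left _ h1
      _ ≤ T * (T * (T * T) * (C.filter fun c => g c + (p + p') ∈ Q).card) :=
        Nat.mul_le_mul_left _ (Nat.mul_le_mul_left _ (Finset.card_le_card h2))
      _ = _ := by ring)
  have hC : C.card = Q.card * (Q.card * Q.card) := by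
    rw [Finset.card_product, Finset.card_product]
  have h7 : n ^ 3 * (Pv π β S τ η a + Pv π β S τ η a).card ≤ n ^ 3 * (T ^ 4 * n) := by
    calc n ^ 3 * (Pv π β S τ η a + Pv π β S τ η a).card
        = (Pv π β S τ η a + Pv π β S τ η a).card * n ^ 3 := mul_comm _ _
      _ ≤ T ^ 4 * (C.card * Q.card) := hcount
      _ ≤ T ^ 4 * (n * (n * n) * n) := by
          rw [hC]
          gcongr
      _ = _ := by ring
  exact Nat.le_of_mul_le_mul_left h7 (Nat.pow_pos hn)

/-- (b): two letters of independent roles -/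
theorem sum_ind (hE : EMOut M n T R S U π) (hn : 0 < n) {Lin L τ : Finset N} {β : Fin (m + 1) → N → N}
    (hH : SubH M Lin L τ β) {η : N → Fin n} (hη : η ∈ S) {a b : N} (ha : a ∈ L) (hb : b ∈ L)
    (hab : M.Ind τ a b) : (Pv π β S τ η a + Pv π β S τ η b).card ≤ T ^ 11 * n := by
  classical
  obtain ⟨hSR, hJ⟩ := jc_nat hE
  have two' : ∀ g : Fin (m + 1) → U, g + g = 0 := fun g => funext fun i => hE.two (g i)
  have hba : M.Ind τ b a := by
    show M.rk (insert b (insert a τ)) = M.rk τ + 2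
    rw [Finset.insert_comm]
    exact hab
  have haa := sum_same hE hn hH hη ha hb hab
  have hbb := sum_same hE hn hH hη hb ha hba
  have hEc := E_card hE hn hH hη ha hb hab
  set E := (sub S τ η).image fun ρ => (wv π β ρ a, wv π β ρ b) with hEdef
  let Q := Pv π β R τ η (a + b)
  have hQ : Q.card ≤ n := Qv_card hE.exact β τ η (a + b) fun i => hH.bcl i _ (hH.add a ha b hb)
  let C := (Pv π β S τ η a + Pv π β S τ η a) ×ˢ (Pv π β S τ η b + Pv π β S τ η b)
  let g : (Fin (m + 1) → U) × (Fin (m + 1) → U) → (Fin (m + 1) → U) := fun c => c.1 + c.2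
  have hcount := count_sums (Pv π β S τ η a + Pv π β S τ η b) C g Q E.card 1 (by
    intro s hs
    obtain ⟨p, hp, p', hp', rfl⟩ := Finset.mem_add.mp hs
    rw [one_mul]
    refine Finset.card_le_card_of_injOn (fun q => (p + q.1, p' + q.2)) (fun q hq => ?_)
      (fun q _ q' _ h => ?_)
    · rw [Finset.mem_coe, hEdef, Finset.mem_image] at hq
      obtain ⟨ρ, hρ, rfl⟩ := hq
      have hρ' : ρ ∈ sub R τ η := by
        rw [sub, Finset.mem_filter] at hρ ⊢
        exact ⟨hSR hρ.1, hρ.2⟩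
      rw [Finset.mem_coe, Finset.mem_filter]
      refine ⟨Finset.mem_product.mpr ⟨Finset.add_mem_add hp (mem_Pv.mpr ⟨ρ, hρ, rfl⟩),
        Finset.add_mem_add hp' (mem_Pv.mpr ⟨ρ, hρ, rfl⟩)⟩, ?_⟩
      have h5 : p + wv π β ρ a + (p' + wv π β ρ b) + (p + p') = wv π β ρ (a + b) := by
        rw [wv_add hE β (fun i => hH.badd i a ha b hb) (Finset.mem_filter.mp hρ').1]
        have h6 : p + wv π β ρ a + (p' + wv π β ρ b) + (p + p') =
          (p + p) + (p' + p') + (wv π β ρ a + wv π β ρ b) := by abel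
        rw [h6, two' p, two' p', zero_add, zero_add]
      show p + wv π β ρ a + (p' + wv π β ρ b) + (p + p') ∈ Q
      rw [h5]
      exact mem_Pv.mpr ⟨ρ, hρ', rfl⟩
    · have h1 := congrArg Prod.fst h
      have h2 := congrArg Prod.snd h
      exact Prod.ext (add_left_cancel h1) (add_left_cancel h2))
  have hC : C.card ≤ (T ^ 4 * n) * (T ^ 4 * n) := by
    rw [Finset.card_product]
    exact Nat.mul_le_mul haa hbb
  have h7 : n ^ 2 * (Pv π β S τ η a + Pv π β S τ η b).card ≤ n ^ 2 * (T ^ 11 * n) := by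
    calc n ^ 2 * (Pv π β S τ η a + Pv π β S τ η b).card
        ≤ T ^ 3 * E.card * (Pv π β S τ η a + Pv π β S τ η b).card := Nat.mul_le_mul_right _ hEc
      _ = T ^ 3 * ((Pv π β S τ η a + Pv π β S τ η b).card * E.card) := by ring
      _ ≤ T ^ 3 * (1 * (C.card * Q.card)) := Nat.mul_le_mul_left _ hcount
      _ ≤ T ^ 3 * (1 * ((T ^ 4 * n) * (T ^ 4 * n) * n)) := by gcongr
      _ = _ := by ring
  exact Nat.le_of_mul_le_mul_left h7 (Nat.pow_pos hn)

/-- (c): two letters of arbitrary roles -/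
theorem sum_any (hE : EMOut M n T R S U π) (hn : 0 < n) {Lin L τ : Finset N} {β : Fin (m + 1) → N → N}
    (hL : LinPart M Lin) (hH : SubH M Lin L τ β) {η : N → Fin n} (hη : η ∈ S) {a b : N} (ha : a ∈ L) (hb : b ∈ L)
    (haτ : ¬ M.InCl τ a) (hbτ : ¬ M.InCl τ b) : (Pv π β S τ η a + Pv π β S τ η b).card ≤ T ^ 24 * n := by
  have hr := hH.rkτ
  have h1 := M.rk_insert_le a τ
  have h2 := M.rk_insert_le b τ
  obtain ⟨w, hw, hwa, hwb⟩ := SubG_gen M hL (insert a τ) (insert b τ) (by omega) (by omega)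
  have hwL := hH.LinL hw
  have h3 := SubG_not M haτ
  have h4 := SubG_not M hbτ
  have h5 := SubG_not M hwa
  have h6 := SubG_not M hwb
  have haw : M.Ind τ a w := by
    show M.rk (insert a (insert w τ)) = M.rk τ + 2
    rw [Finset.insert_comm]
    omega
  have hwb' : M.Ind τ w b := by
    show M.rk (insert w (insert b τ)) = M.rk τ + 2
    omega
  have k1 := sum_ind hE hn hH hη ha hwL haw
  have k2 := sum_ind hE hn hH hη hwL hb hwb'
  have k3 := P_card hE hn hH hη hwL (Ind_r haw)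
  have k4 := Finset.ruzsa_triangle_inequality_add_add_add (Pv π β S τ η a) (Pv π β S τ η w) (Pv π β S τ η b)
  have k5 : n * (Pv π β S τ η a + Pv π β S τ η b).card ≤ n * (T ^ 24 * n) := by
    calc n * (Pv π β S τ η a + Pv π β S τ η b).card
        ≤ T ^ 2 * (Pv π β S τ η w).card * (Pv π β S τ η a + Pv π β S τ η b).card := Nat.mul_le_mul_right _ k3
      _ = T ^ 2 * ((Pv π β S τ η a + Pv π β S τ η b).card * (Pv π β S τ η w).card) := by ring
      _ ≤ T ^ 2 * ((Pv π β S τ η a + Pv π β S τ η w).card * (Pv π β S τ η w + Pv π β S τ η b).card) :=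
        Nat.mul_le_mul_left _ k4
      _ ≤ T ^ 2 * ((T ^ 11 * n) * (T ^ 11 * n)) := by gcongr
      _ = _ := by ring
  exact Nat.le_of_mul_le_mul_left k5 hn

/-- the union of the values of all roles of `L` outside the closure of `τ` -/
theorem union_card (hE : EMOut M n T R S U π) (hn : 0 < n) {Lin L τ : Finset N} {β : Fin (m + 1) → N → N}
    (hL : LinPart M Lin) (hH : SubH M Lin L τ β) {η : N → Fin n} (hη : η ∈ S) (A : Finset (Fin (m + 1) → U))
    (hA : ∀ p, p ∈ A ↔ ∃ v ∈ L, ¬ M.InCl τ v ∧ p ∈ Pv π β S τ η v) :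
    A.Nonempty ∧ (A + A).card ≤ Fintype.card N ^ 2 * T ^ 24 * n ∧
      (A + A).card ≤ (Fintype.card N ^ 2 * T ^ 26) * A.card := by
  classical
  have h1 : (A + A).card ≤ Fintype.card N ^ 2 * T ^ 24 * n := by
    have h2 : A + A ⊆ ((Finset.univ : Finset (N × N)).filter fun x => x.1 ∈ L ∧ x.2 ∈ L ∧ ¬ M.InCl τ x.1 ∧
        ¬ M.InCl τ x.2).biUnion fun x => Pv π β S τ η x.1 + Pv π β S τ η x.2 := by
      intro s hs
      obtain ⟨p, hp, q, hq, rfl⟩ := Finset.mem_add.mp hs
      obtain ⟨v, hv, hv', hp⟩ := (hA p).mp hp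
      obtain ⟨w, hw, hw', hq⟩ := (hA q).mp hq
      rw [Finset.mem_biUnion]
      exact ⟨(v, w), Finset.mem_filter.mpr ⟨Finset.mem_univ _, hv, hw, hv', hw'⟩, Finset.add_mem_add hp hq⟩
    refine (Finset.card_le_card h2).trans ((Finset.card_biUnion_le_card_mul _ _ (T ^ 24 * n) ?_).trans ?_)
    · intro x hx
      obtain ⟨-, h3, h4, h5, h6⟩ := Finset.mem_filter.mp hx
      exact sum_any hE hn hL hH hη h3 h4 h5 h6
    · have h3 : ((Finset.univ : Finset (N × N)).filter fun x => x.1 ∈ L ∧ x.2 ∈ L ∧ ¬ M.InCl τ x.1 ∧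
        ¬ M.InCl τ x.2).card ≤ Fintype.card N ^ 2 := by
        refine (Finset.card_filter_le _ _).trans ?_
        rw [Finset.card_univ, Fintype.card_prod, sq]
      calc _ ≤ Fintype.card N ^ 2 * (T ^ 24 * n) := Nat.mul_le_mul_right _ h3
        _ = _ := by ring
  have hr := hH.rkτ
  obtain ⟨w, hw, hwτ, -⟩ := SubG_gen M hL τ τ (by omega) (by omega)
  have h2 := P_card hE hn hH hη (hH.LinL hw) hwτ
  have h3 : Pv π β S τ η w ⊆ A := fun p hp => (hA p).mpr ⟨w, hH.LinL hw, hwτ, hp⟩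
  have h4 := Finset.card_le_card h3
  refine ⟨?_, h1, ?_⟩
  · rw [← Finset.card_pos]
    by_contra h5
    have h6 : (Pv π β S τ η w).card = 0 := by omega
    rw [h6, mul_zero] at h2
    omega
  · calc (A + A).card ≤ Fintype.card N ^ 2 * T ^ 24 * n := h1
      _ ≤ Fintype.card N ^ 2 * T ^ 24 * (T ^ 2 * A.card) :=
        Nat.mul_le_mul_left _ (h2.trans (Nat.mul_le_mul_left _ h4))
      _ = _ := by ring

end

end SubG

open SubG in
/-- **Lemma SUB** -/
theorem stmt_sub : StmtSub := by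
  intro N _ _ _ M Lin hL T k
  refine ⟨2 ^ ((Fintype.card N ^ 2 * T ^ 26) ^ 5 + 1) * (Fintype.card N ^ 2 * T ^ 24), ?_⟩
  intro n R S U _ _ _ π hE τ L α hτ hLin hadd hα hαcl η hη H hH
  classical
  have hn : 0 < n := by
    obtain ⟨κ, hκ, hSR, hκS, -⟩ := hE.jc
    by_contra hcon
    have h0 : n = 0 := by omega
    subst h0
    exact (η 0).elim0
  let β : Fin (k + 1) → N → N := Fin.cons id α
  have hβ0 : ∀ v, β 0 v = v := fun v => rfl
  have hβs : ∀ (i : Fin k) v, β i.succ v = α i v := fun i v => rfl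
  have hS : SubH M Lin L τ β :=
    { rkτ := hτ
      LinL := hLin
      add := hadd
      β0 := hβ0
      badd := fun i u hu v hv => by
        refine Fin.cases ?_ (fun j => ?_) i
        · rfl
        · exact hα j u hu v hv
      bcl := fun i v hv => by
        refine Fin.cases ?_ (fun j => ?_) i
        · show M.rk (insert v (insert v τ)) = M.rk (insert v τ)
          rw [Finset.insert_idem]
        · exact hαcl j v hv }
  let A : Finset (Fin (k + 1) → U) := (L.filter fun v => ¬ M.InCl τ v).biUnion fun v => Pv π β S τ η v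
  have hA : ∀ p, p ∈ A ↔ ∃ v ∈ L, ¬ M.InCl τ v ∧ p ∈ Pv π β S τ η v := by
    intro p
    rw [Finset.mem_biUnion]
    constructor
    · rintro ⟨v, hv, hp⟩
      obtain ⟨h1, h2⟩ := Finset.mem_filter.mp hv
      exact ⟨v, h1, h2, hp⟩
    · rintro ⟨v, h1, h2, hp⟩
      exact ⟨v, Finset.mem_filter.mpr ⟨h1, h2⟩, hp⟩
  obtain ⟨hne, h1, h2⟩ := union_card hE hn hL hS hη A hA
  have h3 := closure_card (fun g : Fin (k + 1) → U => funext fun i => hE.two (g i)) A hne _ h2
  let pr : (Fin (k + 1) → U) →+ (Fin k → U) :=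
    { toFun := fun f i => f i.succ
      map_zero' := rfl
      map_add' := fun _ _ => rfl }
  have h4 : H ≤ (AddSubgroup.closure (A : Set (Fin (k + 1) → U))).map pr := by
    rw [hH, AddSubgroup.closure_le]
    rintro w ⟨ρ, hρ, v, hv, hvτ, rfl⟩
    refine ⟨wv π β ρ v, AddSubgroup.subset_closure ?_, ?_⟩
    · exact (hA _).mpr ⟨v, hv, hvτ, mem_Pv.mpr ⟨ρ, hρ, rfl⟩⟩
    · rfl
  have h5 : Nat.card H ≤ Nat.card ((AddSubgroup.closure (A : Set (Fin (k + 1) → U))).map pr) :=
    AddSubgroup.card_le_of_le h4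
  have h6 : Nat.card ((AddSubgroup.closure (A : Set (Fin (k + 1) → U))).map pr) ≤
      Nat.card (AddSubgroup.closure (A : Set (Fin (k + 1) → U))) :=
    Nat.card_le_card_of_surjective _ (pr.addSubgroupMap_surjective _)
  calc Nat.card H ≤ 2 ^ ((Fintype.card N ^ 2 * T ^ 26) ^ 5 + 1) * (A + A).card := h5.trans (h6.trans h3)
    _ ≤ 2 ^ ((Fintype.card N ^ 2 * T ^ 26) ^ 5 + 1) * (Fintype.card N ^ 2 * T ^ 24 * n) :=
      Nat.mul_le_mul_left _ h1
    _ = _ := by ring

end Pool.Agent.MF
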